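import Mathlib
import Pool.Agent.H.MP_ceb9a9.Scv1

/-! Holomorphic functions of several variables are analytic. -/

set_option autoImplicit false

open scoped ContDiff Topology
open Set Filter

namespace Pool.Agent.Abd

/-- The iterated derivatives of a complex differentiable map are differentiable. -/
theorem anup_diff {E F : Type} [NormedAddCommGroup E] [NormedSpace ℂ E]
    [FiniteDimensional ℂ E] [NormedAddCommGroup F] [NormedSpace ℂ F] [CompleteSpace F]
    {f : E → F} {U : Set E} (hU : IsOpen U) (hf : DifferentiableOn ℂ f U) (n : ℕ) :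
    DifferentiableOn ℂ (iteratedFDeriv ℂ n f) U := by
  induction n with
  | zero =>
    rw [iteratedFDeriv_zero_eq_comp]
    exact (continuousMultilinearCurryFin0 ℂ E F).symm.toContinuousLinearEquiv.differentiable.comp_differentiableOn hf
  | succ n ih =>
    rw [iteratedFDeriv_succ_eq_comp_left]
    exact (continuousMultilinearCurryLeftEquiv ℂ (fun _ : Fin (n + 1) => E)
      F).symm.toContinuousLinearEquiv.differentiable.comp_differentiableOn
        (OkaP.differentiableOn_fderiv hU ih)

/-- Iterated Cauchy estimates. -/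
theorem anup_cauchy {E F : Type} [NormedAddCommGroup E] [NormedSpace ℂ E]
    [FiniteDimensional ℂ E] [NormedAddCommGroup F] [NormedSpace ℂ F] [CompleteSpace F]
    {f : E → F} {x : E} {r M : ℝ} (hr : 0 < r) (hf : DifferentiableOn ℂ f (Metric.ball x r))
    (hM : ∀ y ∈ Metric.ball x r, ‖f y‖ ≤ M) (n : ℕ) :
    ‖iteratedFDeriv ℂ n f x‖ ≤ (((n : ℝ) + 1) / r) ^ n * M := by
  have hn : (0 : ℝ) < (n : ℝ) + 1 := by positivity
  have key : ∀ j : ℕ, j ≤ n → ∀ y ∈ Metric.ball x (r * (1 - (j : ℝ) / ((n : ℝ) + 1))),
      ‖iteratedFDeriv ℂ j f y‖ ≤ (((n : ℝ) + 1) / r) ^ j * M := by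
    intro j
    induction j with
    | zero =>
      intro _ y hy
      rw [norm_iteratedFDeriv_zero, pow_zero, one_mul]
      apply hM
      simpa using hy
    | succ j ih =>
      intro hj y hy
      have hsub : Metric.ball y (r / ((n : ℝ) + 1)) ⊆
          Metric.ball x (r * (1 - (j : ℝ) / ((n : ℝ) + 1))) := by
        apply Metric.ball_subset_ball'
        rw [Metric.mem_ball] at hy
        have h1 : r * (1 - (j : ℝ) / ((n : ℝ) + 1))
            = r / ((n : ℝ) + 1) + r * (1 - ((j + 1 : ℕ) : ℝ) / ((n : ℝ) + 1)) := by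
          push_cast
          field_simp
          ring
        rw [h1]
        linarith
      have hsub2 : Metric.ball x (r * (1 - (j : ℝ) / ((n : ℝ) + 1))) ⊆ Metric.ball x r := by
        apply Metric.ball_subset_ball
        have h2 : 0 ≤ (j : ℝ) / ((n : ℝ) + 1) := by positivity
        nlinarith
      have h3 := OkaP.norm_fderiv_le (f := iteratedFDeriv ℂ j f) (x := y)
        (r := r / ((n : ℝ) + 1)) (M := (((n : ℝ) + 1) / r) ^ j * M) (by positivity)
        ((anup_diff Metric.isOpen_ball hf j).mono (hsub.trans hsub2))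
        (fun z hz => ih (by omega) z (hsub hz))
      rw [norm_fderiv_iteratedFDeriv] at h3
      refine h3.trans (le_of_eq ?_)
      rw [pow_succ]
      field_simp
  refine key n le_rfl x ?_
  apply Metric.mem_ball_self
  apply mul_pos hr
  rw [sub_pos, div_lt_one hn]
  linarith

/-- Iterated derivatives along a line. -/
theorem anup_line {E F : Type} [NormedAddCommGroup E] [NormedSpace ℂ E]
    [FiniteDimensional ℂ E] [NormedAddCommGroup F] [NormedSpace ℂ F] [CompleteSpace F]
    {f : E → F} {x v : E} {r R : ℝ} (hf : DifferentiableOn ℂ f (Metric.ball x r))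
    (hv : ∀ t ∈ Metric.ball (0 : ℂ) R, x + t • v ∈ Metric.ball x r) (n : ℕ) :
    ∀ t ∈ Metric.ball (0 : ℂ) R, iteratedDeriv n (fun t : ℂ => f (x + t • v)) t
      = iteratedFDeriv ℂ n f (x + t • v) (fun _ => v) := by
  induction n with
  | zero =>
    intro t _
    simp [iteratedDeriv_zero]
  | succ n ih =>
    intro t ht
    rw [iteratedDeriv_succ]
    have h1 : iteratedDeriv n (fun t : ℂ => f (x + t • v)) =ᶠ[𝓝 t]
        fun t => iteratedFDeriv ℂ n f (x + t • v) (fun _ => v) := by
      filter_upwards [Metric.isOpen_ball.mem_nhds ht] with s hs using ih s hs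
    rw [h1.deriv_eq]
    have h2 : HasDerivAt (fun t : ℂ => x + t • v) v t := by
      simpa using ((hasDerivAt_id t).smul_const v).const_add x
    have h3 : DifferentiableAt ℂ (iteratedFDeriv ℂ n f) (x + t • v) :=
      (anup_diff Metric.isOpen_ball hf n).differentiableAt (Metric.isOpen_ball.mem_nhds (hv t ht))
    have h4 := h3.hasFDerivAt.comp_hasDerivAt t h2
    have h5 : HasDerivAt (fun t : ℂ => iteratedFDeriv ℂ n f (x + t • v) (fun _ => v))
        ((fderiv ℂ (iteratedFDeriv ℂ n f) (x + t • v) v) (fun _ => v)) t := by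
      have h6 := (ContinuousMultilinearMap.apply ℂ (fun _ : Fin n => E) F
        (fun _ => v)).hasFDerivAt.comp_hasDerivAt t h4
      exact h6
    rw [h5.deriv, iteratedFDeriv_succ_apply_left]
    rfl

/-- Complex differentiable maps on a ball are analytic at the centre. -/
theorem anup_main {E F : Type} [NormedAddCommGroup E] [NormedSpace ℂ E]
    [FiniteDimensional ℂ E] [NormedAddCommGroup F] [NormedSpace ℂ F] [CompleteSpace F]
    {f : E → F} {x : E} (hf : ∀ᶠ y in 𝓝 x, DifferentiableAt ℂ f y) : AnalyticAt ℂ f x := by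
  have hc : ContinuousAt f x := hf.self_of_nhds.continuousAt
  have hb : ∀ᶠ y in 𝓝 x, ‖f y‖ < ‖f x‖ + 1 := hc.norm.eventually_lt_const (by simp)
  obtain ⟨r, hr, hball⟩ := Metric.mem_nhds_iff.mp (inter_mem hf hb)
  have hd : DifferentiableOn ℂ f (Metric.ball x r) := fun y hy =>
    (hball hy).1.differentiableWithinAt
  have hM : ∀ y ∈ Metric.ball x r, ‖f y‖ ≤ ‖f x‖ + 1 := fun y hy => (hball hy).2.le
  set M := ‖f x‖ + 1 with hMdef
  have hM0 : 0 < M := by positivity
  let p : FormalMultilinearSeries ℂ E F := fun n => ((n.factorial : ℂ))⁻¹ • iteratedFDeriv ℂ n f x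
  have hr3 : 0 < r / 3 := by positivity
  let ρ : NNReal := ⟨r / 3, hr3.le⟩
  refine ⟨p, (ρ : ENNReal), ?_, ?_, ?_⟩
  · apply FormalMultilinearSeries.le_radius_of_bound p (Real.exp 1 * M)
    intro n
    have h1 : ‖p n‖ = ((n.factorial : ℝ))⁻¹ * ‖iteratedFDeriv ℂ n f x‖ := by
      simp only [p, norm_smul, norm_inv, Complex.norm_natCast]
    have h2 := anup_cauchy hr hd hM n
    have h3 : (ρ : ℝ) = r / 3 := rfl
    have h4 : ((n : ℝ) + 1) ^ n / (n.factorial : ℝ) ≤ Real.exp ((n : ℝ) + 1) :=
      Real.pow_div_factorial_le_exp _ (by positivity) n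
    have h5 : Real.exp ((n : ℝ) + 1) = Real.exp 1 * Real.exp 1 ^ n := by
      rw [add_comm, Real.exp_add, ← Real.exp_nat_mul, mul_one]
    have h6 : Real.exp 1 / 3 ≤ 1 := by
      have := Real.exp_one_lt_d9
      linarith
    rw [h1, h3]
    calc ((n.factorial : ℝ))⁻¹ * ‖iteratedFDeriv ℂ n f x‖ * (r / 3) ^ n
        ≤ ((n.factorial : ℝ))⁻¹ * ((((n : ℝ) + 1) / r) ^ n * M) * (r / 3) ^ n := by gcongr
      _ = (((n : ℝ) + 1) ^ n / (n.factorial : ℝ)) * (1 / 3) ^ n * M := by
          rw [div_pow, div_pow, div_pow]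
          field_simp
          exact (one_pow n).symm
      _ ≤ Real.exp ((n : ℝ) + 1) * (1 / 3) ^ n * M := by gcongr
      _ = Real.exp 1 * (Real.exp 1 / 3) ^ n * M := by
          rw [h5, div_pow, div_pow]
          ring
      _ ≤ Real.exp 1 * 1 * M := by
          gcongr
          exact pow_le_one₀ (by positivity) h6
      _ = Real.exp 1 * M := by ring
  · exact_mod_cast hr3
  · intro y hy
    have hy1 : ‖y‖ < r / 3 := by
      have h7 : y ∈ Metric.ball (0 : E) (ρ : ℝ) := by
        rw [← Metric.eball_coe]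
        exact hy
      rw [mem_ball_zero_iff] at h7
      exact h7
    have hline : ∀ t ∈ Metric.ball (0 : ℂ) 2, x + t • y ∈ Metric.ball x r := by
      intro t ht
      rw [mem_ball_zero_iff] at ht
      rw [Metric.mem_ball, dist_eq_norm, add_sub_cancel_left, norm_smul]
      nlinarith [norm_nonneg y, norm_nonneg t]
    have hg : DifferentiableOn ℂ (fun t : ℂ => f (x + t • y)) (Metric.ball 0 2) := by
      have h8 : DifferentiableOn ℂ (fun t : ℂ => x + t • y) (Metric.ball 0 2) :=
        ((differentiable_id.smul_const y).const_add x).differentiableOn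
      exact hd.comp h8 hline
    have h9 := Complex.hasSum_taylorSeries_on_ball (z := (1 : ℂ)) hg (by simp)
    have h10 := fun n => anup_line hd hline n 0 (by simp)
    simp only [sub_zero, one_pow, one_smul] at h9
    have h11 : (fun n : ℕ => p n fun _ : Fin n => y) = fun n : ℕ =>
        ((n.factorial : ℂ))⁻¹ • iteratedDeriv n (fun t : ℂ => f (x + t • y)) 0 := by
      funext n
      rw [h10 n, zero_smul, add_zero]
      rfl
    rw [h11]
    exact h9

/-- A function on a finite dimensional complex space which is complex differentiable near `x` is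
analytic at `x`.

Proof. Let `f` be differentiable on `ball x (2R)` and bounded by `M` there (shrink). (a) Iterated Cauchy
estimates: `‖iteratedFDeriv ℂ n f y‖ ≤ (c n / R) ^ n M` at `y = x` (with `0 ^ 0 = 1`): apply
`norm_fderiv_le` (Scv1) `n` times to `f, fderiv f, …` (each is differentiable by `differentiableOn_fderiv`) on
the balls of radii `R (1 - j/n)`, `‖iteratedFDeriv (j+1)‖ = ‖fderiv (iteratedFDeriv j)‖`; as
`n ^ n ≤ e ^ n n!` the series `p n = (n!)⁻¹ • iteratedFDeriv ℂ n f x` has positive radius
(`FormalMultilinearSeries.le_radius_of_bound`). (b) Sum: for small `v` the one-variable function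
`t ↦ f (x + t • v)` is differentiable on a disc of radius `> 1`, so it is the sum of its Taylor series at
`t = 1` (`DifferentiableOn.hasFPowerSeriesOnBall` / `Complex.hasSum_taylorSeries_on_ball`) and its `n`-th
derivative at `0` is `iteratedFDeriv ℂ n f x (fun _ => v)` (induction on `n`, `f` is `C^∞` by
`contDiffOn_of_diff`). Hence `HasFPowerSeriesOnBall f p x ρ`. (Any other proof is fine, e.g. by Osgood and
Cauchy integrals over polydiscs.) -/
theorem analyticAt_of_diff {E : Type} [NormedAddCommGroup E] [NormedSpace ℂ E]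
    [FiniteDimensional ℂ E] {f : E → ℂ} {x : E} (hf : ∀ᶠ y in 𝓝 x, DifferentiableAt ℂ f y) :
    AnalyticAt ℂ f x := by
  exact anup_main hf

/-- The same for maps into a finite dimensional space (compose with coordinates). -/
theorem analyticAt_of_diff' {E F : Type} [NormedAddCommGroup E] [NormedSpace ℂ E]
    [FiniteDimensional ℂ E] [NormedAddCommGroup F] [NormedSpace ℂ F] [FiniteDimensional ℂ F]
    {f : E → F} {x : E} (hf : ∀ᶠ y in 𝓝 x, DifferentiableAt ℂ f y) : AnalyticAt ℂ f x := by
  haveI : CompleteSpace F := FiniteDimensional.complete ℂ F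
  exact anup_main hf

end Pool.Agent.Abd
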