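import Pool.Agent.H.MP_e23cd6_ag.GT.DefsG

/-! Algebra of the sections `Sec2`: independence of frames, sums, products, powers, restriction. -/

set_option autoImplicit false

open scoped Manifold ContDiff Topology ENNReal
open MeasureTheory Set Filter

namespace Pool.Agent.Abd

variable {E : Type} [NormedAddCommGroup E] [NormedSpace ℂ E] {r : ℕ}
  {X : Type} [TopologicalSpace X] [ChartedSpace E X]
  {L P : LineBundle E X} {K J m K' J' m' : ℕ} {U V : Set X}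

/-- `x` has the frames `i`, `j` and the chart `φ`. -/
structure At (L P : LineBundle E X) (i : L.ι) (j : P.ι) (φ : OpenPartialHomeomorph X E) (x : X) :
    Prop where
  chart : φ ∈ Charts E X
  memL : x ∈ L.U i
  memP : x ∈ P.U j
  mem : x ∈ φ.source

theorem At.eventually {i : L.ι} {j : P.ι} {φ : OpenPartialHomeomorph X E} {x : X}
    (h : At L P i j φ x) : ∀ᶠ y in 𝓝 x, At L P i j φ y := by
  filter_upwards [(L.isOpen i).mem_nhds h.memL, (P.isOpen j).mem_nhds h.memP,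
    φ.open_source.mem_nhds h.mem] with y h1 h2 h3
  exact ⟨h.chart, h1, h2, h3⟩

theorem exists_at [IsManifold 𝓘(ℂ, E) ω X] (L P : LineBundle E X) (x : X) :
    ∃ i j, At L P i j (chartAt E x) x := by
  obtain ⟨i, hi⟩ := L.cover x
  obtain ⟨j, hj⟩ := P.cover x
  exact ⟨i, j, IsManifold.chart_mem_maximalAtlas x, hi, hj, mem_chart_source E x⟩

theorem LineBundle.g_ne (L : LineBundle E X) {i j : L.ι} {x : X} (hi : x ∈ L.U i)
    (hj : x ∈ L.U j) : L.g i j x ≠ 0 := by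
  intro h0
  have h1 := L.mul i j i x hi hj hi
  rw [h0, zero_mul, L.one i x hi] at h1
  exact zero_ne_one h1

namespace Sec2

theorem hol' (s : Sec2 L P K J m U) {i j φ x} (hx : x ∈ U) (h : At L P i j φ x) :
    HolAt E (s.f i j φ) x := s.hol i j φ h.chart x hx h.memL h.memP h.mem

theorem trans' (s : Sec2 L P K J m U) {i j φ i' j' ψ x} (hx : x ∈ U) (h : At L P i j φ x)
    (h' : At L P i' j' ψ x) :
    s.f i j φ x = L.g i i' x ^ K * P.g j j' x ^ J * jac φ ψ x ^ m * s.f i' j' ψ x :=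
  s.trans i j i' j' φ h.chart ψ h'.chart x hx h.memL h.memP h'.memL h'.memP h.mem h'.mem

/-- Nonvanishing may be tested in any frames. -/
theorem nz_iff (s : Sec2 L P K J m U) {i j φ x} (hx : x ∈ U) (h : At L P i j φ x) :
    s.NZ x ↔ s.f i j φ x ≠ 0 := by
  constructor
  · rintro ⟨i', j', ψ, hψ, h1, h2, h3, h4⟩ h0
    apply h4
    rw [s.trans' hx ⟨hψ, h1, h2, h3⟩ h, h0, mul_zero]
  · intro h0
    exact ⟨i, j, φ, h.chart, h.memL, h.memP, h.mem, h0⟩

/-- Change of the numbers `K`, `J`, `m` along equalities. -/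
def cast (s : Sec2 L P K J m U) (hK : K = K') (hJ : J = J') (hm : m = m') :
    Sec2 L P K' J' m' U where
  f := s.f
  hol := s.hol
  trans := by
    subst hK hJ hm
    exact s.trans

/-- Restriction to a smaller set. -/
def res (s : Sec2 L P K J m U) (h : V ⊆ U) : Sec2 L P K J m V where
  f := s.f
  hol := fun i j φ hφ x hx => s.hol i j φ hφ x (h hx)
  trans := fun i j i' j' φ hφ ψ hψ x hx => s.trans i j i' j' φ hφ ψ hψ x (h hx)

/-- The zero section. -/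
def zero : Sec2 L P K J m U where
  f := fun _ _ _ _ => 0
  hol := fun _ _ _ _ _ _ _ _ _ => contMDiffAt_const
  trans := fun _ _ _ _ _ _ _ _ _ _ _ _ _ _ _ _ => by simp

/-- The section `1` of the trivial bundle. -/
def one : Sec2 L P 0 0 0 U where
  f := fun _ _ _ _ => 1
  hol := fun _ _ _ _ _ _ _ _ _ => contMDiffAt_const
  trans := fun _ _ _ _ _ _ _ _ _ _ _ _ _ _ _ _ => by simp

/-- Sum. -/
def add (s t : Sec2 L P K J m U) : Sec2 L P K J m U where
  f := fun i j φ x => s.f i j φ x + t.f i j φ x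
  hol := fun i j φ hφ x hx hi hj h => (s.hol i j φ hφ x hx hi hj h).add (t.hol i j φ hφ x hx hi hj h)
  trans := fun i j i' j' φ hφ ψ hψ x hx h1 h2 h3 h4 h5 h6 => by
    rw [s.trans i j i' j' φ hφ ψ hψ x hx h1 h2 h3 h4 h5 h6,
      t.trans i j i' j' φ hφ ψ hψ x hx h1 h2 h3 h4 h5 h6]
    ring

/-- Scalar multiple. -/
def smul (c : ℂ) (s : Sec2 L P K J m U) : Sec2 L P K J m U where
  f := fun i j φ x => c * s.f i j φ x
  hol := fun i j φ hφ x hx hi hj h => by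
    have h1 : HolAt E (fun _ : X => c) x := contMDiffAt_const
    exact h1.mul (s.hol i j φ hφ x hx hi hj h)
  trans := fun i j i' j' φ hφ ψ hψ x hx h1 h2 h3 h4 h5 h6 => by
    rw [s.trans i j i' j' φ hφ ψ hψ x hx h1 h2 h3 h4 h5 h6]
    ring

/-- Finite sum. -/
def sum {ι : Type} (T : Finset ι) (s : ι → Sec2 L P K J m U) : Sec2 L P K J m U where
  f := fun i j φ x => ∑ a ∈ T, (s a).f i j φ x
  hol := fun i j φ hφ x hx hi hj h =>
    contMDiffAt_finsetSum (fun a _ => (s a).hol i j φ hφ x hx hi hj h)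
  trans := fun i j i' j' φ hφ ψ hψ x hx h1 h2 h3 h4 h5 h6 => by
    rw [Finset.mul_sum]
    exact Finset.sum_congr rfl fun a _ =>
      (s a).trans i j i' j' φ hφ ψ hψ x hx h1 h2 h3 h4 h5 h6

/-- Product. -/
def mul (s : Sec2 L P K J m U) (t : Sec2 L P K' J' m' U) :
    Sec2 L P (K + K') (J + J') (m + m') U where
  f := fun i j φ x => s.f i j φ x * t.f i j φ x
  hol := fun i j φ hφ x hx hi hj h => (s.hol i j φ hφ x hx hi hj h).mul (t.hol i j φ hφ x hx hi hj h)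
  trans := fun i j i' j' φ hφ ψ hψ x hx h1 h2 h3 h4 h5 h6 => by
    rw [s.trans i j i' j' φ hφ ψ hψ x hx h1 h2 h3 h4 h5 h6,
      t.trans i j i' j' φ hφ ψ hψ x hx h1 h2 h3 h4 h5 h6]
    ring

/-- Power. -/
def pow (s : Sec2 L P K J m U) (n : ℕ) : Sec2 L P (n * K) (n * J) (n * m) U where
  f := fun i j φ x => s.f i j φ x ^ n
  hol := fun i j φ hφ x hx hi hj h => (s.hol i j φ hφ x hx hi hj h).pow n
  trans := fun i j i' j' φ hφ ψ hψ x hx h1 h2 h3 h4 h5 h6 => by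
    rw [s.trans i j i' j' φ hφ ψ hψ x hx h1 h2 h3 h4 h5 h6]
    ring

/-- Monomials in sections of the same bundle. -/
def mono {ι : Type} (T : Finset ι) (s : ι → Sec2 L P K J m U) (l : ι → ℕ) (q : ℕ)
    (hq : ∑ a ∈ T, l a = q) : Sec2 L P (q * K) (q * J) (q * m) U where
  f := fun i j φ x => ∏ a ∈ T, (s a).f i j φ x ^ l a
  hol := fun i j φ hφ x hx hi hj h =>
    contMDiffAt_finsetProd (fun a _ => ((s a).hol i j φ hφ x hx hi hj h).pow (l a))
  trans := fun i j i' j' φ hφ ψ hψ x hx h1 h2 h3 h4 h5 h6 => by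
    have e : ∀ a ∈ T, (s a).f i j φ x ^ l a =
        (L.g i i' x ^ K * P.g j j' x ^ J * jac φ ψ x ^ m) ^ l a * (s a).f i' j' ψ x ^ l a := by
      intro a _
      rw [(s a).trans i j i' j' φ hφ ψ hψ x hx h1 h2 h3 h4 h5 h6, mul_pow]
    rw [Finset.prod_congr rfl e, Finset.prod_mul_distrib, Finset.prod_pow_eq_pow_sum, hq]
    ring

theorem nz_mul (s : Sec2 L P K J m U) (t : Sec2 L P K' J' m' U) [IsManifold 𝓘(ℂ, E) ω X] {x : X}
    (hx : x ∈ U) : (s.mul t).NZ x ↔ s.NZ x ∧ t.NZ x := by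
  obtain ⟨i, j, h⟩ := exists_at L P x
  rw [(s.mul t).nz_iff hx h, s.nz_iff hx h, t.nz_iff hx h]
  exact mul_ne_zero_iff

theorem nz_pow (s : Sec2 L P K J m U) [IsManifold 𝓘(ℂ, E) ω X] {n : ℕ} (hn : n ≠ 0) {x : X}
    (hx : x ∈ U) : (s.pow n).NZ x ↔ s.NZ x := by
  obtain ⟨i, j, h⟩ := exists_at L P x
  rw [(s.pow n).nz_iff hx h, s.nz_iff hx h]
  exact pow_ne_zero_iff hn

theorem nz_cast (s : Sec2 L P K J m U) (hK : K = K') (hJ : J = J') (hm : m = m') (x : X) :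
    (s.cast hK hJ hm).NZ x ↔ s.NZ x := Iff.rfl

theorem nz_res (s : Sec2 L P K J m U) (h : V ⊆ U) (x : X) : (s.res h).NZ x ↔ s.NZ x := Iff.rfl

theorem nz_smul {c : ℂ} (hc : c ≠ 0) (s : Sec2 L P K J m U) (x : X) :
    (smul c s).NZ x ↔ s.NZ x := by
  simp only [NZ, smul, ne_eq, mul_eq_zero, hc, false_or]

end Sec2

section weights

variable {A : TorusAction E r X} {ΛL : Linearization A L} {ΛP : Linearization A P}
  {S : Finset (Fin r)} {χ χ' : Fin r → ℤ}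

theorem chr_ne_zero {n : ℕ} (χ : Fin n → ℤ) {a : Fin n → ℂ} (ha : InT a) : chr χ a ≠ 0 :=
  Finset.prod_ne_zero_iff.2 fun c _ => zpow_ne_zero _ (ha c)

theorem chr_add {n : ℕ} (χ χ' : Fin n → ℤ) {a : Fin n → ℂ} (ha : InT a) :
    chr (χ + χ') a = chr χ a * chr χ' a := by
  unfold chr
  rw [← Finset.prod_mul_distrib]
  exact Finset.prod_congr rfl fun c _ => zpow_add₀ (ha c) _ _

theorem chr_nsmul {n : ℕ} (l : ℕ) (χ : Fin n → ℤ) (a : Fin n → ℂ) :
    chr (fun c => l * χ c) a = chr χ a ^ l := by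
  unfold chr
  rw [← Finset.prod_pow]
  refine Finset.prod_congr rfl fun c _ => ?_
  show a c ^ ((l : ℤ) * χ c) = _
  rw [mul_comm, zpow_mul, zpow_natCast]

/-- The weight rule for frames collected in `At`. -/
theorem OfWt.rule {s : Sec2 L P K J m U} (h : OfWt ΛL ΛP S χ s) {a : Fin r → ℂ} (ha : InTS S a)
    {i j φ i' j' ψ x} (hx : x ∈ U) (hax : A.act a x ∈ U) (h1 : At L P i j φ (A.act a x))
    (h2 : At L P i' j' ψ x) : chr χ a * s.f i j φ (A.act a x) =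
      ΛL.lam i i' a x ^ K * ΛP.lam j j' a x ^ J * A.jac φ ψ a x ^ m * s.f i' j' ψ x :=
  h a ha i j i' j' φ h1.chart ψ h2.chart x hx hax h1.memL h1.memP h2.memL h2.memP h1.mem h2.mem

theorem OfWt.cast {s : Sec2 L P K J m U} (h : OfWt ΛL ΛP S χ s) (hK : K = K') (hJ : J = J')
    (hm : m = m') : OfWt ΛL ΛP S χ (s.cast hK hJ hm) := by
  subst hK hJ hm
  exact h

theorem OfWt.res {s : Sec2 L P K J m U} (h : OfWt ΛL ΛP S χ s) (hV : V ⊆ U) :
    OfWt ΛL ΛP S χ (s.res hV) :=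
  fun a ha i j i' j' φ hφ ψ hψ x hx hax => h a ha i j i' j' φ hφ ψ hψ x (hV hx) (hV hax)

theorem OfWt.smul {s : Sec2 L P K J m U} (h : OfWt ΛL ΛP S χ s) (c : ℂ) :
    OfWt ΛL ΛP S χ (Sec2.smul c s) := by
  intro a ha i j i' j' φ hφ ψ hψ x hx hax h1 h2 h3 h4 h5 h6
  have := h a ha i j i' j' φ hφ ψ hψ x hx hax h1 h2 h3 h4 h5 h6
  simp only [Sec2.smul]
  linear_combination c * this

theorem OfWt.add {s t : Sec2 L P K J m U} (h : OfWt ΛL ΛP S χ s) (h' : OfWt ΛL ΛP S χ t) :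
    OfWt ΛL ΛP S χ (s.add t) := by
  intro a ha i j i' j' φ hφ ψ hψ x hx hax h1 h2 h3 h4 h5 h6
  have e1 := h a ha i j i' j' φ hφ ψ hψ x hx hax h1 h2 h3 h4 h5 h6
  have e2 := h' a ha i j i' j' φ hφ ψ hψ x hx hax h1 h2 h3 h4 h5 h6
  simp only [Sec2.add]
  linear_combination e1 + e2

theorem OfWt.sum {ι : Type} {T : Finset ι} {s : ι → Sec2 L P K J m U}
    (h : ∀ a ∈ T, OfWt ΛL ΛP S χ (s a)) : OfWt ΛL ΛP S χ (Sec2.sum T s) := by
  intro a ha i j i' j' φ hφ ψ hψ x hx hax h1 h2 h3 h4 h5 h6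
  simp only [Sec2.sum]
  rw [Finset.mul_sum, Finset.mul_sum]
  exact Finset.sum_congr rfl fun b hb =>
    h b hb a ha i j i' j' φ hφ ψ hψ x hx hax h1 h2 h3 h4 h5 h6

theorem OfWt.mul {s : Sec2 L P K J m U} {t : Sec2 L P K' J' m' U} (h : OfWt ΛL ΛP S χ s)
    (h' : OfWt ΛL ΛP S χ' t) : OfWt ΛL ΛP S (χ + χ') (s.mul t) := by
  intro a ha i j i' j' φ hφ ψ hψ x hx hax h1 h2 h3 h4 h5 h6
  have e1 := h a ha i j i' j' φ hφ ψ hψ x hx hax h1 h2 h3 h4 h5 h6
  have e2 := h' a ha i j i' j' φ hφ ψ hψ x hx hax h1 h2 h3 h4 h5 h6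
  simp only [Sec2.mul]
  rw [chr_add χ χ' ha.1]
  calc _ = (chr χ a * s.f i j φ (A.act a x)) * (chr χ' a * t.f i j φ (A.act a x)) := by ring
    _ = _ := by rw [e1, e2]; ring

theorem OfWt.pow {s : Sec2 L P K J m U} (h : OfWt ΛL ΛP S χ s) (n : ℕ) :
    OfWt ΛL ΛP S (fun c => n * χ c) (s.pow n) := by
  intro a ha i j i' j' φ hφ ψ hψ x hx hax h1 h2 h3 h4 h5 h6
  have e1 := h a ha i j i' j' φ hφ ψ hψ x hx hax h1 h2 h3 h4 h5 h6
  simp only [Sec2.pow]
  rw [chr_nsmul, ← mul_pow, e1]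
  ring

/-- The weight of a monomial in weight sections. -/
theorem OfWt.mono {ι : Type} {T : Finset ι} {s : ι → Sec2 L P K J m U} {w : ι → Fin r → ℤ}
    (h : ∀ a ∈ T, OfWt ΛL ΛP S (w a) (s a)) (l : ι → ℕ) (q : ℕ) (hq : ∑ a ∈ T, l a = q)
    (hχ : ∀ c ∈ S, ∑ a ∈ T, l a * w a c = χ c) : OfWt ΛL ΛP S χ (Sec2.mono T s l q hq) := by
  intro a ha i j i' j' φ hφ ψ hψ x hx hax h1 h2 h3 h4 h5 h6
  have e1 := fun b (hb : b ∈ T) => h b hb a ha i j i' j' φ hφ ψ hψ x hx hax h1 h2 h3 h4 h5 h6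
  have e2 : chr χ a = ∏ b ∈ T, chr (w b) a ^ l b := by
    unfold chr
    have e3 : ∀ b ∈ T, (∏ c, a c ^ w b c) ^ l b = ∏ c, a c ^ (l b * w b c) := by
      intro b _
      rw [← Finset.prod_pow]
      refine Finset.prod_congr rfl fun c _ => ?_
      rw [mul_comm, zpow_mul, zpow_natCast]
    rw [Finset.prod_congr rfl e3, Finset.prod_comm]
    refine Finset.prod_congr rfl fun c _ => ?_
    by_cases hc : c ∈ S
    · rw [← hχ c hc]
      have h0 := ha.1 c
      have e4 : ∀ T' : Finset ι, ∏ b ∈ T', a c ^ ((l b : ℤ) * w b c) =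
          a c ^ (∑ b ∈ T', (l b : ℤ) * w b c) := by
        classical
        intro T'
        induction T' using Finset.induction_on with
        | empty => simp
        | insert b T' hb ih => rw [Finset.prod_insert hb, Finset.sum_insert hb, ih, zpow_add₀ h0]
      exact (e4 T).symm
    · rw [ha.2 c hc]
      simp
  simp only [Sec2.mono]
  rw [e2, ← Finset.prod_mul_distrib]
  have e5 : ∀ b ∈ T, chr (w b) a ^ l b * (s b).f i j φ (A.act a x) ^ l b =
      (ΛL.lam i i' a x ^ K * ΛP.lam j j' a x ^ J * A.jac φ ψ a x ^ m) ^ l b *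
        (s b).f i' j' ψ x ^ l b := by
    intro b hb
    rw [← mul_pow, e1 b hb, mul_pow]
  rw [Finset.prod_congr rfl e5, Finset.prod_mul_distrib, Finset.prod_pow_eq_pow_sum, hq]
  ring

end weights

end Pool.Agent.Abd
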