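import Pool.Agent.H.MP_e23cd6_ag.Bertini

/-! The analytic Bertini lemma for countably many measures. -/

set_option autoImplicit false

open scoped ENNReal
open MeasureTheory Set

namespace Pool.Agent.Abd

/-- `bertini` for countably many measures: the same proof (almost all `c` are good for each `j`,
`ae_all_iff`), see Bertini.lean. -/
theorem bertini_countable {Λ J V : Type} [Fintype Λ] [Countable J] [MeasurableSpace V]
    (μ : J → Measure V) [∀ j, SFinite (μ j)] (g : J → Λ → V → ℂ)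
    (hg : ∀ j l, AEMeasurable (g j l) (μ j)) {τ : ℝ} (hτ : 0 < τ) (hτ2 : τ < 2)
    (h : ∀ j, ∫⁻ v, (∑ l, ‖g j l v‖ₑ) ^ (-τ) ∂(μ j) < ⊤) :
    ∃ c : Λ → ℂ, ∀ j, ∫⁻ v, ‖∑ l, c l * g j l v‖ₑ ^ (-τ) ∂(μ j) < ⊤ := by
  obtain ⟨K, hK, hK0, hKb⟩ := average_bound (Λ := Λ) hτ hτ2
  set P : Measure (Λ → ℂ) := volume.restrict (Metric.closedBall (0 : Λ → ℂ) 1) with hP
  -- measurable representatives
  set g' : J → Λ → V → ℂ := fun j l => (hg j l).mk (g j l) with hg'
  have hg'm : ∀ j l, Measurable (g' j l) := fun j l => (hg j l).measurable_mk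
  have hae : ∀ j, ∀ᵐ v ∂(μ j), ∀ l, g j l v = g' j l v := fun j =>
    ae_all_iff.2 fun l => (hg j l).ae_eq_mk
  have hFm : ∀ j, Measurable (Function.uncurry
      (fun (c : Λ → ℂ) (v : V) => ‖∑ l, c l * g' j l v‖ₑ ^ (-τ))) := by
    intro j
    refine Measurable.pow_const (Measurable.enorm ?_) _
    refine Finset.measurable_sum _ fun l _ => ?_
    exact ((measurable_pi_apply l).comp measurable_fst).mul ((hg'm j l).comp measurable_snd)
  have hfin : ∀ j, ∫⁻ c, ∫⁻ v, ‖∑ l, c l * g' j l v‖ₑ ^ (-τ) ∂(μ j) ∂P < ⊤ := by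
    intro j
    rw [lintegral_lintegral_swap (hFm j).aemeasurable]
    calc ∫⁻ v, ∫⁻ c, ‖∑ l, c l * g' j l v‖ₑ ^ (-τ) ∂P ∂(μ j)
        ≤ ∫⁻ v, K * (∑ l, ‖g' j l v‖ₑ) ^ (-τ) ∂(μ j) :=
          lintegral_mono fun v => hKb fun l => g' j l v
      _ = K * ∫⁻ v, (∑ l, ‖g' j l v‖ₑ) ^ (-τ) ∂(μ j) := by
          rw [lintegral_const_mul]
          exact (Finset.measurable_sum _ fun l _ => (hg'm j l).enorm).pow_const _
      _ = K * ∫⁻ v, (∑ l, ‖g j l v‖ₑ) ^ (-τ) ∂(μ j) := by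
          congr 1
          refine lintegral_congr_ae ?_
          filter_upwards [hae j] with v hv
          simp_rw [hv]
      _ < ⊤ := ENNReal.mul_lt_top hK.lt_top (h j)
  have hall : ∀ᵐ c ∂P, ∀ j, ∫⁻ v, ‖∑ l, c l * g' j l v‖ₑ ^ (-τ) ∂(μ j) < ⊤ := by
    rw [ae_all_iff]
    intro j
    exact ae_lt_top (hFm j).lintegral_prod_right (hfin j).ne
  have hPne : P ≠ 0 := by
    intro h0
    have h1 : P univ = 0 := by rw [h0]; rfl
    rw [hP, Measure.restrict_apply_univ] at h1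
    exact (Metric.measure_closedBall_pos volume (0 : Λ → ℂ) zero_lt_one).ne' h1
  haveI : (ae P).NeBot := ae_neBot.2 hPne
  obtain ⟨c, hc⟩ := hall.exists
  refine ⟨c, fun j => ?_⟩
  refine lt_of_le_of_lt (le_of_eq ?_) (hc j)
  refine lintegral_congr_ae ?_
  filter_upwards [hae j] with v hv
  simp_rw [hv]

end Pool.Agent.Abd
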