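import Pool.Agent.H.MP_e23cd6_ag.GT.DynF

/-! MP_e23cd6_ag, torus actions, abstract dynamics: the new nef bundle on the chamber. -/

set_option autoImplicit false

open Set Filter Topology Classical

namespace Pool.Agent.Abd.GT

variable {Q : Type} [TopologicalSpace Q] {Φ : Sys Q}

/-- The product of powers used twice in the proof below. -/
theorem DynF3_prod (Φ : Sys Q) {k₁ j₁ k₂ j₂ m₁ m₂ : ℕ} {c₁ c₂ : ℤ} {u v : Q → ℝ}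
    (hu : u ∈ Φ.R k₁ j₁ c₁) (hv : v ∈ Φ.R k₂ j₂ c₂) (h₁ : 1 ≤ m₁) (h₂ : 1 ≤ m₂) {k j : ℕ} {c : ℤ}
    (hk : m₁ * k₁ + m₂ * k₂ = k) (hj : m₁ * j₁ + m₂ * j₂ = j)
    (hc : (m₁ : ℤ) * c₁ + (m₂ : ℤ) * c₂ = c) :
    (fun x => u x ^ m₁ * v x ^ m₂) ∈ Φ.R k j c := by
  subst hk hj hc
  exact Φ.mul _ _ _ _ _ _ _ (Φ.pow_mem' hu h₁) _ (Φ.pow_mem' hv h₂)

/-- The new nef bundle. For a point `x` in the chamber there are `l ≥ 1` and a function of degree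
`l (n' D + 2 N (k₀ D + a))` and weight `l` which is positive at `x`.

PROOF. Let `yp`, `ym` be given by `exists_top`, `exists_bot` for `x`; `u₁, u₂ ∈ F` with `u₁ yp > 0`,
`u₂ ym > 0`, of weights `c₁ = N (k₀ b(yp) + a(yp))`, `c₂ = N (k₀ b(ym) + a(ym))`. As `x` is in the chamber,
`c₁ > 0` (there is `q ∈ F`, `q.1 > 0`, `q.2 x > 0`, and `q.1 ≤ c₁` by the bound of `exists_top`) and
`c₂ ≤ 0`. `b(yp) ≥ 0`: otherwise `b(yp) < b(p)` and `V.lex` gives `k₀ b(yp) + a(yp) < 0`. `b(ym) ≤ 0`: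
otherwise `V.lex` gives `0 < k₀ b(ym) + a(ym)`. Let `l₁` and the family be given by `Φ.gen (n' + k₀)`, and
`v₁`, `v₂` elements, `v₁ yp > 0`, `v₂ ym > 0`, with weights `e₁ = l₁ ((n' + k₀) b(yp) + a(yp))`,
`e₂ = l₁ ((n' + k₀) b(ym) + a(ym))`. All four are positive at `x`. With `L = l₁ N`,
`t = v₁ ^ N * u₁ ^ (l₁ (2N-1))` and `s = v₂ ^ N * u₂ ^ (l₁ (2N-1))` have degree
`(L (n' + 2 N k₀), 2 N L)` and weights `T = N e₁ + l₁ (2N-1) c₁ = L n' b(yp) + 2 N l₁ c₁ ≥ 2 L`,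
`T' = N e₂ + l₁ (2N-1) c₂ = L n' b(ym) + 2 N l₁ c₂ ≤ 0`. Take `α = L - T' ≥ 1`, `β = T - L ≥ 1`,
`u = t ^ α * s ^ β`, `l = L (α + β)`: the weight is `(L - T') T + (T - L) T' = L (T - T') = l`. -/
theorem Fam.nefnew (V : Fam Φ) [CompactSpace Q] {p : Q} (hp : Φ.f 1 p = p) (hb : Φ.b p = 0)
    (ha : Φ.a p = 0) (n' : ℕ) (x : Q) (hx : V.Up x) : ∃ l : ℕ, 1 ≤ l ∧
      ∃ u ∈ Φ.R (l * (n' + 2 * V.N * V.k0)) (l * (2 * V.N)) l, 0 < u x := by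
  obtain ⟨yp, hyp, hp1, hp2⟩ := Φ.exists_top x
  obtain ⟨ym, hym, hm1, hm2⟩ := Φ.exists_bot x
  have hN := V.hN
  have hNr : (0 : ℝ) < V.N := by exact_mod_cast hN
  -- the elements of the family
  obtain ⟨q1, hq1, hq1p⟩ := V.gF yp
  obtain ⟨q2, hq2, hq2p⟩ := V.gF ym
  have hc1 := Φ.exp_fixed hyp (V.hF q1 hq1) hq1p
  have hc2 := Φ.exp_fixed hym (V.hF q2 hq2) hq2p
  push_cast at hc1 hc2
  obtain ⟨r1, hr1, hr1c, hr1x⟩ := (V.m_pos_iff _ x).1 hx.1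
  obtain ⟨r2, hr2, hr2c, hr2x⟩ := (V.m_pos_iff _ x).1 hx.2
  have hr1b := hp2 V.k0 V.N r1.1 r1.2 (V.hF r1 hr1) hN hr1x
  have hr2b := hm2 V.k0 V.N r2.1 r2.2 (V.hF r2 hr2) hN hr2x
  have hc1' : (1 : ℝ) ≤ q1.1 := by
    have h1 : (1 : ℝ) ≤ r1.1 := by exact_mod_cast hr1c
    have h2 : (q1.1 : ℝ) = V.N * (V.k0 * Φ.b yp + Φ.a yp) := by rw [hc1]; ring
    linarith
  have hc2' : (q2.1 : ℝ) ≤ 0 := by
    have h1 : (r2.1 : ℝ) ≤ 0 := by exact_mod_cast hr2c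
    have h2 : (q2.1 : ℝ) = V.N * (V.k0 * Φ.b ym + Φ.a ym) := by rw [hc2]; ring
    linarith
  have hbp : 0 ≤ Φ.b yp := by
    by_contra hneg
    push Not at hneg
    have h1 := V.lex yp p hyp hp (by rw [hb]; exact hneg)
    rw [hb, ha, mul_zero, add_zero] at h1
    have h2 : (q1.1 : ℝ) = V.N * (V.k0 * Φ.b yp + Φ.a yp) := by rw [hc1]; ring
    have h3 : V.N * (V.k0 * Φ.b yp + Φ.a yp) < 0 := mul_neg_of_pos_of_neg hNr h1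
    linarith
  have hbm : Φ.b ym ≤ 0 := by
    by_contra hneg
    push Not at hneg
    have h1 := V.lex p ym hp hym (by rw [hb]; exact hneg)
    rw [hb, ha, mul_zero, add_zero] at h1
    have h2 : (q2.1 : ℝ) = V.N * (V.k0 * Φ.b ym + Φ.a ym) := by rw [hc2]; ring
    have h3 : 0 < V.N * (V.k0 * Φ.b ym + Φ.a ym) := mul_pos hNr h1
    linarith
  -- the second family
  obtain ⟨l₁, hl₁, F₁, hF₁, gF₁⟩ := Φ.gen (n' + V.k0)
  obtain ⟨v1, hv1, hv1p⟩ := gF₁ yp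
  obtain ⟨v2, hv2, hv2p⟩ := gF₁ ym
  have he1 := Φ.exp_fixed hyp (hF₁ v1 hv1) hv1p
  have he2 := Φ.exp_fixed hym (hF₁ v2 hv2) hv2p
  push_cast at he1 he2
  have hl₁r : (0 : ℝ) < l₁ := by exact_mod_cast hl₁
  -- exponents
  obtain ⟨K, hK⟩ : ∃ K : ℕ, K + 1 = 2 * V.N := ⟨2 * V.N - 1, by omega⟩
  have hK1 : 1 ≤ K := by omega
  have hKr : (K : ℝ) + 1 = 2 * V.N := by exact_mod_cast hK
  have hlK : 1 ≤ l₁ * K := Nat.mul_pos hl₁ hK1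
  have ek : V.N * ((n' + V.k0) * l₁) + l₁ * K * (V.k0 * V.N) =
      l₁ * V.N * (n' + 2 * V.N * V.k0) := by
    rw [← hK]
    ring
  have ej : V.N * l₁ + l₁ * K * V.N = l₁ * V.N * (2 * V.N) := by
    rw [← hK]
    ring
  set T : ℤ := (V.N : ℤ) * v1.1 + ((l₁ * K : ℕ) : ℤ) * q1.1 with hT
  set T' : ℤ := (V.N : ℤ) * v2.1 + ((l₁ * K : ℕ) : ℤ) * q2.1 with hT'
  have ht := DynF3_prod Φ (hF₁ v1 hv1) (V.hF q1 hq1) hN hlK ek ej hT.symm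
  have hs := DynF3_prod Φ (hF₁ v2 hv2) (V.hF q2 hq2) hN hlK ek ej hT'.symm
  have hTr : (T : ℝ) = l₁ * V.N * n' * Φ.b yp + 2 * V.N * l₁ * q1.1 := by
    rw [hT]
    push_cast
    rw [he1, hc1]
    have h1 : (K : ℝ) = 2 * V.N - 1 := by linarith
    rw [h1]
    ring
  have hTr' : (T' : ℝ) = l₁ * V.N * n' * Φ.b ym + 2 * V.N * l₁ * q2.1 := by
    rw [hT']
    push_cast
    rw [he2, hc2]
    have h1 : (K : ℝ) = 2 * V.N - 1 := by linarith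
    rw [h1]
    ring
  set L : ℕ := l₁ * V.N with hL
  have hL1 : 1 ≤ L := Nat.mul_pos hl₁ hN
  have hT2 : 2 * (L : ℤ) ≤ T := by
    have h1 : 2 * (L : ℝ) ≤ T := by
      rw [hTr, hL]
      push_cast
      have h2 : 0 ≤ (l₁ : ℝ) * V.N * n' * Φ.b yp := by positivity
      have h3 : 2 * (V.N : ℝ) * l₁ * 1 ≤ 2 * V.N * l₁ * q1.1 :=
        mul_le_mul_of_nonneg_left hc1' (by positivity)
      linarith
    exact_mod_cast h1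
  have hT0 : T' ≤ 0 := by
    have h1 : (T' : ℝ) ≤ 0 := by
      rw [hTr']
      have h2 : (l₁ : ℝ) * V.N * n' * Φ.b ym ≤ 0 := mul_nonpos_of_nonneg_of_nonpos (by positivity) hbm
      have h3 : 2 * (V.N : ℝ) * l₁ * q2.1 ≤ 0 := mul_nonpos_of_nonneg_of_nonpos (by positivity) hc2'
      linarith
    exact_mod_cast h1
  obtain ⟨α, hα⟩ : ∃ α : ℕ, (α : ℤ) = L - T' := ⟨(L - T').toNat, Int.toNat_of_nonneg (by omega)⟩
  obtain ⟨β, hβ⟩ : ∃ β : ℕ, (β : ℤ) = T - L := ⟨(T - L).toNat, Int.toNat_of_nonneg (by omega)⟩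
  have hα1 : 1 ≤ α := by omega
  have hβ1 : 1 ≤ β := by omega
  have hu := DynF3_prod Φ ht hs hα1 hβ1 (k := L * (α + β) * (n' + 2 * V.N * V.k0))
    (j := L * (α + β) * (2 * V.N)) (c := ((L * (α + β) : ℕ) : ℤ)) (by ring) (by ring) (by
      push_cast
      rw [hα, hβ]
      ring)
  refine ⟨L * (α + β), Nat.mul_pos hL1 (by omega), _, hu, ?_⟩
  have p1 := hp1 _ _ _ _ (hF₁ v1 hv1) hv1p
  have p2 := hp1 _ _ _ _ (V.hF q1 hq1) hq1p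
  have p3 := hm1 _ _ _ _ (hF₁ v2 hv2) hv2p
  have p4 := hm1 _ _ _ _ (V.hF q2 hq2) hq2p
  positivity

end Pool.Agent.Abd.GT
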