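import Pool.Agent.H.MP_e23cd6_ag.GT.DynF2
import Pool.Agent.H.MP_e23cd6_ag.GT.DynF3

/-! MP_e23cd6_ag, torus actions, abstract dynamics: the two chambers at the fixed point `p`, for the
sign `σ = 1` (above) and `σ = -1` (below). All statements are `DynF`, `DynF2`, `DynF3` for the family
`V` (`σ = 1`) or `V.inv` (`σ = -1`), with `Fam.inv_m`, `Sys.inv_fixed`, `Sys.inv_a`, `Sys.inv_b`. -/

set_option autoImplicit false

open Set Filter Topology Classical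

namespace Pool.Agent.Abd.GT

variable {Q : Type} [TopologicalSpace Q] {Φ : Sys Q}

/-- The sum of the functions whose weight has the sign `σ`. -/
noncomputable def Fam.sp (V : Fam Φ) (σ : ℤ) (x : Q) : ℝ := V.m (fun c => 0 < σ * c) x

/-- The sum of the other functions. -/
noncomputable def Fam.sm (V : Fam Φ) (σ : ℤ) (x : Q) : ℝ := V.m (fun c => σ * c ≤ 0) x

theorem Fam.sp_one (V : Fam Φ) (x : Q) : V.sp 1 x = V.rp x := by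
  unfold Fam.sp Fam.rp
  simp only [one_mul]

theorem Fam.sm_one (V : Fam Φ) (x : Q) : V.sm 1 x = V.rm x := by
  unfold Fam.sm Fam.rm
  simp only [one_mul]

theorem Fam.sp_neg_one (V : Fam Φ) (x : Q) : V.sp (-1) x = V.inv.rp x := by
  unfold Fam.sp Fam.rp
  rw [V.inv_m]
  simp only [neg_one_mul]

theorem Fam.sm_neg_one (V : Fam Φ) (x : Q) : V.sm (-1) x = V.inv.rm x := by
  unfold Fam.sm Fam.rm
  rw [V.inv_m]
  simp only [neg_one_mul]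

theorem Fam.sp_add_sm (V : Fam Φ) (σ : ℤ) (x : Q) : V.sp σ x + V.sm σ x = V.M x := by
  have h := V.m_split (fun c => 0 < σ * c) x
  have e : (fun c : ℤ => ¬ 0 < σ * c) = (fun c => σ * c ≤ 0) := by
    funext c
    exact propext not_lt
  rw [e] at h
  exact h

/-- PROOF. `up_iff` for `V` or `V.inv`. -/
theorem Fam.iffS (V : Fam Φ) [CompactSpace Q] {σ : ℤ} (hσ : σ = 1 ∨ σ = -1) (x : Q) :
    (0 < V.sp σ x ∧ 0 < V.sm σ x) ↔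
    (∃ (l : ℕ) (c : ℤ), 1 ≤ l ∧ 0 < σ * c ∧ ∃ u ∈ Φ.R (V.k0 * l) l c, 0 < u x) ∧
    (∃ (l : ℕ) (c : ℤ), 1 ≤ l ∧ σ * c ≤ 0 ∧ ∃ u ∈ Φ.R (V.k0 * l) l c, 0 < u x) := by
  rcases hσ with rfl | rfl
  · rw [V.sp_one, V.sm_one]
    simp only [one_mul]
    exact V.up_iff x
  · rw [V.sp_neg_one, V.sm_neg_one]
    refine (V.inv.up_iff x).trans (and_congr ?_ ?_)
    · constructor
      · rintro ⟨l, c, hl, hc, u, hu, hx⟩
        exact ⟨l, -c, hl, by omega, u, hu, hx⟩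
      · rintro ⟨l, c, hl, hc, u, hu, hx⟩
        refine ⟨l, -c, hl, by omega, u, ?_, hx⟩
        show u ∈ Φ.R _ _ (- -c)
        rw [neg_neg]
        exact hu
    · constructor
      · rintro ⟨l, c, hl, hc, u, hu, hx⟩
        exact ⟨l, -c, hl, by omega, u, hu, hx⟩
      · rintro ⟨l, c, hl, hc, u, hu, hx⟩
        refine ⟨l, -c, hl, by omega, u, ?_, hx⟩
        show u ∈ Φ.R _ _ (- -c)
        rw [neg_neg]
        exact hu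

theorem Fam.shiftS (V : Fam Φ) {σ : ℤ} (hσ : σ = 1 ∨ σ = -1) : ∃ A : ℝ, 1 ≤ A ∧ ∀ x,
    0 < V.sp σ x → 0 < V.sm σ x → ∃ n : ℤ,
    V.sp σ (Φ.f n x) ≤ A * V.sm σ (Φ.f n x) ∧ V.sm σ (Φ.f n x) ≤ A * V.sp σ (Φ.f n x) := by
  rcases hσ with rfl | rfl
  · obtain ⟨A, hA, h⟩ := V.exists_shift
    refine ⟨A, hA, fun x h1 h2 => ?_⟩
    rw [V.sp_one] at h1
    rw [V.sm_one] at h2
    obtain ⟨n, h3, h4⟩ := h x ⟨h1, h2⟩
    refine ⟨n, ?_, ?_⟩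
    · rw [V.sp_one, V.sm_one]
      exact h3
    · rw [V.sp_one, V.sm_one]
      exact h4
  · obtain ⟨A, hA, h⟩ := V.inv.exists_shift
    refine ⟨A, hA, fun x h1 h2 => ?_⟩
    rw [V.sp_neg_one] at h1
    rw [V.sm_neg_one] at h2
    obtain ⟨n, h3, h4⟩ := h x ⟨h1, h2⟩
    refine ⟨-n, ?_, ?_⟩
    · rw [V.sp_neg_one, V.sm_neg_one]
      exact h3
    · rw [V.sp_neg_one, V.sm_neg_one]
      exact h4

theorem Fam.growthS (V : Fam Φ) [CompactSpace Q] {σ : ℤ} (hσ : σ = 1 ∨ σ = -1) {p : Q}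
    (hp : Φ.f 1 p = p) (hb : Φ.b p = 0) (ha : Φ.a p = 0) (A : ℝ) : ∃ C : ℝ, 1 ≤ C ∧ ∀ x,
      V.sp σ x ≤ A * V.sm σ x → V.sm σ x ≤ A * V.sp σ x → ∀ n : ℤ, Φ.GD n x ≤ C := by
  rcases hσ with rfl | rfl
  · obtain ⟨C, hC, h⟩ := V.growth hp hb ha A
    refine ⟨C, hC, fun x h1 h2 n => ?_⟩
    rw [V.sp_one, V.sm_one] at h1 h2
    exact h x h1 h2 n
  · obtain ⟨C, hC, h⟩ := V.inv.growth (Φ.inv_fixed.2 hp) (by rw [Φ.inv_b hp, hb, neg_zero])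
      (by rw [Φ.inv_a hp, ha, neg_zero]) A
    refine ⟨C, hC, fun x h1 h2 n => ?_⟩
    rw [V.sp_neg_one, V.sm_neg_one] at h1 h2
    have h3 : Φ.GD (- -n) x ≤ C := h x h1 h2 (-n)
    rwa [neg_neg] at h3

theorem Fam.lowerS (V : Fam Φ) [CompactSpace Q] {σ : ℤ} (hσ : σ = 1 ∨ σ = -1) {p : Q}
    (hp : Φ.f 1 p = p) (hb : Φ.b p = 0) (ha : Φ.a p = 0) (A : ℝ) :
    ∃ O ∈ 𝓝 p, ∃ ε : ℝ, 0 < ε ∧ ∀ x, V.sp σ x ≤ A * V.sm σ x →
      V.sm σ x ≤ A * V.sp σ x → ∀ n : ℤ, Φ.f n x ∈ O → ε ≤ Φ.GD n x := by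
  rcases hσ with rfl | rfl
  · obtain ⟨O, hO, ε, hε, h⟩ := V.lower hp hb ha A
    refine ⟨O, hO, ε, hε, fun x h1 h2 n h3 => ?_⟩
    rw [V.sp_one, V.sm_one] at h1 h2
    exact h x h1 h2 n h3
  · obtain ⟨O, hO, ε, hε, h⟩ := V.inv.lower (Φ.inv_fixed.2 hp) (by rw [Φ.inv_b hp, hb, neg_zero])
      (by rw [Φ.inv_a hp, ha, neg_zero]) A
    refine ⟨O, hO, ε, hε, fun x h1 h2 n h3 => ?_⟩
    rw [V.sp_neg_one, V.sm_neg_one] at h1 h2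
    have h4 : Φ.f (- -n) x ∈ O → ε ≤ Φ.GD (- -n) x := h x h1 h2 (-n)
    rw [neg_neg] at h4
    exact h4 h3

/-- PROOF. `near`: the second alternative is the chamber for `σ = -1`. -/
theorem Fam.nearS (V : Fam Φ) [CompactSpace Q] {p : Q} (hp : Φ.f 1 p = p) (hb : Φ.b p = 0)
    (ha : Φ.a p = 0) : ∃ O ∈ 𝓝 p, ∀ x ∈ O, Φ.f 1 x ≠ x →
      ∃ σ : ℤ, (σ = 1 ∨ σ = -1) ∧ 0 < V.sp σ x ∧ 0 < V.sm σ x := by
  obtain ⟨O, hO, h⟩ := V.near hp hb ha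
  refine ⟨O, hO, fun x hx hfx => ?_⟩
  rcases h x hx hfx with h1 | ⟨h1, h2⟩
  · refine ⟨1, Or.inl rfl, ?_, ?_⟩
    · rw [V.sp_one]
      exact h1.1
    · rw [V.sm_one]
      exact h1.2
  · refine ⟨-1, Or.inr rfl, ?_, ?_⟩
    · unfold Fam.sp
      simpa only [neg_one_mul, neg_pos] using h1
    · unfold Fam.sm
      simpa only [neg_one_mul, neg_nonpos] using h2

theorem Fam.nefnewS (V : Fam Φ) [CompactSpace Q] {σ : ℤ} (hσ : σ = 1 ∨ σ = -1) {p : Q}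
    (hp : Φ.f 1 p = p) (hb : Φ.b p = 0) (ha : Φ.a p = 0) (n' : ℕ) (x : Q) (h1 : 0 < V.sp σ x)
    (h2 : 0 < V.sm σ x) : ∃ l : ℕ, 1 ≤ l ∧
      ∃ u ∈ Φ.R (l * (n' + 2 * V.N * V.k0)) (l * (2 * V.N)) (σ * l), 0 < u x := by
  rcases hσ with rfl | rfl
  · rw [V.sp_one] at h1
    rw [V.sm_one] at h2
    obtain ⟨l, hl, u, hu, hx⟩ := V.nefnew hp hb ha n' x ⟨h1, h2⟩
    refine ⟨l, hl, u, ?_, hx⟩
    rw [one_mul]
    exact hu
  · rw [V.sp_neg_one] at h1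
    rw [V.sm_neg_one] at h2
    obtain ⟨l, hl, u, hu, hx⟩ := V.inv.nefnew (Φ.inv_fixed.2 hp)
      (by rw [Φ.inv_b hp, hb, neg_zero]) (by rw [Φ.inv_a hp, ha, neg_zero]) n' x ⟨h1, h2⟩
    refine ⟨l, hl, u, ?_, hx⟩
    rw [neg_one_mul]
    exact hu

end Pool.Agent.Abd.GT
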