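import Pool.Agent.H.MP_e23cd6_ag.GT.SysC
import Pool.Agent.H.MP_e23cd6_ag.GT.DynG

/-! MP_e23cd6_ag, torus actions: the chambers as open subsets of `X`. -/

set_option autoImplicit false

open scoped Manifold ContDiff Topology ENNReal
open MeasureTheory Set Filter

namespace Pool.Agent.Abd

variable {E : Type} [NormedAddCommGroup E] [NormedSpace ℂ E] [FiniteDimensional ℂ E] {r : ℕ}
  {X : Type} [TopologicalSpace X] [ChartedSpace E X] [IsManifold 𝓘(ℂ, E) ω X] [T2Space X]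
  {L P : LineBundle E X} {A : TorusAction E r X}
  {ΛL : Linearization A L} {ΛP : Linearization A P} {S : Finset (Fin r)} {U : Set X}
  [CompactSpace X] [ConnectedSpace X]

/-- The point `p` is a fixed point of the `i`-th factor on `U / T_S` at which `D` and `a` have the
weight `0`. -/
structure Lvl.Normal (D : Lvl ΛL ΛP S U) (p : Quo A S U) : Prop where
  fixed : D.sys.f 1 p = p
  b : D.sys.b p = 0
  a : D.sys.a p = 0

/-- The chamber with the sign `σ`. -/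
def Lvl.Cham (D : Lvl ΛL ΛP S U) (V : GT.Fam D.sys) (σ : ℤ) : Set X :=
  {x | ∃ hx : x ∈ U, 0 < V.sp σ (Quo.mk A S U ⟨x, hx⟩) ∧ 0 < V.sm σ (Quo.mk A S U ⟨x, hx⟩)}

theorem Lvl.cham_sub (D : Lvl ΛL ΛP S U) (V : GT.Fam D.sys) (σ : ℤ) : D.Cham V σ ⊆ U :=
  fun _ hx => hx.1

/-- PROOF. `U` is open (`D.good`), and in `U` the chamber is the preimage of an open set
(`GT.Fam.m_cont`, `Quo.mk_cont`). -/
theorem Lvl.cham_open (D : Lvl ΛL ΛP S U) (V : GT.Fam D.sys) (σ : ℤ) : IsOpen (D.Cham V σ) := by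
  have h1 : IsOpen {y : U | 0 < V.sp σ (Quo.mk A S U y) ∧ 0 < V.sm σ (Quo.mk A S U y)} := by
    have c := Quo.mk_cont A S U
    exact (isOpen_lt continuous_const ((V.m_cont _).comp c)).inter
      (isOpen_lt continuous_const ((V.m_cont _).comp c))
  have h2 := D.good.isOpen.isOpenMap_subtype_val _ h1
  have e : D.Cham V σ = Subtype.val ''
      {y : U | 0 < V.sp σ (Quo.mk A S U y) ∧ 0 < V.sm σ (Quo.mk A S U y)} := by
    ext x
    constructor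
    · rintro ⟨hx, h⟩
      exact ⟨⟨x, hx⟩, h, rfl⟩
    · rintro ⟨y, h, rfl⟩
      exact ⟨y.2, h⟩
  rw [e]
  exact h2

/-- Elements of `R` which are positive at the image of `x` and sections which do not vanish at `x`. -/
theorem Lvl.cham_R_iff (D : Lvl ΛL ΛP S U) {k j : ℕ} {c : ℤ} {x : X} (hx : x ∈ U) :
    (∃ u ∈ D.sys.R k j c, 0 < u (Quo.mk A S U ⟨x, hx⟩)) ↔
    ∃ s : D.SecT k j, OfWt ΛL ΛP (insert D.i S) (D.wt k j c) s ∧ s.NZ x := by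
  constructor
  · rintro ⟨u, ⟨s, hs, hu⟩, h⟩
    rw [hu] at h
    exact ⟨s, hs, (D.num_pos_iff s hx).1 h⟩
  · rintro ⟨s, hs, h⟩
    obtain ⟨u, hu, hus⟩ := D.exists_R hs
    refine ⟨u, hu, ?_⟩
    rw [hus]
    exact (D.num_pos_iff s hx).2 h

/-- The chamber in terms of sections. PROOF. `GT.Fam.iffS` with `CompactSpace` from `Quo.compact
D.good`; `u ∈ R` comes from a section with `u (mk x) = num s x` and `num_pos_iff`; conversely
`exists_R`. -/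
theorem Lvl.cham_iff (D : Lvl ΛL ΛP S U) (V : GT.Fam D.sys) {σ : ℤ} (hσ : σ = 1 ∨ σ = -1) {x : X}
    (hx : x ∈ U) : x ∈ D.Cham V σ ↔
    (∃ (l : ℕ) (c : ℤ), 1 ≤ l ∧ 0 < σ * c ∧ ∃ s : D.SecT (V.k0 * l) l,
      OfWt ΛL ΛP (insert D.i S) (D.wt (V.k0 * l) l c) s ∧ s.NZ x) ∧
    (∃ (l : ℕ) (c : ℤ), 1 ≤ l ∧ σ * c ≤ 0 ∧ ∃ s : D.SecT (V.k0 * l) l,
      OfWt ΛL ΛP (insert D.i S) (D.wt (V.k0 * l) l c) s ∧ s.NZ x) := by
  haveI : CompactSpace (Quo A S U) := Quo.compact D.good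
  have h1 : x ∈ D.Cham V σ ↔
      (0 < V.sp σ (Quo.mk A S U ⟨x, hx⟩) ∧ 0 < V.sm σ (Quo.mk A S U ⟨x, hx⟩)) :=
    ⟨fun h => h.2, fun h => ⟨hx, h⟩⟩
  rw [h1, V.iffS hσ]
  simp only [D.cham_R_iff hx]

/-- The chamber is invariant under the whole torus. PROOF. `cham_iff` for `A.act b x` and `x`, and
`gt_translate` for `univ` and the set `insert D.i S` (translate by `b`: the translate of a section
which does not vanish at `A.act b x` does not vanish at `x`; apply this to `b⁻¹` and the point `x`,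
with `act_inv_act`). -/
theorem Lvl.cham_inv (D : Lvl ΛL ΛP S U) (V : GT.Fam D.sys) {σ : ℤ} (hσ : σ = 1 ∨ σ = -1)
    (b : Fin r → ℂ) (hb : InT b) (x : X) (hx : x ∈ D.Cham V σ) : A.act b x ∈ D.Cham V σ := by
  have hxU : x ∈ U := hx.1
  have hbx : A.act b x ∈ U := D.inv b hb x hxU
  have key : ∀ (k j : ℕ) (c : ℤ),
      (∃ s : D.SecT k j, OfWt ΛL ΛP (insert D.i S) (D.wt k j c) s ∧ s.NZ x) →
      ∃ s : D.SecT k j, OfWt ΛL ΛP (insert D.i S) (D.wt k j c) s ∧ s.NZ (A.act b x) := by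
    rintro k j c ⟨s, hs, hnz⟩
    have hb' : InT b⁻¹ := fun d => inv_ne_zero (hb d)
    obtain ⟨t, ht, htn⟩ := gt_translate isOpen_univ (fun _ _ _ _ => mem_univ _) s hs hb'
    refine ⟨t, ht, (htn _ (mem_univ _)).2 ?_⟩
    rw [act_inv_act A hb]
    exact hnz
  obtain ⟨⟨l, c, hl, hc, h⟩, ⟨l', c', hl', hc', h'⟩⟩ := (D.cham_iff V hσ hxU).1 hx
  exact (D.cham_iff V hσ hbx).2 ⟨⟨l, c, hl, hc, key _ _ _ h⟩, ⟨l', c', hl', hc', key _ _ _ h'⟩⟩

/-- A section over `U` whose nonzeros lie in the chamber. PROOF. Let `x₀` be a point of the chamber and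
`s`, `s'` the two sections of `cham_iff` at `x₀`; `v = s.mul s'` (`nz_mul`, `cham_iff`). -/
theorem Lvl.cham_thin (D : Lvl ΛL ΛP S U) (V : GT.Fam D.sys) {σ : ℤ} (hσ : σ = 1 ∨ σ = -1)
    (hne : (D.Cham V σ).Nonempty) : ∃ (K₀ J₀ : ℕ) (v : Sec2 L P K₀ J₀ 0 U), (∃ x ∈ U, v.NZ x) ∧
      ∀ x ∈ U, v.NZ x → x ∈ D.Cham V σ := by
  obtain ⟨x₀, hx₀⟩ := hne
  obtain ⟨⟨l, c, hl, hc, s, hs, hsn⟩, ⟨l', c', hl', hc', s', hs', hsn'⟩⟩ :=
    (D.cham_iff V hσ hx₀.1).1 hx₀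
  refine ⟨_, _, ((s.mul s').cast rfl rfl (add_zero 0)).res (subset_univ U), ⟨x₀, hx₀.1, ?_⟩, ?_⟩
  · rw [Sec2.nz_res, Sec2.nz_cast]
    exact (Sec2.nz_mul s s' (mem_univ x₀)).2 ⟨hsn, hsn'⟩
  · intro x hx hv
    rw [Sec2.nz_res, Sec2.nz_cast] at hv
    obtain ⟨h1, h2⟩ := (Sec2.nz_mul s s' (mem_univ x)).1 hv
    exact (D.cham_iff V hσ hx).2 ⟨⟨l, c, hl, hc, s, hs, h1⟩, ⟨l', c', hl', hc', s', hs', h2⟩⟩

/-- The chamber is dense in `U`. PROOF. `cham_thin` and `exists_nz`. -/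
theorem Lvl.cham_dense (D : Lvl ΛL ΛP S U) (V : GT.Fam D.sys) {σ : ℤ} (hσ : σ = 1 ∨ σ = -1)
    (hne : (D.Cham V σ).Nonempty) (hd : Dense U) : Dense (D.Cham V σ) := by
  obtain ⟨K₀, J₀, v, ⟨x₀, hx₀, hv⟩, hVv⟩ := D.cham_thin V hσ hne
  rw [dense_iff_inter_open]
  intro O hO hOn
  have h1 : (O ∩ U).Nonempty := hd.inter_open_nonempty O hO hOn
  obtain ⟨y, hy, hyn⟩ := exists_nz D.good.isOpen D.good.conn v hx₀ hv (hO.inter D.good.isOpen)
    inter_subset_right h1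
  exact ⟨y, hy.1, hVv y hy.2 hyn⟩

/-- PROOF. `cham_thin` and `isConnected_of_thin`. -/
theorem Lvl.cham_conn (D : Lvl ΛL ΛP S U) (V : GT.Fam D.sys) {σ : ℤ} (hσ : σ = 1 ∨ σ = -1)
    (hne : (D.Cham V σ).Nonempty) : IsConnected (D.Cham V σ) := by
  obtain ⟨K₀, J₀, v, ⟨x₀, hx₀, hv⟩, hVv⟩ := D.cham_thin V hσ hne
  exact isConnected_of_thin D.good.isOpen D.good.conn (D.cham_sub V σ) v hx₀ hv hVv

end Pool.Agent.Abd
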