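import Pool.Agent.H.MP_e23cd6_ag.GT.IdT

/-! The complement of the zeros of a section in a connected open set is connected. -/

set_option autoImplicit false

open scoped Manifold ContDiff Topology ENNReal
open MeasureTheory Set Filter

namespace Pool.Agent.Abd

/-- An open convex subset of the complex plane minus a countable set is preconnected. -/
theorem connt_diff_countable {D : Set ℂ} (hD : IsOpen D) (hc : Convex ℝ D) {s : Set ℂ}
    (hs : s.Countable) : IsPreconnected (D \ s) := by
  have hrank : 1 < Module.rank ℝ ℂ := by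
    rw [Complex.rank_real_complex]; exact Cardinal.one_lt_two
  refine isPreconnected_of_forall_pair fun a ha b hb => ?_
  rcases eq_or_ne a b with hab | hab
  · subst hab
    exact ⟨{a}, by simpa using ha, by simp, by simp, isPreconnected_singleton⟩
  let c := (2 : ℝ)⁻¹ • (a + b)
  let x := (2 : ℝ)⁻¹ • (b - a)
  have Ia : c - x = a := by
    simp only [c, x]
    module
  have Ib : c + x = b := by
    simp only [c, x]
    module
  have x_ne_zero : x ≠ 0 := by simpa [x] using sub_ne_zero.2 hab.symm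
  obtain ⟨y, hy⟩ : ∃ y, LinearIndependent ℝ ![x, y] :=
    exists_linearIndependent_pair_of_one_lt_rank hrank x_ne_zero
  have A : Set.Countable {t : ℝ | (segment ℝ (c + x) (c + t • y) ∩ s).Nonempty} := by
    apply countable_ofPred_nonempty_of_disjoint _ (fun t ↦ inter_subset_right) hs
    intro t t' htt'
    apply disjoint_iff_inter_eq_empty.2
    have N : {c + x} ∩ s = ∅ := by
      simpa only [singleton_inter_eq_empty, mem_compl_iff, Ib] using hb.2
    rw [inter_assoc, inter_comm s, inter_assoc, inter_self, ← inter_assoc, ← subset_empty_iff, ← N]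
    apply inter_subset_inter_left
    apply Eq.subset
    apply segment_inter_eq_endpoint_of_linearIndependent_of_ne hy htt'.symm
  have B : Set.Countable {t : ℝ | (segment ℝ (c - x) (c + t • y) ∩ s).Nonempty} := by
    apply countable_ofPred_nonempty_of_disjoint _ (fun t ↦ inter_subset_right) hs
    intro t t' htt'
    apply disjoint_iff_inter_eq_empty.2
    have N : {c - x} ∩ s = ∅ := by
      simpa only [singleton_inter_eq_empty, mem_compl_iff, Ia] using ha.2
    rw [inter_assoc, inter_comm s, inter_assoc, inter_self, ← inter_assoc, ← subset_empty_iff, ← N]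
    apply inter_subset_inter_left
    rw [sub_eq_add_neg _ x]
    apply Eq.subset
    apply segment_inter_eq_endpoint_of_linearIndependent_of_ne _ htt'.symm
    convert! hy.units_smul ![-1, 1]
    simp [← List.ofFn_inj]
  have hcD : c ∈ D := by
    have := hc ha.1 hb.1 (a := (2 : ℝ)⁻¹) (b := (2 : ℝ)⁻¹) (by norm_num) (by norm_num) (by norm_num)
    simpa only [c, smul_add] using this
  have hopen : IsOpen {t : ℝ | c + t • y ∈ D} := by
    have hcont : Continuous fun t : ℝ => c + t • y := by fun_prop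
    exact hD.preimage hcont
  obtain ⟨t, htD, ht⟩ := ((A.union B).dense_compl ℝ).inter_open_nonempty _ hopen
    ⟨0, by simpa using hcD⟩
  let z := c + t • y
  simp only [compl_union, mem_inter_iff, mem_compl_iff, mem_ofPred_eq, not_nonempty_iff_eq_empty]
    at ht
  have hzD : z ∈ D := htD
  refine ⟨segment ℝ a z ∪ segment ℝ b z, ?_, Or.inl (left_mem_segment ℝ a z),
    Or.inr (left_mem_segment ℝ b z), ?_⟩
  · rintro w (hw | hw)
    · refine ⟨hc.segment_subset ha.1 hzD hw, fun hws => ?_⟩
      have : w ∈ segment ℝ (c - x) (c + t • y) ∩ s := ⟨by rw [Ia]; exact hw, hws⟩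
      rw [ht.2] at this; exact this
    · refine ⟨hc.segment_subset hb.1 hzD hw, fun hws => ?_⟩
      have : w ∈ segment ℝ (c + x) (c + t • y) ∩ s := ⟨by rw [Ib]; exact hw, hws⟩
      rw [ht.1] at this; exact this
  · exact IsPreconnected.union z (right_mem_segment ℝ a z) (right_mem_segment ℝ b z)
      (convex_segment a z).isPreconnected (convex_segment b z).isPreconnected

/-- Local version: a ball minus the zeros of an analytic function which is not identically zero is
preconnected. -/
theorem ball_diff_preconnected {E : Type} [NormedAddCommGroup E] [NormedSpace ℂ E] {g : E → ℂ}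
    {x : E} {ρ : ℝ} (hg : AnalyticOnNhd ℂ g (Metric.ball x ρ)) :
    IsPreconnected (Metric.ball x ρ ∩ {y | g y ≠ 0}) := by
  refine isPreconnected_of_forall_pair fun p hp q hq => ?_
  let l : ℂ → E := fun t => p + t • (q - p)
  have hlc : Continuous l := by fun_prop
  let D : Set ℂ := l ⁻¹' Metric.ball x ρ
  have hDo : IsOpen D := Metric.isOpen_ball.preimage hlc
  have hDc : Convex ℝ D := by
    intro a ha b hb u v hu hv huv
    have h1 := (convex_ball x ρ) ha hb hu hv huv
    have e : u • l a + v • l b = l (u • a + v • b) := by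
      simp only [l]
      have h2 : u • p + v • p = p := by rw [← add_smul, huv, one_smul]
      have h3 : (u • a + v • b) • (q - p) = u • a • (q - p) + v • b • (q - p) := by
        rw [add_smul, smul_assoc, smul_assoc]
      calc u • (p + a • (q - p)) + v • (p + b • (q - p))
          = (u • p + v • p) + (u • a • (q - p) + v • b • (q - p)) := by
            rw [smul_add, smul_add]; abel
        _ = p + (u • a + v • b) • (q - p) := by rw [h2, h3]
    rw [e] at h1
    exact h1
  have h0 : l 0 = p := by simp [l]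
  have h1 : l 1 = q := by simp [l]
  have h0D : (0 : ℂ) ∈ D := by show l 0 ∈ Metric.ball x ρ; rw [h0]; exact hp.1
  have h1D : (1 : ℂ) ∈ D := by show l 1 ∈ Metric.ball x ρ; rw [h1]; exact hq.1
  have hlan : AnalyticOnNhd ℂ l D := fun t _ => by
    have : AnalyticAt ℂ (fun t : ℂ => p + t • (q - p)) t := by fun_prop
    exact this
  have han : AnalyticOnNhd ℂ (g ∘ l) D := fun t ht => (hg (l t) ht).comp (hlan t ht)
  have hconn : IsConnected D := ⟨⟨0, h0D⟩, hDc.isPreconnected⟩
  have hcod := han.preimage_zero_mem_codiscreteWithin (x := 0)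
    (by simp only [Function.comp_apply]; rw [h0]; exact hp.2) h0D hconn
  rw [mem_codiscreteWithin] at hcod
  have hZ : (D \ (g ∘ l) ⁻¹' {0}ᶜ).Countable := by
    set Z := D \ (g ∘ l) ⁻¹' {0}ᶜ with hZdef
    have hd : DiscreteTopology Z := by
      rw [discreteTopology_subtype_iff]
      intro z hz
      exact disjoint_iff.1 (hcod z hz.1)
    have : Countable Z := countable_of_Lindelof_of_discrete
    exact this
  have hpre := connt_diff_countable hDo hDc hZ
  refine ⟨l '' (D \ (D \ (g ∘ l) ⁻¹' {0}ᶜ)), ?_, ⟨0, ⟨h0D, fun h => h.2 ?_⟩, h0⟩,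
    ⟨1, ⟨h1D, fun h => h.2 ?_⟩, h1⟩, hpre.image _ hlc.continuousOn⟩
  · rintro _ ⟨t, ⟨htD, ht⟩, rfl⟩
    refine ⟨htD, fun hz => ht ⟨htD, fun h => h hz⟩⟩
  · show (g ∘ l) 0 ≠ 0
    simp only [Function.comp_apply]; rw [h0]; exact hp.2
  · show (g ∘ l) 1 ≠ 0
    simp only [Function.comp_apply]; rw [h1]; exact hq.2

variable {E : Type} [NormedAddCommGroup E] [NormedSpace ℂ E]
  {X : Type} [TopologicalSpace X] [ChartedSpace E X] [IsManifold 𝓘(ℂ, E) ω X]
  {L P : LineBundle E X} {K J m : ℕ} {U : Set X}

/-- A set between the nonzero locus of a section and the connected open set `U` is connected. -/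
theorem conn_of_nz (hU : IsOpen U) (hc : IsConnected U) (s : Sec2 L P K J m U)
    (hs : ∃ x ∈ U, s.NZ x) {U' : Set X} (hU' : U' ⊆ U) (h : ∀ x ∈ U, s.NZ x → x ∈ U') :
    IsConnected U' := by
  set V : Set X := {x | x ∈ U ∧ s.NZ x} with hV
  have hdense : U ⊆ closure V := by
    intro x hx
    rw [mem_closure_iff]
    intro W hW hxW
    obtain ⟨y, hy, hyn⟩ := nz_dense hU hc.isPreconnected s hs (hW.inter hU) inter_subset_right
      ⟨x, hxW, hx⟩
    exact ⟨y, hy.1, hy.2, hyn⟩
  have hVp : IsPreconnected V := by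
    intro u v hu hv hVuv hVu hVv
    by_contra hne
    rw [not_nonempty_iff_eq_empty] at hne
    have hcov : U ⊆ closure (V ∩ u) ∪ closure (V ∩ v) := by
      rw [← closure_union, ← inter_union_distrib_left, inter_eq_left.2 hVuv]
      exact hdense
    have hA : (U ∩ closure (V ∩ u)).Nonempty := by
      obtain ⟨y, hy⟩ := hVu
      exact ⟨y, hy.1.1, subset_closure hy⟩
    have hB : (U ∩ closure (V ∩ v)).Nonempty := by
      obtain ⟨y, hy⟩ := hVv
      exact ⟨y, hy.1.1, subset_closure hy⟩
    obtain ⟨x, hxU, hxA, hxB⟩ := (isPreconnected_closed_iff.1 hc.isPreconnected) _ _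
      isClosed_closure isClosed_closure hcov hA hB
    obtain ⟨i, j, hat⟩ := exists_at L P x
    set φ := chartAt E x with hφ
    -- a small ball
    have hev : ∀ᶠ y in 𝓝 (φ x), y ∈ φ.target ∧ φ.symm y ∈ U ∧ At L P i j φ (φ.symm y) := by
      have hxt : φ x ∈ φ.target := φ.map_source hat.mem
      have hcs : ContinuousAt φ.symm (φ x) := φ.continuousAt_symm hxt
      have hsx : φ.symm (φ x) = x := φ.left_inv hat.mem
      have e1 : ∀ᶠ y in 𝓝 (φ x), φ.symm y ∈ U := by
        apply hcs.eventually
        rw [hsx]; exact hU.mem_nhds hxU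
      have e2 : ∀ᶠ y in 𝓝 (φ x), At L P i j φ (φ.symm y) := by
        apply hcs.eventually
        rw [hsx]; exact hat.eventually
      filter_upwards [φ.open_target.mem_nhds hxt, e1, e2] with y h1 h2 h3
      exact ⟨h1, h2, h3⟩
    obtain ⟨ρ, hρ, hball⟩ := Metric.eventually_nhds_iff_ball.1 hev
    have han : AnalyticOnNhd ℂ (fun y => s.f i j φ (φ.symm y)) (Metric.ball (φ x) ρ) := by
      intro y hy
      obtain ⟨h1, h2, h3⟩ := hball y hy
      have a1 : ContMDiffAt 𝓘(ℂ, E) 𝓘(ℂ, E) ω φ.symm y :=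
        contMDiffAt_symm_of_mem_maximalAtlas h3.chart h1
      have a2 : ContMDiffAt 𝓘(ℂ, E) 𝓘(ℂ) ω (s.f i j φ) (φ.symm y) := s.hol' h2 h3
      have a3 := ContMDiffAt.comp y a2 a1
      have a4 := contMDiffAt_iff_contDiffAt.1 a3
      exact a4.analyticAt
    have hpre := ball_diff_preconnected han
    set W : Set X := φ.symm '' (Metric.ball (φ x) ρ ∩ {y | s.f i j φ (φ.symm y) ≠ 0}) with hW
    have hWpre : IsPreconnected W := hpre.image _ fun y hy =>
      (φ.continuousAt_symm (hball y hy.1).1).continuousWithinAt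
    have hWV : W ⊆ V := by
      rintro _ ⟨y, ⟨hy, hy0⟩, rfl⟩
      obtain ⟨h1, h2, h3⟩ := hball y hy
      exact ⟨h2, (s.nz_iff h2 h3).2 hy0⟩
    have hmeet : ∀ u' : Set X, x ∈ closure (V ∩ u') → (W ∩ u').Nonempty := by
      intro u' hxu
      have hN : φ.source ∩ φ ⁻¹' Metric.ball (φ x) ρ ∈ 𝓝 x :=
        inter_mem (φ.open_source.mem_nhds hat.mem)
          ((φ.continuousAt hat.mem).preimage_mem_nhds (Metric.ball_mem_nhds _ hρ))
      obtain ⟨z, ⟨hz1, hz2⟩, hzV, hzu⟩ := mem_closure_iff_nhds.1 hxu _ hN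
      obtain ⟨h1, h2, h3⟩ := hball (φ z) hz2
      have hsz : φ.symm (φ z) = z := φ.left_inv hz1
      rw [hsz] at h2 h3
      refine ⟨z, ⟨φ z, ⟨hz2, ?_⟩, hsz⟩, hzu⟩
      show s.f i j φ (φ.symm (φ z)) ≠ 0
      rw [hsz]
      exact (s.nz_iff h2 h3).1 hzV.2
    obtain ⟨z, hzW, hzuv⟩ := hWpre u v hu hv (hWV.trans hVuv) (hmeet u hxA) (hmeet v hxB)
    have : z ∈ V ∩ (u ∩ v) := ⟨hWV hzW, hzuv⟩
    rw [hne] at this
    exact this
  obtain ⟨x, hx, hxn⟩ := hs
  refine ⟨⟨x, h x hx hxn⟩, hVp.subset_closure (fun y hy => h y hy.1 hy.2) (hU'.trans hdense)⟩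

end Pool.Agent.Abd
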