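import Pool.Agent.H.MP_e23cd6_ag.GT.Iface

/-! MP_e23cd6_ag, torus actions: components of sections over the compact manifold `X`. -/

set_option autoImplicit false

open scoped Manifold ContDiff Topology ENNReal
open MeasureTheory Set Filter

namespace Pool.Agent.Abd

variable {E : Type} [NormedAddCommGroup E] [NormedSpace ℂ E] [FiniteDimensional ℂ E] {r : ℕ}
  {X : Type} [TopologicalSpace X] [ChartedSpace E X] [IsManifold 𝓘(ℂ, E) ω X] [T2Space X]
  {L P : LineBundle E X} {A : TorusAction E r X}
  {ΛL : Linearization A L} {ΛP : Linearization A P} {S : Finset (Fin r)} {U : Set X}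
  {K J m : ℕ} {χ χ' : Fin r → ℤ} [CompactSpace X] [ConnectedSpace X]

/-- `X` is Good for `S = ∅`. PROOF. `T_∅ = {1}`: `InTS ∅ a` means `a = 1`. -/
theorem good_univ (A : TorusAction E r X) : Good A ∅ (univ : Set X) where
  isOpen := isOpen_univ
  conn := isConnected_univ
  inv := fun _ _ _ _ => mem_univ _
  cocompact := ⟨univ, subset_rfl, isCompact_univ, fun _ _ =>
    ⟨1, ⟨fun _ => one_ne_zero, fun _ _ => rfl⟩, mem_univ _⟩⟩
  proper := fun _ _ _ => ⟨1, fun a ha _ _ _ c => by
    rw [ha.2 c (Finset.notMem_empty c)]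
    simp⟩

/-- Components over `X`. PROOF. `exists_fourier_wt` (GT/FourC.lean) for `U = univ` and `S` gives for
each `ν` the component `sν` of `T_{S + i}`-weight `update χ i ν`, with `sν.f = fco s i ν`. By
`weights_bounded` (GT/FourD.lean) for `good_univ`, `S = ∅` (`OfWt` on `insert i ∅ = {i}` follows from
`OfWt` on `insert i S` by `OfWt.mono_S`; only the coordinate `i` of the weight matters there,
`OfWt.congr_wt`) there is `B` with `sν = 0` for `|ν| > B`. Then `fco_sum` with `Ξ = Finset.Icc (-B) B`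
(for `ν ∉ Ξ`, `fco .. = sν.f .. = 0` by `nz_iff`). Compare `exists_components` in GT/FourD.lean and
`gt_components` in GT/Iface.lean. -/
theorem gt_components_univ {i : Fin r} (hi : i ∉ S) (s : Sec2 L P K J m univ)
    (hs : OfWt ΛL ΛP S χ s) : ∃ (T : Finset ℤ) (t : ℤ → Sec2 L P K J m univ),
      (∀ c, OfWt ΛL ΛP (insert i S) (fun d => if d = i then c else χ d) (t c)) ∧
      ∀ i₁ j φ x, At L P i₁ j φ x → s.f i₁ j φ x = ∑ c ∈ T, (t c).f i₁ j φ x := by
  have hG : Good A ∅ (univ : Set X) := good_univ A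
  obtain ⟨B, hB⟩ := weights_bounded hG (Finset.notMem_empty i) χ L P ΛL ΛP K J m
  have hex := fun ν => exists_fourier_wt ΛL ΛP hG.isOpen hG.inv hi s hs ν
  choose sν hwt hval using hex
  have hout : ∀ ν, ν ∉ Finset.Icc (-B) B → B < |ν| := by
    intro ν hν
    rw [Finset.mem_Icc, not_and_or, not_le, not_le] at hν
    rcases hν with h | h
    · exact lt_of_lt_of_le (by linarith) (neg_le_abs ν)
    · exact lt_of_lt_of_le h (le_abs_self ν)
  refine ⟨Finset.Icc (-B) B, sν, fun c => ?_, fun i₁ j φ x hat => ?_⟩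
  · have e : (fun d => if d = i then c else χ d) = Function.update χ i c := by
      funext d
      rw [Function.update_apply]
    rw [e]
    exact hwt c
  · have hx : x ∈ (univ : Set X) := mem_univ x
    have h0 : ∀ ν, ν ∉ Finset.Icc (-B) B → fco ΛL ΛP s i ν i₁ j φ x = 0 := by
      intro ν hν
      have hsub : insert i (∅ : Finset (Fin r)) ⊆ insert i S :=
        Finset.insert_subset_insert i (Finset.empty_subset S)
      have h1 := hB ν (hout ν hν) (sν ν)
        (fun a ha => hwt ν a ⟨ha.1, fun c hc => ha.2 c fun h => hc (hsub h)⟩) x hx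
      rw [(sν ν).nz_iff hx hat, not_not, hval ν i₁ j φ x hx hat] at h1
      exact h1
    rw [fco_sum ΛL ΛP hG.isOpen hG.inv s i _ hx hat h0]
    exact Finset.sum_congr rfl fun ν _ => (hval ν i₁ j φ x hx hat).symm

end Pool.Agent.Abd
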