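import Pool.Agent.H.MP_e23cd6_ag.GT.LvlG
import Pool.Agent.H.MP_e23cd6_ag.GT.IfaceU

/-! MP_e23cd6_ag, torus actions: weight sections over `X` and limits of one-parameter subgroups. -/

set_option autoImplicit false

open scoped Manifold ContDiff Topology ENNReal
open MeasureTheory Set Filter

namespace Pool.Agent.Abd

variable {E : Type} [NormedAddCommGroup E] [NormedSpace ℂ E] [FiniteDimensional ℂ E] {r : ℕ}
  {X : Type} [TopologicalSpace X] [ChartedSpace E X] [IsManifold 𝓘(ℂ, E) ω X] [T2Space X]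
  {L P : LineBundle E X} {A : TorusAction E r X}
  {ΛL : Linearization A L} {ΛP : Linearization A P} {S : Finset (Fin r)} {U : Set X}
  {K J m : ℕ} [CompactSpace X] [ConnectedSpace X]

/-- For `S = ∅` the weight condition is void. PROOF. `InTS ∅ a` means `a = 1`; `A.one`, `ΛL.one`,
`ΛP.one`, `chr χ 1 = 1`, `A.jac φ ψ 1 x = jac φ ψ x` (`A.act 1 = id`, unfold), and `s.trans`. -/
theorem ofWt_empty (s : Sec2 L P K J m U) (χ : Fin r → ℤ) : OfWt ΛL ΛP ∅ χ s := by
  intro a ha i j i' j' φ hφ ψ hψ x hx hax h1 h2 h3 h4 h5 h6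
  have e : a = 1 := funext fun c => ha.2 c (Finset.notMem_empty c)
  subst e
  have e1 : A.act 1 = id := funext A.one
  have e2 : A.act 1 x = x := A.one x
  rw [e2] at h1 h2 h5
  have hchr : chr χ (1 : Fin r → ℂ) = 1 := by simp [chr]
  have hjac : A.jac φ ψ 1 x = jac φ ψ x := by
    unfold TorusAction.jac jac
    rw [e1]
    rfl
  rw [hchr, one_mul, hjac, e2, ΛL.one i i' x h1 h3, ΛP.one j j' x h2 h4]
  exact s.trans i j i' j' φ hφ ψ hψ x hx h1 h2 h3 h4 h5 h6

/-- PROOF. By induction on `S` there is a section of `T_S`-weight for some `χ` which does not vanish at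
`x`: start with `ofWt_empty`; for `insert i S`, `i ∉ S`, use `gt_components_univ` and
`Finset.exists_ne_zero_of_sum_ne_zero` (frames at `x`: `exists_at`, `nz_iff`). -/
theorem exists_full_weight (ΛL : Linearization A L) (ΛP : Linearization A P)
    (s : Sec2 L P K J m univ) {x : X} (h : s.NZ x) :
    ∃ (χ : Fin r → ℤ) (t : Sec2 L P K J m univ), OfWt ΛL ΛP Finset.univ χ t ∧ t.NZ x := by
  classical
  have key : ∀ S : Finset (Fin r), ∃ (χ : Fin r → ℤ) (t : Sec2 L P K J m univ),
      OfWt ΛL ΛP S χ t ∧ t.NZ x := by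
    intro S
    induction S using Finset.induction_on with
    | empty => exact ⟨0, s, ofWt_empty s 0, h⟩
    | insert i S hi ih =>
      obtain ⟨χ, t, ht, hn⟩ := ih
      obtain ⟨T, t', ht', hsum⟩ := gt_components_univ hi t ht
      obtain ⟨i₁, j, hat⟩ := exists_at L P x
      have h0 := (t.nz_iff (mem_univ x) hat).1 hn
      rw [hsum i₁ j _ x hat] at h0
      obtain ⟨c, _, hne⟩ := Finset.exists_ne_zero_of_sum_ne_zero h0
      exact ⟨_, t' c, ht' c, ((t' c).nz_iff (mem_univ x) hat).2 hne⟩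
  exact key Finset.univ

/-- PROOF. `exists_full_weight` at each point and compactness of `X` (`Sec2.nz_open`). -/
theorem exists_full_family (ΛL : Linearization A L) (ΛP : Linearization A P)
    (h : ∀ x : X, ∃ s : Sec2 L P K J m univ, s.NZ x) :
    ∃ (n : ℕ) (w : Fin n → Fin r → ℤ) (t : Fin n → Sec2 L P K J m univ),
      (∀ b, OfWt ΛL ΛP Finset.univ (w b) (t b)) ∧ ∀ x, ∃ b, (t b).NZ x := by
  classical
  have h' : ∀ x : X, ∃ (χ : Fin r → ℤ) (t : Sec2 L P K J m univ),
      OfWt ΛL ΛP Finset.univ χ t ∧ t.NZ x := by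
    intro x
    obtain ⟨s, hs⟩ := h x
    exact exists_full_weight ΛL ΛP s hs
  choose χ t ht using h'
  obtain ⟨T, -, hT⟩ := (isCompact_univ (X := X)).elim_nhds_subcover
    (fun x => {y | y ∈ univ ∧ (t x).NZ y})
    (fun x _ => (t x).nz_open isOpen_univ (mem_univ x) (ht x).2)
  refine ⟨T.card, fun b => χ (T.equivFin.symm b), fun b => t (T.equivFin.symm b),
    fun b => (ht _).1, fun x => ?_⟩
  have h1 := hT (mem_univ x)
  rw [mem_iUnion₂] at h1
  obtain ⟨y, hy, h2⟩ := h1
  refine ⟨T.equivFin ⟨y, hy⟩, ?_⟩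
  beta_reduce
  rw [Equiv.symm_apply_apply]
  exact h2.2

end Pool.Agent.Abd
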