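import Pool.Agent.H.MP_e23cd6_ag.GT.ConvA

/-! MP_e23cd6_ag, torus actions: weight sections over `X` and limits of one-parameter subgroups. -/

set_option autoImplicit false

open scoped Manifold ContDiff Topology ENNReal
open MeasureTheory Set Filter

namespace Pool.Agent.Abd

variable {E : Type} [NormedAddCommGroup E] [NormedSpace ℂ E] [FiniteDimensional ℂ E] {r : ℕ}
  {X : Type} [TopologicalSpace X] [ChartedSpace E X] [IsManifold 𝓘(ℂ, E) ω X] [T2Space X]
  {L P : LineBundle E X} {A : TorusAction E r X}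
  {ΛL : Linearization A L} {ΛP : Linearization A P} {S : Finset (Fin r)} {U : Set X}
  {K J m : ℕ} [CompactSpace X] [ConnectedSpace X]

/-- The character of `w` on a one-parameter subgroup. -/
theorem conva2_chr (l w : Fin r → ℤ) (n : ℕ) :
    chr w (fun c => (2 : ℂ) ^ ((n : ℤ) * l c)) = (2 : ℂ) ^ ((n : ℤ) * ∑ c, w c * l c) := by
  unfold chr
  have e : ∀ T : Finset (Fin r), ∏ c ∈ T, ((2 : ℂ) ^ ((n : ℤ) * l c)) ^ (w c) =
      (2 : ℂ) ^ ((n : ℤ) * ∑ c ∈ T, w c * l c) := by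
    classical
    intro T
    induction T using Finset.induction_on with
    | empty => simp
    | insert b T' hb ih =>
      rw [Finset.prod_insert hb, Finset.sum_insert hb, ih, ← zpow_mul, ← zpow_add₀ two_ne_zero]
      congr 1
      ring
  exact e Finset.univ

theorem conva2_norm (l w : Fin r → ℤ) (n : ℕ) :
    ‖chr w (fun c => (2 : ℂ) ^ ((n : ℤ) * l c))‖ = (2 : ℝ) ^ ((n : ℤ) * ∑ c, w c * l c) := by
  rw [conva2_chr, norm_zpow, Complex.norm_ofNat]

/-- LIMITS. For a one-parameter subgroup `l` and a point `x` there is a limit point `y` of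
`(2 ^ (n l c))_c x`, `n → ∞`: a weight section which does not vanish at `y` does not vanish at `x`, and
its weight has the smallest pairing with `l` among the weight sections of the same degree which do
not vanish at `x`.

PROOF. `a n = fun c => (2 : ℂ) ^ ((n : ℤ) * l c)`, `n : ℕ`. Let `G ≤ atTop` be an ultrafilter on `ℕ` and `y`
the limit of `A.act (a n) x` along `G` (`X` compact). Frames `i j φ` at `y` (`exists_at`, valid near `y`:
`At.eventually`) and `i' j' ψ` at `x`. For `v` of weight `w`, `v.NZ y`: `v.f i j φ (a n x) → v.f i j φ y ≠ 0`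
along `G`, so `v.NZ (a n x)` for some `n` and `v.NZ x` (`OfWt.nz_act`). For `u`, `v` of the same degree
the rule (`OfWt.rule`, `m = 0`) gives for `G`-many `n`, with `f = .f i j φ (a n x)` and the values at `x`:
`chr w_u (a n) * u(a n x) * v(x) = Λ u(x) v(x) = chr w_v (a n) * v(a n x) * u(x)`, and
`‖chr w (a n)‖ = 2 ^ (n * ∑ c, w c * l c)`. So
`‖u(a n x)‖ ‖v(x)‖ = 2 ^ (n (⟨w_v, l⟩ - ⟨w_u, l⟩)) ‖v(a n x)‖ ‖u(x)‖`. If `⟨w_v, l⟩ > ⟨w_u, l⟩` the right hand side
tends to infinity along `G`, and the left hand side converges: contradiction. -/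
theorem exists_limit (ΛL : Linearization A L) (ΛP : Linearization A P) (l : Fin r → ℤ) (x : X) :
    ∃ y : X, (∀ (K J : ℕ) (w : Fin r → ℤ) (v : Sec2 L P K J 0 univ),
        OfWt ΛL ΛP Finset.univ w v → v.NZ y → v.NZ x) ∧
      ∀ (K J : ℕ) (w w' : Fin r → ℤ) (v u : Sec2 L P K J 0 univ),
        OfWt ΛL ΛP Finset.univ w v → OfWt ΛL ΛP Finset.univ w' u → v.NZ y → u.NZ x →
        ∑ c, w c * l c ≤ ∑ c, w' c * l c := by
  have ha : ∀ n : ℕ, InTS Finset.univ (fun c => (2 : ℂ) ^ ((n : ℤ) * l c)) := fun n =>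
    ⟨fun c => zpow_ne_zero _ two_ne_zero, fun c hc => absurd (Finset.mem_univ c) hc⟩
  have hG : ((hyperfilter ℕ : Ultrafilter ℕ) : Filter ℕ) ≤ atTop := Nat.hyperfilter_le_atTop
  obtain ⟨y, hy⟩ : ∃ y, Tendsto (fun n : ℕ => A.act (fun c => (2 : ℂ) ^ ((n : ℤ) * l c)) x)
      (hyperfilter ℕ : Ultrafilter ℕ) (𝓝 y) :=
    ⟨_, ((hyperfilter ℕ).map (fun n : ℕ => A.act (fun c => (2 : ℂ) ^ ((n : ℤ) * l c)) x)).le_nhds_lim⟩
  obtain ⟨i, j, hat⟩ := exists_at L P y
  obtain ⟨i', j', hat'⟩ := exists_at L P x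
  have hAt := hy.eventually hat.eventually
  have hlim : ∀ (K J : ℕ) (v : Sec2 L P K J 0 univ),
      Tendsto (fun n : ℕ => v.f i j (chartAt E y) (A.act (fun c => (2 : ℂ) ^ ((n : ℤ) * l c)) x))
        (hyperfilter ℕ : Ultrafilter ℕ) (𝓝 (v.f i j (chartAt E y) y)) := fun K J v =>
    (v.hol' (mem_univ y) hat).continuousAt.tendsto.comp hy
  have hfirst : ∀ (K J : ℕ) (w : Fin r → ℤ) (v : Sec2 L P K J 0 univ),
      OfWt ΛL ΛP Finset.univ w v → v.NZ y → v.NZ x := by
    intro K J w v hv hvy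
    rw [v.nz_iff (mem_univ y) hat] at hvy
    obtain ⟨n, h1, h2⟩ := (((hlim K J v).eventually_ne hvy).and hAt).exists
    rw [← OfWt.nz_act hv (ha n) (mem_univ x) (mem_univ _), v.nz_iff (mem_univ _) h2]
    exact h1
  refine ⟨y, hfirst, ?_⟩
  intro K J w w' v u hv hu hvy hux
  have hvx := hfirst K J w v hv hvy
  rw [v.nz_iff (mem_univ y) hat] at hvy
  rw [v.nz_iff (mem_univ x) hat'] at hvx
  rw [u.nz_iff (mem_univ x) hat'] at hux
  by_contra hlt
  rw [not_le] at hlt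
  have hd : 0 < ∑ c, w c * l c - ∑ c, w' c * l c := sub_pos.2 hlt
  -- the left hand side converges
  have hL : Tendsto (fun n : ℕ => ‖u.f i j (chartAt E y)
      (A.act (fun c => (2 : ℂ) ^ ((n : ℤ) * l c)) x)‖ * ‖v.f i' j' (chartAt E x) x‖)
      (hyperfilter ℕ : Ultrafilter ℕ)
      (𝓝 (‖u.f i j (chartAt E y) y‖ * ‖v.f i' j' (chartAt E x) x‖)) :=
    (hlim K J u).norm.mul_const _
  -- the right hand side tends to infinity
  have h2 : Tendsto (fun n : ℕ =>
      (2 : ℝ) ^ ((n : ℤ) * (∑ c, w c * l c - ∑ c, w' c * l c))) atTop atTop := by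
    obtain ⟨d, hd'⟩ := Int.eq_ofNat_of_zero_le hd.le
    have hd0 : d ≠ 0 := by
      intro h0
      rw [hd', h0] at hd
      exact absurd hd (by simp)
    have h3 : Tendsto (fun n : ℕ => (2 : ℝ) ^ (n * d)) atTop atTop :=
      (tendsto_pow_atTop_atTop_of_one_lt one_lt_two).comp
        (tendsto_id.atTop_mul_const' (Nat.pos_of_ne_zero hd0))
    refine h3.congr fun n => ?_
    rw [hd', ← Nat.cast_mul, zpow_natCast]
  have hR : Tendsto (fun n : ℕ => (2 : ℝ) ^ ((n : ℤ) * (∑ c, w c * l c - ∑ c, w' c * l c)) *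
      (‖v.f i j (chartAt E y) (A.act (fun c => (2 : ℂ) ^ ((n : ℤ) * l c)) x)‖ *
        ‖u.f i' j' (chartAt E x) x‖)) (hyperfilter ℕ : Ultrafilter ℕ) atTop :=
    (h2.mono_left hG).atTop_mul_pos
      (mul_pos (norm_pos_iff.2 hvy) (norm_pos_iff.2 hux)) ((hlim K J v).norm.mul_const _)
  refine not_tendsto_nhds_of_tendsto_atTop hR _ (hL.congr' ?_)
  filter_upwards [hAt] with n hn
  have e1 := hu.rule (ha n) (mem_univ x) (mem_univ _) hn hat'
  have e2 := hv.rule (ha n) (mem_univ x) (mem_univ _) hn hat'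
  have e3 : chr w' (fun c => (2 : ℂ) ^ ((n : ℤ) * l c)) *
      (u.f i j (chartAt E y) (A.act (fun c => (2 : ℂ) ^ ((n : ℤ) * l c)) x) *
        v.f i' j' (chartAt E x) x) =
      chr w (fun c => (2 : ℂ) ^ ((n : ℤ) * l c)) *
      (v.f i j (chartAt E y) (A.act (fun c => (2 : ℂ) ^ ((n : ℤ) * l c)) x) *
        u.f i' j' (chartAt E x) x) := by
    linear_combination (v.f i' j' (chartAt E x) x) * e1 - (u.f i' j' (chartAt E x) x) * e2
  have e4 := congrArg norm e3
  rw [norm_mul, norm_mul, norm_mul, norm_mul, conva2_norm, conva2_norm] at e4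
  have e5 : (2 : ℝ) ^ ((n : ℤ) * (∑ c, w c * l c - ∑ c, w' c * l c)) *
      (2 : ℝ) ^ ((n : ℤ) * ∑ c, w' c * l c) = (2 : ℝ) ^ ((n : ℤ) * ∑ c, w c * l c) := by
    rw [← zpow_add₀ two_ne_zero]
    congr 1
    ring
  have e6 : (2 : ℝ) ^ ((n : ℤ) * ∑ c, w' c * l c) ≠ 0 := zpow_ne_zero _ two_ne_zero
  apply mul_left_cancel₀ e6
  rw [e4, ← e5]
  ring

end Pool.Agent.Abd
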