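import Pool.Agent.H.MP_e23cd6_ag.GT.ConvA2

/-! MP_e23cd6_ag, torus actions: if `L` is semiample on `X` then the nef line bundles `L ^ K`, `χ` on
the quotients `U / T` are semiample. -/

set_option autoImplicit false

open scoped Manifold ContDiff Topology ENNReal
open MeasureTheory Set Filter

namespace Pool.Agent.Abd

variable {E : Type} [NormedAddCommGroup E] [NormedSpace ℂ E] [FiniteDimensional ℂ E] {r : ℕ}
  {X : Type} [TopologicalSpace X] [ChartedSpace E X] [IsManifold 𝓘(ℂ, E) ω X] [T2Space X]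
  {L P : LineBundle E X} {A : TorusAction E r X}
  {ΛL : Linearization A L} {ΛP : Linearization A P} {U : Set X} [CompactSpace X]
  [ConnectedSpace X]

theorem cb_nz_pow {K J m : ℕ} {U : Set X} (s : Sec2 L P K J m U) (n : ℕ) {x : X} (hx : x ∈ U)
    (h : s.NZ x) : (s.pow n).NZ x := by
  obtain ⟨i, j, hat⟩ := exists_at L P x
  rw [(s.pow n).nz_iff hx hat]
  exact pow_ne_zero n ((s.nz_iff hx hat).1 h)

theorem cb_arith {l₀ l₁ K K' J' q N : ℕ} (hq : 1 ≤ q) {W T X₁ X₂ : ℤ}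
    (h : ((l₁ * (q * (N * K + K')) : ℕ) : ℤ) * W + ((l₀ * (q * J') : ℕ) : ℤ) * T ≤
      ((l₀ * l₁ : ℕ) : ℤ) * ((q : ℤ) * (N * X₁ + X₂))) :
    (l₁ : ℤ) * (N * K + K') * W + l₀ * J' * T ≤ l₀ * l₁ * (N * X₁ + X₂) := by
  have hq0 : (0 : ℤ) < q := by exact_mod_cast hq
  refine le_of_mul_le_mul_left ?_ hq0
  push_cast at h
  linarith

theorem cb_arith2 {l₀ l₁ K K' J' : ℕ} (hl₁ : 1 ≤ l₁) {W T X₁ X₂ : ℤ}
    (h : ∀ N : ℕ, 1 ≤ N →
      (l₁ : ℤ) * (N * K + K') * W + l₀ * J' * T ≤ l₀ * l₁ * (N * X₁ + X₂)) :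
    (K : ℤ) * W ≤ l₀ * X₁ := by
  by_contra hc
  rw [not_le] at hc
  have h1 : (l₀ : ℤ) * X₁ + 1 ≤ K * W := hc
  have hM : ∃ M : ℤ, M = l₀ * l₁ * X₂ - l₁ * K' * W - l₀ * J' * T := ⟨_, rfl⟩
  obtain ⟨M, hM⟩ := hM
  have h2 := h (M.natAbs + 1) (by omega)
  have hN : ((M.natAbs + 1 : ℕ) : ℤ) = |M| + 1 := by
    push_cast
    rw [Int.abs_eq_natAbs]
  rw [hN] at h2
  have hl : (1 : ℤ) ≤ l₁ := by exact_mod_cast hl₁
  have h3 : 0 ≤ |M| := abs_nonneg M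
  have h4 : M ≤ |M| := le_abs_self M
  have h5 : (l₁ : ℤ) * (|M| + 1) * (l₀ * X₁ + 1) ≤ l₁ * (|M| + 1) * (K * W) :=
    mul_le_mul_of_nonneg_left h1 (by positivity)
  have h6 : (|M| + 1) * 1 ≤ (|M| + 1) * (l₁ : ℤ) := mul_le_mul_of_nonneg_left hl (by positivity)
  nlinarith

/-- The weight `l₀ χ` lies in the polytope `K conv (w b)`, tested with the integer vector `l`.

PROOF. `y` from `exists_limit` for `l` and `x`. Some `b` has `(t b).NZ y`, so `(t b).NZ x`. By `hP` and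
`exists_full_weight` there is a weight section `p` of `P ^ l₁` of weight `τ`, `p.NZ y`. Let `K', J', χ'` be
given by `hN`. For `N ≥ 1`, `SemiG` gives `q ≥ 1` and a section `u` of degree
`(q (N K + K'), q J')` of weight `q (N χ + χ')`, `u.NZ x`. The sections `u ^ (l₀ l₁)` and
`(t b) ^ (l₁ q (N K + K')) * p ^ (l₀ q J')` have the same degree (`Sec2.pow`, `Sec2.mul`, `Sec2.cast`) and
the second one does not vanish at `y`, so by `exists_limit` (divide by `q > 0`)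
`l₁ (N K + K') ⟨w b, l⟩ + l₀ J' ⟨τ, l⟩ ≤ l₀ l₁ (N ⟨χ, l⟩ + ⟨χ', l⟩)` for all `N ≥ 1`
(`b`, `τ`, `K'`, `J'`, `χ'` do not depend on `N`). If `K ⟨w b, l⟩ > l₀ ⟨χ, l⟩`, i.e. `≥ l₀ ⟨χ, l⟩ + 1`, a large `N`
gives a contradiction. -/
theorem exists_le_pair {l₀ : ℕ} (hl₀ : 1 ≤ l₀) {n : ℕ} {w : Fin n → Fin r → ℤ}
    {t : Fin n → Sec2 L P l₀ 0 0 univ} (ht : ∀ b, OfWt ΛL ΛP Finset.univ (w b) (t b))
    (hgen : ∀ x, ∃ b, (t b).NZ x) {l₁ : ℕ} (hl₁ : 1 ≤ l₁)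
    (hP : ∀ x : X, ∃ s : Sec2 L P 0 l₁ 0 univ, s.NZ x) {K : ℕ} {χ : Fin r → ℤ}
    (hN : NefG ΛL ΛP Finset.univ U K χ) {x : X} (hx : x ∈ U) (l : Fin r → ℤ) :
    ∃ b, (t b).NZ x ∧ (K : ℤ) * ∑ c, w b c * l c ≤ l₀ * ∑ c, χ c * l c := by
  obtain ⟨y, hy1, hy2⟩ := exists_limit (A := A) ΛL ΛP l x
  obtain ⟨b, hb⟩ := hgen y
  obtain ⟨s, hs⟩ := hP y
  obtain ⟨τ, p, hp, hpy⟩ := exists_full_weight ΛL ΛP s hs
  obtain ⟨K', J', χ', -, hN⟩ := hN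
  refine ⟨b, hy1 _ _ _ _ (ht b) hb, ?_⟩
  refine cb_arith2 (l₁ := l₁) (K' := K') (J' := J') (T := ∑ c, τ c * l c)
    (X₂ := ∑ c, χ' c * l c) hl₁ fun N hN1 => ?_
  obtain ⟨q, hq, hsec⟩ := hN N hN1
  obtain ⟨u, hu, hux⟩ := hsec x hx
  refine cb_arith hq ?_
  have hK1 : l₁ * (q * (N * K + K')) * l₀ + l₀ * (q * J') * 0 =
      l₀ * l₁ * (q * (N * K + K')) := by ring
  have hJ1 : l₁ * (q * (N * K + K')) * 0 + l₀ * (q * J') * l₁ = l₀ * l₁ * (q * J') := by ring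
  have h1 := hy2 _ _ _ _ ((((t b).pow (l₁ * (q * (N * K + K')))).mul
      (p.pow (l₀ * (q * J')))).cast hK1 hJ1 (by simp : _ = 0))
    ((u.pow (l₀ * l₁)).cast rfl rfl (by simp : _ = 0))
    (((OfWt.pow (ht b) _).mul (hp.pow _)).cast hK1 hJ1 (by simp))
    ((hu.pow _).cast rfl rfl (by simp))
    (by
      rw [Sec2.nz_cast, Sec2.nz_mul _ _ (mem_univ _)]
      exact ⟨cb_nz_pow _ _ (mem_univ _) hb, cb_nz_pow _ _ (mem_univ _) hpy⟩)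
    (by
      rw [Sec2.nz_cast]
      exact cb_nz_pow _ _ (mem_univ _) hux)
  have e1 : ∑ c, ((fun c => ((l₁ * (q * (N * K + K')) : ℕ) : ℤ) * w b c) +
      fun c => ((l₀ * (q * J') : ℕ) : ℤ) * τ c) c * l c =
      ((l₁ * (q * (N * K + K')) : ℕ) : ℤ) * ∑ c, w b c * l c +
        ((l₀ * (q * J') : ℕ) : ℤ) * ∑ c, τ c * l c := by
    rw [Finset.mul_sum, Finset.mul_sum, ← Finset.sum_add_distrib]
    refine Finset.sum_congr rfl fun c _ => ?_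
    show (((l₁ * (q * (N * K + K')) : ℕ) : ℤ) * w b c +
      ((l₀ * (q * J') : ℕ) : ℤ) * τ c) * l c = _
    ring
  have e2 : ∑ c, (((l₀ * l₁ : ℕ) : ℤ) * ((q : ℤ) * (N * χ c + χ' c))) * l c =
      ((l₀ * l₁ : ℕ) : ℤ) * ((q : ℤ) * (N * ∑ c, χ c * l c + ∑ c, χ' c * l c)) := by
    rw [Finset.mul_sum, ← Finset.sum_add_distrib, Finset.mul_sum, Finset.mul_sum]
    refine Finset.sum_congr rfl fun c _ => ?_
    ring
  calc _ = _ := e1.symm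
    _ ≤ _ := h1
    _ = _ := e2

end Pool.Agent.Abd
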