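import Pool.Agent.H.MP_e23cd6_ag.GT.ConvB
import Pool.Agent.H.MP_e23cd6_ag.TB.PFark

/-! MP_e23cd6_ag, torus actions: if `L` is semiample on `X` then the nef line bundles `L ^ K`, `χ` on
the quotients `U / T` are semiample. -/

set_option autoImplicit false

open scoped Manifold ContDiff Topology ENNReal
open MeasureTheory Set Filter

namespace Pool.Agent.Abd

variable {E : Type} [NormedAddCommGroup E] [NormedSpace ℂ E] [FiniteDimensional ℂ E] {r : ℕ}
  {X : Type} [TopologicalSpace X] [ChartedSpace E X] [IsManifold 𝓘(ℂ, E) ω X] [T2Space X]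
  {L P : LineBundle E X} {A : TorusAction E r X}
  {ΛL : Linearization A L} {ΛP : Linearization A P} {U : Set X} [CompactSpace X]
  [ConnectedSpace X]

/-- THE EASY DIRECTION.

PROOF. `exists_full_family` for `L ^ l₀`: sections `t b` of weights `w b`. By `SemiQ.of_local` it suffices
to consider one point `x ∈ U`. Let `W` be the finite set of the `w b` with `(t b).NZ x`. By `exists_le_pair`
for `-l`: for every `l` there is `w ∈ W` with `l₀ ⟨χ, l⟩ ≤ K ⟨w, l⟩`. `farkas_int` (for `l₀ χ` and `p = K`)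
gives `N ≥ 1` and `ν` with `∑ ν w = N K` and `N l₀ χ = ∑ ν w w`. Choose for each `w ∈ W` a `b(w)` with `w b = w`,
`(t b).NZ x`; the monomial `∏ (t (b w)) ^ (ν w)` (`Sec2.mono`, `OfWt.mono`) is a section of
`L ^ (N K l₀)` of weight `N l₀ χ` which does not vanish at `x`; cast `N K l₀ = (N l₀) K` and restrict to
`U`. -/
theorem SemiQ.of_semiample (hG : Good A Finset.univ U) {l₀ : ℕ} (hl₀ : 1 ≤ l₀)
    (hL : ∀ x : X, ∃ s : Sec2 L P l₀ 0 0 univ, s.NZ x) {l₁ : ℕ} (hl₁ : 1 ≤ l₁)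
    (hP : ∀ x : X, ∃ s : Sec2 L P 0 l₁ 0 univ, s.NZ x) {K : ℕ} {χ : Fin r → ℤ}
    (hN : NefG ΛL ΛP Finset.univ U K χ) : SemiQ ΛL ΛP Finset.univ U K 0 χ := by
  classical
  obtain ⟨n, w, t, ht, hgen⟩ := exists_full_family ΛL ΛP hL
  refine SemiQ.of_local hG (fun x hx => ?_)
  obtain ⟨b₀, hb₀⟩ := hgen x
  obtain ⟨N, ν, hN1, hν, hνχ⟩ := farkas_int
      ((Finset.univ.filter (fun b => (t b).NZ x)).image w) (fun c => (l₀ : ℤ) * χ c) K (by
    intro l
    obtain ⟨b, hb, hle⟩ := exists_le_pair hl₀ ht hgen hl₁ hP hN hx (fun c => - l c)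
    refine ⟨w b, Finset.mem_image.2 ⟨b, Finset.mem_filter.2 ⟨Finset.mem_univ _, hb⟩, rfl⟩, ?_⟩
    simp only [mul_neg, Finset.sum_neg_distrib] at hle
    have e : ∑ c, (l₀ : ℤ) * χ c * l c = l₀ * ∑ c, χ c * l c := by
      rw [Finset.mul_sum]
      exact Finset.sum_congr rfl fun c _ => by ring
    rw [e]
    linarith)
  set W : Finset (Fin r → ℤ) := (Finset.univ.filter (fun b => (t b).NZ x)).image w with hW
  have hch : ∀ v : Fin r → ℤ, ∃ b, v ∈ W → w b = v ∧ (t b).NZ x := by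
    intro v
    by_cases hv : v ∈ W
    · obtain ⟨b, hb, hbv⟩ := Finset.mem_image.1 hv
      exact ⟨b, fun _ => ⟨hbv, (Finset.mem_filter.1 hb).2⟩⟩
    · exact ⟨b₀, fun h => absurd h hv⟩
  choose b hb using hch
  have hl : 1 ≤ N * l₀ := Nat.mul_pos hN1 hl₀
  have e1 : N * K * l₀ = N * l₀ * K := by ring
  have e2 : N * K * 0 = N * l₀ * 0 := by ring
  have e3 : N * K * 0 = 0 := by ring
  have hwt : OfWt ΛL ΛP Finset.univ (fun c => ((N * l₀ : ℕ) : ℤ) * χ c)
      (Sec2.mono W (fun v => t (b v)) ν (N * K) hν) := by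
    refine OfWt.mono (w := fun v => v) (fun v hv => ?_) ν (N * K) hν (fun c _ => ?_)
    · have h1 := ht (b v)
      rw [(hb v hv).1] at h1
      exact h1
    · rw [← hνχ c]
      push_cast
      ring
  have hnz : (Sec2.mono W (fun v => t (b v)) ν (N * K) hν).NZ x := by
    obtain ⟨i, j, h⟩ := exists_at L P x
    rw [Sec2.nz_iff _ (mem_univ x) h]
    show ∏ v ∈ W, (t (b v)).f i j (chartAt E x) x ^ ν v ≠ 0
    exact Finset.prod_ne_zero_iff.2 fun v hv =>
      pow_ne_zero _ (((t (b v)).nz_iff (mem_univ x) h).1 (hb v hv).2)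
  exact ⟨N * l₀, hl, ((Sec2.mono W (fun v => t (b v)) ν (N * K) hν).cast e1 e2 e3).res
    (subset_univ U), (hwt.cast e1 e2 e3).res (subset_univ U), hnz⟩

end Pool.Agent.Abd
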