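import Pool.Agent.H.MP_e23cd6_ag.TB.SecV

/-! MP_e23cd6_ag (abundance conjecture), torus actions: the definitions. `X` is a complex manifold
with an action of the torus `T = (ℂ^*)^r`. For a set `S` of coordinates `T_S` is the subtorus of
the `a` with `a c = 1` for all `c ∉ S`. For an open set `U` on which `T_S` acts properly and
cocompactly, `U / T_S` is a compact complex orbifold, and its geometry is described on `U`. -/

set_option autoImplicit false

open scoped Manifold ContDiff Topology ENNReal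
open MeasureTheory Set Filter

namespace Pool.Agent.Abd

/-- The vector `a` is an element of the subtorus `T_S` of `(ℂ^*)^r`. -/
def InTS {r : ℕ} (S : Finset (Fin r)) (a : Fin r → ℂ) : Prop := InT a ∧ ∀ c, c ∉ S → a c = 1

variable {E : Type} [NormedAddCommGroup E] [NormedSpace ℂ E] {r : ℕ}
  {X : Type} [TopologicalSpace X] [ChartedSpace E X]

/-- A holomorphic section of `L ^ K ⊗ P ^ J ⊗ K_X ^ (-m)` over the open set `U`. -/
structure Sec2 (L P : LineBundle E X) (K J m : ℕ) (U : Set X) where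
  f : L.ι → P.ι → OpenPartialHomeomorph X E → X → ℂ
  hol : ∀ i j, ∀ φ ∈ Charts E X, ∀ x ∈ U, x ∈ L.U i → x ∈ P.U j → x ∈ φ.source →
    HolAt E (f i j φ) x
  trans : ∀ i j i' j', ∀ φ ∈ Charts E X, ∀ ψ ∈ Charts E X, ∀ x ∈ U, x ∈ L.U i → x ∈ P.U j →
    x ∈ L.U i' → x ∈ P.U j' → x ∈ φ.source → x ∈ ψ.source →
    f i j φ x = L.g i i' x ^ K * P.g j j' x ^ J * jac φ ψ x ^ m * f i' j' ψ x

variable {L P : LineBundle E X} {K J m : ℕ} {U : Set X}

/-- The section `s` does not vanish at the point `x`. -/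
def Sec2.NZ (s : Sec2 L P K J m U) (x : X) : Prop :=
  ∃ i j, ∃ φ ∈ Charts E X, x ∈ L.U i ∧ x ∈ P.U j ∧ x ∈ φ.source ∧ s.f i j φ x ≠ 0

/-- `|s| ^ (-2/m)` is locally integrable on `U`. -/
def Sec2.Klt [MeasureSpace E] (s : Sec2 L P K J m U) : Prop :=
  ∀ i j, ∀ φ ∈ Charts E X, ∀ x ∈ U, x ∈ L.U i → x ∈ P.U j → x ∈ φ.source →
    ∃ N ∈ 𝓝 (φ x), ∫⁻ z in N, ‖s.f i j φ (φ.symm z)‖ₑ ^ (-(2 : ℝ) / m) < ⊤

variable {A : TorusAction E r X} (ΛL : Linearization A L) (ΛP : Linearization A P)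

/-- The section `s` over the invariant open set `U` has `T_S`-weight `χ`: `a s = χ(a) s` for all
`a ∈ T_S`. -/
def OfWt (S : Finset (Fin r)) (χ : Fin r → ℤ) (s : Sec2 L P K J m U) : Prop :=
  ∀ a, InTS S a → ∀ i j i' j', ∀ φ ∈ Charts E X, ∀ ψ ∈ Charts E X, ∀ x ∈ U, A.act a x ∈ U →
    A.act a x ∈ L.U i → A.act a x ∈ P.U j → x ∈ L.U i' → x ∈ P.U j' → A.act a x ∈ φ.source →
    x ∈ ψ.source → chr χ a * s.f i j φ (A.act a x) =
      ΛL.lam i i' a x ^ K * ΛP.lam j j' a x ^ J * A.jac φ ψ a x ^ m * s.f i' j' ψ x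

/-- `U / T_S` is a compact complex orbifold: `U` is open, connected and `T`-invariant, `U` is the
union of the `T_S`-orbits of a compact set, and `T_S` acts properly on `U`. -/
structure Good (A : TorusAction E r X) (S : Finset (Fin r)) (U : Set X) : Prop where
  isOpen : IsOpen U
  conn : IsConnected U
  inv : ∀ a, InT a → ∀ x ∈ U, A.act a x ∈ U
  cocompact : ∃ C ⊆ U, IsCompact C ∧ ∀ x ∈ U, ∃ a, InTS S a ∧ A.act a x ∈ C
  proper : ∀ C ⊆ U, IsCompact C → ∃ R : ℝ, ∀ a, InTS S a → ∀ x ∈ C, A.act a x ∈ C →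
    ∀ c, ‖a c‖ ≤ R ∧ ‖(a c)⁻¹‖ ≤ R

/-- The line bundle on `U / T_S` whose sections are the sections of `L ^ K ⊗ P ^ J` over `U` of
`T_S`-weight `χ` is semiample. -/
def SemiQ (S : Finset (Fin r)) (U : Set X) (K J : ℕ) (χ : Fin r → ℤ) : Prop :=
  ∃ l : ℕ, 1 ≤ l ∧ ∀ x ∈ U, ∃ s : Sec2 L P (l * K) (l * J) 0 U,
    OfWt ΛL ΛP S (fun c => l * χ c) s ∧ s.NZ x

/-- The line bundle on `U / T_S` given by `L ^ K ⊗ P ^ J` and the weight `χ` is ample: it is
semiample and its powers have sections which separate the points of `U / T_S`. -/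
def AmpleQ (S : Finset (Fin r)) (U : Set X) (K J : ℕ) (χ : Fin r → ℤ) : Prop :=
  SemiQ ΛL ΛP S U K J χ ∧ ∀ x ∈ U, ∀ y ∈ U, (¬ ∃ a, InTS S a ∧ y = A.act a x) →
    ∃ l : ℕ, 1 ≤ l ∧ ∃ s : Sec2 L P (l * K) (l * J) 0 U,
      OfWt ΛL ΛP S (fun c => l * χ c) s ∧ s.NZ x ∧ ¬ s.NZ y

/-- The line bundle on `U / T_S` given by `L ^ K` and the weight `χ` is nef: for some ample line
bundle `H` on `U / T_S`, given by `L ^ K' ⊗ P ^ J'` and the weight `χ'`, the products of all its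
positive powers with `H` are semiample. -/
def NefQ (S : Finset (Fin r)) (U : Set X) (K : ℕ) (χ : Fin r → ℤ) : Prop :=
  ∃ (K' J' : ℕ) (χ' : Fin r → ℤ), AmpleQ ΛL ΛP S U K' J' χ' ∧
    ∀ N : ℕ, 1 ≤ N → SemiQ ΛL ΛP S U (N * K + K') J' (fun c => N * χ c + χ' c)

/-- There is an effective `ℚ`-divisor `N = (1/(mq)) div s` on `Y = U / T_S` with `(Y, N)` klt and
`mq (K_Y + N)` linearly equivalent to `kq` times the line bundle given by `L ^ K` and the weight
`χ`. -/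
def KltQ [MeasureSpace E] (S : Finset (Fin r)) (U : Set X) (K : ℕ) (χ : Fin r → ℤ)
    (k m : ℕ) : Prop :=
  ∃ q : ℕ, 1 ≤ q ∧ ∃ s : Sec2 L P (k * q * K) 0 (m * q) U,
    OfWt ΛL ΛP S (fun c => k * q * χ c) s ∧ s.Klt

end Pool.Agent.Abd
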