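import Pool.Agent.H.MP_e23cd6_ag.GT.DefsG

/-! MP_e23cd6_ag (abundance conjecture), torus actions: line bundles on `U / T_S` which are
semiample, ample or nef by means of sections over the whole of `X`. -/

set_option autoImplicit false

open scoped Manifold ContDiff Topology ENNReal
open MeasureTheory Set Filter

namespace Pool.Agent.Abd

variable {E : Type} [NormedAddCommGroup E] [NormedSpace ℂ E] {r : ℕ}
  {X : Type} [TopologicalSpace X] [ChartedSpace E X] {L P : LineBundle E X}
  {A : TorusAction E r X} (ΛL : Linearization A L) (ΛP : Linearization A P)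

/-- The line bundle on `U / T_S` given by `L ^ K ⊗ P ^ J` and the weight `χ` is semiample by means
of sections over `X`: some power of it is generated by the sections of the corresponding weight of
the power of `L ^ K ⊗ P ^ J` over the whole of `X`. -/
def SemiG (S : Finset (Fin r)) (U : Set X) (K J : ℕ) (χ : Fin r → ℤ) : Prop :=
  ∃ l : ℕ, 1 ≤ l ∧ ∀ x ∈ U, ∃ s : Sec2 L P (l * K) (l * J) 0 univ,
    OfWt ΛL ΛP S (fun c => l * χ c) s ∧ s.NZ x

/-- The line bundle on `U / T_S` given by `L ^ K ⊗ P ^ J` and the weight `χ` is ample by means of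
sections over `X`. -/
def AmpleG (S : Finset (Fin r)) (U : Set X) (K J : ℕ) (χ : Fin r → ℤ) : Prop :=
  SemiG ΛL ΛP S U K J χ ∧ ∀ x ∈ U, ∀ y ∈ U, (¬ ∃ a, InTS S a ∧ y = A.act a x) →
    ∃ l : ℕ, 1 ≤ l ∧ ∃ s : Sec2 L P (l * K) (l * J) 0 univ,
      OfWt ΛL ΛP S (fun c => l * χ c) s ∧ s.NZ x ∧ ¬ s.NZ y

/-- The line bundle on `U / T_S` given by `L ^ K` and the weight `χ` is nef by means of sections
over `X`: for some ample line bundle `H` on `U / T_S`, given by `L ^ K' ⊗ P ^ J'` and the weight
`χ'`, the products of all its positive powers with `H` are semiample by means of sections over `X`. -/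
def NefG (S : Finset (Fin r)) (U : Set X) (K : ℕ) (χ : Fin r → ℤ) : Prop :=
  ∃ (K' J' : ℕ) (χ' : Fin r → ℤ), AmpleG ΛL ΛP S U K' J' χ' ∧
    ∀ N : ℕ, 1 ≤ N → SemiG ΛL ΛP S U (N * K + K') J' (fun c => N * χ c + χ' c)

end Pool.Agent.Abd
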