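import Pool.Agent.H.MP_e23cd6_ag.GT.DefsH

/-! MP_e23cd6_ag (abundance conjecture), torus actions: ample and nef line bundles on `X`. -/

set_option autoImplicit false

open scoped Manifold ContDiff Topology ENNReal
open MeasureTheory Set Filter

namespace Pool.Agent.Abd

variable {E : Type} [NormedAddCommGroup E] [NormedSpace ℂ E]
  {X : Type} [TopologicalSpace X] [ChartedSpace E X]

/-- The line bundle `L ^ N ⊗ P`. -/
noncomputable def LineBundle.powMul (L P : LineBundle E X) (N : ℕ) : LineBundle E X where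
  ι := L.ι × P.ι
  U := fun i => L.U i.1 ∩ P.U i.2
  isOpen := fun i => (L.isOpen i.1).inter (P.isOpen i.2)
  cover := fun x => by
    obtain ⟨i, hi⟩ := L.cover x
    obtain ⟨j, hj⟩ := P.cover x
    exact ⟨(i, j), hi, hj⟩
  g := fun i j x => L.g i.1 j.1 x ^ N * P.g i.2 j.2 x
  hol := fun i j x hx hx' =>
    ((L.hol i.1 j.1 x hx.1 hx'.1).pow N).mul (P.hol i.2 j.2 x hx.2 hx'.2)
  one := fun i x hx => by
    rw [L.one i.1 x hx.1, P.one i.2 x hx.2, one_pow, one_mul]
  mul := fun i j l x hx hx' hx'' => by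
    rw [← L.mul i.1 j.1 l.1 x hx.1 hx'.1 hx''.1, ← P.mul i.2 j.2 l.2 x hx.2 hx'.2 hx''.2]
    ring

/-- The line bundle `P` on the compact manifold `X` is ample: it is semiample and the sections of
its powers separate the points of `X`. -/
def LineBundle.Ample (P : LineBundle E X) : Prop :=
  P.Semiample ∧ ∀ x y : X, x ≠ y → ∃ l : ℕ, 1 ≤ l ∧ ∃ s : PowSec P l,
    (∃ i, x ∈ P.U i ∧ s.f i x ≠ 0) ∧ ∀ i, y ∈ P.U i → s.f i y = 0

/-- The line bundle `L` is nef, in terms of the ample line bundle `P`: all the line bundles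
`L ^ N ⊗ P`, `N ≥ 1`, are semiample (by Kleiman this is the same as nonnegative degree on all
curves). -/
def LineBundle.NefBy (L P : LineBundle E X) : Prop :=
  ∀ N : ℕ, 1 ≤ N → (L.powMul P N).Semiample

end Pool.Agent.Abd
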