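import Mathlib

/-! MP_e23cd6_ag (abundance conjecture), torus actions: abstract dynamics. `Q` is a compact space
with a `ℤ`-action `f`, and `R k j c` are the numerical functions `|u|` of the sections `u` of degree
`k D + j a` and weight `c`. -/

set_option autoImplicit false

open Set Filter Topology

namespace Pool.Agent.Abd.GT

/-- A system of numerical functions of sections on the space `Q` with an action of `ℤ`. -/
structure Sys (Q : Type) [TopologicalSpace Q] where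
  f : ℤ → Q → Q
  f_zero : ∀ x, f 0 x = x
  f_add : ∀ m n x, f (m + n) x = f m (f n x)
  f_cont : ∀ n, Continuous (f n)
  GD : ℤ → Q → ℝ
  Ga : ℤ → Q → ℝ
  GD_pos : ∀ n x, 0 < GD n x
  Ga_pos : ∀ n x, 0 < Ga n x
  GD_add : ∀ m n x, GD (m + n) x = GD m (f n x) * GD n x
  Ga_add : ∀ m n x, Ga (m + n) x = Ga m (f n x) * Ga n x
  GD_cont : ∀ n, Continuous (GD n)
  Ga_cont : ∀ n, Continuous (Ga n)
  R : ℕ → ℕ → ℤ → Set (Q → ℝ)
  nonneg : ∀ k j c, ∀ u ∈ R k j c, ∀ x, 0 ≤ u x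
  cont : ∀ k j c, ∀ u ∈ R k j c, Continuous u
  mul : ∀ k j c k' j' c', ∀ u ∈ R k j c, ∀ v ∈ R k' j' c',
    (fun x => u x * v x) ∈ R (k + k') (j + j') (c + c')
  step : ∀ k j c, ∀ u ∈ R k j c, ∀ n x,
    u (f n x) = (2 : ℝ) ^ (n * c) * GD n x ^ k * Ga n x ^ j * u x
  gen : ∀ N : ℕ, ∃ l : ℕ, 1 ≤ l ∧ ∃ F : Finset (ℤ × (Q → ℝ)),
    (∀ q ∈ F, q.2 ∈ R (N * l) l q.1) ∧ ∀ x, ∃ q ∈ F, 0 < q.2 x
  fix : ∀ z, (∀ l c c', ∀ u ∈ R 0 l c, ∀ u' ∈ R 0 l c', 1 ≤ l → 0 < u z → 0 < u' z → c = c') →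
    f 1 z = z

variable {Q : Type} [TopologicalSpace Q]

/-- The inverse system: `f n` is replaced by `f (-n)` and the weight `c` by `-c`. -/
def Sys.inv (Φ : Sys Q) : Sys Q where
  f := fun n => Φ.f (-n)
  f_zero := fun x => by simpa using Φ.f_zero x
  f_add := fun m n x => by rw [neg_add]; exact Φ.f_add _ _ x
  f_cont := fun n => Φ.f_cont (-n)
  GD := fun n => Φ.GD (-n)
  Ga := fun n => Φ.Ga (-n)
  GD_pos := fun n => Φ.GD_pos (-n)
  Ga_pos := fun n => Φ.Ga_pos (-n)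
  GD_add := fun m n x => by rw [neg_add]; exact Φ.GD_add _ _ x
  Ga_add := fun m n x => by rw [neg_add]; exact Φ.Ga_add _ _ x
  GD_cont := fun n => Φ.GD_cont (-n)
  Ga_cont := fun n => Φ.Ga_cont (-n)
  R := fun k j c => Φ.R k j (-c)
  nonneg := fun k j c => Φ.nonneg k j (-c)
  cont := fun k j c => Φ.cont k j (-c)
  mul := fun k j c k' j' c' u hu v hv => by
    rw [neg_add]
    exact Φ.mul _ _ _ _ _ _ u hu v hv
  step := fun k j c u hu n x => by
    have h := Φ.step k j (-c) u hu (-n) x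
    rw [neg_mul_neg] at h
    exact h
  gen := by
    classical
    intro N
    obtain ⟨l, hl, F, hF, hF'⟩ := Φ.gen N
    refine ⟨l, hl, F.image (fun q => (-q.1, q.2)), ?_, ?_⟩
    · intro q hq
      obtain ⟨q', hq', rfl⟩ := Finset.mem_image.1 hq
      simpa using hF q' hq'
    · intro x
      obtain ⟨q, hq, hq'⟩ := hF' x
      exact ⟨_, Finset.mem_image_of_mem _ hq, hq'⟩
  fix := by
    intro z hz
    have h : Φ.f 1 z = z := by
      apply Φ.fix
      intro l c c' u hu u' hu' hl h1 h2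
      have := hz l (-c) (-c') u (by simpa using hu) u' (by simpa using hu') hl h1 h2
      omega
    have h2 := Φ.f_add (-1) 1 z
    rw [h] at h2
    rw [← h2]
    simpa using Φ.f_zero z

/-- The weight of `D` at the fixed point `z`. -/
noncomputable def Sys.b (Φ : Sys Q) (z : Q) : ℝ := -Real.logb 2 (Φ.GD 1 z)

/-- The weight of `a` at the fixed point `z`. -/
noncomputable def Sys.a (Φ : Sys Q) (z : Q) : ℝ := -Real.logb 2 (Φ.Ga 1 z)

theorem Sys.f_neg_one_of_fixed (Φ : Sys Q) {z : Q} (h : Φ.f 1 z = z) : Φ.f (-1) z = z := by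
  have h2 := Φ.f_add (-1) 1 z
  rw [h] at h2
  rw [← h2]
  simpa using Φ.f_zero z

theorem Sys.f_of_fixed (Φ : Sys Q) {z : Q} (h : Φ.f 1 z = z) (n : ℤ) : Φ.f n z = z := by
  induction n using Int.induction_on with
  | zero => exact Φ.f_zero z
  | succ n ih => rw [Φ.f_add, h, ih]
  | pred n ih => rw [sub_eq_add_neg, Φ.f_add, Φ.f_neg_one_of_fixed h, ih]

theorem Sys.GD_zero (Φ : Sys Q) (x : Q) : Φ.GD 0 x = 1 := by
  have h := Φ.GD_add 0 0 x
  rw [Φ.f_zero, add_zero] at h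
  have h2 := Φ.GD_pos 0 x
  nlinarith

theorem Sys.Ga_zero (Φ : Sys Q) (x : Q) : Φ.Ga 0 x = 1 := by
  have h := Φ.Ga_add 0 0 x
  rw [Φ.f_zero, add_zero] at h
  have h2 := Φ.Ga_pos 0 x
  nlinarith

/-- At a fixed point `z` every function of degree `(k, j)` which does not vanish at `z` has the
weight `k b(z) + j a(z)`. -/
theorem Sys.exp_fixed (Φ : Sys Q) {z : Q} (h : Φ.f 1 z = z) {k j : ℕ} {c : ℤ} {u : Q → ℝ}
    (hu : u ∈ Φ.R k j c) (hz : 0 < u z) : (c : ℝ) = k * Φ.b z + j * Φ.a z := by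
  have h1 := Φ.step k j c u hu 1 z
  rw [h, one_mul] at h1
  have hD := Φ.GD_pos 1 z
  have ha := Φ.Ga_pos 1 z
  have h2 : (2 : ℝ) ^ c * Φ.GD 1 z ^ k * Φ.Ga 1 z ^ j = 1 := by
    have h3 : (2 : ℝ) ^ c * Φ.GD 1 z ^ k * Φ.Ga 1 z ^ j * u z = 1 * u z := by
      rw [one_mul]; exact h1.symm
    exact mul_right_cancel₀ hz.ne' h3
  have h4 := congrArg (Real.logb 2) h2
  rw [Real.logb_mul (by positivity) (by positivity), Real.logb_mul (by positivity) (by positivity),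
    Real.logb_one, Real.logb_pow, Real.logb_pow] at h4
  have h5 : Real.logb 2 ((2 : ℝ) ^ c) = c := by
    rw [Real.logb, Real.log_zpow]
    have : Real.log 2 ≠ 0 := (Real.log_pos (by norm_num)).ne'
    field_simp
  rw [h5] at h4
  unfold Sys.b Sys.a
  linarith

theorem Sys.inv_b (Φ : Sys Q) {z : Q} (h : Φ.f 1 z = z) : Φ.inv.b z = -Φ.b z := by
  have h1 := Φ.GD_add (-1) 1 z
  rw [h] at h1
  have h2 : Φ.GD (-1 + 1) z = 1 := by rw [neg_add_cancel]; exact Φ.GD_zero z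
  rw [h2] at h1
  have hD := Φ.GD_pos 1 z
  have hD' := Φ.GD_pos (-1) z
  have h4 := congrArg (Real.logb 2) h1
  rw [Real.logb_one, Real.logb_mul hD'.ne' hD.ne'] at h4
  show -Real.logb 2 (Φ.GD (-1) z) = - -Real.logb 2 (Φ.GD 1 z)
  linarith

theorem Sys.inv_a (Φ : Sys Q) {z : Q} (h : Φ.f 1 z = z) : Φ.inv.a z = -Φ.a z := by
  have h1 := Φ.Ga_add (-1) 1 z
  rw [h] at h1
  have h2 : Φ.Ga (-1 + 1) z = 1 := by rw [neg_add_cancel]; exact Φ.Ga_zero z
  rw [h2] at h1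
  have hD := Φ.Ga_pos 1 z
  have hD' := Φ.Ga_pos (-1) z
  have h4 := congrArg (Real.logb 2) h1
  rw [Real.logb_one, Real.logb_mul hD'.ne' hD.ne'] at h4
  show -Real.logb 2 (Φ.Ga (-1) z) = - -Real.logb 2 (Φ.Ga 1 z)
  linarith

theorem Sys.inv_fixed (Φ : Sys Q) {z : Q} : Φ.inv.f 1 z = z ↔ Φ.f 1 z = z := by
  constructor
  · intro h
    have h2 := Φ.f_add 1 (-1) z
    have h3 : Φ.f (-1) z = z := h
    rw [h3] at h2
    rw [← h2]
    simpa using Φ.f_zero z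
  · intro h
    exact Φ.f_neg_one_of_fixed h

/-- Powers of elements of `R`. -/
theorem Sys.pow_mem (Φ : Sys Q) {k j : ℕ} {c : ℤ} {u : Q → ℝ} (hu : u ∈ Φ.R k j c) (n : ℕ) :
    (fun x => u x ^ (n + 1)) ∈ Φ.R ((n + 1) * k) ((n + 1) * j) ((n + 1 : ℕ) * c) := by
  induction n with
  | zero => simpa using hu
  | succ n ih =>
    have h := Φ.mul _ _ _ _ _ _ _ ih _ hu
    have e1 : (n + 1) * k + k = (n + 1 + 1) * k := by ring
    have e2 : (n + 1) * j + j = (n + 1 + 1) * j := by ring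
    have e3 : ((n + 1 : ℕ) : ℤ) * c + c = ((n + 1 + 1 : ℕ) : ℤ) * c := by push_cast; ring
    rw [e1, e2, e3] at h
    simpa [pow_succ] using h

theorem Sys.pow_mem' (Φ : Sys Q) {k j : ℕ} {c : ℤ} {u : Q → ℝ} (hu : u ∈ Φ.R k j c) {n : ℕ}
    (hn : 1 ≤ n) : (fun x => u x ^ n) ∈ Φ.R (n * k) (n * j) (n * c) := by
  obtain ⟨m, rfl⟩ : ∃ m, n = m + 1 := ⟨n - 1, by omega⟩
  exact Φ.pow_mem hu m

end Pool.Agent.Abd.GT
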