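import Pool.Agent.H.MP_e23cd6_ag.GT.DynA

/-! MP_e23cd6_ag, torus actions, abstract dynamics: limit points of orbits. -/

set_option autoImplicit false

open Set Filter Topology

namespace Pool.Agent.Abd.GT

variable {Q : Type} [TopologicalSpace Q]

theorem DynB_pos (Φ : Sys Q) {x : Q} {n k j : ℕ} {c : ℤ} {u : Q → ℝ}
    (hu : u ∈ Φ.R k j c) (h : 0 < u (Φ.f n x)) : 0 < u x := by
  have h0 := Φ.nonneg k j c u hu x
  rcases h0.lt_or_eq with h1 | h1
  · exact h1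
  · exfalso
    rw [Φ.step k j c u hu n x, ← h1, mul_zero] at h
    exact lt_irrefl _ h

/-- If `f n x` converges to `y` along the ultrafilter `G` of natural numbers tending to infinity,
`u` and `v` have the same degree, `v y > 0` and `u x > 0`, then weight of `u` `≤` weight of `v`.

PROOF. `v (f n x) → v y > 0` along `G`, so `v (f n x) > 0` for some `n`, and `v x > 0` by `Φ.step`.
Suppose `c' < c`. By `Φ.step`, `u (f n x) = 2 ^ (n (c - c')) * (u x / v x) * v (f n x)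
≥ 2 ^ n * (u x / v x) * v (f n x)` for all `n : ℕ`; the right hand side tends to infinity along `G`
and the left hand side to `u y`: contradiction. -/
theorem Sys.lim_le (Φ : Sys Q) {x y : Q} (G : Ultrafilter ℕ) (hG : (G : Filter ℕ) ≤ atTop)
    (hy : Tendsto (fun n : ℕ => Φ.f n x) G (𝓝 y)) {k j : ℕ} {c c' : ℤ} {u v : Q → ℝ}
    (hu : u ∈ Φ.R k j c) (hv : v ∈ Φ.R k j c') (h1 : 0 < v y) (h2 : 0 < u x) : c ≤ c' := by
  have tu : Tendsto (fun n : ℕ => u (Φ.f n x)) G (𝓝 (u y)) :=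
    ((Φ.cont k j c u hu).tendsto y).comp hy
  have tv : Tendsto (fun n : ℕ => v (Φ.f n x)) G (𝓝 (v y)) :=
    ((Φ.cont k j c' v hv).tendsto y).comp hy
  obtain ⟨m, hm⟩ := (tv.eventually (lt_mem_nhds h1)).exists
  have h3 : 0 < v x := DynB_pos Φ hv hm
  by_contra hcc
  push Not at hcc
  have hr : 0 < u x / v x := div_pos h2 h3
  have hn : Tendsto (fun n : ℕ => (n : ℝ)) G atTop := tendsto_natCast_atTop_atTop.mono_left hG
  have t1 : Tendsto (fun n : ℕ => (n : ℝ) * (u x / v x) * v (Φ.f n x)) G atTop :=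
    (hn.atTop_mul_const hr).atTop_mul_pos h1 tv
  refine not_tendsto_nhds_of_tendsto_atTop (tendsto_atTop_mono (fun n => ?_) t1) _ tu
  have e1 := Φ.step k j c u hu n x
  have e2 := Φ.step k j c' v hv n x
  have hD := Φ.GD_pos n x
  have ha := Φ.Ga_pos n x
  have e3 : (2 : ℝ) ^ ((n : ℤ) * c) = (2 : ℝ) ^ ((n : ℤ) * (c - c')) * (2 : ℝ) ^ ((n : ℤ) * c') := by
    rw [← zpow_add₀ (by norm_num : (2 : ℝ) ≠ 0)]
    congr 1
    ring
  have e4 : u (Φ.f n x) = (2 : ℝ) ^ ((n : ℤ) * (c - c')) * (u x / v x) * v (Φ.f n x) := by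
    rw [e1, e2, e3]
    field_simp
  rw [e4]
  have e5 : (n : ℝ) ≤ (2 : ℝ) ^ ((n : ℤ) * (c - c')) := by
    have h5 : (n : ℝ) ≤ (2 : ℝ) ^ n := by
      exact_mod_cast (Nat.lt_two_pow_self (n := n)).le
    refine h5.trans ?_
    rw [← zpow_natCast]
    apply zpow_le_zpow_right₀ (by norm_num)
    have h6 : (1 : ℤ) ≤ c - c' := by omega
    have h7 : (0 : ℤ) ≤ n := Int.natCast_nonneg n
    nlinarith
  have h8 : 0 ≤ v (Φ.f n x) := Φ.nonneg k j c' v hv _
  exact mul_le_mul_of_nonneg_right (mul_le_mul_of_nonneg_right e5 hr.le) h8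

/-- For every point `x` there is a fixed point `y` (a limit point of `f n x`, `n → ∞`) such that
every function of the system which is positive at `y` is positive at `x`, and the weights of the
functions of degree `(N l, l)` which are positive at `x` are at most `l (N b(y) + a(y))`.

PROOF. Take an ultrafilter `G ≤ atTop` on `ℕ` (`Filter.hyperfilter`, or `Ultrafilter.of atTop`) and,
by compactness of `Q`, the limit `y` of `f n x` along `G` (`Ultrafilter.le_nhds_lim`, or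
`isCompact_univ.ultrafilter_le_nhds` for the ultrafilter `G.map (fun n => Φ.f n x)`). If `u y > 0`
then `u (f n x) > 0` for some `n` (continuity), so `u x > 0` by `Φ.step` and `Φ.nonneg`. `y` is fixed
by `Φ.fix` and `lim_le` (twice). Last claim: by `Φ.gen N` there are `l₁ ≥ 1` and `v` of degree
`(N l₁, l₁)` and some weight `c₁`, `v y > 0`; compare `u ^ l₁` and `v ^ l` (`pow_mem'`) with `lim_le`:
`l₁ c ≤ l c₁`, and `c₁ = N l₁ b(y) + l₁ a(y)` by `exp_fixed`. -/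
theorem Sys.exists_top [CompactSpace Q] (Φ : Sys Q) (x : Q) :
    ∃ y, Φ.f 1 y = y ∧ (∀ k j c, ∀ u ∈ Φ.R k j c, 0 < u y → 0 < u x) ∧
      ∀ N l c, ∀ u ∈ Φ.R (N * l) l c, 1 ≤ l → 0 < u x → (c : ℝ) ≤ l * (N * Φ.b y + Φ.a y) := by
  obtain ⟨G, hG⟩ : ∃ G : Ultrafilter ℕ, (G : Filter ℕ) ≤ atTop :=
    ⟨Ultrafilter.of atTop, Ultrafilter.of_le atTop⟩
  obtain ⟨y, -, hy'⟩ := isCompact_univ.ultrafilter_le_nhds (G.map (fun n : ℕ => Φ.f n x))
    (by simp)
  have hy : Tendsto (fun n : ℕ => Φ.f n x) G (𝓝 y) := hy'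
  have hpos : ∀ k j c, ∀ u ∈ Φ.R k j c, 0 < u y → 0 < u x := by
    intro k j c u hu h
    have tu : Tendsto (fun n : ℕ => u (Φ.f n x)) G (𝓝 (u y)) :=
      ((Φ.cont k j c u hu).tendsto y).comp hy
    obtain ⟨m, hm⟩ := (tu.eventually (lt_mem_nhds h)).exists
    exact DynB_pos Φ hu hm
  have hfix : Φ.f 1 y = y := by
    apply Φ.fix
    intro l c c' u hu u' hu' _ h1 h2
    exact le_antisymm (Φ.lim_le G hG hy hu hu' h2 (hpos _ _ _ u hu h1))
      (Φ.lim_le G hG hy hu' hu h1 (hpos _ _ _ u' hu' h2))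
  refine ⟨y, hfix, hpos, ?_⟩
  intro N l c u hu hl hux
  obtain ⟨l₁, hl₁, F, hF, hF'⟩ := Φ.gen N
  obtain ⟨q, hq, hqy⟩ := hF' y
  have hv := hF q hq
  have p1 := Φ.pow_mem' hu hl₁
  have p2 := Φ.pow_mem' hv hl
  have e1 : l * (N * l₁) = l₁ * (N * l) := by ring
  have e2 : l * l₁ = l₁ * l := by ring
  rw [e1, e2] at p2
  have h3 := Φ.lim_le G hG hy p1 p2 (pow_pos hqy l) (pow_pos hux l₁)
  have h4 := Φ.exp_fixed hfix hv hqy
  have h5 : (l₁ : ℝ) * (c : ℝ) ≤ (l : ℝ) * (q.1 : ℝ) := by exact_mod_cast h3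
  rw [h4] at h5
  push_cast at h5
  have h6 : (0 : ℝ) < l₁ := by exact_mod_cast hl₁
  have h7 : (l₁ : ℝ) * (c : ℝ) ≤ (l₁ : ℝ) * ((l : ℝ) * (N * Φ.b y + Φ.a y)) := by
    refine h5.trans (le_of_eq ?_)
    ring
  exact le_of_mul_le_mul_left h7 h6

/-- The same for `n → -∞`. PROOF. `exists_top` for `Φ.inv`, with `inv_fixed`, `inv_a`, `inv_b`. -/
theorem Sys.exists_bot [CompactSpace Q] (Φ : Sys Q) (x : Q) :
    ∃ y, Φ.f 1 y = y ∧ (∀ k j c, ∀ u ∈ Φ.R k j c, 0 < u y → 0 < u x) ∧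
      ∀ N l c, ∀ u ∈ Φ.R (N * l) l c, 1 ≤ l → 0 < u x → l * (N * Φ.b y + Φ.a y) ≤ (c : ℝ) := by
  obtain ⟨y, h1, h2, h3⟩ := Φ.inv.exists_top x
  have hfix : Φ.f 1 y = y := Φ.inv_fixed.1 h1
  have hR : ∀ k j c u, u ∈ Φ.R k j c → u ∈ Φ.inv.R k j (-c) := by
    intro k j c u hu
    show u ∈ Φ.R k j (- -c)
    rw [neg_neg]
    exact hu
  refine ⟨y, hfix, fun k j c u hu => h2 k j (-c) u (hR k j c u hu), ?_⟩
  intro N l c u hu hl hux
  have h4 := h3 N l (-c) u (hR _ _ _ u hu) hl hux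
  rw [Φ.inv_b hfix, Φ.inv_a hfix] at h4
  push_cast at h4
  have h5 : (l : ℝ) * (N * -Φ.b y + -Φ.a y) = -((l : ℝ) * (N * Φ.b y + Φ.a y)) := by ring
  rw [h5] at h4
  linarith

end Pool.Agent.Abd.GT
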