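import Pool.Agent.H.MP_e23cd6_ag.GT.DynB

/-! MP_e23cd6_ag, torus actions, abstract dynamics: fixed point types and generating families. -/

set_option autoImplicit false

open Set Filter Topology

namespace Pool.Agent.Abd.GT

variable {Q : Type} [TopologicalSpace Q]

/-- The limit points in the two directions: `b(y₋) ≤ b(y₊)`, `a(y₋) ≤ a(y₊)`, and `a(y₋) < a(y₊)` if
`x` is not fixed.

PROOF. For every `N` take `l ≥ 1` and `v ∈ R (N l) l c` with `v y₊ > 0` (`Φ.gen`); then `v x > 0`, so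
`l (N b(y₋) + a(y₋)) ≤ c = l (N b(y₊) + a(y₊))` (`exp_fixed`). For `N = 0` this is `a(y₋) ≤ a(y₊)`;
if `b(y₋) > b(y₊)` a large `N` gives a contradiction. If `a(y₋) = a(y₊)` then all `u ∈ R 0 l c` with
`u x > 0`, `l ≥ 1`, have `c = l a(y₊)`, so `x` is fixed by `Φ.fix`. -/
theorem Sys.top_bot (Φ : Sys Q) {x yp ym : Q} (hp : Φ.f 1 yp = yp) (hm : Φ.f 1 ym = ym)
    (hp1 : ∀ k j c, ∀ u ∈ Φ.R k j c, 0 < u yp → 0 < u x)
    (hp2 : ∀ N l c, ∀ u ∈ Φ.R (N * l) l c, 1 ≤ l → 0 < u x → (c : ℝ) ≤ l * (N * Φ.b yp + Φ.a yp))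
    (hm2 : ∀ N l c, ∀ u ∈ Φ.R (N * l) l c, 1 ≤ l → 0 < u x → l * (N * Φ.b ym + Φ.a ym) ≤ (c : ℝ)) :
    Φ.b ym ≤ Φ.b yp ∧ Φ.a ym ≤ Φ.a yp ∧ (Φ.f 1 x ≠ x → Φ.a ym < Φ.a yp) := by
  have key : ∀ N : ℕ, N * Φ.b ym + Φ.a ym ≤ N * Φ.b yp + Φ.a yp := by
    intro N
    obtain ⟨l, hl, F, hF, hF'⟩ := Φ.gen N
    obtain ⟨q, hq, hq'⟩ := hF' yp
    have h1 := hm2 N l q.1 q.2 (hF q hq) hl (hp1 _ _ _ q.2 (hF q hq) hq')
    have h2 := Φ.exp_fixed hp (hF q hq) hq'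
    rw [h2] at h1
    push_cast at h1
    have h3 : (0 : ℝ) < l := by exact_mod_cast hl
    have h4 : (l : ℝ) * (N * Φ.b ym + Φ.a ym) ≤ l * (N * Φ.b yp + Φ.a yp) := by
      refine h1.trans (le_of_eq ?_)
      ring
    exact le_of_mul_le_mul_left h4 h3
  have ha : Φ.a ym ≤ Φ.a yp := by simpa using key 0
  refine ⟨?_, ha, ?_⟩
  · by_contra hb
    push Not at hb
    obtain ⟨N, hN⟩ := exists_nat_gt ((Φ.a yp - Φ.a ym) / (Φ.b ym - Φ.b yp))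
    rw [div_lt_iff₀ (by linarith)] at hN
    have := key N
    nlinarith
  · intro hx
    rcases ha.lt_or_eq with h | h
    · exact h
    · exfalso
      apply hx
      apply Φ.fix
      intro l c c' u hu u' hu' hl h1 h2
      have e : 0 * l = 0 := zero_mul l
      have g1 := hp2 0 l c u (by rw [e]; exact hu) hl h1
      have g2 := hm2 0 l c u (by rw [e]; exact hu) hl h1
      have g3 := hp2 0 l c' u' (by rw [e]; exact hu') hl h2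
      have g4 := hm2 0 l c' u' (by rw [e]; exact hu') hl h2
      rw [h] at g2 g4
      simp only [Nat.cast_zero, zero_mul, zero_add] at g1 g2 g3 g4
      have g5 : (c : ℝ) = c' := by linarith
      exact_mod_cast g5

/-- The set of pairs `(b(z), a(z))`, `z` fixed, is finite.

PROOF. Let `F₀` (degree `(0, l₀)`) and `F₁` (degree `(l₁, l₁)`) be given by `Φ.gen 0` and `Φ.gen 1`.
At a fixed point `z` some `q ∈ F₀` has `q.2 z > 0`, so `a(z) = q.1 / l₀`; some `q' ∈ F₁` has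
`q'.2 z > 0`, so `b(z) = q'.1 / l₁ - a(z)` (`exp_fixed`). So the set is contained in the image of the
finite set `F₀ ×ˢ F₁`. -/
theorem Sys.finite_types (Φ : Sys Q) :
    {t : ℝ × ℝ | ∃ z, Φ.f 1 z = z ∧ t = (Φ.b z, Φ.a z)}.Finite := by
  classical
  obtain ⟨l₀, hl₀, F₀, hF₀, gF₀⟩ := Φ.gen 0
  obtain ⟨l₁, hl₁, F₁, hF₁, gF₁⟩ := Φ.gen 1
  refine (((F₀ ×ˢ F₁).image (fun p : (ℤ × (Q → ℝ)) × (ℤ × (Q → ℝ)) =>
    ((p.2.1 : ℝ) / l₁ - (p.1.1 : ℝ) / l₀, (p.1.1 : ℝ) / l₀))).finite_toSet).subset ?_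
  rintro t ⟨z, hz, rfl⟩
  obtain ⟨q, hq, hqz⟩ := gF₀ z
  obtain ⟨q', hq', hqz'⟩ := gF₁ z
  have h1 := Φ.exp_fixed hz (hF₀ q hq) hqz
  have h2 := Φ.exp_fixed hz (hF₁ q' hq') hqz'
  have c0 : (l₀ : ℝ) ≠ 0 := by
    have : (0 : ℝ) < l₀ := by exact_mod_cast hl₀
    exact this.ne'
  have c1 : (l₁ : ℝ) ≠ 0 := by
    have : (0 : ℝ) < l₁ := by exact_mod_cast hl₁
    exact this.ne'
  rw [Finset.mem_coe, Finset.mem_image]
  refine ⟨(q, q'), Finset.mem_product.2 ⟨hq, hq'⟩, ?_⟩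
  push_cast at h1 h2
  have e1 : (q.1 : ℝ) / l₀ = Φ.a z := by
    rw [h1]; field_simp; ring
  have e2 : (q'.1 : ℝ) / l₁ = Φ.b z + Φ.a z := by
    rw [h2]; field_simp
  simp only [e1, e2]
  rw [add_sub_cancel_right]

/-- For large `k₀` the numbers `k₀ b(z) + a(z)` are ordered as the pairs `(b(z), a(z))`.

PROOF. Finitely many pairs of elements `(b, a), (b', a')` of the finite set of `finite_types` with
`b < b'`; each needs `k₀ > (a - a') / (b' - b)`. -/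
theorem Sys.exists_k0 (Φ : Sys Q) : ∃ k0 : ℕ, ∀ z z', Φ.f 1 z = z → Φ.f 1 z' = z' →
    Φ.b z < Φ.b z' → k0 * Φ.b z + Φ.a z < k0 * Φ.b z' + Φ.a z' := by
  obtain ⟨K, hK⟩ := ((Φ.finite_types.prod Φ.finite_types).image
    (fun p : (ℝ × ℝ) × (ℝ × ℝ) => (p.1.2 - p.2.2) / (p.2.1 - p.1.1))).bddAbove
  obtain ⟨k0, hk0⟩ := exists_nat_gt K
  refine ⟨k0, fun z z' hz hz' hb => ?_⟩
  have h1 : (Φ.a z - Φ.a z') / (Φ.b z' - Φ.b z) ≤ K := by
    apply hK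
    exact ⟨((Φ.b z, Φ.a z), (Φ.b z', Φ.a z')), ⟨⟨z, hz, rfl⟩, ⟨z', hz', rfl⟩⟩, rfl⟩
  have h2 : 0 < Φ.b z' - Φ.b z := by linarith
  rw [div_le_iff₀ h2] at h1
  nlinarith

/-- Two generating families, of degrees `N (k₀ D + a)` and `N ((k₀ + 1) D + a)`. -/
structure Fam (Φ : Sys Q) where
  k0 : ℕ
  N : ℕ
  hN : 1 ≤ N
  F : Finset (ℤ × (Q → ℝ))
  F' : Finset (ℤ × (Q → ℝ))
  hF : ∀ q ∈ F, q.2 ∈ Φ.R (k0 * N) N q.1
  hF' : ∀ q ∈ F', q.2 ∈ Φ.R ((k0 + 1) * N) N q.1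
  gF : ∀ x, ∃ q ∈ F, 0 < q.2 x
  gF' : ∀ x, ∃ q ∈ F', 0 < q.2 x
  lex : ∀ z z', Φ.f 1 z = z → Φ.f 1 z' = z' →
    Φ.b z < Φ.b z' → k0 * Φ.b z + Φ.a z < k0 * Φ.b z' + Φ.a z'

/-- PROOF. `exists_k0`, `Φ.gen k₀` (degree `l`, family `G`) and `Φ.gen (k₀ + 1)` (degree `l'`, family
`G'`); `N = l l'`, `F` = the `l'`-th powers of the elements of `G` and `F'` = the `l`-th powers of the
elements of `G'` (`pow_mem'`; `Finset.image` with `open Classical`). -/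
theorem Sys.exists_fam (Φ : Sys Q) : Nonempty (Fam Φ) := by
  classical
  obtain ⟨k0, hk0⟩ := Φ.exists_k0
  obtain ⟨l, hl, G, hG, gG⟩ := Φ.gen k0
  obtain ⟨l', hl', G', hG', gG'⟩ := Φ.gen (k0 + 1)
  refine ⟨⟨k0, l * l', Nat.mul_pos hl hl',
    G.image (fun q => ((l' : ℤ) * q.1, fun x => q.2 x ^ l')),
    G'.image (fun q => ((l : ℤ) * q.1, fun x => q.2 x ^ l)), ?_, ?_, ?_, ?_, hk0⟩⟩
  · intro q hq
    obtain ⟨p, hp, rfl⟩ := Finset.mem_image.1 hq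
    have h := Φ.pow_mem' (hG p hp) hl'
    have e1 : l' * (k0 * l) = k0 * (l * l') := by ring
    have e2 : l' * l = l * l' := by ring
    rw [e1, e2] at h
    exact h
  · intro q hq
    obtain ⟨p, hp, rfl⟩ := Finset.mem_image.1 hq
    have h := Φ.pow_mem' (hG' p hp) hl
    have e1 : l * ((k0 + 1) * l') = (k0 + 1) * (l * l') := by ring
    rw [e1] at h
    exact h
  · intro x
    obtain ⟨q, hq, hqx⟩ := gG x
    exact ⟨_, Finset.mem_image_of_mem _ hq, pow_pos hqx _⟩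
  · intro x
    obtain ⟨q, hq, hqx⟩ := gG' x
    exact ⟨_, Finset.mem_image_of_mem _ hq, pow_pos hqx _⟩

end Pool.Agent.Abd.GT
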