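import Pool.Agent.H.MP_e23cd6_ag.GT.DynB2

/-! MP_e23cd6_ag, torus actions, abstract dynamics: the sums of the functions of a generating
family with given weights, and the sets `W c δ` where the weight `c` dominates. -/

set_option autoImplicit false

open Set Filter Topology Classical

namespace Pool.Agent.Abd.GT

variable {Q : Type} [TopologicalSpace Q] {Φ : Sys Q}

/-- The sum of the functions of the family `F` whose weight satisfies `p`. -/
noncomputable def Fam.m (V : Fam Φ) (p : ℤ → Prop) (x : Q) : ℝ :=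
  ∑ q ∈ V.F.filter (fun q => p q.1), q.2 x

/-- The sum of the functions of the family `F'` whose weight satisfies `p`. -/
noncomputable def Fam.m' (V : Fam Φ) (p : ℤ → Prop) (x : Q) : ℝ :=
  ∑ q ∈ V.F'.filter (fun q => p q.1), q.2 x

/-- The sum of all functions of the family `F`. -/
noncomputable def Fam.M (V : Fam Φ) (x : Q) : ℝ := V.m (fun _ => True) x

/-- The sum of all functions of the family `F'`. -/
noncomputable def Fam.M' (V : Fam Φ) (x : Q) : ℝ := V.m' (fun _ => True) x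

/-- The common factor of the functions of the family `F` at `f n x` and `x`. -/
noncomputable def Fam.G (V : Fam Φ) (n : ℤ) (x : Q) : ℝ := Φ.GD n x ^ (V.k0 * V.N) * Φ.Ga n x ^ V.N

/-- The set where the functions of weight `c` of the family `F` dominate the others. -/
def Fam.W (V : Fam Φ) (c : ℤ) (δ : ℝ) : Set Q := {x | V.M x ≤ (1 + δ) * V.m (fun e => e = c) x}

theorem Fam.m_nonneg (V : Fam Φ) (p : ℤ → Prop) (x : Q) : 0 ≤ V.m p x := by
  refine Finset.sum_nonneg fun q hq => ?_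
  exact Φ.nonneg _ _ _ _ (V.hF q ((@Finset.mem_filter _ _ (_) _ _).1 hq).1) x

theorem Fam.m'_nonneg (V : Fam Φ) (p : ℤ → Prop) (x : Q) : 0 ≤ V.m' p x := by
  refine Finset.sum_nonneg fun q hq => ?_
  exact Φ.nonneg _ _ _ _ (V.hF' q ((@Finset.mem_filter _ _ (_) _ _).1 hq).1) x

theorem Fam.m_cont (V : Fam Φ) (p : ℤ → Prop) : Continuous (V.m p) := by
  unfold Fam.m
  refine continuous_finsetSum _ fun q hq => ?_
  exact Φ.cont _ _ _ _ (V.hF q ((@Finset.mem_filter _ _ (_) _ _).1 hq).1)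

theorem Fam.m'_cont (V : Fam Φ) (p : ℤ → Prop) : Continuous (V.m' p) := by
  unfold Fam.m'
  refine continuous_finsetSum _ fun q hq => ?_
  exact Φ.cont _ _ _ _ (V.hF' q ((@Finset.mem_filter _ _ (_) _ _).1 hq).1)

theorem Fam.M_pos (V : Fam Φ) (x : Q) : 0 < V.M x := by
  obtain ⟨q, hq, h⟩ := V.gF x
  unfold Fam.M Fam.m
  refine Finset.sum_pos' (fun q hq =>
    Φ.nonneg _ _ _ _ (V.hF q ((@Finset.mem_filter _ _ (_) _ _).1 hq).1) x) ⟨q, ?_, h⟩
  exact (@Finset.mem_filter _ _ (_) _ _).2 ⟨hq, trivial⟩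

theorem Fam.M'_pos (V : Fam Φ) (x : Q) : 0 < V.M' x := by
  obtain ⟨q, hq, h⟩ := V.gF' x
  unfold Fam.M' Fam.m'
  refine Finset.sum_pos' (fun q hq =>
    Φ.nonneg _ _ _ _ (V.hF' q ((@Finset.mem_filter _ _ (_) _ _).1 hq).1) x) ⟨q, ?_, h⟩
  exact (@Finset.mem_filter _ _ (_) _ _).2 ⟨hq, trivial⟩

theorem Fam.m_mono (V : Fam Φ) {p p' : ℤ → Prop} (h : ∀ c, p c → p' c) (x : Q) :
    V.m p x ≤ V.m p' x := by
  unfold Fam.m
  refine Finset.sum_le_sum_of_subset_of_nonneg ?_ ?_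
  · intro q hq
    rw [Finset.mem_filter] at hq ⊢
    exact ⟨hq.1, h _ hq.2⟩
  · intro q hq _
    exact Φ.nonneg _ _ _ _ (V.hF q ((@Finset.mem_filter _ _ (_) _ _).1 hq).1) x

/-- PROOF. The two filters are disjoint and contained in the filter of `p`. -/
theorem Fam.m_add_le (V : Fam Φ) {p p₁ p₂ : ℤ → Prop} (h₁ : ∀ c, p₁ c → p c)
    (h₂ : ∀ c, p₂ c → p c) (h : ∀ c, p₁ c → ¬ p₂ c) (x : Q) :
    V.m p₁ x + V.m p₂ x ≤ V.m p x := by
  unfold Fam.m
  rw [← Finset.sum_union]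
  · refine Finset.sum_le_sum_of_subset_of_nonneg ?_ ?_
    · intro q hq
      rw [Finset.mem_union, Finset.mem_filter, Finset.mem_filter] at hq
      rw [Finset.mem_filter]
      rcases hq with hq | hq
      · exact ⟨hq.1, h₁ _ hq.2⟩
      · exact ⟨hq.1, h₂ _ hq.2⟩
    · intro q hq _
      exact Φ.nonneg _ _ _ _ (V.hF q ((@Finset.mem_filter _ _ (_) _ _).1 hq).1) x
  · rw [Finset.disjoint_left]
    intro q hq hq'
    exact h _ ((@Finset.mem_filter _ _ (_) _ _).1 hq).2 ((@Finset.mem_filter _ _ (_) _ _).1 hq').2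

/-- `m` splits over a predicate and its negation. -/
theorem Fam.m_split (V : Fam Φ) (p : ℤ → Prop) (x : Q) :
    V.m p x + V.m (fun c => ¬ p c) x = V.M x := by
  unfold Fam.M Fam.m
  rw [Finset.sum_filter_add_sum_filter_not]
  refine Finset.sum_congr ?_ fun _ _ => rfl
  simp

/-- `m p` is positive iff some function of the family with weight satisfying `p` is positive. -/
theorem Fam.m_pos_iff (V : Fam Φ) (p : ℤ → Prop) (x : Q) :
    0 < V.m p x ↔ ∃ q ∈ V.F, p q.1 ∧ 0 < q.2 x := by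
  constructor
  · intro h
    by_contra hcon
    push Not at hcon
    have : V.m p x ≤ 0 := Finset.sum_nonpos fun q hq =>
      hcon q ((@Finset.mem_filter _ _ (_) _ _).1 hq).1 ((@Finset.mem_filter _ _ (_) _ _).1 hq).2
    linarith
  · rintro ⟨q, hq, hp, h⟩
    unfold Fam.m
    exact Finset.sum_pos' (fun q hq => Φ.nonneg _ _ _ _ (V.hF q ((@Finset.mem_filter _ _ (_) _ _).1 hq).1) x)
      ⟨q, (@Finset.mem_filter _ _ (_) _ _).2 ⟨hq, hp⟩, h⟩

theorem Fam.m'_pos_iff (V : Fam Φ) (p : ℤ → Prop) (x : Q) :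
    0 < V.m' p x ↔ ∃ q ∈ V.F', p q.1 ∧ 0 < q.2 x := by
  constructor
  · intro h
    by_contra hcon
    push Not at hcon
    have : V.m' p x ≤ 0 := Finset.sum_nonpos fun q hq =>
      hcon q ((@Finset.mem_filter _ _ (_) _ _).1 hq).1 ((@Finset.mem_filter _ _ (_) _ _).1 hq).2
    linarith
  · rintro ⟨q, hq, hp, h⟩
    unfold Fam.m'
    exact Finset.sum_pos' (fun q hq => Φ.nonneg _ _ _ _ (V.hF' q ((@Finset.mem_filter _ _ (_) _ _).1 hq).1) x)
      ⟨q, (@Finset.mem_filter _ _ (_) _ _).2 ⟨hq, hp⟩, h⟩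

/-- PROOF. `Φ.step` and linearity. -/
theorem Fam.m_step (V : Fam Φ) (c : ℤ) (n : ℤ) (x : Q) :
    V.m (fun e => e = c) (Φ.f n x) = (2 : ℝ) ^ (n * c) * V.G n x * V.m (fun e => e = c) x := by
  unfold Fam.m
  rw [Finset.mul_sum]
  refine Finset.sum_congr rfl fun q hq => ?_
  replace hq := (@Finset.mem_filter _ _ (_) _ _).1 hq
  have hq2 : q.1 = c := hq.2
  rw [Φ.step _ _ _ _ (V.hF q hq.1) n x, hq2]
  unfold Fam.G
  ring

theorem Fam.m'_step (V : Fam Φ) (c : ℤ) (n : ℤ) (x : Q) :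
    V.m' (fun e => e = c) (Φ.f n x) =
      (2 : ℝ) ^ (n * c) * (V.G n x * Φ.GD n x ^ V.N) * V.m' (fun e => e = c) x := by
  unfold Fam.m'
  rw [Finset.mul_sum]
  refine Finset.sum_congr rfl fun q hq => ?_
  replace hq := (@Finset.mem_filter _ _ (_) _ _).1 hq
  have hq2 : q.1 = c := hq.2
  rw [Φ.step _ _ _ _ (V.hF' q hq.1) n x, hq2]
  unfold Fam.G
  ring

theorem Fam.G_pos (V : Fam Φ) (n : ℤ) (x : Q) : 0 < V.G n x := by
  unfold Fam.G
  have h1 := Φ.GD_pos n x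
  have h2 := Φ.Ga_pos n x
  positivity

/-- If all weights satisfying `p` are `≥ d` then `m p` grows at least like `2 ^ (n d)`, `n ≥ 0`.
PROOF. Termwise, `2 ^ (n d) ≤ 2 ^ (n c)` for `c ≥ d`, `n ≥ 0`. -/
theorem Fam.m_step_ge (V : Fam Φ) (p : ℤ → Prop) (d : ℤ) (h : ∀ c, p c → d ≤ c) (n : ℕ) (x : Q) :
    (2 : ℝ) ^ (n * d) * V.G n x * V.m p x ≤ V.m p (Φ.f n x) := by
  unfold Fam.m
  rw [Finset.mul_sum]
  refine Finset.sum_le_sum fun q hq => ?_
  rw [Finset.mem_filter] at hq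
  rw [Φ.step _ _ _ _ (V.hF q hq.1) n x]
  have h1 := Φ.nonneg _ _ _ _ (V.hF q hq.1) x
  have h2 : (2 : ℝ) ^ ((n : ℤ) * d) ≤ (2 : ℝ) ^ ((n : ℤ) * q.1) :=
    zpow_le_zpow_right₀ (by norm_num) (mul_le_mul_of_nonneg_left (h _ hq.2) (by positivity))
  have h3 := (V.G_pos n x).le
  unfold Fam.G at h3 ⊢
  calc (2 : ℝ) ^ ((n : ℤ) * d) * (Φ.GD n x ^ (V.k0 * V.N) * Φ.Ga n x ^ V.N) * q.2 x
      ≤ (2 : ℝ) ^ ((n : ℤ) * q.1) * (Φ.GD n x ^ (V.k0 * V.N) * Φ.Ga n x ^ V.N) * q.2 x := by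
        gcongr
    _ = _ := by ring

/-- If all weights satisfying `p` are `≤ d` then `m p` grows at most like `2 ^ (n d)`, `n ≥ 0`. -/
theorem Fam.m_step_le (V : Fam Φ) (p : ℤ → Prop) (d : ℤ) (h : ∀ c, p c → c ≤ d) (n : ℕ) (x : Q) :
    V.m p (Φ.f n x) ≤ (2 : ℝ) ^ (n * d) * V.G n x * V.m p x := by
  unfold Fam.m
  rw [Finset.mul_sum]
  refine Finset.sum_le_sum fun q hq => ?_
  rw [Finset.mem_filter] at hq
  rw [Φ.step _ _ _ _ (V.hF q hq.1) n x]
  have h1 := Φ.nonneg _ _ _ _ (V.hF q hq.1) x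
  have h2 : (2 : ℝ) ^ ((n : ℤ) * q.1) ≤ (2 : ℝ) ^ ((n : ℤ) * d) :=
    zpow_le_zpow_right₀ (by norm_num) (mul_le_mul_of_nonneg_left (h _ hq.2) (by positivity))
  have h3 := (V.G_pos n x).le
  unfold Fam.G at h3 ⊢
  calc _ = (2 : ℝ) ^ ((n : ℤ) * q.1) * (Φ.GD n x ^ (V.k0 * V.N) * Φ.Ga n x ^ V.N) * q.2 x := by
        ring
    _ ≤ _ := by gcongr

end Pool.Agent.Abd.GT
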