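import Pool.Agent.H.MP_e23cd6_ag.GT.DynC

/-! MP_e23cd6_ag, torus actions, abstract dynamics: the sets `W c δ` for small `δ`. -/

set_option autoImplicit false

open Set Filter Topology Classical

namespace Pool.Agent.Abd.GT

variable {Q : Type} [TopologicalSpace Q] {Φ : Sys Q}

/-- `W c 0` consists of fixed points with `N (k₀ b + a) = c`.

PROOF. Let `z ∈ W c 0`. `M z = m (· = c) z` (`m_split`, `m_nonneg`), so all functions of `F` of
weight `≠ c` vanish at `z` (`m_pos_iff` for `· ≠ c`). Let `yp`, `ym` be given by `exists_top`,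
`exists_bot` for `z`. Some `q ∈ F` has `q.2 yp > 0` (`gF`), so `q.2 z > 0`, `q.1 = c`, and
`c = N (k₀ b(yp) + a(yp))` by `exp_fixed`. Similarly `c = N (k₀ b(ym) + a(ym))`. If `z` was not fixed,
then `k₀ b(ym) + a(ym) < k₀ b(yp) + a(yp)` by `top_bot`: contradiction. So `z` is fixed, and
`exp_fixed` for a `q ∈ F` with `q.2 z > 0` (which has `q.1 = c`) gives the formula. -/
theorem Fam.fixed_of_W (V : Fam Φ) [CompactSpace Q] {c : ℤ} {z : Q} (hz : z ∈ V.W c 0) :
    Φ.f 1 z = z ∧ (c : ℝ) = V.N * (V.k0 * Φ.b z + Φ.a z) := by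
  have h0 : V.M z ≤ (1 + 0) * V.m (fun e => e = c) z := hz
  have hs := V.m_split (fun e => e = c) z
  have hn := V.m_nonneg (fun e => ¬ e = c) z
  have hM := V.M_pos z
  have hne : ∀ q ∈ V.F, 0 < q.2 z → q.1 = c := by
    intro q hq hq0
    by_contra hc
    have : 0 < V.m (fun e => ¬ e = c) z := (V.m_pos_iff _ z).2 ⟨q, hq, hc, hq0⟩
    linarith
  obtain ⟨yp, hp, hp1, hp2⟩ := Φ.exists_top z
  obtain ⟨ym, hm, hm1, hm2⟩ := Φ.exists_bot z
  have key : ∀ y, Φ.f 1 y = y → (∀ k j c, ∀ u ∈ Φ.R k j c, 0 < u y → 0 < u z) →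
      (c : ℝ) = V.N * (V.k0 * Φ.b y + Φ.a y) := by
    intro y hy hy1
    obtain ⟨q, hq, hq0⟩ := V.gF y
    have h1 := hy1 _ _ _ _ (V.hF q hq) hq0
    have h2 := hne q hq h1
    have h3 := Φ.exp_fixed hy (V.hF q hq) hq0
    rw [h2] at h3
    rw [h3]
    push_cast
    ring
  have ep := key yp hp hp1
  have em := key ym hm hm1
  obtain ⟨hb, ha, hlt⟩ := Φ.top_bot hp hm hp1 hp2 hm2
  have hfix : Φ.f 1 z = z := by
    by_contra hne'
    have h3 := hlt hne'
    have hN : (0 : ℝ) < V.N := by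
      have := V.hN
      exact_mod_cast this
    have h4 : (V.k0 : ℝ) * Φ.b ym ≤ V.k0 * Φ.b yp :=
      mul_le_mul_of_nonneg_left hb (Nat.cast_nonneg _)
    have h5 : (V.k0 : ℝ) * Φ.b ym + Φ.a ym < V.k0 * Φ.b yp + Φ.a yp := by linarith
    have h6 := mul_lt_mul_of_pos_left h5 hN
    linarith
  exact ⟨hfix, key z hfix (fun _ _ _ _ _ h => h)⟩

/-- All points of `W c 0` have the same weights. PROOF. `fixed_of_W`, and `V.lex`: if
`b z < b z'` then `k₀ b z + a z < k₀ b z' + a z'`, but both are `c / N`. -/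
theorem Fam.unique_W (V : Fam Φ) [CompactSpace Q] {c : ℤ} {z z' : Q} (hz : z ∈ V.W c 0)
    (hz' : z' ∈ V.W c 0) : Φ.b z = Φ.b z' ∧ Φ.a z = Φ.a z' := by
  obtain ⟨h1, e1⟩ := V.fixed_of_W hz
  obtain ⟨h2, e2⟩ := V.fixed_of_W hz'
  have hN : (0 : ℝ) < V.N := by
    have := V.hN
    exact_mod_cast this
  have e3 : (V.k0 : ℝ) * Φ.b z + Φ.a z = V.k0 * Φ.b z' + Φ.a z' := by
    have : (V.N : ℝ) * (V.k0 * Φ.b z + Φ.a z) = V.N * (V.k0 * Φ.b z' + Φ.a z') := by
      rw [← e1, ← e2]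
    exact mul_left_cancel₀ hN.ne' this
  have hb : Φ.b z = Φ.b z' := by
    rcases lt_trichotomy (Φ.b z) (Φ.b z') with h | h | h
    · have := V.lex z z' h1 h2 h
      linarith
    · exact h
    · have := V.lex z' z h2 h1 h
      linarith
  refine ⟨hb, ?_⟩
  rw [hb] at e3
  linarith

/-- The weights of the types are ordered: PROOF. `fixed_of_W` and `V.lex` (if `b z' < b z` then
`c' < c`). -/
theorem Fam.b_mono (V : Fam Φ) [CompactSpace Q] {c c' : ℤ} {z z' : Q} (hz : z ∈ V.W c 0)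
    (hz' : z' ∈ V.W c' 0) (h : c ≤ c') : Φ.b z ≤ Φ.b z' := by
  obtain ⟨h1, e1⟩ := V.fixed_of_W hz
  obtain ⟨h2, e2⟩ := V.fixed_of_W hz'
  have hN : (0 : ℝ) < V.N := by
    have := V.hN
    exact_mod_cast this
  by_contra hlt
  have h3 := V.lex z' z h2 h1 (not_le.1 hlt)
  have h4 := mul_lt_mul_of_pos_left h3 hN
  have h5 : (c : ℝ) ≤ c' := by exact_mod_cast h
  linarith

/-- COMPACTNESS. For small `δ` the set `W c δ` is nonempty only if `W c 0` is, and on it the
functions of `F'` of the weight `c'` of the points of `W c 0` have a sum bounded from below.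

PROOF. `W c δ` is empty if `c` is not one of the finitely many weights of elements of `F` (then
`m (· = c) = 0 < M`), so it suffices to find `δ₀, ε` for one `c` and to take minima. The sets `W c δ`
are closed (`m_cont`), decreasing in `δ`, with intersection (over `δ = 1/(n+1)`) `W c 0`. If
`W c 0 = ∅`, compactness gives `δ₀` with `W c δ₀ = ∅`. Otherwise let `z₀ ∈ W c 0`, and let `q' ∈ F'` with
`q'.2 z₀ > 0`, `c' = q'.1 = N ((k₀ + 1) b(z₀) + a(z₀))` (`exp_fixed`). For every `z ∈ W c 0` all elements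
of `F'` which are positive at `z` have the weight `c'` (`exp_fixed`, `unique_W`), so
`m' (· = c') z > 0`. So the open set `{m' (· = c') > 0}` contains `W c 0`, hence (compactness) some
`W c δ₀`, and by compactness of `W c δ₀` there is `ε > 0`. -/
theorem Fam.exists_delta (V : Fam Φ) [CompactSpace Q] : ∃ δ₀ ε : ℝ, 0 < δ₀ ∧ 0 < ε ∧
    ∀ c : ℤ, ∀ y ∈ V.W c δ₀, ∃ z ∈ V.W c 0, ∃ c' : ℤ,
      (c' : ℝ) = V.N * ((V.k0 + 1) * Φ.b z + Φ.a z) ∧ ε ≤ V.m' (fun e => e = c') y := by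
  have hone : ∀ c : ℤ, ∃ δ₀ ε : ℝ, 0 < δ₀ ∧ 0 < ε ∧
      ∀ y ∈ V.W c δ₀, ∃ z ∈ V.W c 0, ∃ c' : ℤ,
      (c' : ℝ) = V.N * ((V.k0 + 1) * Φ.b z + Φ.a z) ∧ ε ≤ V.m' (fun e => e = c') y := by
    intro c
    have hcl : ∀ δ, IsClosed (V.W c δ) := fun δ =>
      isClosed_le (V.m_cont (fun _ => True)) (continuous_const.mul (V.m_cont (fun e => e = c)))
    have hmono : ∀ δ δ' : ℝ, δ ≤ δ' → V.W c δ ⊆ V.W c δ' := by
      intro δ δ' h x hx
      have h0 := V.m_nonneg (fun e => e = c) x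
      have hx' : V.M x ≤ (1 + δ) * V.m (fun e => e = c) x := hx
      show V.M x ≤ (1 + δ') * V.m (fun e => e = c) x
      nlinarith
    have hanti : Antitone (fun n : ℕ => V.W c (1 / ((n : ℝ) + 1))) := by
      intro n n' h
      apply hmono
      apply one_div_le_one_div_of_le (by positivity)
      have : (n : ℝ) ≤ n' := by exact_mod_cast h
      linarith
    have hinter : ⋂ n : ℕ, V.W c (1 / ((n : ℝ) + 1)) = V.W c 0 := by
      apply Subset.antisymm
      · intro x hx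
        have h1 : ∀ n : ℕ, V.M x ≤ (1 + 1 / ((n : ℝ) + 1)) * V.m (fun e => e = c) x := fun n =>
          mem_iInter.1 hx n
        have h2 : Tendsto (fun n : ℕ => (1 + 1 / ((n : ℝ) + 1)) * V.m (fun e => e = c) x) atTop
            (𝓝 ((1 + 0) * V.m (fun e => e = c) x)) :=
          (tendsto_const_nhds.add tendsto_one_div_add_atTop_nhds_zero_nat).mul_const _
        exact ge_of_tendsto' h2 h1
      · intro x hx
        apply mem_iInter.2
        intro n
        exact hmono 0 _ (by positivity) hx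
    -- an open set which contains `W c 0` contains some `W c δ`
    have hopen : ∀ O : Set Q, IsOpen O → V.W c 0 ⊆ O → ∃ n : ℕ, V.W c (1 / ((n : ℝ) + 1)) ⊆ O := by
      intro O hO hsub
      apply exists_subset_nhds_of_isCompact' (V := fun n : ℕ => V.W c (1 / ((n : ℝ) + 1)))
      · exact hanti.directed_ge
      · exact fun n => (hcl _).isCompact
      · exact fun n => hcl _
      · intro x hx
        rw [hinter] at hx
        exact hO.mem_nhds (hsub hx)
    by_cases hemp : (V.W c 0).Nonempty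
    · obtain ⟨z₀, hz₀⟩ := hemp
      obtain ⟨hf0, -⟩ := V.fixed_of_W hz₀
      obtain ⟨q', hq', hq0⟩ := V.gF' z₀
      have hc' : (q'.1 : ℝ) = V.N * ((V.k0 + 1) * Φ.b z₀ + Φ.a z₀) := by
        have h3 := Φ.exp_fixed hf0 (V.hF' q' hq') hq0
        rw [h3]
        push_cast
        ring
      have hpos : V.W c 0 ⊆ {x | 0 < V.m' (fun e => e = q'.1) x} := by
        intro z hz
        obtain ⟨hfz, -⟩ := V.fixed_of_W hz
        obtain ⟨hb, ha⟩ := V.unique_W hz hz₀
        obtain ⟨q, hq, hqz⟩ := V.gF' z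
        refine (V.m'_pos_iff _ z).2 ⟨q, hq, ?_, hqz⟩
        have h3 := Φ.exp_fixed hfz (V.hF' q hq) hqz
        rw [hb, ha] at h3
        have h4 : (q.1 : ℝ) = q'.1 := by
          rw [h3, hc']
          push_cast
          ring
        exact_mod_cast h4
      obtain ⟨n, hn⟩ := hopen _ (isOpen_lt continuous_const (V.m'_cont _)) hpos
      have hcomp : IsCompact (V.W c (1 / ((n : ℝ) + 1))) := (hcl _).isCompact
      obtain ⟨y₀, hy₀, hmin⟩ := hcomp.exists_isMinOn ⟨z₀, hmono 0 _ (by positivity) hz₀⟩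
        (V.m'_cont (fun e => e = q'.1)).continuousOn
      refine ⟨1 / ((n : ℝ) + 1), V.m' (fun e => e = q'.1) y₀, by positivity, hn hy₀, ?_⟩
      intro y hy
      exact ⟨z₀, hz₀, q'.1, hc', hmin hy⟩
    · obtain ⟨n, hn⟩ := hopen ∅ isOpen_empty (by
        intro x hx
        exact absurd ⟨x, hx⟩ hemp)
      refine ⟨1 / ((n : ℝ) + 1), 1, by positivity, one_pos, ?_⟩
      intro y hy
      exact absurd (hn hy) (notMem_empty y)
  choose δ ε hδ hε h using hone
  -- the finitely many weights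
  let S : Finset ℤ := V.F.image Prod.fst
  have hW : ∀ c : ℤ, ∀ d : ℝ, ∀ y ∈ V.W c d, c ∈ S := by
    intro c d y hy
    by_contra hcS
    have hM := V.M_pos y
    have h0 := V.m_nonneg (fun e => e = c) y
    have hy' : V.M y ≤ (1 + d) * V.m (fun e => e = c) y := hy
    have hpos : 0 < V.m (fun e => e = c) y := by
      rcases h0.lt_or_eq with h1 | h1
      · exact h1
      · rw [← h1, mul_zero] at hy'
        linarith
    obtain ⟨q, hq, hqc, -⟩ := (V.m_pos_iff _ y).1 hpos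
    exact hcS (Finset.mem_image.2 ⟨q, hq, hqc⟩)
  obtain ⟨δ₀, hδ₀, hδ₀'⟩ : ∃ δ₀ : ℝ, 0 < δ₀ ∧ ∀ c ∈ S, δ₀ ≤ δ c := by
    rcases S.eq_empty_or_nonempty with hS | hS
    · exact ⟨1, one_pos, by simp [hS]⟩
    · obtain ⟨c₀, hc₀, hmin⟩ := S.exists_min_image δ hS
      exact ⟨δ c₀, hδ _, hmin⟩
  obtain ⟨ε₀, hε₀, hε₀'⟩ : ∃ ε₀ : ℝ, 0 < ε₀ ∧ ∀ c ∈ S, ε₀ ≤ ε c := by
    rcases S.eq_empty_or_nonempty with hS | hS
    · exact ⟨1, one_pos, by simp [hS]⟩
    · obtain ⟨c₀, hc₀, hmin⟩ := S.exists_min_image ε hS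
      exact ⟨ε c₀, hε _, hmin⟩
  refine ⟨δ₀, ε₀, hδ₀, hε₀, ?_⟩
  intro c y hy
  have hc := hW c _ y hy
  have hy2 : y ∈ V.W c (δ c) := by
    have h0 := V.m_nonneg (fun e => e = c) y
    have hy' : V.M y ≤ (1 + δ₀) * V.m (fun e => e = c) y := hy
    show V.M y ≤ (1 + δ c) * V.m (fun e => e = c) y
    have := hδ₀' c hc
    nlinarith
  obtain ⟨z, hz, c', hc', hle⟩ := h c y hy2
  exact ⟨z, hz, c', hc', (hε₀' c hc).trans hle⟩

end Pool.Agent.Abd.GT
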