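import Pool.Agent.H.MP_e23cd6_ag.GT.DynC

/-! MP_e23cd6_ag, torus actions, abstract dynamics: the number of times at which no weight
dominates is bounded. -/

set_option autoImplicit false

open Set Filter Topology Classical

namespace Pool.Agent.Abd.GT

variable {Q : Type} [TopologicalSpace Q] {Φ : Sys Q}

/-- The finite set of the weights of the family `F`. -/
noncomputable def Fam.Ex (V : Fam Φ) : Finset ℤ := V.F.image Prod.fst

/-- PROOF. `Finset.sum_fiberwise_of_maps_to`. -/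
theorem Fam.M_eq_sum (V : Fam Φ) (x : Q) : V.M x = ∑ c ∈ V.Ex, V.m (fun e => e = c) x := by
  have h1 : V.M x = ∑ q ∈ V.F, q.2 x := by
    unfold Fam.M Fam.m
    refine Finset.sum_congr ?_ fun _ _ => rfl
    ext q
    simp
  rw [h1, ← Finset.sum_fiberwise_of_maps_to (s := V.F) (t := V.Ex) (g := Prod.fst)
    (fun q hq => Finset.mem_image_of_mem _ hq) (fun q => q.2 x)]
  refine Finset.sum_congr rfl fun c _ => ?_
  unfold Fam.m
  refine Finset.sum_congr ?_ fun _ _ => rfl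
  ext q
  simp

/-- If no weight dominates at `y` then there are two weights `c ≠ c'` with
`η m_c < m_{c'} ≤ m_c` at `y`, where `η = δ / |Ex|`.

PROOF. Let `c ∈ Ex` with `m_c(y)` maximal (`Finset.exists_max_image`; `Ex` is nonempty by `M_pos`).
As `y ∉ W c δ`, `M y > (1 + δ) m_c(y)`, so the sum of the `m_{c'}(y)`, `c' ∈ Ex`, `c' ≠ c`, is
`> δ m_c(y)`; if all of these were `≤ η m_c(y)` the sum would be `≤ |Ex| η m_c(y) = δ m_c(y)`. -/
theorem Fam.exists_pair (V : Fam Φ) {δ : ℝ} (hδ : 0 < δ) {y : Q} (hy : ∀ c, y ∉ V.W c δ) :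
    ∃ c ∈ V.Ex, ∃ c' ∈ V.Ex, c ≠ c' ∧
      δ / V.Ex.card * V.m (fun e => e = c) y < V.m (fun e => e = c') y ∧
      V.m (fun e => e = c') y ≤ V.m (fun e => e = c) y := by
  have hMpos := V.M_pos y
  have hne : V.Ex.Nonempty := by
    rw [Finset.nonempty_iff_ne_empty]
    intro he
    have h := V.M_eq_sum y
    rw [he, Finset.sum_empty] at h
    linarith
  obtain ⟨c, hc, hmax⟩ := Finset.exists_max_image V.Ex (fun c => V.m (fun e => e = c) y) hne
  refine ⟨c, hc, ?_⟩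
  by_contra hcon
  push Not at hcon
  have hcard : (0 : ℝ) < V.Ex.card := by exact_mod_cast hne.card_pos
  have hmc : 0 ≤ V.m (fun e => e = c) y := V.m_nonneg _ y
  have hW : (1 + δ) * V.m (fun e => e = c) y < V.M y := by
    have h := hy c
    unfold Fam.W at h
    simpa using h
  have hle : ∀ c' ∈ V.Ex.erase c, V.m (fun e => e = c') y ≤
      δ / V.Ex.card * V.m (fun e => e = c) y := by
    intro c' hc'
    rw [Finset.mem_erase] at hc'
    by_contra hlt
    push Not at hlt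
    exact absurd (hmax c' hc'.2) (not_le.mpr (hcon c' hc'.2 (Ne.symm hc'.1) hlt))
  have hsum : V.M y ≤ V.m (fun e => e = c) y +
      V.Ex.card * (δ / V.Ex.card * V.m (fun e => e = c) y) := by
    rw [V.M_eq_sum y, ← Finset.add_sum_erase _ _ hc]
    refine add_le_add le_rfl ((Finset.sum_le_sum hle).trans ?_)
    rw [Finset.sum_const, nsmul_eq_mul]
    refine mul_le_mul_of_nonneg_right ?_ (by positivity)
    exact_mod_cast Finset.card_le_card (Finset.erase_subset _ _)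
  have heq : (V.Ex.card : ℝ) * (δ / V.Ex.card * V.m (fun e => e = c) y) =
      δ * V.m (fun e => e = c) y := by
    field_simp
  rw [heq] at hsum
  linarith

/-- For two weights `c ≠ c'` and `k < k'` with `η m_c < m_{c'} ≤ m_c` at `f k x` and at `f k' x`,
`2 ^ (k' - k) * η < 1`.

PROOF. Write `r k = m_{c'}(f k x) / m_c(f k x)` (`m_c > 0` at these points since otherwise
`0 < 0`); `m_step` gives `r k' = 2 ^ ((k' - k) (c' - c)) * r k` (both are `2 ^ (k (c' - c))` times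
`m_{c'}(x) / m_c(x)`). If `c' > c` then `1 ≥ r k' ≥ 2 ^ (k' - k) r k > 2 ^ (k' - k) η`; if `c' < c`
then `η < r k' ≤ 2 ^ (-(k' - k)) r k ≤ 2 ^ (-(k' - k))`. -/
theorem Fam.pair_gap (V : Fam Φ) {η : ℝ} (hη : 0 < η) {c c' : ℤ} (hc : c ≠ c') (x : Q) {k k' : ℕ}
    (hk : k < k')
    (h1 : η * V.m (fun e => e = c) (Φ.f k x) < V.m (fun e => e = c') (Φ.f k x))
    (h2 : V.m (fun e => e = c') (Φ.f k x) ≤ V.m (fun e => e = c) (Φ.f k x))
    (h3 : η * V.m (fun e => e = c) (Φ.f k' x) < V.m (fun e => e = c') (Φ.f k' x))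
    (h4 : V.m (fun e => e = c') (Φ.f k' x) ≤ V.m (fun e => e = c) (Φ.f k' x)) :
    (2 : ℝ) ^ (k' - k) * η < 1 := by
  set a := V.m (fun e => e = c) (Φ.f k x) with ha
  set b := V.m (fun e => e = c') (Φ.f k x) with hb
  have hfk : Φ.f k' x = Φ.f ((k' - k : ℕ) : ℤ) (Φ.f k x) := by
    rw [← Φ.f_add]
    congr 1
    omega
  rw [hfk, V.m_step c ((k' - k : ℕ) : ℤ) (Φ.f k x), V.m_step c' ((k' - k : ℕ) : ℤ) (Φ.f k x),
    ← ha, ← hb] at h3 h4
  set D : ℕ := k' - k with hD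
  have hD1 : 1 ≤ D := by omega
  have hg := V.G_pos (D : ℤ) (Φ.f k x)
  set g := V.G (D : ℤ) (Φ.f k x) with hgdef
  have ha0 : 0 ≤ a := V.m_nonneg _ _
  have hapos : 0 < a := by
    rcases lt_or_eq_of_le ha0 with h | h
    · exact h
    · rw [← h] at h1 h2
      linarith
  have hmono : ∀ e : ℤ, 1 ≤ e → (2 : ℝ) ^ D ≤ (2 : ℝ) ^ ((D : ℤ) * e) := by
    intro e he
    rw [← zpow_natCast (2 : ℝ) D]
    apply zpow_le_zpow_right₀ (by norm_num)
    nlinarith
  rcases lt_or_gt_of_ne hc with hlt | hgt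
  · -- `c < c'`
    have hsplit : (2 : ℝ) ^ ((D : ℤ) * c') = (2 : ℝ) ^ ((D : ℤ) * (c' - c)) *
        (2 : ℝ) ^ ((D : ℤ) * c) := by
      rw [← zpow_add₀ (by norm_num)]; congr 1; ring
    have h5 : (2 : ℝ) ^ ((D : ℤ) * (c' - c)) * b ≤ a := by
      rw [hsplit] at h4
      have hpos : 0 < (2 : ℝ) ^ ((D : ℤ) * c) * g := by positivity
      have h6 : ((2 : ℝ) ^ ((D : ℤ) * c) * g) * ((2 : ℝ) ^ ((D : ℤ) * (c' - c)) * b) ≤
          ((2 : ℝ) ^ ((D : ℤ) * c) * g) * a := by linarith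
      exact le_of_mul_le_mul_left h6 hpos
    have h7 := hmono (c' - c) (by omega)
    have h8 : (2 : ℝ) ^ D * (η * a) < a := by
      have hb0 : 0 ≤ b := V.m_nonneg _ _
      calc (2 : ℝ) ^ D * (η * a) < (2 : ℝ) ^ D * b := mul_lt_mul_of_pos_left h1 (by positivity)
        _ ≤ (2 : ℝ) ^ ((D : ℤ) * (c' - c)) * b := mul_le_mul_of_nonneg_right h7 hb0
        _ ≤ a := h5
    have h9 : ((2 : ℝ) ^ D * η) * a < 1 * a := by linarith
    exact lt_of_mul_lt_mul_right h9 hapos.le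
  · -- `c' < c`
    have hsplit : (2 : ℝ) ^ ((D : ℤ) * c) = (2 : ℝ) ^ ((D : ℤ) * (c - c')) *
        (2 : ℝ) ^ ((D : ℤ) * c') := by
      rw [← zpow_add₀ (by norm_num)]; congr 1; ring
    have h5 : η * ((2 : ℝ) ^ ((D : ℤ) * (c - c')) * a) < b := by
      rw [hsplit] at h3
      have hpos : 0 < (2 : ℝ) ^ ((D : ℤ) * c') * g := by positivity
      have h6 : ((2 : ℝ) ^ ((D : ℤ) * c') * g) * (η * ((2 : ℝ) ^ ((D : ℤ) * (c - c')) * a)) <
          ((2 : ℝ) ^ ((D : ℤ) * c') * g) * b := by linarith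
      exact lt_of_mul_lt_mul_left h6 hpos.le
    have h7 := hmono (c - c') (by omega)
    have h8 : (2 : ℝ) ^ D * (η * a) < a := by
      calc (2 : ℝ) ^ D * (η * a) ≤ (2 : ℝ) ^ ((D : ℤ) * (c - c')) * (η * a) :=
            mul_le_mul_of_nonneg_right h7 (by positivity)
        _ = η * ((2 : ℝ) ^ ((D : ℤ) * (c - c')) * a) := by ring
        _ < b := h5
        _ ≤ a := h2
    have h9 : ((2 : ℝ) ^ D * η) * a < 1 * a := by linarith
    exact lt_of_mul_lt_mul_right h9 hapos.le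

/-- BAD TIMES. The number of `k ≤ n` such that no weight dominates at `f k x` is bounded
independently of `x` and `n`.

PROOF. `η = δ / |Ex|`, `Λ : ℕ` with `1 ≤ 2 ^ Λ * η`. The set of bad `k` is contained in the union over
the pairs `c ≠ c'` of weights of the sets `B c c'` of the `k ≤ n` as in `exists_pair`. By `pair_gap`
the elements of `B c c'` are contained in `Finset.Icc k₀ (k₀ + Λ)`, `k₀` the smallest one, so
`card (B c c') ≤ Λ + 1`. So `M₀ = |Ex| ^ 2 * (Λ + 1)` (`Finset.card_biUnion_le`). -/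
theorem Fam.bad_count (V : Fam Φ) {δ : ℝ} (hδ : 0 < δ) : ∃ M₀ : ℕ, ∀ (x : Q) (n : ℕ),
    ((Finset.range (n + 1)).filter (fun k : ℕ => ∀ c, Φ.f k x ∉ V.W c δ)).card ≤ M₀ := by
  rcases Finset.eq_empty_or_nonempty V.Ex with he | hne
  · -- impossible unless there is no point at all
    refine ⟨0, fun x n => ?_⟩
    exfalso
    have h := V.M_eq_sum x
    rw [he, Finset.sum_empty] at h
    have := V.M_pos x
    linarith
  have hcard : (0 : ℝ) < V.Ex.card := by exact_mod_cast hne.card_pos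
  set η : ℝ := δ / V.Ex.card with hη
  have hη0 : 0 < η := by positivity
  obtain ⟨Λ, hΛ⟩ : ∃ Λ : ℕ, 1 ≤ (2 : ℝ) ^ Λ * η := by
    obtain ⟨Λ, hΛ⟩ := pow_unbounded_of_one_lt (1 / η) (by norm_num : (1 : ℝ) < 2)
    refine ⟨Λ, ?_⟩
    rw [div_lt_iff₀ hη0] at hΛ
    exact hΛ.le
  refine ⟨(V.Ex ×ˢ V.Ex).card * (Λ + 1), fun x n => ?_⟩
  set B : ℤ × ℤ → Finset ℕ := fun cc => (Finset.range (n + 1)).filter (fun k : ℕ =>
    cc.1 ≠ cc.2 ∧ η * V.m (fun e => e = cc.1) (Φ.f k x) < V.m (fun e => e = cc.2) (Φ.f k x) ∧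
      V.m (fun e => e = cc.2) (Φ.f k x) ≤ V.m (fun e => e = cc.1) (Φ.f k x)) with hB
  have hsub : (Finset.range (n + 1)).filter (fun k : ℕ => ∀ c, Φ.f k x ∉ V.W c δ) ⊆
      (V.Ex ×ˢ V.Ex).biUnion B := by
    intro k hk
    rw [Finset.mem_filter] at hk
    obtain ⟨c, hc, c', hc', hne', h1, h2⟩ := V.exists_pair hδ hk.2
    rw [Finset.mem_biUnion]
    refine ⟨(c, c'), Finset.mem_product.mpr ⟨hc, hc'⟩, ?_⟩
    rw [hB, Finset.mem_filter]
    exact ⟨hk.1, hne', h1, h2⟩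
  have hBcard : ∀ cc ∈ V.Ex ×ˢ V.Ex, (B cc).card ≤ Λ + 1 := by
    intro cc _
    rcases (B cc).eq_empty_or_nonempty with h0 | h0
    · rw [h0]; simp
    · set k₀ := (B cc).min' h0 with hk₀
      have hk₀mem : k₀ ∈ B cc := Finset.min'_mem _ _
      have hsub2 : B cc ⊆ Finset.Icc k₀ (k₀ + Λ) := by
        intro k hk
        rw [Finset.mem_Icc]
        refine ⟨Finset.min'_le _ _ hk, ?_⟩
        by_contra hgt
        push Not at hgt
        have hk' := hk
        rw [hB, Finset.mem_filter] at hk' hk₀mem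
        have hgap := V.pair_gap hη0 hk'.2.1 x (k := k₀) (k' := k) (by omega)
          hk₀mem.2.2.1 hk₀mem.2.2.2 hk'.2.2.1 hk'.2.2.2
        have hpow : (2 : ℝ) ^ Λ ≤ (2 : ℝ) ^ (k - k₀) :=
          pow_le_pow_right₀ (by norm_num) (by omega)
        have := mul_le_mul_of_nonneg_right hpow hη0.le
        linarith
      refine (Finset.card_le_card hsub2).trans ?_
      rw [Nat.card_Icc]
      omega
  calc ((Finset.range (n + 1)).filter (fun k : ℕ => ∀ c, Φ.f k x ∉ V.W c δ)).card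
      ≤ ((V.Ex ×ˢ V.Ex).biUnion B).card := Finset.card_le_card hsub
    _ ≤ (V.Ex ×ˢ V.Ex).card * (Λ + 1) := Finset.card_biUnion_le_card_mul _ _ _ hBcard

end Pool.Agent.Abd.GT
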