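import Pool.Agent.H.MP_e23cd6_ag.GT.DynC2

/-! MP_e23cd6_ag, torus actions, abstract dynamics: the factor of the metric along an orbit. -/

set_option autoImplicit false

open Set Filter Topology Classical

namespace Pool.Agent.Abd.GT

variable {Q : Type} [TopologicalSpace Q] {Φ : Sys Q}

/-- A positive continuous function on a compact space is bounded from above and below.
(If `Q` is empty take `B = 1`.) -/
theorem bdd_of_pos [CompactSpace Q] {g : Q → ℝ} (hg : Continuous g) (hpos : ∀ x, 0 < g x) :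
    ∃ B : ℝ, 1 ≤ B ∧ ∀ x, B⁻¹ ≤ g x ∧ g x ≤ B := by
  rcases isEmpty_or_nonempty Q with hQ | hQ
  · exact ⟨1, le_refl _, fun x => (hQ.false x).elim⟩
  obtain ⟨x1, -, h1⟩ := isCompact_univ.exists_isMaxOn (Set.univ_nonempty (α := Q)) hg.continuousOn
  obtain ⟨x2, -, h2⟩ := isCompact_univ.exists_isMinOn (Set.univ_nonempty (α := Q)) hg.continuousOn
  refine ⟨max 1 (max (g x1) (g x2)⁻¹), le_max_left _ _, fun x => ⟨?_, ?_⟩⟩
  · have h3 : g x2 ≤ g x := h2 (Set.mem_univ x)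
    have h4 : (g x2)⁻¹ ≤ max 1 (max (g x1) (g x2)⁻¹) :=
      (le_max_right _ _).trans (le_max_right _ _)
    have h5 : (max 1 (max (g x1) (g x2)⁻¹))⁻¹ ≤ ((g x2)⁻¹)⁻¹ :=
      inv_anti₀ (inv_pos.2 (hpos x2)) h4
    rw [inv_inv] at h5
    exact h5.trans h3
  · have h3 : g x ≤ g x1 := h1 (Set.mem_univ x)
    exact h3.trans ((le_max_left _ _).trans (le_max_right _ _))

theorem Fam.m_pos_of_W (V : Fam Φ) {c : ℤ} {δ : ℝ} {y : Q} (_hδ : 0 < δ) (hy : y ∈ V.W c δ) :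
    0 < V.m (fun e => e = c) y := by
  have h1 : V.M y ≤ (1 + δ) * V.m (fun e => e = c) y := hy
  have h2 := V.M_pos y
  have h3 := V.m_nonneg (fun e => e = c) y
  by_contra h
  have h4 : V.m (fun e => e = c) y = 0 := le_antisymm (not_lt.1 h) h3
  rw [h4, mul_zero] at h1
  linarith

theorem Fam.other_le (V : Fam Φ) {c c₂ : ℤ} {δ : ℝ} {y : Q} (hc : c ≠ c₂) (hy : y ∈ V.W c δ) :
    V.m (fun e => e = c₂) y ≤ δ * V.m (fun e => e = c) y := by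
  have h1 : V.M y ≤ (1 + δ) * V.m (fun e => e = c) y := hy
  have h2 := V.m_add_le (p := fun _ => True) (p₁ := fun e => e = c) (p₂ := fun e => e = c₂)
    (fun _ _ => trivial) (fun _ _ => trivial)
    (fun e he he' => hc (he.symm.trans he')) y
  have h3 : V.M y = V.m (fun _ => True) y := rfl
  rw [h3] at h1
  linarith

/-- The weight which dominates does not change in one step without a bad time.

PROOF. `D` a natural number with `|c - c'| ≤ D` for all weights of `F`, `δ₁ = min(1/2, 2 ^ (-D-1))`. If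
`y ∈ W c δ` and `f 1 y ∈ W c₂ δ`, `c ≠ c₂`, then `m_{c₂}(y) ≤ M y - m_c(y) ≤ δ m_c(y)` (`m_add_le`) and
`m_c(f 1 y) ≤ δ m_{c₂}(f 1 y)`; `m_step`: `m_c(f 1 y) = 2 ^ c G m_c(y)` and
`m_{c₂}(f 1 y) = 2 ^ c₂ G m_{c₂}(y) ≤ 2 ^ c₂ G δ m_c(y)`, so `2 ^ c ≤ δ ^ 2 * 2 ^ c₂` as
`G m_c(y) > 0`: contradiction. (`c`, `c₂` are weights of `F`: otherwise `m_c = 0` and `M ≤ 0`.) -/
theorem Fam.same_type (V : Fam Φ) : ∃ δ₁ : ℝ, 0 < δ₁ ∧ δ₁ < 1 ∧ ∀ δ, 0 < δ → δ ≤ δ₁ →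
    ∀ y c c₂, y ∈ V.W c δ → Φ.f 1 y ∈ V.W c₂ δ → c = c₂ := by
  set S : ℕ := ∑ q ∈ V.F, q.1.natAbs with hS
  have hS' : ∀ q ∈ V.F, q.1.natAbs ≤ S := fun q hq =>
    Finset.single_le_sum (f := fun q : ℤ × (Q → ℝ) => q.1.natAbs) (fun _ _ => Nat.zero_le _) hq
  refine ⟨(1 / 2) ^ (S + 1), by positivity, pow_lt_one₀ (by norm_num) (by norm_num) (by omega), ?_⟩
  intro δ hδ hδ1 y c c₂ hy hy2
  by_contra hne
  have p1 := V.m_pos_of_W hδ hy
  have p2 := V.m_pos_of_W hδ hy2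
  obtain ⟨q, hq, hqc, -⟩ := (V.m_pos_iff _ _).1 p1
  obtain ⟨q2, hq2, hqc2, -⟩ := (V.m_pos_iff _ _).1 p2
  have b1 := hS' q hq
  have b2 := hS' q2 hq2
  have hqc' : q.1 = c := hqc
  have hqc2' : q2.1 = c₂ := hqc2
  rw [hqc'] at b1
  rw [hqc2'] at b2
  have o1 := V.other_le hne hy
  have o2 := V.other_le (Ne.symm hne) hy2
  have s1 := V.m_step c 1 y
  have s2 := V.m_step c₂ 1 y
  rw [one_mul] at s1 s2
  rw [s1, s2] at o2
  have hG := V.G_pos 1 y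
  have h2c : (0 : ℝ) < (2 : ℝ) ^ c₂ := by positivity
  have o3 : (2 : ℝ) ^ c * (V.G 1 y * V.m (fun e => e = c) y) ≤
      (δ ^ 2 * (2 : ℝ) ^ c₂) * (V.G 1 y * V.m (fun e => e = c) y) := by
    calc (2 : ℝ) ^ c * (V.G 1 y * V.m (fun e => e = c) y)
        = (2 : ℝ) ^ c * V.G 1 y * V.m (fun e => e = c) y := by ring
      _ ≤ δ * ((2 : ℝ) ^ c₂ * V.G 1 y * V.m (fun e => e = c₂) y) := o2
      _ ≤ δ * ((2 : ℝ) ^ c₂ * V.G 1 y * (δ * V.m (fun e => e = c) y)) := by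
          have hpp : 0 ≤ (2 : ℝ) ^ c₂ * V.G 1 y := by positivity
          exact mul_le_mul_of_nonneg_left (mul_le_mul_of_nonneg_left o1 hpp) hδ.le
      _ = (δ ^ 2 * (2 : ℝ) ^ c₂) * (V.G 1 y * V.m (fun e => e = c) y) := by ring
  have o4 : (2 : ℝ) ^ c ≤ δ ^ 2 * (2 : ℝ) ^ c₂ := le_of_mul_le_mul_right o3 (mul_pos hG p1)
  have o5 : δ ^ 2 ≤ ((1 / 2 : ℝ) ^ (S + 1)) ^ 2 := pow_le_pow_left₀ hδ.le hδ1 2
  have o6 : ((1 / 2 : ℝ) ^ (S + 1)) ^ 2 = (2 : ℝ) ^ (-(2 * (S : ℤ) + 2)) := by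
    rw [← pow_mul, one_div, inv_pow, ← zpow_natCast, ← zpow_neg]
    congr 1
    push_cast
    ring
  rw [o6] at o5
  have o7 : (2 : ℝ) ^ c ≤ (2 : ℝ) ^ (-(2 * (S : ℤ) + 2)) * (2 : ℝ) ^ c₂ :=
    o4.trans (mul_le_mul_of_nonneg_right o5 h2c.le)
  rw [← zpow_add₀ (by norm_num : (2 : ℝ) ≠ 0)] at o7
  have o8 : c ≤ -(2 * (S : ℤ) + 2) + c₂ := (zpow_le_zpow_iff_right₀ (by norm_num)).1 o7
  have b1' : -(S : ℤ) ≤ c := by omega
  have b2' : c₂ ≤ (S : ℤ) := by omega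
  omega

/-- The exact factor at a good step: `z ∈ W c 0`, `c' = N ((k₀ + 1) b(z) + a(z))`. PROOF. `m_step`
and `m'_step` for `n = 1`, and `c' - c = N b(z)` by `fixed_of_W`. -/
theorem Fam.exact (V : Fam Φ) [CompactSpace Q] {c c' : ℤ} {z : Q} (hz : z ∈ V.W c 0)
    (hc : (c' : ℝ) = V.N * ((V.k0 + 1) * Φ.b z + Φ.a z)) (y : Q) :
    V.m' (fun e => e = c') (Φ.f 1 y) * V.m (fun e => e = c) y =
      (2 : ℝ) ^ (V.N * Φ.b z) * Φ.GD 1 y ^ V.N *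
        (V.m' (fun e => e = c') y * V.m (fun e => e = c) (Φ.f 1 y)) := by
  obtain ⟨-, h1⟩ := V.fixed_of_W hz
  have s1 := V.m_step c 1 y
  have s2 := V.m'_step c' 1 y
  rw [one_mul] at s1 s2
  rw [s1, s2]
  have e1 : (2 : ℝ) ^ c' = (2 : ℝ) ^ (V.N * Φ.b z) * (2 : ℝ) ^ c := by
    rw [← Real.rpow_intCast, ← Real.rpow_intCast, ← Real.rpow_add (by norm_num : (0 : ℝ) < 2)]
    congr 1
    rw [hc, h1]
    ring
  rw [e1]
  ring

/-- A bounded function `κ` such that `GD 1 y ^ N * κ y / κ (f 1 y)` is bounded from above and below,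
and equal to `2 ^ (-N b)` if the same weight of type `b` dominates at `y` and `f 1 y`.

PROOF. Let `δ₀, ε` be given by `exists_delta` and `δ₁` by `same_type`; take `δ ≤ min δ₀ δ₁`. Note
`W c δ ⊆ W c δ₀` (as `m ≥ 0`). For `y` in some `W c δ` (`c` is then unique: two different dominating
weights would give `M ≤ (1 + δ) m_c`, `M ≤ (1 + δ) m_{c₂}`, `m_c + m_{c₂} ≤ M`, so `2 M ≤ (1 + δ) M`)
let `κ y = m'_{c'}(y) / m_c(y)` with `c'` as in `exists_delta` (`c'` depends only on `c` by `unique_W`);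
otherwise `κ y = 1`. Bounds: `ε ≤ m'_{c'}(y) ≤ M' y`, `M y / 2 ≤ m_c(y) ≤ M y`, `bdd_of_pos`
for `M`, `M'`, `GD 1`. The exact formula is `exact`. -/
theorem Fam.exists_kappa (V : Fam Φ) [CompactSpace Q] : ∃ δ₁ : ℝ, 0 < δ₁ ∧ δ₁ < 1 ∧
    ∀ δ, 0 < δ → δ ≤ δ₁ → ∃ (κ : Q → ℝ) (B : ℝ), 1 ≤ B ∧ (∀ y, B⁻¹ ≤ κ y ∧ κ y ≤ B) ∧
      (∀ y, B⁻¹ ≤ Φ.GD 1 y ^ V.N * κ y / κ (Φ.f 1 y) ∧ Φ.GD 1 y ^ V.N * κ y / κ (Φ.f 1 y) ≤ B) ∧
      ∀ y c c₂, y ∈ V.W c δ → Φ.f 1 y ∈ V.W c₂ δ → c = c₂ ∧ ∀ z ∈ V.W c 0,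
        Φ.GD 1 y ^ V.N * κ y / κ (Φ.f 1 y) = (2 : ℝ) ^ (-(V.N * Φ.b z)) := by
  obtain ⟨δ₀, ε, hδ₀, hε, H0⟩ := V.exists_delta
  obtain ⟨δ₁, hδ₁, hδ₁1, H1⟩ := V.same_type
  obtain ⟨B₁, hB₁, HB₁⟩ := bdd_of_pos (V.m_cont (fun _ => True)) V.M_pos
  obtain ⟨B₂, hB₂, HB₂⟩ := bdd_of_pos (V.m'_cont (fun _ => True)) V.M'_pos
  obtain ⟨B₃, hB₃, HB₃⟩ := bdd_of_pos (Φ.GD_cont 1) (Φ.GD_pos 1)
  have HM : ∀ y, V.M y ≤ B₁ ∧ B₁⁻¹ ≤ V.M y := fun y => ⟨(HB₁ y).2, (HB₁ y).1⟩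
  have HM' : ∀ y, V.M' y ≤ B₂ := fun y => (HB₂ y).2
  refine ⟨min δ₀ δ₁, lt_min hδ₀ hδ₁, lt_of_le_of_lt (min_le_right _ _) hδ₁1, ?_⟩
  intro δ hδ hδle
  have hδ0 : δ ≤ δ₀ := hδle.trans (min_le_left _ _)
  have hδ1 : δ ≤ δ₁ := hδle.trans (min_le_right _ _)
  have hδlt : δ < 1 := lt_of_le_of_lt hδ1 hδ₁1
  have hsub : ∀ c y, y ∈ V.W c δ → y ∈ V.W c δ₀ := by
    intro c y hy
    have h1 : V.M y ≤ (1 + δ) * V.m (fun e => e = c) y := hy
    have h2 := V.m_nonneg (fun e => e = c) y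
    show V.M y ≤ (1 + δ₀) * V.m (fun e => e = c) y
    nlinarith
  have huniq : ∀ y c c₂, y ∈ V.W c δ → y ∈ V.W c₂ δ → c = c₂ := by
    intro y c c₂ h1 h2
    by_contra hne
    have p1 := V.m_pos_of_W hδ h1
    have p2 := V.m_pos_of_W hδ h2
    have o1 := V.other_le hne h1
    have o2 := V.other_le (Ne.symm hne) h2
    nlinarith
  set P : ℤ → ℤ → Prop := fun c c' => ∃ z ∈ V.W c 0,
    (c' : ℝ) = V.N * ((V.k0 + 1) * Φ.b z + Φ.a z) with hP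
  have hPu : ∀ c c' c'', P c c' → P c c'' → c' = c'' := by
    rintro c c' c'' ⟨z, hz, e⟩ ⟨z', hz', e'⟩
    obtain ⟨u1, u2⟩ := V.unique_W hz hz'
    have : (c' : ℝ) = (c'' : ℝ) := by rw [e, e', u1, u2]
    exact_mod_cast this
  set cc : ℤ → ℤ := fun c => if h : ∃ c', P c c' then h.choose else 0 with hcc
  have hccs : ∀ c c', P c c' → cc c = c' := by
    intro c c' h
    have h' : ∃ c', P c c' := ⟨c', h⟩
    have e : cc c = h'.choose := by rw [hcc]; exact dif_pos h'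
    rw [e]
    exact hPu c _ _ h'.choose_spec h
  have hlow : ∀ c y, y ∈ V.W c δ → ε ≤ V.m' (fun e => e = cc c) y := by
    intro c y hy
    obtain ⟨z, hz, c', hc', h⟩ := H0 c y (hsub c y hy)
    rw [hccs c c' ⟨z, hz, hc'⟩]
    exact h
  set κ : Q → ℝ := fun y => if h : ∃ c, y ∈ V.W c δ then
    V.m' (fun e => e = cc h.choose) y / V.m (fun e => e = h.choose) y else 1 with hκ
  have hκ1 : ∀ c y, y ∈ V.W c δ → κ y = V.m' (fun e => e = cc c) y / V.m (fun e => e = c) y := by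
    intro c y hy
    have h' : ∃ c, y ∈ V.W c δ := ⟨c, hy⟩
    have e : κ y = V.m' (fun e => e = cc h'.choose) y / V.m (fun e => e = h'.choose) y := by
      rw [hκ]; exact dif_pos h'
    rw [e, huniq y _ c h'.choose_spec hy]
  have hκ2 : ∀ y, (¬ ∃ c, y ∈ V.W c δ) → κ y = 1 := by
    intro y hy
    rw [hκ]; exact dif_neg hy
  set K : ℝ := max 1 (max (2 * B₁ * B₂) (B₁ / ε)) with hK
  have hK1 : 1 ≤ K := le_max_left _ _
  have hK2 : 2 * B₁ * B₂ ≤ K := (le_max_left _ _).trans (le_max_right _ _)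
  have hK3 : B₁ / ε ≤ K := (le_max_right _ _).trans (le_max_right _ _)
  have hK0 : 0 < K := by linarith
  have hB10 : 0 < B₁ := by linarith
  have hB20 : 0 < B₂ := by linarith
  have hB30 : 0 < B₃ := by linarith
  have hκb : ∀ y, K⁻¹ ≤ κ y ∧ κ y ≤ K := by
    intro y
    by_cases h : ∃ c, y ∈ V.W c δ
    · obtain ⟨c, hy⟩ := h
      rw [hκ1 c y hy]
      have h1 : V.M y ≤ (1 + δ) * V.m (fun e => e = c) y := hy
      have p1 := V.m_pos_of_W hδ hy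
      have l1 := hlow c y hy
      have u1 : V.m (fun e => e = c) y ≤ B₁ :=
        (V.m_mono (p' := fun _ => True) (fun _ _ => trivial) y).trans (HM y).1
      have u2 : V.m' (fun e => e = cc c) y ≤ B₂ := by
        have h3 : V.m' (fun e => e = cc c) y ≤ V.m' (fun _ => True) y := by
          unfold Fam.m'
          refine Finset.sum_le_sum_of_subset_of_nonneg ?_ ?_
          · intro q hq
            exact (@Finset.mem_filter _ _ (_) _ _).2 ⟨((@Finset.mem_filter _ _ (_) _ _).1 hq).1, trivial⟩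
          · intro q hq _
            exact Φ.nonneg _ _ _ q.2 (V.hF' q ((@Finset.mem_filter _ _ (_) _ _).1 hq).1) y
        exact h3.trans (HM' y)
      have l2 : B₁⁻¹ ≤ 2 * V.m (fun e => e = c) y := by
        have := (HM y).2
        nlinarith
      constructor
      · rw [inv_le_comm₀ hK0 (div_pos (lt_of_lt_of_le hε l1) p1), inv_div]
        refine le_trans ?_ hK3
        rw [div_le_div_iff₀ (by linarith) hε]
        nlinarith
      · refine le_trans ?_ hK2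
        rw [div_le_iff₀ p1]
        have h5 : 1 ≤ B₁ * (2 * V.m (fun e => e = c) y) := by
          have := mul_le_mul_of_nonneg_left l2 hB10.le
          rwa [mul_inv_cancel₀ hB10.ne'] at this
        nlinarith
    · rw [hκ2 y h]
      exact ⟨inv_le_one_of_one_le₀ hK1, hK1⟩
  have hB3N : 1 ≤ B₃ ^ V.N := one_le_pow₀ hB₃
  refine ⟨κ, B₃ ^ V.N * K ^ 2, ?_, ?_, ?_, ?_⟩
  · have : 1 ≤ K ^ 2 := one_le_pow₀ hK1
    nlinarith
  · intro y
    have hle : K ≤ B₃ ^ V.N * K ^ 2 := by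
      have h1 : K ≤ K ^ 2 := by nlinarith
      nlinarith
    exact ⟨(inv_anti₀ hK0 hle).trans (hκb y).1, (hκb y).2.trans hle⟩
  · intro y
    have hg1 := (HB₃ y).1
    have hg2 := (HB₃ y).2
    have hg0 := Φ.GD_pos 1 y
    have k1 := hκb y
    have k2 := hκb (Φ.f 1 y)
    have kp1 : 0 < κ y := lt_of_lt_of_le (inv_pos.2 hK0) k1.1
    have kp2 : 0 < κ (Φ.f 1 y) := lt_of_lt_of_le (inv_pos.2 hK0) k2.1
    have gN1 : (B₃ ^ V.N)⁻¹ ≤ Φ.GD 1 y ^ V.N := by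
      rw [← inv_pow]
      exact pow_le_pow_left₀ (inv_pos.2 hB30).le hg1 _
    have gN2 : Φ.GD 1 y ^ V.N ≤ B₃ ^ V.N := pow_le_pow_left₀ hg0.le hg2 _
    have i1 : (κ (Φ.f 1 y))⁻¹ ≤ K := by
      rw [inv_le_comm₀ kp2 hK0]; exact k2.1
    have i2 : K⁻¹ ≤ (κ (Φ.f 1 y))⁻¹ := inv_anti₀ kp2 k2.2
    rw [div_eq_mul_inv]
    constructor
    · calc (B₃ ^ V.N * K ^ 2)⁻¹ = (B₃ ^ V.N)⁻¹ * K⁻¹ * K⁻¹ := by
            rw [mul_inv, pow_two, mul_inv]; ring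
        _ ≤ Φ.GD 1 y ^ V.N * κ y * (κ (Φ.f 1 y))⁻¹ := by
            have hK' : 0 ≤ K⁻¹ := (inv_pos.2 hK0).le
            have hG' : 0 ≤ Φ.GD 1 y ^ V.N := (pow_pos hg0 _).le
            exact mul_le_mul (mul_le_mul gN1 k1.1 hK' hG') i2 hK' (mul_nonneg hG' kp1.le)
    · calc Φ.GD 1 y ^ V.N * κ y * (κ (Φ.f 1 y))⁻¹ ≤ B₃ ^ V.N * K * K := by
            exact mul_le_mul (mul_le_mul gN2 k1.2 kp1.le (by positivity)) i1
              (inv_pos.2 kp2).le (by positivity)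
        _ = B₃ ^ V.N * K ^ 2 := by ring
  · intro y c c₂ hy hy2
    have hc := H1 δ hδ hδ1 y c c₂ hy hy2
    refine ⟨hc, ?_⟩
    subst hc
    intro z hz
    obtain ⟨z₁, hz₁, c', hc', -⟩ := H0 c y (hsub c y hy)
    have e1 : cc c = c' := hccs c c' ⟨z₁, hz₁, hc'⟩
    obtain ⟨u1, u2⟩ := V.unique_W hz hz₁
    have hc'' : (c' : ℝ) = V.N * ((V.k0 + 1) * Φ.b z + Φ.a z) := by rw [hc', u1, u2]
    have ex := V.exact hz hc'' y
    rw [hκ1 c y hy, hκ1 c _ hy2, e1]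
    have l1 := hlow c y hy
    have l2 := hlow c _ hy2
    rw [e1] at l1 l2
    have p1 := V.m_pos_of_W hδ hy
    have p2 := V.m_pos_of_W hδ hy2
    have q1 : 0 < V.m' (fun e => e = c') y := lt_of_lt_of_le hε l1
    have q2 : 0 < V.m' (fun e => e = c') (Φ.f 1 y) := lt_of_lt_of_le hε l2
    have h2 : (0 : ℝ) < (2 : ℝ) ^ (V.N * Φ.b z) := Real.rpow_pos_of_pos (by norm_num) _
    rw [Real.rpow_neg (by norm_num), div_div_eq_mul_div, mul_div_assoc', div_mul_eq_mul_div,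
      div_div, div_eq_iff (by positivity)]
    rw [inv_mul_eq_div, eq_div_iff h2.ne']
    linarith [ex]

end Pool.Agent.Abd.GT
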