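import Pool.Agent.H.MP_e23cd6_ag.GT.DynE
import Pool.Agent.H.MP_e23cd6_ag.GT.DynD

/-! MP_e23cd6_ag, torus actions, abstract dynamics: the factor of the metric along a run. -/

set_option autoImplicit false

open Set Filter Topology Classical

namespace Pool.Agent.Abd.GT

variable {Q : Type} [TopologicalSpace Q] {Φ : Sys Q}

/-- The product formula along an orbit. -/
theorem DynE2_prod (Φ : Sys Q) {κ : Q → ℝ} (hκ : ∀ y, 0 < κ y) (N : ℕ) (x : Q) (n : ℕ) :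
    ∏ k ∈ Finset.range n, (Φ.GD 1 (Φ.f (k : ℕ) x) ^ N * κ (Φ.f (k : ℕ) x) / κ (Φ.f 1 (Φ.f (k : ℕ) x)))
      = Φ.GD n x ^ N * κ x / κ (Φ.f n x) := by
  induction n with
  | zero =>
    rw [Finset.prod_range_zero]
    simp only [Nat.cast_zero]
    rw [Φ.GD_zero, Φ.f_zero, one_pow, one_mul, div_self (hκ x).ne']
  | succ n ih =>
    rw [Finset.prod_range_succ, ih]
    have h1 : ((n + 1 : ℕ) : ℤ) = 1 + (n : ℤ) := by push_cast; ring
    rw [h1, Φ.GD_add, Φ.f_add]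
    have h2 := (hκ (Φ.f n x)).ne'
    have h3 := (hκ (Φ.f 1 (Φ.f n x))).ne'
    rw [mul_pow]
    field_simp

/-- An upper bound of a product with few factors larger than one. -/
theorem DynE2_le {ρ : ℕ → ℝ} {B : ℝ} (hB : 1 ≤ B) (n m : ℕ) (P : ℕ → Prop)
    (h0 : ∀ k < n, 0 ≤ ρ k) (h1 : ∀ k < n, ρ k ≤ B) (h2 : ∀ k < n, ¬ P k → ρ k ≤ 1)
    (hm : ((Finset.range n).filter P).card ≤ m) : ∏ k ∈ Finset.range n, ρ k ≤ B ^ m := by
  calc ∏ k ∈ Finset.range n, ρ k ≤ ∏ k ∈ Finset.range n, (if P k then B else 1) := by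
        refine Finset.prod_le_prod (fun k hk => h0 k (Finset.mem_range.1 hk)) fun k hk => ?_
        rw [Finset.mem_range] at hk
        split_ifs with h
        · exact h1 k hk
        · exact h2 k hk h
    _ = B ^ ((Finset.range n).filter P).card := by
        rw [Finset.prod_ite, Finset.prod_const, Finset.prod_const_one, mul_one]
    _ ≤ B ^ m := pow_le_pow_right₀ hB hm

/-- The number of bad steps. -/
theorem DynE2_card (P : ℕ → Prop) (n M₀ : ℕ) (h : ((Finset.range (n + 1)).filter P).card ≤ M₀) :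
    ((Finset.range n).filter fun k => P k ∨ P (k + 1)).card ≤ 2 * M₀ := by
  have h1 : (Finset.range n).filter (fun k => P k ∨ P (k + 1)) ⊆
      (Finset.range (n + 1)).filter P ∪
        ((Finset.range (n + 1)).filter P).image (fun k => k - 1) := by
    intro k hk
    rw [Finset.mem_filter, Finset.mem_range] at hk
    rw [Finset.mem_union]
    rcases hk.2 with h2 | h2
    · exact Or.inl (Finset.mem_filter.2 ⟨Finset.mem_range.2 (by omega), h2⟩)
    · refine Or.inr (Finset.mem_image.2 ⟨k + 1, Finset.mem_filter.2 ⟨Finset.mem_range.2 (by omega),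
        h2⟩, by simp⟩)
  have h2 := Finset.card_le_card h1
  have h3 := Finset.card_union_le ((Finset.range (n + 1)).filter P)
    (((Finset.range (n + 1)).filter P).image (fun k => k - 1))
  have h4 := Finset.card_image_le (s := (Finset.range (n + 1)).filter P) (f := fun k => k - 1)
  omega

/-- RUNS. If all dominating weights along the orbit segment `f k x`, `k ≤ n`, have type `b ≥ 0` then
`GD n x ≤ C`; if all have type `b ≤ 0` then `GD n x ≥ 1 / C`. -/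
theorem Fam.run (V : Fam Φ) [CompactSpace Q] : ∃ δ₁ : ℝ, 0 < δ₁ ∧ δ₁ < 1 ∧
    ∀ δ, 0 < δ → δ ≤ δ₁ → ∃ C : ℝ, 1 ≤ C ∧ ∀ (x : Q) (n : ℕ),
      ((∀ k ≤ n, ∀ c, Φ.f k x ∈ V.W c δ → ∀ z ∈ V.W c 0, 0 ≤ Φ.b z) → Φ.GD n x ≤ C) ∧
      ((∀ k ≤ n, ∀ c, Φ.f k x ∈ V.W c δ → ∀ z ∈ V.W c 0, Φ.b z ≤ 0) → C⁻¹ ≤ Φ.GD n x) := by
  obtain ⟨δ₁, hδ₁, hδ₁', hκ⟩ := V.exists_kappa
  obtain ⟨δ₀, ε, hδ₀, hε, hdel⟩ := V.exists_delta
  refine ⟨min δ₁ δ₀, lt_min hδ₁ hδ₀, (min_le_left _ _).trans_lt hδ₁', fun δ hδ hδ' => ?_⟩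
  obtain ⟨κ, B, hB, hκB, hstep, hgood⟩ := hκ δ hδ (hδ'.trans (min_le_left _ _))
  obtain ⟨M₀, hM₀⟩ := V.bad_count hδ
  have hB0 : 0 < B := lt_of_lt_of_le one_pos hB
  have hBinv : 0 < B⁻¹ := inv_pos.2 hB0
  have hκ0 : ∀ y, 0 < κ y := fun y => lt_of_lt_of_le hBinv (hκB y).1
  have hne : ∀ y c, y ∈ V.W c δ → ∃ z, z ∈ V.W c 0 := by
    intro y c hy
    have h1 : y ∈ V.W c δ₀ := by
      have h2 : V.M y ≤ (1 + δ) * V.m (fun e => e = c) y := hy
      have h3 := V.m_nonneg (fun e => e = c) y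
      have h4 : δ ≤ δ₀ := hδ'.trans (min_le_right _ _)
      show V.M y ≤ (1 + δ₀) * V.m (fun e => e = c) y
      nlinarith
    obtain ⟨z, hz, -⟩ := hdel c y h1
    exact ⟨z, hz⟩
  refine ⟨B ^ (2 * M₀ + 2), one_le_pow₀ hB, fun x n => ?_⟩
  set ρ : ℕ → ℝ := fun k =>
    Φ.GD 1 (Φ.f (k : ℕ) x) ^ V.N * κ (Φ.f (k : ℕ) x) / κ (Φ.f 1 (Φ.f (k : ℕ) x)) with hρ
  have hprod : ∏ k ∈ Finset.range n, ρ k = Φ.GD n x ^ V.N * κ x / κ (Φ.f n x) :=
    DynE2_prod Φ hκ0 V.N x n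
  set P : ℕ → Prop := fun k => ∀ c, Φ.f (k : ℕ) x ∉ V.W c δ with hP
  have hcard := DynE2_card P n M₀ (hM₀ x n)
  have hGn := Φ.GD_pos n x
  have hN : V.N ≠ 0 := by have := V.hN; omega
  -- a good step
  have hgs : ∀ k < n, ¬ (P k ∨ P (k + 1)) → ∃ c z, Φ.f (k : ℕ) x ∈ V.W c δ ∧ z ∈ V.W c 0 ∧
      ρ k = (2 : ℝ) ^ (-(V.N * Φ.b z)) := by
    intro k _ hk
    rw [not_or, hP] at hk
    simp only [not_forall, not_not] at hk
    obtain ⟨⟨c, hc⟩, ⟨c₂, hc₂⟩⟩ := hk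
    have h1 : Φ.f ((k + 1 : ℕ) : ℤ) x = Φ.f 1 (Φ.f (k : ℕ) x) := by
      rw [← Φ.f_add]
      congr 1
      push_cast
      ring
    rw [h1] at hc₂
    obtain ⟨z, hz⟩ := hne _ _ hc
    exact ⟨c, z, hc, hz, (hgood _ c c₂ hc hc₂).2 z hz⟩
  have hρB : ∀ k, B⁻¹ ≤ ρ k ∧ ρ k ≤ B := fun k => hstep _
  constructor
  · intro hb
    have h1 : ∏ k ∈ Finset.range n, ρ k ≤ B ^ (2 * M₀) := by
      refine DynE2_le hB n (2 * M₀) (fun k => P k ∨ P (k + 1))
        (fun k _ => hBinv.le.trans (hρB k).1) (fun k _ => (hρB k).2) (fun k hk hgk => ?_)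
        (by convert hcard)
      obtain ⟨c, z, hc, hz, he⟩ := hgs k hk hgk
      rw [he]
      have h2 := hb k hk.le c hc z hz
      have h3 : (0 : ℝ) ≤ V.N := Nat.cast_nonneg _
      exact Real.rpow_le_one_of_one_le_of_nonpos (by norm_num) (by nlinarith)
    have h2 : Φ.GD n x ^ V.N ≤ B ^ (2 * M₀ + 2) := by
      rw [hprod] at h1
      have h3 : Φ.GD n x ^ V.N = (Φ.GD n x ^ V.N * κ x / κ (Φ.f n x)) * (κ (Φ.f n x) / κ x) := by
        have := (hκ0 x).ne'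
        have := (hκ0 (Φ.f n x)).ne'
        field_simp
      have h4 : κ (Φ.f n x) / κ x ≤ B ^ 2 := by
        rw [div_le_iff₀ (hκ0 x)]
        have h5 := (hκB (Φ.f n x)).2
        have h6 := (hκB x).1
        have h7 : B = B ^ 2 * B⁻¹ := by field_simp
        calc κ (Φ.f n x) ≤ B := h5
          _ = B ^ 2 * B⁻¹ := h7
          _ ≤ B ^ 2 * κ x := by gcongr
      rw [h3, pow_add]
      have h5 : 0 ≤ κ (Φ.f n x) / κ x := (div_pos (hκ0 _) (hκ0 _)).le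
      exact mul_le_mul h1 h4 h5 (by positivity)
    rcases le_or_gt (Φ.GD n x) 1 with h3 | h3
    · exact h3.trans (one_le_pow₀ hB)
    · exact (le_self_pow₀ h3.le hN).trans h2
  · intro hb
    have h1 : ∏ k ∈ Finset.range n, (ρ k)⁻¹ ≤ B ^ (2 * M₀) := by
      refine DynE2_le hB n (2 * M₀) (fun k => P k ∨ P (k + 1))
        (fun k _ => (inv_pos.2 (lt_of_lt_of_le hBinv (hρB k).1)).le) (fun k _ => ?_)
        (fun k hk hgk => ?_) (by convert hcard)
      · exact inv_le_of_inv_le₀ hB0 (hρB k).1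
      · obtain ⟨c, z, hc, hz, he⟩ := hgs k hk hgk
        have h2 := hb k hk.le c hc z hz
        have h3 : (0 : ℝ) ≤ V.N := Nat.cast_nonneg _
        refine inv_le_one_of_one_le₀ ?_
        rw [he]
        exact Real.one_le_rpow (by norm_num) (by nlinarith)
    have h2 : (Φ.GD n x ^ V.N)⁻¹ ≤ B ^ (2 * M₀ + 2) := by
      rw [Finset.prod_inv_distrib, hprod] at h1
      have h3 : (Φ.GD n x ^ V.N)⁻¹ =
          (Φ.GD n x ^ V.N * κ x / κ (Φ.f n x))⁻¹ * (κ x / κ (Φ.f n x)) := by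
        have := (hκ0 x).ne'
        have := (hκ0 (Φ.f n x)).ne'
        have := (pow_pos hGn V.N).ne'
        field_simp
      have h4 : κ x / κ (Φ.f n x) ≤ B ^ 2 := by
        rw [div_le_iff₀ (hκ0 _)]
        have h5 := (hκB x).2
        have h6 := (hκB (Φ.f n x)).1
        have h7 : B = B ^ 2 * B⁻¹ := by field_simp
        calc κ x ≤ B := h5
          _ = B ^ 2 * B⁻¹ := h7
          _ ≤ B ^ 2 * κ (Φ.f n x) := by gcongr
      rw [h3, pow_add]
      have h5 : 0 ≤ κ x / κ (Φ.f n x) := (div_pos (hκ0 _) (hκ0 _)).le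
      exact mul_le_mul h1 h4 h5 (by positivity)
    rcases le_or_gt 1 (Φ.GD n x) with h3 | h3
    · exact (inv_le_one_of_one_le₀ (one_le_pow₀ hB)).trans h3
    · have h4 : Φ.GD n x ^ V.N ≤ Φ.GD n x := pow_le_of_le_one hGn.le h3.le hN
      have h5 : (B ^ (2 * M₀ + 2))⁻¹ ≤ Φ.GD n x ^ V.N := by
        rw [inv_le_comm₀ (by positivity) (pow_pos hGn _)]
        exact h2
      exact h5.trans h4

end Pool.Agent.Abd.GT
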