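import Pool.Agent.H.MP_e23cd6_ag.GT.DynC2

/-! MP_e23cd6_ag, torus actions, abstract dynamics: the chamber above the fixed point `p`, where
`D` and `a` have weight `0` at `p`. -/

set_option autoImplicit false

open Set Filter Topology Classical

namespace Pool.Agent.Abd.GT

variable {Q : Type} [TopologicalSpace Q] {Φ : Sys Q}

/-- The sum of the functions of positive weight. -/
noncomputable def Fam.rp (V : Fam Φ) (x : Q) : ℝ := V.m (fun c => 0 < c) x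

/-- The sum of the functions of weight `≤ 0`. -/
noncomputable def Fam.rm (V : Fam Φ) (x : Q) : ℝ := V.m (fun c => c ≤ 0) x

/-- The chamber: there are functions of positive weight and functions of weight `≤ 0` in the family
`F` which are positive at `x`. -/
def Fam.Up (V : Fam Φ) (x : Q) : Prop := 0 < V.rp x ∧ 0 < V.rm x

/-- PROOF. `m_split`, `¬ 0 < c ↔ c ≤ 0`. -/
theorem Fam.rp_add_rm (V : Fam Φ) (x : Q) : V.rp x + V.rm x = V.M x := by
  have h := V.m_split (fun c => 0 < c) x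
  have e : (fun c : ℤ => ¬ 0 < c) = (fun c => c ≤ 0) := by
    funext c
    exact propext not_lt
  rw [e] at h
  exact h

/-- PROOF. `m_step_ge` with `d = 1`. -/
theorem Fam.rp_step (V : Fam Φ) (n : ℕ) (x : Q) :
    (2 : ℝ) ^ n * V.G n x * V.rp x ≤ V.rp (Φ.f n x) := by
  have h := V.m_step_ge (fun c => 0 < c) 1 (fun c hc => hc) n x
  rw [mul_one, zpow_natCast] at h
  exact h

/-- PROOF. `m_step_le` with `d = 0`. -/
theorem Fam.rm_step (V : Fam Φ) (n : ℕ) (x : Q) : V.rm (Φ.f n x) ≤ V.G n x * V.rm x := by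
  have h := V.m_step_le (fun c => c ≤ 0) 0 (fun c hc => hc) n x
  rw [mul_zero, zpow_zero, one_mul] at h
  exact h

theorem Fam.dynf_rp_nonneg (V : Fam Φ) (x : Q) : 0 ≤ V.rp x := V.m_nonneg _ x

theorem Fam.dynf_rm_nonneg (V : Fam Φ) (x : Q) : 0 ≤ V.rm x := V.m_nonneg _ x

/-- The weight of a function of the family at a fixed point. -/
theorem Fam.dynf_weight (V : Fam Φ) {y : Q} (hy : Φ.f 1 y = y) {q : ℤ × (Q → ℝ)} (hq : q ∈ V.F)
    (h : 0 < q.2 y) : (q.1 : ℝ) = V.N * (V.k0 * Φ.b y + Φ.a y) := by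
  have h1 := Φ.exp_fixed hy (V.hF q hq) h
  rw [h1]
  push_cast
  ring

/-- The chamber does not depend on the family.

PROOF. Left to right: `m_pos_iff` and `V.hF`, `l = N`. Right to left: let `y` be given by
`exists_top` for `x`, and `q ∈ F` with `q.2 y > 0` (`gF`); then `q.2 x > 0` and
`q.1 = N (k₀ b(y) + a(y)) ≥ N c / l > 0` (`exp_fixed`; degree `(k₀ N, N)`). Similarly with `exists_bot`. -/
theorem Fam.up_iff (V : Fam Φ) [CompactSpace Q] (x : Q) : V.Up x ↔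
    (∃ (l : ℕ) (c : ℤ), 1 ≤ l ∧ 0 < c ∧ ∃ u ∈ Φ.R (V.k0 * l) l c, 0 < u x) ∧
    (∃ (l : ℕ) (c : ℤ), 1 ≤ l ∧ c ≤ 0 ∧ ∃ u ∈ Φ.R (V.k0 * l) l c, 0 < u x) := by
  have hN : (0 : ℝ) < V.N := by exact_mod_cast V.hN
  constructor
  · rintro ⟨h1, h2⟩
    constructor
    · obtain ⟨q, hq, hc, hx⟩ := (V.m_pos_iff _ x).1 h1
      exact ⟨V.N, q.1, V.hN, hc, q.2, V.hF q hq, hx⟩
    · obtain ⟨q, hq, hc, hx⟩ := (V.m_pos_iff _ x).1 h2
      exact ⟨V.N, q.1, V.hN, hc, q.2, V.hF q hq, hx⟩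
  · rintro ⟨⟨l, c, hl, hc, u, hu, hx⟩, ⟨l', c', hl', hc', u', hu', hx'⟩⟩
    constructor
    · obtain ⟨y, hy1, hy2, hy3⟩ := Φ.exists_top x
      have h1 := hy3 V.k0 l c u hu hl hx
      obtain ⟨q, hq, hqy⟩ := V.gF y
      have h2 := V.dynf_weight hy1 hq hqy
      have hc1 : (0 : ℝ) < c := by exact_mod_cast hc
      have hl1 : (0 : ℝ) < l := by exact_mod_cast hl
      have h3 : 0 < (V.k0 : ℝ) * Φ.b y + Φ.a y := by
        by_contra hcon
        have := mul_nonneg hl1.le (neg_nonneg.2 (not_lt.1 hcon))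
        linarith
      have h4 : (0 : ℝ) < q.1 := by rw [h2]; exact mul_pos hN h3
      exact (V.m_pos_iff _ x).2 ⟨q, hq, by exact_mod_cast h4, hy2 _ _ _ _ (V.hF q hq) hqy⟩
    · obtain ⟨y, hy1, hy2, hy3⟩ := Φ.exists_bot x
      have h1 := hy3 V.k0 l' c' u' hu' hl' hx'
      obtain ⟨q, hq, hqy⟩ := V.gF y
      have h2 := V.dynf_weight hy1 hq hqy
      have hc1 : (c' : ℝ) ≤ 0 := by exact_mod_cast hc'
      have hl1 : (0 : ℝ) < l' := by exact_mod_cast hl'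
      have h3 : (V.k0 : ℝ) * Φ.b y + Φ.a y ≤ 0 := by
        by_contra hcon
        have := mul_pos hl1 (not_le.1 hcon)
        linarith
      have h4 : (q.1 : ℝ) ≤ 0 := by
        rw [h2]
        exact mul_nonpos_of_nonneg_of_nonpos hN.le h3
      exact (V.m_pos_iff _ x).2 ⟨q, hq, by exact_mod_cast h4, hy2 _ _ _ _ (V.hF q hq) hqy⟩

/-- Only the weights of the family matter. -/
theorem Fam.dynf_congr (V : Fam Φ) {p p' : ℤ → Prop} (h : ∀ q ∈ V.F, p q.1 ↔ p' q.1) (x : Q) :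
    V.m p x = V.m p' x := by
  unfold Fam.m
  congr 1
  exact Finset.filter_congr fun q hq => h q hq

theorem Fam.dynf_bound (V : Fam Φ) : ∃ D : ℕ, ∀ q ∈ V.F, |q.1| ≤ D := by
  refine ⟨∑ q ∈ V.F, q.1.natAbs, fun q hq => ?_⟩
  rw [Int.abs_eq_natAbs]
  exact_mod_cast Finset.single_le_sum (f := fun q : ℤ × (Q → ℝ) => q.1.natAbs)
    (fun _ _ => Nat.zero_le _) hq

/-- Every orbit in the chamber meets the set where `rp` and `rm` are comparable.

PROOF. Let `D` be a natural number with `|c| ≤ D` for all weights of `F`; then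
`rp (f 1 y) ≤ 2 ^ D G rp y` (`m_step_le`), `rm (f 1 y) ≥ 2 ^ (-D) G rm y` (`m_step_ge`), `G = V.G 1 y`.
`A = 4 ^ D`. The set of `n : ℤ` with `rp (f n x) ≤ rm (f n x)` is nonempty (`n = -k`, `k` large:
`rp x = rp (f k (f (-k) x)) ≥ 2 ^ k G rp (f (-k) x)`, `rm x ≤ G rm (f (-k) x)`) and bounded above
(`rp (f k x) ≥ 2 ^ k G rp x`, `rm (f k x) ≤ G rm x`). Let `n` be its greatest element
(`Int.exists_greatest_of_bdd`); then `rp (f n x) ≤ rm (f n x)` and `rp (f (n+1) x) > rm (f (n+1) x)`,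
so `rm (f n x) ≤ 2 ^ D / G * rm (f (n+1) x) ≤ 2 ^ D / G * rp (f (n+1) x) ≤ 4 ^ D rp (f n x)`. -/
theorem Fam.exists_shift (V : Fam Φ) : ∃ A : ℝ, 1 ≤ A ∧ ∀ x, V.Up x → ∃ n : ℤ,
    V.rp (Φ.f n x) ≤ A * V.rm (Φ.f n x) ∧ V.rm (Φ.f n x) ≤ A * V.rp (Φ.f n x) := by
  obtain ⟨D, hD⟩ := V.dynf_bound
  have h2D : (1 : ℝ) ≤ 2 ^ D := one_le_pow₀ (by norm_num)
  have hup : ∀ y, V.rp (Φ.f 1 y) ≤ 2 ^ D * (V.G 1 y * V.rp y) := by
    intro y
    have e : ∀ z, V.rp z = V.m (fun c => 0 < c ∧ c ≤ (D : ℤ)) z := by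
      intro z
      apply V.dynf_congr
      intro q hq
      exact ⟨fun h => ⟨h, (le_abs_self _).trans (hD q hq)⟩, fun h => h.1⟩
    have h := V.m_step_le (fun c => 0 < c ∧ c ≤ (D : ℤ)) D (fun c hc => hc.2) 1 y
    rw [Nat.cast_one, one_mul, zpow_natCast, ← e, ← e, mul_assoc] at h
    exact h
  have hdn : ∀ y, V.G 1 y * V.rm y ≤ 2 ^ D * V.rm (Φ.f 1 y) := by
    intro y
    have e : ∀ z, V.rm z = V.m (fun c => c ≤ 0 ∧ -(D : ℤ) ≤ c) z := by
      intro z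
      apply V.dynf_congr
      intro q hq
      exact ⟨fun h => ⟨h, (neg_le_neg (hD q hq)).trans (neg_abs_le _)⟩, fun h => h.1⟩
    have h := V.m_step_ge (fun c => c ≤ 0 ∧ -(D : ℤ) ≤ c) (-D) (fun c hc => hc.2) 1 y
    rw [Nat.cast_one, one_mul, zpow_neg, zpow_natCast, ← e, ← e, mul_assoc] at h
    have h2 : (0 : ℝ) < 2 ^ D := by positivity
    have h3 := mul_le_mul_of_nonneg_left h h2.le
    rwa [← mul_assoc, mul_inv_cancel₀ h2.ne', one_mul] at h3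
  refine ⟨2 ^ D * 2 ^ D, one_le_mul_of_one_le_of_one_le h2D h2D, fun x hx => ?_⟩
  obtain ⟨hx1, hx2⟩ := hx
  have hbd : ∃ b : ℤ, ∀ z : ℤ, V.rp (Φ.f z x) ≤ V.rm (Φ.f z x) → z ≤ b := by
    obtain ⟨K, hK⟩ := exists_nat_gt (V.rm x / V.rp x)
    refine ⟨K, fun z hz => ?_⟩
    by_contra hcon
    obtain ⟨k, rfl⟩ : ∃ k : ℕ, z = k := ⟨z.toNat, by omega⟩
    have h1 := V.rp_step k x
    have h2 := V.rm_step k x
    have hG := V.G_pos k x
    have hk : K < k := by omega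
    have h3 : (K : ℝ) < 2 ^ k := by
      have h4 : (K : ℝ) < k := by exact_mod_cast hk
      have h5 : (k : ℝ) < 2 ^ k := by exact_mod_cast k.lt_two_pow_self
      linarith
    have h4 : V.rm x < 2 ^ k * V.rp x := by
      rw [div_lt_iff₀ hx1] at hK
      nlinarith
    have h5 : V.G k x * V.rm x < V.G k x * (2 ^ k * V.rp x) := mul_lt_mul_of_pos_left h4 hG
    have h6 : (2 : ℝ) ^ k * V.G k x * V.rp x = V.G k x * (2 ^ k * V.rp x) := by ring
    linarith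
  have hin : ∃ z : ℤ, V.rp (Φ.f z x) ≤ V.rm (Φ.f z x) := by
    obtain ⟨k, hk⟩ := exists_nat_gt (V.rp x / V.rm x)
    refine ⟨-(k : ℤ), ?_⟩
    have h1 := V.rp_step k (Φ.f (-k) x)
    have h2 := V.rm_step k (Φ.f (-k) x)
    have hG := V.G_pos k (Φ.f (-k) x)
    have e : Φ.f k (Φ.f (-k) x) = x := by
      rw [← Φ.f_add, add_neg_cancel, Φ.f_zero]
    rw [e] at h1 h2
    have h5 : (k : ℝ) < 2 ^ k := by exact_mod_cast k.lt_two_pow_self
    have h6 : V.rp x ≤ 2 ^ k * V.rm x := by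
      rw [div_lt_iff₀ hx2] at hk
      nlinarith
    have h7 : (2 : ℝ) ^ k * V.G k (Φ.f (-k) x) * V.rp (Φ.f (-k) x) ≤
        2 ^ k * V.G k (Φ.f (-k) x) * V.rm (Φ.f (-k) x) := by
      calc (2 : ℝ) ^ k * V.G k (Φ.f (-k) x) * V.rp (Φ.f (-k) x) ≤ V.rp x := h1
        _ ≤ 2 ^ k * V.rm x := h6
        _ ≤ 2 ^ k * (V.G k (Φ.f (-k) x) * V.rm (Φ.f (-k) x)) :=
          mul_le_mul_of_nonneg_left h2 (by positivity)
        _ = 2 ^ k * V.G k (Φ.f (-k) x) * V.rm (Φ.f (-k) x) := by ring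
    exact le_of_mul_le_mul_left h7 (by positivity)
  obtain ⟨n, hn, hmax⟩ := Int.exists_greatest_of_bdd hbd hin
  refine ⟨n, ?_, ?_⟩
  · have h1 := V.dynf_rm_nonneg (Φ.f n x)
    have h2 : 1 ≤ (2 : ℝ) ^ D * 2 ^ D := one_le_mul_of_one_le_of_one_le h2D h2D
    nlinarith
  · have h1 : V.rm (Φ.f 1 (Φ.f n x)) < V.rp (Φ.f 1 (Φ.f n x)) := by
      by_contra hcon
      rw [not_lt, ← Φ.f_add] at hcon
      have := hmax _ hcon
      omega
    have h2 := hup (Φ.f n x)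
    have h3 := hdn (Φ.f n x)
    have hG := V.G_pos 1 (Φ.f n x)
    have h4 : V.G 1 (Φ.f n x) * V.rm (Φ.f n x) ≤
        V.G 1 (Φ.f n x) * (2 ^ D * 2 ^ D * V.rp (Φ.f n x)) := by
      calc V.G 1 (Φ.f n x) * V.rm (Φ.f n x) ≤ 2 ^ D * V.rm (Φ.f 1 (Φ.f n x)) := h3
        _ ≤ 2 ^ D * V.rp (Φ.f 1 (Φ.f n x)) := mul_le_mul_of_nonneg_left h1.le (by positivity)
        _ ≤ 2 ^ D * (2 ^ D * (V.G 1 (Φ.f n x) * V.rp (Φ.f n x))) :=
          mul_le_mul_of_nonneg_left h2 (by positivity)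
        _ = V.G 1 (Φ.f n x) * (2 ^ D * 2 ^ D * V.rp (Φ.f n x)) := by ring
    exact le_of_mul_le_mul_left h4 hG

/-- `p ∈ W 0 0` for a fixed point `p` at which `D` and `a` have weight `0`. PROOF. `exp_fixed`:
all `q ∈ F` with `q.2 p > 0` have `q.1 = 0`; `m_pos_iff` for `· ≠ 0` and `m_split`. -/
theorem Fam.p_mem (V : Fam Φ) {p : Q} (hp : Φ.f 1 p = p) (hb : Φ.b p = 0) (ha : Φ.a p = 0) :
    p ∈ V.W 0 0 := by
  have h1 : V.m (fun c => ¬ c = 0) p = 0 := by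
    by_contra hne
    have h2 : 0 < V.m (fun c => ¬ c = 0) p := lt_of_le_of_ne (V.m_nonneg _ p) (Ne.symm hne)
    obtain ⟨q, hq, hc, hx⟩ := (V.m_pos_iff _ p).1 h2
    have h3 := V.dynf_weight hp hq hx
    rw [hb, ha, mul_zero, add_zero, mul_zero] at h3
    exact hc (by exact_mod_cast h3)
  have h2 := V.m_split (fun c => c = 0) p
  rw [h1, add_zero] at h2
  show V.M p ≤ (1 + 0) * V.m (fun e => e = 0) p
  rw [add_zero, one_mul, ← h2]

/-- Near `p` every point which is not fixed lies in the chamber above or below `p`.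

PROOF. Let `q ∈ F`, `q.2 p > 0`, so `q.1 = 0` (`exp_fixed`); `O = {q.2 > 0}`. Let `x ∈ O` be not fixed. By
`fixed_of_W`, `x ∉ W 0 0`, so `m_0 x < M x` and some `q' ∈ F` with `q'.1 ≠ 0` has `q'.2 x > 0`
(`m_split`, `m_pos_iff`). If `q'.1 > 0` then `x` is in the first set, otherwise in the second one. -/
theorem Fam.near (V : Fam Φ) [CompactSpace Q] {p : Q} (hp : Φ.f 1 p = p) (hb : Φ.b p = 0)
    (ha : Φ.a p = 0) : ∃ O ∈ 𝓝 p, ∀ x ∈ O, Φ.f 1 x ≠ x →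
      V.Up x ∨ (0 < V.m (fun c => c < 0) x ∧ 0 < V.m (fun c => 0 ≤ c) x) := by
  obtain ⟨q, hq, hqp⟩ := V.gF p
  have hq0 : q.1 = 0 := by
    have h3 := V.dynf_weight hp hq hqp
    rw [hb, ha, mul_zero, add_zero, mul_zero] at h3
    exact_mod_cast h3
  have hc : Continuous q.2 := Φ.cont _ _ _ _ (V.hF q hq)
  refine ⟨{x | 0 < q.2 x}, (isOpen_lt continuous_const hc).mem_nhds hqp, fun x hx hfx => ?_⟩
  have hx' : 0 < q.2 x := hx
  have h1 : x ∉ V.W 0 0 := fun h => hfx (V.fixed_of_W h).1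
  have h2 : V.m (fun c => c = 0) x < V.M x := by
    by_contra hcon
    apply h1
    show V.M x ≤ (1 + 0) * V.m (fun e => e = 0) x
    rw [add_zero, one_mul]
    exact not_lt.1 hcon
  have h3 := V.m_split (fun c => c = 0) x
  have h4 : 0 < V.m (fun c => ¬ c = 0) x := by linarith
  obtain ⟨q', hq', hc', hx2⟩ := (V.m_pos_iff _ x).1 h4
  rcases lt_or_gt_of_ne hc' with h | h
  · right
    exact ⟨(V.m_pos_iff _ x).2 ⟨q', hq', h, hx2⟩, (V.m_pos_iff _ x).2 ⟨q, hq, hq0.ge, hx'⟩⟩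
  · left
    exact ⟨(V.m_pos_iff _ x).2 ⟨q', hq', h, hx2⟩, (V.m_pos_iff _ x).2 ⟨q, hq, hq0.le, hx'⟩⟩

/-- The family of the inverse system. -/
noncomputable def Fam.inv (V : Fam Φ) : Fam Φ.inv where
  k0 := V.k0
  N := V.N
  hN := V.hN
  F := V.F.image (fun q => (-q.1, q.2))
  F' := V.F'.image (fun q => (-q.1, q.2))
  hF := by
    intro q hq
    obtain ⟨q', hq', rfl⟩ := Finset.mem_image.1 hq
    show q'.2 ∈ Φ.R _ _ (- -q'.1)
    rw [neg_neg]
    exact V.hF q' hq'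
  hF' := by
    intro q hq
    obtain ⟨q', hq', rfl⟩ := Finset.mem_image.1 hq
    show q'.2 ∈ Φ.R _ _ (- -q'.1)
    rw [neg_neg]
    exact V.hF' q' hq'
  gF := by
    intro x
    obtain ⟨q, hq, hq'⟩ := V.gF x
    exact ⟨_, Finset.mem_image_of_mem _ hq, hq'⟩
  gF' := by
    intro x
    obtain ⟨q, hq, hq'⟩ := V.gF' x
    exact ⟨_, Finset.mem_image_of_mem _ hq, hq'⟩
  lex := by
    intro z z' hz hz' h
    have h1 : Φ.f 1 z = z := Φ.inv_fixed.1 hz
    have h2 : Φ.f 1 z' = z' := Φ.inv_fixed.1 hz'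
    rw [Φ.inv_b h1, Φ.inv_b h2] at h
    rw [Φ.inv_b h1, Φ.inv_b h2, Φ.inv_a h1, Φ.inv_a h2]
    have := V.lex z' z h2 h1 (by linarith)
    linarith

/-- PROOF. `Finset.sum` over the image under the injective map `q ↦ (-q.1, q.2)`. -/
theorem Fam.inv_m (V : Fam Φ) (p : ℤ → Prop) (x : Q) : V.inv.m p x = V.m (fun c => p (-c)) x := by
  have hinj : Function.Injective (fun q : ℤ × (Q → ℝ) => (-q.1, q.2)) := by
    rintro ⟨a, u⟩ ⟨b, v⟩ h
    simp only [Prod.mk.injEq, neg_inj] at h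
    rw [h.1, h.2]
  have e : V.inv.F = V.F.image (fun q => (-q.1, q.2)) := rfl
  unfold Fam.m
  rw [e, Finset.filter_image, Finset.sum_image hinj.injOn]

end Pool.Agent.Abd.GT
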