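import Pool.Agent.H.MP_e23cd6_ag.GT.DynF
import Pool.Agent.H.MP_e23cd6_ag.GT.DynE2

/-! MP_e23cd6_ag, torus actions, abstract dynamics: growth of the metric in the chamber. -/

set_option autoImplicit false

open Set Filter Topology Classical

namespace Pool.Agent.Abd.GT

variable {Q : Type} [TopologicalSpace Q] {Φ : Sys Q}

/-- Forward in time the dominating weights are positive. -/
theorem DynF2_pos (V : Fam Φ) {A δ : ℝ} (hA : 1 ≤ A) (hδ : 0 < δ) (hδA : δ ≤ 1 / (2 * A)) {x : Q}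
    (h2 : V.rm x ≤ A * V.rp x) (k : ℕ) {c : ℤ} (hc : Φ.f k x ∈ V.W c δ) : 0 < c := by
  by_contra hc0
  have hc0' : c ≤ 0 := not_lt.1 hc0
  have hm : V.m (fun e => e = c) (Φ.f k x) ≤ V.rm (Φ.f k x) :=
    V.m_mono (fun e he => by rw [he]; exact hc0') _
  have hW : V.M (Φ.f k x) ≤ (1 + δ) * V.m (fun e => e = c) (Φ.f k x) := hc
  have hs := V.rp_add_rm (Φ.f k x)
  have hM := V.M_pos (Φ.f k x)
  have h3 : (1 + δ) * V.m (fun e => e = c) (Φ.f k x) ≤ (1 + δ) * V.rm (Φ.f k x) :=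
    mul_le_mul_of_nonneg_left hm (by linarith)
  have h4 : V.rp (Φ.f k x) ≤ δ * V.rm (Φ.f k x) := by nlinarith
  have hrm : 0 < V.rm (Φ.f k x) := by
    by_contra h
    have h' := not_lt.1 h
    nlinarith
  have hG := V.G_pos k x
  have hrp0 : 0 ≤ V.rp x := V.m_nonneg _ x
  have h5 := V.rp_step k x
  have h6 := V.rm_step k x
  have h7 : (1 : ℝ) ≤ 2 ^ k := one_le_pow₀ (by norm_num)
  have h8 : V.G k x * V.rp x ≤ V.rp (Φ.f k x) := by
    have h9 : 1 * (V.G k x * V.rp x) ≤ 2 ^ k * (V.G k x * V.rp x) :=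
      mul_le_mul_of_nonneg_right h7 (mul_nonneg hG.le hrp0)
    rw [one_mul, ← mul_assoc] at h9
    exact h9.trans h5
  have h10 : V.G k x * V.rm x ≤ A * (V.G k x * V.rp x) := by
    have := mul_le_mul_of_nonneg_left h2 hG.le
    linarith
  have h11 : V.rm (Φ.f k x) ≤ A * (δ * V.rm (Φ.f k x)) := by
    refine h6.trans (h10.trans ?_)
    exact mul_le_mul_of_nonneg_left (h8.trans h4) (by linarith)
  have h12 : A * δ ≤ 1 / 2 := by
    have h13 := mul_le_mul_of_nonneg_left hδA (by linarith : (0 : ℝ) ≤ A)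
    have h14 : A * (1 / (2 * A)) = 1 / 2 := by field_simp
    linarith
  nlinarith

/-- Backward in time the dominating weights are not positive. -/
theorem DynF2_neg (V : Fam Φ) {A δ : ℝ} (hA : 1 ≤ A) (hδ : 0 < δ) (hδA : δ ≤ 1 / (2 * A)) {x : Q}
    (h1 : V.rp x ≤ A * V.rm x) (h2 : V.rm x ≤ A * V.rp x) (m : ℕ) (y : Q) (hy : Φ.f m y = x)
    (k : ℕ) (hk : k ≤ m) {c : ℤ} (hc : Φ.f k y ∈ V.W c δ) : c ≤ 0 := by
  by_contra hc0
  have hc0' : 0 < c := not_le.1 hc0
  have hm : V.m (fun e => e = c) (Φ.f k y) ≤ V.rp (Φ.f k y) :=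
    V.m_mono (fun e he => by rw [he]; exact hc0') _
  have hW : V.M (Φ.f k y) ≤ (1 + δ) * V.m (fun e => e = c) (Φ.f k y) := hc
  have hs := V.rp_add_rm (Φ.f k y)
  have h3 : (1 + δ) * V.m (fun e => e = c) (Φ.f k y) ≤ (1 + δ) * V.rp (Φ.f k y) :=
    mul_le_mul_of_nonneg_left hm (by linarith)
  have h4 : V.rm (Φ.f k y) ≤ δ * V.rp (Φ.f k y) := by nlinarith
  have hx : Φ.f ((m - k : ℕ) : ℤ) (Φ.f k y) = x := by
    rw [← Φ.f_add, ← hy]
    congr 1
    push_cast [Nat.cast_sub hk]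
    ring
  have h5 := V.rp_step (m - k) (Φ.f k y)
  have h6 := V.rm_step (m - k) (Φ.f k y)
  rw [hx] at h5 h6
  have hG := V.G_pos ((m - k : ℕ) : ℤ) (Φ.f k y)
  have hrp0 : 0 ≤ V.rp (Φ.f k y) := V.m_nonneg _ _
  have h7 : (1 : ℝ) ≤ 2 ^ (m - k) := one_le_pow₀ (by norm_num)
  have h8 : V.G ((m - k : ℕ) : ℤ) (Φ.f k y) * V.rp (Φ.f k y) ≤ V.rp x := by
    have h9 : 1 * (V.G ((m - k : ℕ) : ℤ) (Φ.f k y) * V.rp (Φ.f k y)) ≤
        2 ^ (m - k) * (V.G ((m - k : ℕ) : ℤ) (Φ.f k y) * V.rp (Φ.f k y)) :=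
      mul_le_mul_of_nonneg_right h7 (mul_nonneg hG.le hrp0)
    rw [one_mul, ← mul_assoc] at h9
    exact h9.trans h5
  have h10 : V.rm x ≤ δ * V.rp x := by
    refine h6.trans ?_
    have h11 := mul_le_mul_of_nonneg_left h4 hG.le
    have h12 := mul_le_mul_of_nonneg_left h8 hδ.le
    linarith
  have hsx := V.rp_add_rm x
  have hMx := V.M_pos x
  have hrm0 : 0 ≤ V.rm x := V.m_nonneg _ x
  have hrpx : 0 < V.rp x := by
    by_contra h
    have h' := not_lt.1 h
    nlinarith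
  have h13 : A * δ ≤ 1 / 2 := by
    have h13 := mul_le_mul_of_nonneg_left hδA (by linarith : (0 : ℝ) ≤ A)
    have h14 : A * (1 / (2 * A)) = 1 / 2 := by field_simp
    linarith
  have h15 : V.rp x ≤ A * (δ * V.rp x) := h1.trans (mul_le_mul_of_nonneg_left h10 (by linarith))
  nlinarith

/-- The factors of the two directions are inverse to each other. -/
theorem DynF2_inv (Φ : Sys Q) (m : ℕ) (x : Q) :
    Φ.GD m (Φ.f (-(m : ℤ)) x) * Φ.GD (-(m : ℤ)) x = 1 ∧ Φ.f m (Φ.f (-(m : ℤ)) x) = x := by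
  constructor
  · rw [← Φ.GD_add, add_neg_cancel, Φ.GD_zero]
  · rw [← Φ.f_add, add_neg_cancel, Φ.f_zero]

/-- GROWTH. On the set where `rp` and `rm` are comparable the metric of `D` has bounded growth in
both directions.

PROOF. Let `A ≥ 1` (otherwise replace `A` by `max A 1`). Take `δ = min δ₁ (1/(2A))`, `C` from `run`.
Let `n ≥ 0`. Every dominating weight `c` at `f k x`, `0 ≤ k ≤ n`, is positive: if `c ≤ 0` then
`M ≤ (1 + δ) m_c ≤ (1 + δ) rm`, so `rp ≤ δ rm` at `f k x`, while `rp (f k x) ≥ G rp x ≥ G rm x / A ≥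
rm (f k x) / A` by `rp_step`, `rm_step` and `rm (f k x) > 0` (as `M > 0`): contradiction. So by `b_mono`
and `p_mem`, `b z ≥ b p = 0` for `z ∈ W c 0`, and `GD n x ≤ C` by `run`. Let `n < 0`, `y = f n x`,
`x = f (-n) y`. Every dominating weight `c` at `f k y`, `0 ≤ k ≤ -n`, is `≤ 0`: if `c > 0` then
`rm ≤ δ rp` at `f k y`, and `x = f (-n-k) (f k y)`, so `rm x ≤ G rm (f k y) ≤ δ G rp (f k y) ≤ δ rp x
< rp x / A`, contradiction. So `b z ≤ 0`, `GD (-n) y ≥ 1 / C` by `run` and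
`GD n x = 1 / GD (-n) y ≤ C` (`GD_add`, `GD_zero`). -/
theorem Fam.growth (V : Fam Φ) [CompactSpace Q] {p : Q} (hp : Φ.f 1 p = p) (hb : Φ.b p = 0)
    (ha : Φ.a p = 0) (A : ℝ) : ∃ C : ℝ, 1 ≤ C ∧ ∀ x, V.rp x ≤ A * V.rm x → V.rm x ≤ A * V.rp x →
      ∀ n : ℤ, Φ.GD n x ≤ C := by
  obtain ⟨δ₁, hδ₁, hδ₁', hrun⟩ := V.run
  have hA' : (1 : ℝ) ≤ max A 1 := le_max_right _ _
  have hδ : 0 < min δ₁ (1 / (2 * max A 1)) := lt_min hδ₁ (by positivity)
  obtain ⟨C, hC, hC'⟩ := hrun (min δ₁ (1 / (2 * max A 1))) hδ (min_le_left _ _)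
  refine ⟨C, hC, ?_⟩
  intro x h1 h2 n
  have h1' : V.rp x ≤ max A 1 * V.rm x :=
    h1.trans (mul_le_mul_of_nonneg_right (le_max_left _ _) (V.m_nonneg _ x))
  have h2' : V.rm x ≤ max A 1 * V.rp x :=
    h2.trans (mul_le_mul_of_nonneg_right (le_max_left _ _) (V.m_nonneg _ x))
  have hpm := V.p_mem hp hb ha
  rcases Int.le_total 0 n with hn | hn
  · obtain ⟨m, rfl⟩ := Int.eq_ofNat_of_zero_le hn
    refine (hC' x m).1 ?_
    intro k _ c hc z hz
    have hcpos := DynF2_pos V hA' hδ (min_le_right _ _) h2' k hc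
    have := V.b_mono hpm hz hcpos.le
    rwa [hb] at this
  · obtain ⟨m, hm⟩ := Int.eq_ofNat_of_zero_le (Int.neg_nonneg_of_nonpos hn)
    have hn' : n = -(m : ℤ) := by omega
    subst hn'
    obtain ⟨hi1, hi2⟩ := DynF2_inv Φ m x
    have h3 : C⁻¹ ≤ Φ.GD m (Φ.f (-(m : ℤ)) x) := by
      refine (hC' (Φ.f (-(m : ℤ)) x) m).2 ?_
      intro k hk c hc z hz
      have hcneg := DynF2_neg V hA' hδ (min_le_right _ _) h1' h2' m _ hi2 k hk hc
      have := V.b_mono hz hpm hcneg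
      rwa [hb] at this
    have hpos := Φ.GD_pos (-(m : ℤ)) x
    have h4 : C⁻¹ * Φ.GD (-(m : ℤ)) x ≤ 1 := by
      rw [← hi1]
      exact mul_le_mul_of_nonneg_right h3 hpos.le
    have hC0 : 0 < C := by linarith
    have h5 := mul_le_mul_of_nonneg_left h4 hC0.le
    rwa [← mul_assoc, mul_inv_cancel₀ hC0.ne', one_mul, mul_one] at h5

/-- LOWER BOUND NEAR `p`.

PROOF. `A ≥ 1`, `δ = min δ₁ (1/(2A))`, `C` from `run`, `O = {z | M z < (1 + δ) m_0 z}`, open, and
`p ∈ O` by `p_mem` and `M_pos`. Let `x` be as in the statement and `z = f n x ∈ O`, so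
`rp z ≤ δ rm z`. If `n ≥ 0`: `rp z ≥ G rp x ≥ G rm x / A ≥ rm z / A > δ rm z` (`rp_step`, `rm_step`):
contradiction. So `n < 0`, `x = f (-n) z`. Let `c` be dominating at `y = f k z`, `0 ≤ k ≤ -n`. As in
`growth`, `c > 0` is impossible. `c < 0` is impossible: `m_0 y ≤ δ m_c y` (`m_add_le`), and `m_step`:
`m_c y = 2 ^ (k c) G m_c z ≤ G m_c z ≤ δ G m_0 z = δ m_0 y`, with `m_0 y > 0`. So `c = 0`,
and `b w = b p = 0` for `w ∈ W 0 0` (`unique_W`). By `run`, `GD (-n) z ≤ C`, so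
`GD n x = 1 / GD (-n) z ≥ 1 / C`. -/
theorem Fam.lower (V : Fam Φ) [CompactSpace Q] {p : Q} (hp : Φ.f 1 p = p) (hb : Φ.b p = 0)
    (ha : Φ.a p = 0) (A : ℝ) : ∃ O ∈ 𝓝 p, ∃ ε : ℝ, 0 < ε ∧ ∀ x, V.rp x ≤ A * V.rm x →
      V.rm x ≤ A * V.rp x → ∀ n : ℤ, Φ.f n x ∈ O → ε ≤ Φ.GD n x := by
  obtain ⟨δ₁, hδ₁, hδ₁', hrun⟩ := V.run
  have hA' : (1 : ℝ) ≤ max A 1 := le_max_right _ _
  have hδ : 0 < min δ₁ (1 / (2 * max A 1)) := lt_min hδ₁ (by positivity)
  have hδA : min δ₁ (1 / (2 * max A 1)) ≤ 1 / (2 * max A 1) := min_le_right _ _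
  have hδlt : min δ₁ (1 / (2 * max A 1)) < 1 := (min_le_left _ _).trans_lt hδ₁'
  obtain ⟨C, hC, hC'⟩ := hrun (min δ₁ (1 / (2 * max A 1))) hδ (min_le_left _ _)
  generalize min δ₁ (1 / (2 * max A 1)) = δ at hδ hδA hδlt hC'
  have hpm := V.p_mem hp hb ha
  have hC0 : 0 < C := by linarith
  refine ⟨{z | V.M z < (1 + δ) * V.m (fun e => e = 0) z}, ?_, C⁻¹, inv_pos.2 hC0, ?_⟩
  · refine IsOpen.mem_nhds ?_ ?_
    · exact isOpen_lt (show Continuous V.M from V.m_cont (fun _ => True))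
        (continuous_const.mul (V.m_cont _))
    · have h1 : V.M p ≤ (1 + 0) * V.m (fun e => e = 0) p := hpm
      have h2 := V.M_pos p
      show V.M p < (1 + δ) * V.m (fun e => e = 0) p
      nlinarith
  · intro x h1 h2 n hnO
    have h1' : V.rp x ≤ max A 1 * V.rm x :=
      h1.trans (mul_le_mul_of_nonneg_right (le_max_left _ _) (V.m_nonneg _ x))
    have h2' : V.rm x ≤ max A 1 * V.rp x :=
      h2.trans (mul_le_mul_of_nonneg_right (le_max_left _ _) (V.m_nonneg _ x))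
    have hnO' : V.M (Φ.f n x) < (1 + δ) * V.m (fun e => e = 0) (Φ.f n x) := hnO
    have hnW : Φ.f n x ∈ V.W 0 δ := hnO'.le
    rcases Int.le_total 0 n with hn | hn
    · obtain ⟨m, rfl⟩ := Int.eq_ofNat_of_zero_le hn
      exact absurd (DynF2_pos V hA' hδ hδA h2' m hnW) (lt_irrefl _)
    · obtain ⟨m, hm⟩ := Int.eq_ofNat_of_zero_le (Int.neg_nonneg_of_nonpos hn)
      have hn' : n = -(m : ℤ) := by omega
      subst hn'
      obtain ⟨hi1, hi2⟩ := DynF2_inv Φ m x
      generalize hz : Φ.f (-(m : ℤ)) x = z at hi1 hi2 hnO' hnW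
      have hMz := V.M_pos z
      have hm0z : 0 < V.m (fun e => e = 0) z := by
        by_contra h
        have h' := not_lt.1 h
        nlinarith
      have h3 : Φ.GD m z ≤ C := by
        refine (hC' z m).1 ?_
        intro k hk c hc w hw
        have hcneg := DynF2_neg V hA' hδ hδA h1' h2' m _ hi2 k hk hc
        have hc0 : c = 0 := by
          by_contra hcne
          have hclt : c < 0 := lt_of_le_of_ne hcneg hcne
          have hW : V.M (Φ.f k z) ≤ (1 + δ) * V.m (fun e => e = c) (Φ.f k z) := hc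
          have ha1 : V.m (fun e => e = 0) (Φ.f k z) + V.m (fun e => e = c) (Φ.f k z) ≤
              V.M (Φ.f k z) :=
            V.m_add_le (fun _ _ => trivial) (fun _ _ => trivial)
              (fun e he he' => hcne (by rw [← he', he])) _
          have ha2 : V.m (fun e => e = 0) z + V.m (fun e => e = c) z ≤ V.M z :=
            V.m_add_le (fun _ _ => trivial) (fun _ _ => trivial)
              (fun e he he' => hcne (by rw [← he', he])) _
          have hs1 := V.m_step c k z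
          have hs0 := V.m_step 0 k z
          rw [mul_zero, zpow_zero, one_mul] at hs0
          have hG := V.G_pos k z
          have hmc := V.m_nonneg (fun e => e = c) z
          have hz1 : (2 : ℝ) ^ ((k : ℤ) * c) ≤ 1 :=
            zpow_le_one_of_nonpos₀ (by norm_num) (mul_nonpos_of_nonneg_of_nonpos (by positivity)
              hclt.le)
          have hb1 : V.m (fun e => e = c) (Φ.f k z) ≤ V.G k z * V.m (fun e => e = c) z := by
            rw [hs1, mul_assoc]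
            exact mul_le_of_le_one_left (mul_nonneg hG.le hmc) hz1
          have hb2 : V.m (fun e => e = c) z ≤ δ * V.m (fun e => e = 0) z := by linarith
          have hb3 : V.m (fun e => e = 0) (Φ.f k z) ≤ δ * V.m (fun e => e = c) (Φ.f k z) := by
            linarith
          have hpos : 0 < V.m (fun e => e = 0) (Φ.f k z) := by
            rw [hs0]; exact mul_pos hG hm0z
          have hb4 : V.m (fun e => e = c) (Φ.f k z) ≤ δ * V.m (fun e => e = 0) (Φ.f k z) := by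
            rw [hs0]
            have := mul_le_mul_of_nonneg_left hb2 hG.le
            linarith
          have hb5 : δ * V.m (fun e => e = c) (Φ.f k z) ≤ V.m (fun e => e = c) (Φ.f k z) :=
            mul_le_of_le_one_left (V.m_nonneg _ _) hδlt.le
          nlinarith
        subst hc0
        have := (V.unique_W hw hpm).1
        rw [this, hb]
      have hpos := Φ.GD_pos (-(m : ℤ)) x
      have h4 : 1 ≤ C * Φ.GD (-(m : ℤ)) x := by
        rw [← hi1]
        exact mul_le_mul_of_nonneg_right h3 hpos.le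
      have h5 := mul_le_mul_of_nonneg_left h4 (inv_pos.2 hC0).le
      rwa [← mul_assoc, inv_mul_cancel₀ hC0.ne', one_mul, mul_one] at h5

end Pool.Agent.Abd.GT
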