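import Pool.Agent.H.MP_e23cd6_ag.GT.DynB

/-! MP_e23cd6_ag, torus actions, abstract dynamics: fixed points in the closure of an orbit. -/

set_option autoImplicit false

open Set Filter Topology

namespace Pool.Agent.Abd.GT

variable {Q : Type} [TopologicalSpace Q]

/-- The orbit of every point comes arbitrarily close to some fixed point.

PROOF. As in `exists_top` (GT/DynB.lean): take an ultrafilter `G ≤ atTop` on `ℕ` and the limit `y` of
`f n x` along `G`; `y` is fixed by `Φ.fix` and `lim_le` (twice), and every neighbourhood of `y` contains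
`f n x` for some `n`. -/
theorem Sys.exists_near_fixed [CompactSpace Q] (Φ : Sys Q) (x : Q) :
    ∃ y, Φ.f 1 y = y ∧ ∀ O ∈ 𝓝 y, ∃ n : ℤ, Φ.f n x ∈ O := by
  obtain ⟨G, hG⟩ : ∃ G : Ultrafilter ℕ, (G : Filter ℕ) ≤ atTop :=
    ⟨Ultrafilter.of atTop, Ultrafilter.of_le atTop⟩
  obtain ⟨y, -, hy'⟩ := isCompact_univ.ultrafilter_le_nhds (G.map (fun n : ℕ => Φ.f n x))
    (by simp)
  have hy : Tendsto (fun n : ℕ => Φ.f n x) G (𝓝 y) := hy'
  have hpos : ∀ k j c, ∀ u ∈ Φ.R k j c, 0 < u y → 0 < u x := by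
    intro k j c u hu h
    have tu : Tendsto (fun n : ℕ => u (Φ.f n x)) G (𝓝 (u y)) :=
      ((Φ.cont k j c u hu).tendsto y).comp hy
    obtain ⟨m, hm⟩ := (tu.eventually (lt_mem_nhds h)).exists
    exact DynB_pos Φ hu hm
  refine ⟨y, ?_, ?_⟩
  · apply Φ.fix
    intro l c c' u hu u' hu' _ h1 h2
    exact le_antisymm (Φ.lim_le G hG hy hu hu' h2 (hpos _ _ _ u hu h1))
      (Φ.lim_le G hG hy hu' hu h1 (hpos _ _ _ u' hu' h2))
  · intro O hO
    obtain ⟨n, hn⟩ := (hy.eventually hO).exists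
    exact ⟨(n : ℤ), hn⟩

end Pool.Agent.Abd.GT
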