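import Pool.Agent.H.MP_e23cd6_ag.GT.IdT
import Pool.Agent.H.MP_e23cd6_ag.GT.AnUp
import Pool.Agent.H.MP_795b03_ag.RExt
import Pool.Agent.H.MP_e23cd6_ag.KltChart
import Pool.Agent.H.MP_e23cd6_ag.TB.PAct2

/-! Extension of bounded sections. -/

set_option autoImplicit false

open scoped Manifold ContDiff Topology ENNReal
open MeasureTheory Set Filter

namespace Pool.Agent.Abd

variable {E : Type} [NormedAddCommGroup E] [NormedSpace ℂ E] [FiniteDimensional ℂ E] {r : ℕ}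
  {X : Type} [TopologicalSpace X] [ChartedSpace E X] [IsManifold 𝓘(ℂ, E) ω X]
  {A : TorusAction E r X} {L P : LineBundle E X} {K J m k : ℕ} {U : Set X}
  (ΛL : Linearization A L) (ΛP : Linearization A P)

omit [FiniteDimensional ℂ E] [IsManifold 𝓘(ℂ, E) ω X] in
/-- A function holomorphic at a point is differentiable in the chart at all nearby points. -/
theorem extr_diff {g : X → ℂ} {φ : OpenPartialHomeomorph X E} (hφ : φ ∈ Charts E X) {x : X}
    (hx : x ∈ φ.source) (hg : HolAt E g x) : DifferentiableAt ℂ (g ∘ φ.symm) (φ x) := by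
  have h1 : ContMDiffAt 𝓘(ℂ, E) 𝓘(ℂ, E) ω φ.symm (φ x) :=
    contMDiffAt_symm_of_mem_maximalAtlas hφ (φ.map_source hx)
  have h2 : ContMDiffAt 𝓘(ℂ, E) 𝓘(ℂ) ω g (φ.symm (φ x)) := by
    rw [φ.left_inv hx]
    exact hg
  have h3 : ContMDiffAt 𝓘(ℂ, E) 𝓘(ℂ) ω (g ∘ φ.symm) (φ x) := ContMDiffAt.comp (φ x) h2 h1
  exact h3.contDiffAt.differentiableAt (by simp)

omit [FiniteDimensional ℂ E] in
/-- `U'` is dense in `U`, quantitatively: nonzero points of `v` occur frequently. -/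
theorem extr_freq (hU : IsOpen U) (hc : IsPreconnected U) {K₀ J₀ m₀ : ℕ}
    (v : Sec2 L P K₀ J₀ m₀ U) (hv : ∃ x ∈ U, v.NZ x) {x : X} (hx : x ∈ U) :
    ∃ᶠ y in 𝓝 x, y ∈ U ∧ v.NZ y := by
  rw [frequently_nhds_iff]
  intro W hxW hW
  obtain ⟨y, hy, hy'⟩ := nz_dense hU hc v hv (hW.inter hU) inter_subset_right ⟨x, hxW, hx⟩
  exact ⟨y, hy.1, hy.2, hy'⟩

/-- The local extension. -/
theorem extr_local (hU : IsOpen U) (hc : IsPreconnected U) {U' : Set X} (hU' : IsOpen U')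
    {K₀ J₀ m₀ : ℕ}
    (v : Sec2 L P K₀ J₀ m₀ U) (hv : ∃ x ∈ U, v.NZ x) (hvU : ∀ x ∈ U, v.NZ x → x ∈ U')
    (f : Sec2 L P K J m U')
    (hb : ∀ x0 ∈ U, ∀ i j φ, At L P i j φ x0 → ∃ V ∈ 𝓝 x0, ∃ C : ℝ, ∀ x ∈ V, x ∈ U' →
      ‖f.f i j φ x‖ ≤ C) {x0 : X} (hx0 : x0 ∈ U) {i : L.ι} {j : P.ι}
    {φ : OpenPartialHomeomorph X E} (h0 : At L P i j φ x0) :
    ∃ fb : E → ℂ, AnalyticAt ℂ fb (φ x0) ∧ ∀ᶠ y in 𝓝 x0, y ∈ U' → f.f i j φ y = fb (φ y) := by
  -- points near `φ x0`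
  have hgood : ∀ᶠ y in 𝓝 x0, y ∈ U ∧ At L P i j φ y := by
    filter_upwards [hU.mem_nhds hx0, h0.eventually] with y h1 h2
    exact ⟨h1, h2⟩
  have hsymm : Tendsto φ.symm (𝓝 (φ x0)) (𝓝 x0) := by
    have h1 := φ.continuousAt_symm (φ.map_source h0.mem)
    rw [ContinuousAt, φ.left_inv h0.mem] at h1
    exact h1
  have htar : ∀ᶠ q in 𝓝 (φ x0), q ∈ φ.target := φ.open_target.mem_nhds (φ.map_source h0.mem)
  have hG : Moi.HolAt (v.f i j φ ∘ φ.symm) (φ x0) := by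
    filter_upwards [hsymm.eventually hgood, htar] with q hq hqt
    have h1 := extr_diff hq.2.chart hq.2.mem (v.hol' hq.1 hq.2)
    rwa [φ.right_inv hqt] at h1
  have hG0 : ¬ ∀ᶠ q in 𝓝 (φ x0), (v.f i j φ ∘ φ.symm) q = 0 := by
    intro h1
    have h2 : ∀ᶠ y in 𝓝 x0, v.f i j φ y = 0 := by
      have h3 := (φ.continuousAt h0.mem).eventually h1
      filter_upwards [h3, φ.open_source.mem_nhds h0.mem] with y hy hys
      rwa [Function.comp_apply, φ.left_inv hys] at hy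
    refine (extr_freq hU hc v hv hx0) ?_
    filter_upwards [h2, hgood] with y hy hyg hyn
    exact (v.nz_iff hyg.1 hyg.2).1 hyn.2 hy
  obtain ⟨V, hV, C, hC⟩ := hb x0 hx0 i j φ h0
  have hf : ∀ᶠ q in 𝓝 (φ x0), (v.f i j φ ∘ φ.symm) q ≠ 0 →
      DifferentiableAt ℂ (f.f i j φ ∘ φ.symm) q ∧ ‖(f.f i j φ ∘ φ.symm) q‖ ≤ C := by
    filter_upwards [hsymm.eventually hgood, htar, hsymm.eventually hV] with q hq hqt hqV hq0
    have hqU' : φ.symm q ∈ U' := hvU _ hq.1 ((v.nz_iff hq.1 hq.2).2 hq0)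
    have h1 := extr_diff hq.2.chart hq.2.mem (f.hol' hqU' hq.2)
    rw [φ.right_inv hqt] at h1
    exact ⟨h1, hC _ hqV hqU'⟩
  obtain ⟨fb, hfb, he⟩ := Moi.riemann_ext _ _ (φ x0) hG hG0 C hf
  refine ⟨fb, analyticAt_of_diff hfb, ?_⟩
  have he' : ∀ᶠ y in 𝓝 x0, v.f i j φ y ≠ 0 → fb (φ y) = f.f i j φ y := by
    filter_upwards [(φ.continuousAt h0.mem).eventually he, φ.open_source.mem_nhds h0.mem]
      with y hy hys hy0
    rw [Function.comp_apply, φ.left_inv hys, Function.comp_apply, φ.left_inv hys] at hy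
    exact hy hy0
  have hfb' : ∀ᶠ y in 𝓝 x0, ContinuousAt (fun y => fb (φ y)) y := by
    filter_upwards [(φ.continuousAt h0.mem).eventually hfb.eventually,
      φ.open_source.mem_nhds h0.mem] with y hy hys
    exact ContinuousAt.comp (g := fb) (f := φ) hy.continuousAt (φ.continuousAt hys)
  filter_upwards [he'.eventually_nhds, hfb', hgood] with y hy1 hy2 hy3 hyU'
  by_contra hne
  have hc1 : ContinuousAt (f.f i j φ) y := (f.hol' hyU' hy3.2).continuousAt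
  have h5 : ∀ᶠ z in 𝓝 y, f.f i j φ z - fb (φ z) ≠ 0 :=
    (hc1.sub hy2).eventually_ne (sub_ne_zero.2 hne)
  refine (extr_freq hU hc v hv hy3.1) ?_
  filter_upwards [h5, hy1, hy3.2.eventually] with z hz1 hz2 hz3 hz4
  exact hz1 (sub_eq_zero.2 (hz2 ((v.nz_iff hz4.1 hz3).1 hz4.2)).symm)

/-- The extension as a limit. -/
noncomputable def extr_F {U' : Set X} (f : Sec2 L P K J m U') (i : L.ι) (j : P.ι)
    (φ : OpenPartialHomeomorph X E) (x : X) : ℂ := limUnder (𝓝[U'] x) (f.f i j φ)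

omit [FiniteDimensional ℂ E] in
theorem extr_neBot (hU : IsOpen U) (hc : IsPreconnected U) {U' : Set X} {K₀ J₀ m₀ : ℕ}
    (v : Sec2 L P K₀ J₀ m₀ U) (hv : ∃ x ∈ U, v.NZ x) (hvU : ∀ x ∈ U, v.NZ x → x ∈ U') {x : X}
    (hx : x ∈ U) : (𝓝[U'] x).NeBot := by
  rw [← frequently_true_iff_neBot, frequently_nhdsWithin_iff]
  exact (extr_freq hU hc v hv hx).mono fun y hy => ⟨trivial, hvU y hy.1 hy.2⟩

theorem extr_tendsto (hU : IsOpen U) (hc : IsPreconnected U) {U' : Set X} (hU' : IsOpen U')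
    {K₀ J₀ m₀ : ℕ}
    (v : Sec2 L P K₀ J₀ m₀ U) (hv : ∃ x ∈ U, v.NZ x) (hvU : ∀ x ∈ U, v.NZ x → x ∈ U')
    (f : Sec2 L P K J m U')
    (hb : ∀ x0 ∈ U, ∀ i j φ, At L P i j φ x0 → ∃ V ∈ 𝓝 x0, ∃ C : ℝ, ∀ x ∈ V, x ∈ U' →
      ‖f.f i j φ x‖ ≤ C) {x0 : X} (hx0 : x0 ∈ U) {i : L.ι} {j : P.ι}
    {φ : OpenPartialHomeomorph X E} (h0 : At L P i j φ x0) :
    Tendsto (f.f i j φ) (𝓝[U'] x0) (𝓝 (extr_F f i j φ x0)) := by
  obtain ⟨fb, hfb, he⟩ := extr_local hU hc hU' v hv hvU f hb hx0 h0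
  have := extr_neBot hU hc v hv hvU hx0
  have h1 : Tendsto (fun y => fb (φ y)) (𝓝[U'] x0) (𝓝 (fb (φ x0))) :=
    (ContinuousAt.comp (g := fb) (f := φ) hfb.continuousAt
      (φ.continuousAt h0.mem)).tendsto.mono_left nhdsWithin_le_nhds
  have h2 : Tendsto (f.f i j φ) (𝓝[U'] x0) (𝓝 (fb (φ x0))) := by
    refine h1.congr' ?_
    filter_upwards [eventually_nhdsWithin_iff.2 he] with y hy
    exact hy.symm
  rw [extr_F, h2.limUnder_eq]
  exact h2

/-- Riemann extension of bounded sections.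

Proof. Local: let `x0 ∈ U`, frames `i, j` and chart `φ` at `x0`, frames of `v`: `G = v.f i j φ ∘ φ.symm` is
analytic near `φ x0`, not identically zero near `φ x0` (`nz_dense`), and
`f.f i j φ ∘ φ.symm` is bounded and holomorphic at the points near `φ x0` where `G ≠ 0` (they lie in `U'`).
`Pool.Agent.Moi.riemann_ext` (MP_795b03_ag/RExt) gives `fb` near `φ x0`, equal to it where `G ≠ 0`, hence at
all points of `U'` near `x0` (both sides continuous on `U'`, `G ≠ 0` is dense). Global: define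
`F i j φ x = lim of f.f i j φ (y)` along `y → x`, `y ∈ U'` (`limUnder (𝓝[U'] x)`), for `x ∈ U`; near `x0` it is
`fb ∘ φ`, analytic by `analyticAt_of_diff`. The transformation rule and the weight rule hold on `U'` (for
`x ∈ U'`, `a x ∈ U'` by invariance of `U'`) and extend by continuity (`U'` is dense in `U`; all factors are
continuous: `A.jac` as in `mv_analyticAt`, or use the rule at fixed `a` with `pull` charts). -/
theorem extend_sec (hU : IsOpen U) (hc : IsPreconnected U) {U' : Set X} (hU' : IsOpen U')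
    (hU'U : U' ⊆ U) {K₀ J₀ m₀ : ℕ}
    (v : Sec2 L P K₀ J₀ m₀ U) (hv : ∃ x ∈ U, v.NZ x) (hvU : ∀ x ∈ U, v.NZ x → x ∈ U')
    (f : Sec2 L P K J m U')
    (hb : ∀ x0 ∈ U, ∀ i j φ, At L P i j φ x0 → ∃ V ∈ 𝓝 x0, ∃ C : ℝ, ∀ x ∈ V, x ∈ U' →
      ‖f.f i j φ x‖ ≤ C) :
    ∃ F : Sec2 L P K J m U,
      (∀ i j φ x, x ∈ U' → At L P i j φ x → F.f i j φ x = f.f i j φ x) ∧
      ∀ (S : Finset (Fin r)) (χ : Fin r → ℤ), (∀ a, InTS S a → ∀ x ∈ U', A.act a x ∈ U') →
        OfWt ΛL ΛP S χ f → OfWt ΛL ΛP S χ F := by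
  have ht : ∀ {x : X} (_ : x ∈ U) {i : L.ι} {j : P.ι} {φ : OpenPartialHomeomorph X E}
      (_ : At L P i j φ x), Tendsto (f.f i j φ) (𝓝[U'] x) (𝓝 (extr_F f i j φ x)) :=
    fun hx _ _ _ h => extr_tendsto hU hc hU' v hv hvU f hb hx h
  have hne : ∀ {x : X}, x ∈ U → (𝓝[U'] x).NeBot := fun hx => extr_neBot hU hc v hv hvU hx
  refine ⟨⟨extr_F f, ?_, ?_⟩, ?_, ?_⟩
  · -- holomorphic
    intro i j φ hφ x hx hi hj hs
    have h0 : At L P i j φ x := ⟨hφ, hi, hj, hs⟩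
    obtain ⟨fb, hfb, he⟩ := extr_local hU hc hU' v hv hvU f hb hx h0
    have h1 : HolAt E (fun y => fb (φ y)) x :=
      ContMDiffAt.comp (g := fb) (f := φ) x hfb.contDiffAt.contMDiffAt
        (contMDiffAt_of_mem_maximalAtlas hφ hs)
    refine ContMDiffAt.congr_of_eventuallyEq h1 ?_
    have hfb' : ∀ᶠ y in 𝓝 x, ContinuousAt (fun y => fb (φ y)) y := by
      filter_upwards [(φ.continuousAt hs).eventually hfb.eventually_analyticAt,
        φ.open_source.mem_nhds hs] with y hy hys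
      exact ContinuousAt.comp (g := fb) (f := φ) hy.continuousAt (φ.continuousAt hys)
    filter_upwards [he.eventually_nhds, hfb', hU.mem_nhds hx, h0.eventually] with y h1 h2 h3 h4
    have := hne h3
    refine tendsto_nhds_unique (ht h3 h4) ?_
    refine (h2.tendsto.mono_left nhdsWithin_le_nhds).congr' ?_
    filter_upwards [eventually_nhdsWithin_iff.2 h1] with z hz
    exact hz.symm
  · -- transformation rule
    intro i j i' j' φ hφ ψ hψ x hx h1 h2 h3 h4 h5 h6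
    have a1 : At L P i j φ x := ⟨hφ, h1, h2, h5⟩
    have a2 : At L P i' j' ψ x := ⟨hψ, h3, h4, h6⟩
    have := hne hx
    refine tendsto_nhds_unique (ht hx a1) ?_
    have c1 : ContinuousAt (fun y => L.g i i' y ^ K * P.g j j' y ^ J * jac φ ψ y ^ m) x :=
      (((L.hol i i' x h1 h3).continuousAt.pow K).mul ((P.hol j j' x h2 h4).continuousAt.pow J)).mul
        ((kltchart_jac_continuousAt hφ hψ h5 h6).pow m)
    refine ((c1.tendsto.mono_left nhdsWithin_le_nhds).mul (ht hx a2)).congr' ?_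
    filter_upwards [self_mem_nhdsWithin, mem_nhdsWithin_of_mem_nhds a1.eventually,
      mem_nhdsWithin_of_mem_nhds a2.eventually] with y e1 e2 e3
    exact (f.trans' e1 e2 e3).symm
  · -- agreement on `U'`
    intro i j φ x hx h
    have := hne (hU'U hx)
    refine tendsto_nhds_unique (ht (hU'U hx) h) ?_
    exact (f.hol' hx h).continuousAt.tendsto.mono_left nhdsWithin_le_nhds
  · -- weights
    intro S χ hinv hw a ha i j i' j' φ hφ ψ hψ x hx hax h1 h2 h3 h4 h5 h6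
    have a1 : At L P i j φ (A.act a x) := ⟨hφ, h1, h2, h5⟩
    have a2 : At L P i' j' ψ x := ⟨hψ, h3, h4, h6⟩
    have := hne hx
    have hact : Tendsto (A.act a) (𝓝[U'] x) (𝓝[U'] (A.act a x)) := by
      refine tendsto_nhdsWithin_iff.2 ⟨?_, ?_⟩
      · exact (act_continuous A ha.1).continuousAt.tendsto.mono_left nhdsWithin_le_nhds
      · filter_upwards [self_mem_nhdsWithin] with y hy
        exact hinv a ha y hy
    have hl : ∀ {B : LineBundle E X} (Λ : Linearization A B) (i i' : B.ι), A.act a x ∈ B.U i →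
        x ∈ B.U i' → ContinuousAt (Λ.lam i i' a) x := by
      intro B Λ i i' e1 e2
      have e3 := (Λ.hol i i' a x ha.1 e2 e1).continuousAt
      exact ContinuousAt.comp (g := fun v : (Fin r → ℂ) × X => Λ.lam i i' v.1 v.2)
        (f := fun y : X => ((a, y) : (Fin r → ℂ) × X)) e3 (by fun_prop)
    have hj : ContinuousAt (A.jac φ ψ a) x :=
      kltchart_jac_continuousAt (pull_mem A ha.1 hφ) hψ ((mem_pull_source A ha.1 φ x).2 h5) h6
    have c1 : ContinuousAt (fun y => ΛL.lam i i' a y ^ K * ΛP.lam j j' a y ^ J *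
        A.jac φ ψ a y ^ m) x :=
      (((hl ΛL i i' h1 h3).pow K).mul ((hl ΛP j j' h2 h4).pow J)).mul (hj.pow m)
    refine tendsto_nhds_unique (((ht hax a1).comp hact).const_mul (chr χ a)) ?_
    refine ((c1.tendsto.mono_left nhdsWithin_le_nhds).mul (ht hx a2)).congr' ?_
    filter_upwards [self_mem_nhdsWithin,
      (act_continuous A ha.1).continuousAt.tendsto.mono_left nhdsWithin_le_nhds a1.eventually,
      mem_nhdsWithin_of_mem_nhds a2.eventually] with y e1 e2 e3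
    exact (hw.rule ha e1 (hinv a ha y e1) e2 e3).symm

end Pool.Agent.Abd
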