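import Pool.Agent.H.MP_e23cd6_ag.FM

/-! The sum over the translates bounds the monomials (Fourier-Motzkin in one variable). -/

set_option autoImplicit false

open scoped ENNReal

namespace Pool.Agent.Abd

/-- the exponent of the constant -/
noncomputable def fsum_M (Ξ : Finset ℤ) (w : ℤ) (e : ℕ) : ℝ := ∑ ν : Ξ, |((ν : ℤ) : ℝ) - w / e|

theorem fsum_key (Ξ : Finset ℤ) (w : ℤ) (e : ℕ) (he : 1 ≤ e) (ω : ℝ) (hω : 0 < ω) (A : ℝ)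
    (z : Ξ → ℂ) (h : ∀ ν : Ξ, ‖z ν‖ * ω ^ ((e : ℤ) * ν - w) ≤ A) (hA : 0 < A) :
    ∃ n : ℤ, ‖∑ ν : Ξ, (2 : ℂ) ^ (-(n * (ν : ℤ))) * z ν‖ * (2 : ℝ) ^ ((n : ℝ) * w / e) ≤
      ((Ξ.card : ℝ) + 1) * (2 : ℝ) ^ fsum_M Ξ w e * A := by
  have he0 : (0 : ℝ) < e := by exact_mod_cast he
  set L : ℝ := Real.logb 2 ω with hL
  have hωL : ω = (2 : ℝ) ^ L := (Real.rpow_logb (by norm_num) (by norm_num) hω).symm
  refine ⟨-⌊(e : ℝ) * L⌋, ?_⟩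
  set n : ℤ := -⌊(e : ℝ) * L⌋ with hn
  have hn1 : (n : ℝ) = -((e : ℝ) * L - Int.fract ((e : ℝ) * L)) := by
    rw [hn, Int.cast_neg, Int.self_sub_fract]
  set r : ℝ := Int.fract ((e : ℝ) * L) with hr
  have hr0 : 0 ≤ r := Int.fract_nonneg _
  have hr1 : r ≤ 1 := (Int.fract_lt_one _).le
  have hterm : ∀ ν : Ξ, ‖(2 : ℂ) ^ (-(n * (ν : ℤ))) * z ν‖ * (2 : ℝ) ^ ((n : ℝ) * w / e) ≤
      (2 : ℝ) ^ fsum_M Ξ w e * A := by
    intro ν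
    have h1 : ‖(2 : ℂ) ^ (-(n * (ν : ℤ)))‖ = (2 : ℝ) ^ (-((n : ℝ) * ((ν : ℤ) : ℝ))) := by
      rw [norm_zpow, Complex.norm_ofNat, ← Real.rpow_intCast]
      push_cast
      rfl
    have h2 : ω ^ ((e : ℤ) * ν - w) = (2 : ℝ) ^ (L * ((e : ℝ) * ((ν : ℤ) : ℝ) - w)) := by
      rw [hωL, ← Real.rpow_intCast, ← Real.rpow_mul (by norm_num)]
      push_cast
      rfl
    rw [norm_mul, h1]
    have h3 : (2 : ℝ) ^ (-((n : ℝ) * ((ν : ℤ) : ℝ))) * ‖z ν‖ * (2 : ℝ) ^ ((n : ℝ) * w / e) =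
        (‖z ν‖ * ω ^ ((e : ℤ) * ν - w)) * (2 : ℝ) ^ (-(r * (((ν : ℤ) : ℝ) - w / e))) := by
      rw [h2]
      have h4 : (2 : ℝ) ^ (-((n : ℝ) * ((ν : ℤ) : ℝ))) * (2 : ℝ) ^ ((n : ℝ) * w / e) =
          (2 : ℝ) ^ (L * ((e : ℝ) * ((ν : ℤ) : ℝ) - w)) *
            (2 : ℝ) ^ (-(r * (((ν : ℤ) : ℝ) - w / e))) := by
        rw [← Real.rpow_add (by norm_num), ← Real.rpow_add (by norm_num)]
        congr 1
        rw [hn1]
        field_simp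
        ring
      calc (2 : ℝ) ^ (-((n : ℝ) * ((ν : ℤ) : ℝ))) * ‖z ν‖ * (2 : ℝ) ^ ((n : ℝ) * w / e)
          = ‖z ν‖ * ((2 : ℝ) ^ (-((n : ℝ) * ((ν : ℤ) : ℝ))) * (2 : ℝ) ^ ((n : ℝ) * w / e)) := by
            ring
        _ = _ := by rw [h4]; ring
    rw [h3]
    have h5 : (2 : ℝ) ^ (-(r * (((ν : ℤ) : ℝ) - w / e))) ≤ (2 : ℝ) ^ fsum_M Ξ w e := by
      apply Real.rpow_le_rpow_of_exponent_le (by norm_num)
      have h6 : |((ν : ℤ) : ℝ) - w / e| ≤ fsum_M Ξ w e := by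
        unfold fsum_M
        exact Finset.single_le_sum (f := fun ν : Ξ => |((ν : ℤ) : ℝ) - w / e|)
          (fun _ _ => abs_nonneg _) (Finset.mem_univ ν)
      have h7 : -(r * (((ν : ℤ) : ℝ) - w / e)) ≤ |((ν : ℤ) : ℝ) - w / e| := by
        calc -(r * (((ν : ℤ) : ℝ) - w / e)) ≤ |r * (((ν : ℤ) : ℝ) - w / e)| := neg_le_abs _
          _ = r * |((ν : ℤ) : ℝ) - w / e| := by rw [abs_mul, abs_of_nonneg hr0]
          _ ≤ 1 * |((ν : ℤ) : ℝ) - w / e| :=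
              mul_le_mul_of_nonneg_right hr1 (abs_nonneg _)
          _ = _ := one_mul _
      exact h7.trans h6
    calc (‖z ν‖ * ω ^ ((e : ℤ) * ν - w)) * (2 : ℝ) ^ (-(r * (((ν : ℤ) : ℝ) - w / e)))
        ≤ A * (2 : ℝ) ^ fsum_M Ξ w e :=
          mul_le_mul (h ν) h5 (Real.rpow_nonneg (by norm_num) _) hA.le
      _ = _ := mul_comm _ _
  have hpos : 0 ≤ (2 : ℝ) ^ fsum_M Ξ w e * A :=
    mul_nonneg (Real.rpow_nonneg (by norm_num) _) hA.le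
  calc ‖∑ ν : Ξ, (2 : ℂ) ^ (-(n * (ν : ℤ))) * z ν‖ * (2 : ℝ) ^ ((n : ℝ) * w / e)
      ≤ (∑ ν : Ξ, ‖(2 : ℂ) ^ (-(n * (ν : ℤ))) * z ν‖) * (2 : ℝ) ^ ((n : ℝ) * w / e) :=
        mul_le_mul_of_nonneg_right (norm_sum_le _ _) (Real.rpow_nonneg (by norm_num) _)
    _ = ∑ ν : Ξ, ‖(2 : ℂ) ^ (-(n * (ν : ℤ))) * z ν‖ * (2 : ℝ) ^ ((n : ℝ) * w / e) :=
        Finset.sum_mul _ _ _
    _ ≤ ∑ _ν : Ξ, (2 : ℝ) ^ fsum_M Ξ w e * A := Finset.sum_le_sum fun ν _ => hterm ν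
    _ = (Ξ.card : ℝ) * ((2 : ℝ) ^ fsum_M Ξ w e * A) := by
        rw [Finset.sum_const, Finset.card_univ, Fintype.card_coe, nsmul_eq_mul]
    _ ≤ ((Ξ.card : ℝ) + 1) * ((2 : ℝ) ^ fsum_M Ξ w e * A) :=
        mul_le_mul_of_nonneg_right (by linarith) hpos
    _ = _ := by ring

/-- `Ξ` is a finite set of weights `ν`, `z ν` the component of weight `ν`. The sum over `n ∈ ℤ` of
`(|∑ 2^(-nν) z_ν| 2^(n w / e))^(-2/m)` is at least `c0 (∑_l |z^l|)^(-2/(mq))` for finitely many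
monomials `z^l` of degree `q` with `e ∑ l_ν ν = q w`. -/
theorem fm_sum (Ξ : Finset ℤ) (m : ℕ) (hm : 1 ≤ m) (w : ℤ) (e : ℕ) (he : 1 ≤ e) :
    ∃ q : ℕ, 2 ≤ q ∧ ∃ Λ : Finset (Ξ → ℕ),
      (∀ l ∈ Λ, ∑ ν, l ν = q ∧ (e : ℤ) * ∑ ν : Ξ, (l ν : ℤ) * ν = q * w) ∧
      ∃ c0 : ℝ≥0∞, c0 ≠ 0 ∧ c0 ≠ ⊤ ∧ ∀ z : Ξ → ℂ,
        c0 * (∑ l : Λ, ‖∏ ν, z ν ^ (l : Ξ → ℕ) ν‖ₑ) ^ (-(2 : ℝ) / (m * q : ℕ)) ≤
          ∑' n : ℤ, (‖∑ ν : Ξ, (2 : ℂ) ^ (-(n * (ν : ℤ))) * z ν‖ₑ *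
            ENNReal.ofReal ((2 : ℝ) ^ ((n : ℝ) * w / e))) ^ (-(2 : ℝ) / m) := by
  classical
  obtain ⟨q, hq, Λ, hΛ, hfm⟩ := fm_deg (S := Ξ) (n := 1) (fun ν _ => (e : ℤ) * ν - w)
  have hm0 : (0 : ℝ) < m := by exact_mod_cast hm
  have hq0 : (0 : ℝ) < q := by exact_mod_cast (by omega : 0 < q)
  set B : ℝ := ((Ξ.card : ℝ) + 1) * (2 : ℝ) ^ fsum_M Ξ w e with hB
  have hB0 : 0 < B := by
    have : (0 : ℝ) < 2 ^ fsum_M Ξ w e := Real.rpow_pos_of_pos (by norm_num) _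
    positivity
  have hneg : -(2 : ℝ) / m ≤ 0 := div_nonpos_of_nonpos_of_nonneg (by norm_num) hm0.le
  refine ⟨q, hq, Λ, fun l hl => ⟨(hΛ l hl).1, ?_⟩, ENNReal.ofReal (B ^ (-(2 : ℝ) / m)), ?_,
    ENNReal.ofReal_ne_top, fun z => ?_⟩
  · have h1 := (hΛ l hl).2 0
    have h2 : ∑ ν : Ξ, (l ν : ℤ) * ((e : ℤ) * ν - w) =
        (e : ℤ) * ∑ ν : Ξ, (l ν : ℤ) * ν - (∑ ν : Ξ, (l ν : ℤ)) * w := by
      rw [Finset.mul_sum, Finset.sum_mul, ← Finset.sum_sub_distrib]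
      exact Finset.sum_congr rfl fun ν _ => by ring
    rw [h2] at h1
    have h3 : (∑ ν : Ξ, (l ν : ℤ)) = q := by
      have := (hΛ l hl).1
      exact_mod_cast this
    rw [h3] at h1
    linarith
  · exact (ENNReal.ofReal_pos.2 (Real.rpow_pos_of_pos hB0 _)).ne'
  · set R : ℝ≥0∞ := ∑' n : ℤ, (‖∑ ν : Ξ, (2 : ℂ) ^ (-(n * (ν : ℤ))) * z ν‖ₑ *
            ENNReal.ofReal ((2 : ℝ) ^ ((n : ℝ) * w / e))) ^ (-(2 : ℝ) / m) with hR
    set g : ℝ := ∑ l : Λ, ‖∏ ν, z ν ^ (l : Ξ → ℕ) ν‖ with hg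
    have hg0 : 0 ≤ g := Finset.sum_nonneg fun _ _ => norm_nonneg _
    have hge : (∑ l : Λ, ‖∏ ν, z ν ^ (l : Ξ → ℕ) ν‖ₑ) = ENNReal.ofReal g := by
      rw [hg, ENNReal.ofReal_sum_of_nonneg fun _ _ => norm_nonneg _]
      exact Finset.sum_congr rfl fun l _ => (ofReal_norm _).symm
    -- the main estimate
    have main : ∀ A : ℝ, 0 < A → g ≤ A ^ q → ENNReal.ofReal ((B * A) ^ (-(2 : ℝ) / m)) ≤ R := by
      intro A hA hgA
      obtain ⟨ω, hω, hω2⟩ := hfm (fun ν => ‖z ν‖ / A) (fun ν => div_nonneg (norm_nonneg _) hA.le)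
        (by
          intro l hl
          have h1 : ∏ ν, (‖z ν‖ / A) ^ l ν = ‖∏ ν, z ν ^ l ν‖ / A ^ q := by
            simp only [div_pow]
            rw [Finset.prod_div_distrib, Finset.prod_pow_eq_pow_sum, (hΛ l hl).1, norm_prod]
            simp only [norm_pow]
          rw [h1, div_le_one (pow_pos hA _)]
          refine le_trans ?_ hgA
          exact Finset.single_le_sum (f := fun l : Λ => ‖∏ ν, z ν ^ (l : Ξ → ℕ) ν‖)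
            (fun _ _ => norm_nonneg _) (Finset.mem_univ (⟨l, hl⟩ : Λ)))
      obtain ⟨n, hn⟩ := fsum_key Ξ w e he (ω 0) (hω 0) A z (by
        intro ν
        have h1 := hω2 ν
        rw [Fin.prod_univ_one] at h1
        have h2 : ‖z ν‖ / A * ω 0 ^ ((e : ℤ) * ν - w) = (‖z ν‖ * ω 0 ^ ((e : ℤ) * ν - w)) / A := by
          ring
        rw [h2, div_le_one hA] at h1
        exact h1) hA
      have h1 : (‖∑ ν : Ξ, (2 : ℂ) ^ (-(n * (ν : ℤ))) * z ν‖ₑ *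
            ENNReal.ofReal ((2 : ℝ) ^ ((n : ℝ) * w / e))) ^ (-(2 : ℝ) / m) ≤ R :=
        ENNReal.le_tsum n
      refine le_trans ?_ h1
      rw [← ENNReal.ofReal_rpow_of_pos (mul_pos hB0 hA)]
      have h2 : ‖∑ ν : Ξ, (2 : ℂ) ^ (-(n * (ν : ℤ))) * z ν‖ₑ *
            ENNReal.ofReal ((2 : ℝ) ^ ((n : ℝ) * w / e)) ≤ ENNReal.ofReal (B * A) := by
        rw [← ofReal_norm, ← ENNReal.ofReal_mul (norm_nonneg _)]
        exact ENNReal.ofReal_le_ofReal hn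
      have hneg2 : (-(2 : ℝ) / m) = -((2 : ℝ) / m) := by ring
      rw [hneg2, ENNReal.rpow_neg, ENNReal.rpow_neg]
      exact ENNReal.inv_le_inv.2 (ENNReal.rpow_le_rpow h2 (by positivity))
    rw [hge]
    rcases hg0.eq_or_lt with hz | hz
    · -- everything vanishes
      have htop : R = ⊤ := by
        refine ENNReal.eq_top_of_forall_nnreal_le fun x => ?_
        -- choose `A` with `(B A)^(-2/m) = x + 1`
        have hx : (0 : ℝ) < (x : ℝ) + 1 := by positivity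
        set A : ℝ := ((x : ℝ) + 1) ^ (-(m : ℝ) / 2) / B with hA
        have hA0 : 0 < A := div_pos (Real.rpow_pos_of_pos hx _) hB0
        have h1 := main A hA0 (by rw [← hz]; positivity)
        have h2 : (B * A) ^ (-(2 : ℝ) / m) = (x : ℝ) + 1 := by
          rw [hA, mul_div_cancel₀ _ hB0.ne', ← Real.rpow_mul hx.le]
          have : -(m : ℝ) / 2 * (-(2 : ℝ) / m) = 1 := by field_simp
          rw [this, Real.rpow_one]
        rw [h2] at h1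
        refine le_trans ?_ h1
        rw [← ENNReal.ofReal_coe_nnreal]
        exact ENNReal.ofReal_le_ofReal (by linarith)
      rw [htop]; exact le_top
    · have hA0 : 0 < g ^ ((1 : ℝ) / q) := Real.rpow_pos_of_pos hz _
      have h1 := main (g ^ ((1 : ℝ) / q)) hA0 (by
        rw [← Real.rpow_natCast, ← Real.rpow_mul hz.le, one_div, inv_mul_cancel₀ hq0.ne',
          Real.rpow_one])
      refine le_trans (le_of_eq ?_) h1
      rw [ENNReal.ofReal_rpow_of_pos hz, ← ENNReal.ofReal_mul (Real.rpow_nonneg hB0.le _),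
        Real.mul_rpow hB0.le hA0.le, ← Real.rpow_mul hz.le]
      congr 3
      push_cast
      field_simp

end Pool.Agent.Abd
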