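import Pool.Agent.H.MP_e23cd6_ag.GT.StepC
import Pool.Agent.H.MP_e23cd6_ag.GT.ConvC
import Pool.Agent.H.MP_e23cd6_ag.GT.DefsI

/-! MP_e23cd6_ag, torus actions: the equivalence for the compact manifold `X`. -/

set_option autoImplicit false

open scoped Manifold ContDiff Topology ENNReal
open MeasureTheory Set Filter

namespace Pool.Agent.Abd

variable {E : Type} [NormedAddCommGroup E] [NormedSpace ℂ E] {r : ℕ}
  {X : Type} [TopologicalSpace X] [ChartedSpace E X] {L P : LineBundle E X} {k m : ℕ}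

/-- The section of `L ^ k` as a `Sec2`. -/
def PowSec.toL (P : LineBundle E X) (s : PowSec L k) : Sec2 L P k 0 0 univ where
  f := fun i _ _ => s.f i
  hol := fun i _ _ _ x _ hi _ _ => s.hol i x hi
  trans := fun i j i' j' φ _ ψ _ x _ h1 _ h3 _ _ _ => by
    rw [s.trans i i' x h1 h3]
    ring

/-- The section of `P ^ k` as a `Sec2`. -/
def PowSec.toP (L : LineBundle E X) (s : PowSec P k) : Sec2 L P 0 k 0 univ where
  f := fun _ j _ => s.f j
  hol := fun _ j _ _ x _ _ hj _ => s.hol j x hj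
  trans := fun i j i' j' φ _ ψ _ x _ _ h2 _ h4 _ _ => by
    rw [s.trans j j' x h2 h4]
    ring

/-- The section of `(L ^ N ⊗ P) ^ k` as a `Sec2`. -/
def PowSec.toLP {N : ℕ} (s : PowSec (L.powMul P N) k) : Sec2 L P (k * N) k 0 univ where
  f := fun i j _ => s.f (i, j)
  hol := fun i j _ _ x _ hi hj _ => s.hol (i, j) x ⟨hi, hj⟩
  trans := fun i j i' j' φ _ ψ _ x _ h1 h2 h3 h4 _ _ => by
    rw [s.trans (i, j) (i', j') x ⟨h1, h2⟩ ⟨h3, h4⟩]
    show (L.g i i' x ^ N * P.g j j' x) ^ k * s.f (i', j') x = _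
    ring

/-- The section of `L ^ k ⊗ K_X ^ (-m)` as a `Sec2`. -/
def Sec.toSec2 (P : LineBundle E X) (s : Sec L k m) : Sec2 L P k 0 m univ where
  f := fun i _ φ => s.f i φ
  hol := fun i _ φ hφ x _ hi _ hx => s.hol i φ hφ x hi hx
  trans := fun i j i' j' φ hφ ψ hψ x _ h1 _ h3 _ h5 h6 => by
    rw [s.trans i i' φ hφ ψ hψ x h1 h3 h5 h6]
    ring

theorem exists_chart [IsManifold 𝓘(ℂ, E) ω X] (x : X) : ∃ φ ∈ Charts E X, x ∈ φ.source :=
  ⟨chartAt E x, IsManifold.chart_mem_maximalAtlas x, mem_chart_source E x⟩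

/-- A `Sec2` of `L ^ k` as a section of `L ^ k`. -/
noncomputable def Sec2.toPow [IsManifold 𝓘(ℂ, E) ω X] (s : Sec2 L P k 0 0 univ) :
    PowSec L k where
  f := fun i x => s.f i (P.cover x).choose (chartAt E x) x
  hol := fun i x hx => by
    have hat : At L P i (P.cover x).choose (chartAt E x) x :=
      ⟨IsManifold.chart_mem_maximalAtlas x, hx, (P.cover x).choose_spec, mem_chart_source E x⟩
    refine (s.hol' (mem_univ x) hat).congr_of_eventuallyEq ?_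
    filter_upwards [hat.eventually] with y hy
    have hat' : At L P i (P.cover y).choose (chartAt E y) y :=
      ⟨IsManifold.chart_mem_maximalAtlas y, hy.memL, (P.cover y).choose_spec,
        mem_chart_source E y⟩
    rw [s.trans' (mem_univ y) hat' hy, L.one i y hy.memL]
    ring
  trans := fun i j x hi hj => by
    have h1 : ∀ i, x ∈ L.U i → At L P i (P.cover x).choose (chartAt E x) x := fun i hx =>
      ⟨IsManifold.chart_mem_maximalAtlas x, hx, (P.cover x).choose_spec, mem_chart_source E x⟩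
    rw [s.trans' (mem_univ x) (h1 i hi) (h1 j hj)]
    ring

theorem Sec2.toPow_nz [IsManifold 𝓘(ℂ, E) ω X] (s : Sec2 L P k 0 0 univ) {x : X}
    (h : s.NZ x) : ∃ i, x ∈ L.U i ∧ s.toPow.f i x ≠ 0 := by
  obtain ⟨i, hi⟩ := L.cover x
  have hat : At L P i (P.cover x).choose (chartAt E x) x :=
    ⟨IsManifold.chart_mem_maximalAtlas x, hi, (P.cover x).choose_spec, mem_chart_source E x⟩
  exact ⟨i, hi, (s.nz_iff (mem_univ x) hat).1 h⟩

theorem PowSec.toL_nz [IsManifold 𝓘(ℂ, E) ω X] (P : LineBundle E X) (s : PowSec L k) {x : X}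
    (h : ∃ i, x ∈ L.U i ∧ s.f i x ≠ 0) : (s.toL P).NZ x := by
  obtain ⟨i, hi, h1⟩ := h
  obtain ⟨j, hj⟩ := P.cover x
  obtain ⟨φ, hφ, hx⟩ := exists_chart (E := E) x
  exact ⟨i, j, φ, hφ, hi, hj, hx, h1⟩

theorem PowSec.toP_nz [IsManifold 𝓘(ℂ, E) ω X] (L : LineBundle E X) (s : PowSec P k) {x : X}
    (h : ∃ i, x ∈ P.U i ∧ s.f i x ≠ 0) : (s.toP L).NZ x := by
  obtain ⟨j, hj, h1⟩ := h
  obtain ⟨i, hi⟩ := L.cover x
  obtain ⟨φ, hφ, hx⟩ := exists_chart (E := E) x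
  exact ⟨i, j, φ, hφ, hi, hj, hx, h1⟩

theorem PowSec.toLP_nz [IsManifold 𝓘(ℂ, E) ω X] {N : ℕ} (s : PowSec (L.powMul P N) k) {x : X}
    (h : ∃ i, x ∈ (L.powMul P N).U i ∧ s.f i x ≠ 0) : s.toLP.NZ x := by
  obtain ⟨⟨i, j⟩, hi, h1⟩ := h
  obtain ⟨φ, hφ, hx⟩ := exists_chart (E := E) x
  exact ⟨i, j, φ, hφ, hi.1, hi.2, hx, h1⟩

theorem Sec.Klt.toSec2 [MeasureSpace E] (P : LineBundle E X) {s : Sec L k m} (h : s.Klt) :
    (s.toSec2 P).Klt := fun i _ φ hφ x _ hi _ hx => h i φ hφ x hi hx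

section main

variable [FiniteDimensional ℂ E] [IsManifold 𝓘(ℂ, E) ω X] [T2Space X] [CompactSpace X]
  [ConnectedSpace X] {A : TorusAction E r X}
  (ΛL : Linearization A L) (ΛP : Linearization A P)

/-- An ample line bundle is ample on the quotient of `X` by the trivial group. -/
theorem LineBundle.Ample.ampleG (hP : P.Ample) : AmpleG ΛL ΛP ∅ univ 0 1 0 := by
  refine ⟨?_, ?_⟩
  · obtain ⟨l, hl, h⟩ := hP.1
    refine ⟨l, hl, fun x _ => ?_⟩
    obtain ⟨s, i, hi, hs⟩ := h x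
    exact ⟨(s.toP L).cast (Nat.mul_zero l).symm (Nat.mul_one l).symm rfl, ofWt_empty _ _,
      s.toP_nz L ⟨i, hi, hs⟩⟩
  · intro x _ y _ hxy
    have hne : x ≠ y := by
      rintro rfl
      exact hxy ⟨1, ⟨fun _ => one_ne_zero, fun _ _ => rfl⟩, (A.one x).symm⟩
    obtain ⟨l, hl, s, h1, h2⟩ := hP.2 x y hne
    refine ⟨l, hl, (s.toP L).cast (Nat.mul_zero l).symm (Nat.mul_one l).symm rfl,
      ofWt_empty _ _, s.toP_nz L h1, ?_⟩
    rintro ⟨i, j, φ, hφ, hi, hj, hx, h3⟩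
    exact h3 (h2 j hj)

/-- A nef line bundle is nef on the quotient of `X` by the trivial group. -/
theorem LineBundle.NefBy.nefG (hP : P.Ample) (hL : L.NefBy P) : NefG ΛL ΛP ∅ univ 1 0 := by
  refine ⟨0, 1, 0, hP.ampleG ΛL ΛP, fun N hN => ?_⟩
  obtain ⟨l, hl, h⟩ := hL N hN
  refine ⟨l, hl, fun x _ => ?_⟩
  obtain ⟨s, i, hi, hs⟩ := h x
  exact ⟨s.toLP.cast (by rw [Nat.mul_one, Nat.add_zero]) (Nat.mul_one l).symm rfl,
    ofWt_empty _ _, s.toLP_nz ⟨i, hi, hs⟩⟩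

variable [MeasureSpace E] [BorelSpace E] [(volume : Measure E).IsAddHaarMeasure]

/-- THE EQUIVALENCE. -/
theorem gt_main (hst : ∃ x₀ : X, {a : Fin r → ℂ | InT a ∧ A.act a x₀ = x₀}.Finite)
    (hP : P.Ample) (hL : L.NefBy P) (hk : 1 ≤ k) (hm : 1 ≤ m) (s : Sec L k m) (hs : s.Klt) :
    L.Semiample ↔ ∀ (U : Set X) (K : ℕ) (χ : Fin r → ℤ) (k' m' : ℕ), Good A Finset.univ U →
      1 ≤ K → 1 ≤ k' → 1 ≤ m' → NefG ΛL ΛP Finset.univ U K χ →
        KltQ ΛL ΛP Finset.univ U K χ k' m' → SemiQ ΛL ΛP Finset.univ U K 0 χ := by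
  constructor
  · rintro ⟨l₀, hl₀, h₀⟩ U K χ k' m' hG hK _ _ hN _
    obtain ⟨l₁, hl₁, h₁⟩ := hP.1
    refine SemiQ.of_semiample hG hl₀ (fun x => ?_) hl₁ (fun x => ?_) hN
    · obtain ⟨t, i, hi, ht⟩ := h₀ x
      exact ⟨t.toL P, t.toL_nz P ⟨i, hi, ht⟩⟩
    · obtain ⟨t, i, hi, ht⟩ := h₁ x
      exact ⟨t.toP L, t.toP_nz L ⟨i, hi, ht⟩⟩
  · intro H
    have h1 : AbG ΛL ΛP ∅ univ := ab_all hst
      (fun U _ hG K χ k' m' hK hk' hm' hN hklt => H U K χ k' m' hG hK hk' hm' hN hklt) ∅ univ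
      dense_univ (good_univ A)
    have h2 : KltQ ΛL ΛP ∅ univ 1 0 k m := by
      refine ⟨1, le_rfl, (s.toSec2 P).cast (by ring) rfl (by ring), ofWt_empty _ _, ?_⟩
      have h3 := hs.toSec2 P
      have h5 : ((m * 1 : ℕ) : ℝ) = (m : ℝ) := by rw [Nat.mul_one]
      intro i j φ hφ x hx hi hj hxs
      have h4 := h3 i j φ hφ x hx hi hj hxs
      rw [h5]
      exact h4
    obtain ⟨l, hl, h⟩ := h1 1 0 k m le_rfl hk hm (hL.nefG ΛL ΛP hP) h2
    refine ⟨l, hl, fun x => ?_⟩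
    obtain ⟨t, _, ht⟩ := h x (mem_univ x)
    obtain ⟨i, hi, h5⟩ := Sec2.toPow_nz (t.cast (Nat.mul_one l) (Nat.mul_zero l) rfl) ht
    exact ⟨_, i, hi, h5⟩

end main

end Pool.Agent.Abd
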