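import Pool.Agent.H.MP_e23cd6_ag.GT.Alg
import Pool.Agent.H.MP_e23cd6_ag.TB.PAct

/-! The discrete subgroups of the torus, wandering neighbourhoods. -/

set_option autoImplicit false

open scoped Manifold ContDiff Topology ENNReal
open MeasureTheory Set Filter

namespace Pool.Agent.Abd

/-- The element `(2 ^ n c)_c` of the torus. -/
noncomputable def lat {r : ℕ} (n : Fin r → ℤ) : Fin r → ℂ := fun c => (2 : ℂ) ^ n c

theorem lat_inT {r : ℕ} (n : Fin r → ℤ) : InT (lat n) := fun _ => zpow_ne_zero _ two_ne_zero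

theorem lat_add {r : ℕ} (n n' : Fin r → ℤ) : lat (n + n') = lat n * lat n' := by
  funext c
  exact zpow_add₀ two_ne_zero _ _

theorem lat_inTS {r : ℕ} {S : Finset (Fin r)} {n : Fin r → ℤ} (hn : ∀ c, c ∉ S → n c = 0) :
    InTS S (lat n) := ⟨lat_inT n, fun c hc => by rw [lat, hn c hc, zpow_zero]⟩

/-- The element of `T_i` with `i`-th coordinate `a`. -/
def el {r : ℕ} (i : Fin r) (a : ℂ) : Fin r → ℂ := Function.update 1 i a

theorem el_inT {r : ℕ} (i : Fin r) {a : ℂ} (ha : a ≠ 0) : InT (el i a) := by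
  intro c
  by_cases hc : c = i
  · subst hc; simp [el, ha]
  · simp [el, Function.update_of_ne hc]

theorem el_inTS {r : ℕ} (i : Fin r) {a : ℂ} (ha : a ≠ 0) : InTS {i} (el i a) :=
  ⟨el_inT i ha, fun c hc => by simp [el, Function.update_of_ne (by simpa using hc : c ≠ i)]⟩

theorem el_two {r : ℕ} (i : Fin r) (n : ℤ) : el i ((2 : ℂ) ^ n) = lat (Pi.single i n) := by
  funext c
  by_cases hc : c = i
  · subst hc; simp [el, lat]
  · simp [el, lat, Function.update_of_ne hc, Pi.single_eq_of_ne hc]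

theorem chr_el {r : ℕ} (i : Fin r) (a : ℂ) (χ : Fin r → ℤ) : chr χ (el i a) = a ^ χ i := by
  unfold chr
  rw [Finset.prod_eq_single i]
  · simp [el]
  · intro b _ hb
    simp [el, Function.update_of_ne hb]
  · simp

/-- The compact set of the `t` with `|t c| ∈ [1, 2]` for `c ∈ S` and `t c = 1` otherwise. -/
def wander_D {r : ℕ} (S : Finset (Fin r)) : Set (Fin r → ℂ) :=
  {t | ∀ c, (c ∈ S → 1 ≤ ‖t c‖ ∧ ‖t c‖ ≤ 2) ∧ (c ∉ S → t c = 1)}

theorem wander_isCompact {r : ℕ} (S : Finset (Fin r)) : IsCompact (wander_D S) := by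
  have h1 : wander_D S = Set.pi Set.univ
      (fun c => {z : ℂ | (c ∈ S → 1 ≤ ‖z‖ ∧ ‖z‖ ≤ 2) ∧ (c ∉ S → z = 1)}) := by
    ext t
    simp [wander_D, Set.mem_pi]
  rw [h1]
  refine isCompact_univ_pi fun c => ?_
  by_cases hc : c ∈ S
  · have h2 : {z : ℂ | (c ∈ S → 1 ≤ ‖z‖ ∧ ‖z‖ ≤ 2) ∧ (c ∉ S → z = 1)} =
        {z : ℂ | 1 ≤ ‖z‖} ∩ Metric.closedBall 0 2 := by
      ext z
      simp [hc]
    rw [h2]
    exact (isCompact_closedBall 0 2).inter_left (isClosed_le continuous_const continuous_norm)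
  · have h2 : {z : ℂ | (c ∈ S → 1 ≤ ‖z‖ ∧ ‖z‖ ≤ 2) ∧ (c ∉ S → z = 1)} = {1} := by
      ext z
      simp [hc]
    rw [h2]
    exact isCompact_singleton

variable {E : Type} [NormedAddCommGroup E] [NormedSpace ℂ E] [FiniteDimensional ℂ E] {r : ℕ}
  {X : Type} [TopologicalSpace X] [ChartedSpace E X] [IsManifold 𝓘(ℂ, E) ω X] [T2Space X]
  {A : TorusAction E r X} {S : Finset (Fin r)} {U : Set X}

/-- Properness gives wandering neighbourhoods for the discrete subgroup.
Proof. `x0` has a compact neighbourhood `V ⊆ U` (`X` is locally compact: `ChartedSpace.locallyCompactSpace E X`).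
By properness for `C = V` the coordinates `2 ^ n c` of `lat n`, `n` supported on `S`, with
`lat n V ∩ V ≠ ∅` are bounded above and below, so finitely many `n`. -/
theorem exists_wander (hU : IsOpen U) (hp : ∀ C ⊆ U, IsCompact C → ∃ R : ℝ, ∀ a, InTS S a →
      ∀ x ∈ C, A.act a x ∈ C → ∀ c, ‖a c‖ ≤ R ∧ ‖(a c)⁻¹‖ ≤ R) {x0 : X} (hx0 : x0 ∈ U) :
    ∃ V : Set X, IsOpen V ∧ x0 ∈ V ∧ V ⊆ U ∧
      {n : Fin r → ℤ | (∀ c, c ∉ S → n c = 0) ∧ ∃ x ∈ V, A.act (lat n) x ∈ V}.Finite := by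
  haveI : ProperSpace E := FiniteDimensional.proper ℂ E
  haveI : LocallyCompactSpace X := ChartedSpace.locallyCompactSpace E X
  obtain ⟨K, hK, hxK, hKU⟩ := exists_compact_subset hU hx0
  obtain ⟨R, hR⟩ := hp K hKU hK
  obtain ⟨M, hM⟩ := pow_unbounded_of_one_lt R (one_lt_two : (1 : ℝ) < 2)
  refine ⟨interior K, isOpen_interior, hxK, interior_subset.trans hKU, ?_⟩
  refine (Set.finite_Icc (fun _ : Fin r => -(M : ℤ)) (fun _ => (M : ℤ))).subset ?_
  rintro n ⟨hn, x, hx, hnx⟩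
  have h := hR (lat n) (lat_inTS hn) x (interior_subset hx) (interior_subset hnx)
  have hk : ∀ k : ℤ, (2 : ℝ) ^ k ≤ R → k ≤ M := by
    intro k hk
    have h1 : (2 : ℝ) ^ k < (2 : ℝ) ^ (M : ℤ) := by
      rw [zpow_natCast]
      exact lt_of_le_of_lt hk hM
    exact ((zpow_lt_zpow_iff_right₀ (one_lt_two : (1 : ℝ) < 2)).1 h1).le
  constructor
  · intro c
    have h1 := (h c).2
    rw [lat, ← zpow_neg, norm_zpow, Complex.norm_two] at h1
    have h2 := hk _ h1
    show -(M : ℤ) ≤ n c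
    linarith
  · intro c
    have h1 := (h c).1
    rw [lat, norm_zpow, Complex.norm_two] at h1
    exact hk _ h1

/-- A compact set which is met by the orbits of the discrete subgroup of `T_S`.
Proof. With `C` from `Good.cocompact` let `Kh` be the image of the compact set
`{t : |t c| ∈ [1, 2] for c ∈ S, t c = 1 otherwise} × C` under the action (continuous there:
`A.hol … |>.continuousAt`; the set of `t` is compact). For `x ∈ U` and `a x ∈ C`, `a ∈ T_S`: write
`a c = t' c * 2 ^ n' c`, `|t' c| ∈ [1,2)`, `t = t'⁻¹ * 2`-type adjustment: choose `n c` with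
`|2 ^ n c / a c| ∈ [1, 2]`; then `lat n x = (lat n / a) (a x) ∈ Kh`. -/
theorem exists_khat (hG : Good A S U) : ∃ Kh : Set X, IsCompact Kh ∧ Kh ⊆ U ∧
    ∀ x ∈ U, ∃ n : Fin r → ℤ, (∀ c, c ∉ S → n c = 0) ∧ A.act (lat n) x ∈ Kh := by
  classical
  obtain ⟨C, hCU, hC, hcov⟩ := hG.cocompact
  have hDc := wander_isCompact S
  have hD0 : ∀ t ∈ wander_D S, InT t := by
    intro t ht c
    by_cases hc : c ∈ S
    · have h1 := ((ht c).1 hc).1
      intro h0
      rw [h0, norm_zero] at h1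
      linarith
    · rw [(ht c).2 hc]
      exact one_ne_zero
  refine ⟨(fun v : (Fin r → ℂ) × X => A.act v.1 v.2) '' (wander_D S ×ˢ C), ?_, ?_, ?_⟩
  · refine (hDc.prod hC).image_of_continuousOn ?_
    intro v hv
    have h1 : ContinuousAt (fun v : (Fin r → ℂ) × X => A.act v.1 v.2) (v.1, v.2) :=
      (A.hol v.1 (hD0 v.1 hv.1) v.2).continuousAt
    exact h1.continuousWithinAt
  · rintro _ ⟨v, hv, rfl⟩
    exact hG.inv v.1 (hD0 v.1 hv.1) v.2 (hCU hv.2)
  · intro x hx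
    obtain ⟨a, ha, hax⟩ := hcov x hx
    have hex : ∀ c, ∃ k : ℤ, ‖a c‖ ∈ Set.Ioc ((2 : ℝ) ^ k) ((2 : ℝ) ^ (k + 1)) := fun c =>
      exists_mem_Ioc_zpow (norm_pos_iff.2 (ha.1 c)) one_lt_two
    choose k hk using hex
    have hn0 : ∀ c, c ∉ S → (fun c => if c ∈ S then k c + 1 else 0) c = (0 : ℤ) := by
      intro c hc
      simp [hc]
    refine ⟨fun c => if c ∈ S then k c + 1 else 0, hn0, ?_⟩
    set n : Fin r → ℤ := fun c => if c ∈ S then k c + 1 else 0 with hn
    have hlat : lat n = (lat n * a⁻¹) * a := by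
      rw [mul_assoc, ha.1.inv_mul, mul_one]
    have ht : lat n * a⁻¹ ∈ wander_D S := by
      intro c
      constructor
      · intro hc
        have h1 : n c = k c + 1 := by simp [hn, hc]
        have h2 : (lat n * a⁻¹) c = (2 : ℂ) ^ (k c + 1) * (a c)⁻¹ := by
          show (2 : ℂ) ^ n c * (a c)⁻¹ = _
          rw [h1]
        have hpos : 0 < ‖a c‖ := norm_pos_iff.2 (ha.1 c)
        rw [h2, norm_mul, norm_inv, norm_zpow, Complex.norm_two, ← div_eq_mul_inv, le_div_iff₀ hpos,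
          div_le_iff₀ hpos, one_mul]
        refine ⟨(hk c).2, ?_⟩
        rw [zpow_add_one₀ two_ne_zero, mul_comm]
        have := (hk c).1
        linarith
      · intro hc
        have h1 : n c = 0 := by simp [hn, hc]
        show (2 : ℂ) ^ n c * (a c)⁻¹ = _
        rw [h1, ha.2 c hc, zpow_zero, inv_one, one_mul]
    refine ⟨(lat n * a⁻¹, A.act a x), ⟨ht, hax⟩, ?_⟩
    show A.act (lat n * a⁻¹) (A.act a x) = A.act (lat n) x
    rw [← A.mul _ _ (hD0 _ ht) ha.1, ← hlat]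

end Pool.Agent.Abd
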