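import Pool.Agent.H.MP_e23cd6_ag.GT.Move
import Pool.Agent.H.MP_e23cd6_ag.GT.Wander
import Pool.Agent.H.MP_e23cd6_ag.GT.AnUp
import Pool.Agent.H.MP_ceb9a9.Scv4

/-! The translates of a section depend holomorphically on the torus element. -/

set_option autoImplicit false

open scoped Manifold ContDiff Topology ENNReal
open MeasureTheory Set Filter

namespace Pool.Agent.Abd

variable {E : Type} [NormedAddCommGroup E] [NormedSpace ℂ E] [FiniteDimensional ℂ E] {r : ℕ}
  {X : Type} [TopologicalSpace X] [ChartedSpace E X] [IsManifold 𝓘(ℂ, E) ω X]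
  {A : TorusAction E r X} {L P : LineBundle E X} {K J m k : ℕ} {U : Set X}
  (ΛL : Linearization A L) (ΛP : Linearization A P)

omit [FiniteDimensional ℂ E] in
/-- The chain rule for the jacobians of charts. -/
theorem foura_jac_mul {φ ψ κ : OpenPartialHomeomorph X E} (hφ : φ ∈ Charts E X)
    (hψ : ψ ∈ Charts E X) (hκ : κ ∈ Charts E X) {x : X} (h1 : x ∈ φ.source) (h2 : x ∈ ψ.source)
    (h3 : x ∈ κ.source) : jac φ κ x = jac φ ψ x * jac ψ κ x := by
  have e1 := kltchart_contDiffAt hφ hψ h1 h2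
  have e2 := kltchart_contDiffAt hψ hκ h2 h3
  have d1 : HasFDerivAt (φ ∘ ψ.symm) (fderiv ℂ (φ ∘ ψ.symm) (ψ x)) (ψ x) :=
    (e1.differentiableAt (by simp)).hasFDerivAt
  have d2 : HasFDerivAt (ψ ∘ κ.symm) (fderiv ℂ (ψ ∘ κ.symm) (κ x)) (κ x) :=
    (e2.differentiableAt (by simp)).hasFDerivAt
  have hx : (ψ ∘ κ.symm) (κ x) = ψ x := by
    simp only [Function.comp, κ.left_inv h3]
  rw [← hx] at d1
  have d3 := d1.comp (κ x) d2
  have hev : (φ ∘ κ.symm) =ᶠ[𝓝 (κ x)] (φ ∘ ψ.symm) ∘ (ψ ∘ κ.symm) := by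
    have hc : ContinuousAt κ.symm (κ x) := κ.symm.continuousAt (κ.map_source h3)
    have hs : κ.symm (κ x) ∈ ψ.source := by rw [κ.left_inv h3]; exact h2
    filter_upwards [hc.preimage_mem_nhds (ψ.open_source.mem_nhds hs)] with w hw
    simp only [Function.comp]
    rw [ψ.left_inv hw]
  have d4 := d3.congr_of_eventuallyEq hev
  have e3 : fderiv ℂ (φ ∘ κ.symm) (κ x) =
      (fderiv ℂ (φ ∘ ψ.symm) (ψ x)).comp (fderiv ℂ (ψ ∘ κ.symm) (κ x)) := by
    rw [d4.fderiv, hx]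
  unfold jac
  rw [e3]
  change LinearMap.det (((fderiv ℂ (φ ∘ ψ.symm) (ψ x) : E →L[ℂ] E) : E →ₗ[ℂ] E) ∘ₗ
    ((fderiv ℂ (ψ ∘ κ.symm) (κ x) : E →L[ℂ] E) : E →ₗ[ℂ] E)) = _
  rw [LinearMap.det_comp]

omit [FiniteDimensional ℂ E] in
theorem foura_jac_self {φ : OpenPartialHomeomorph X E} {x : X} (h1 : x ∈ φ.source) :
    jac φ φ x = 1 := by
  have hev : (φ ∘ φ.symm) =ᶠ[𝓝 (φ x)] id := by
    filter_upwards [φ.open_target.mem_nhds (φ.map_source h1)] with w hw
    simp only [Function.comp, id, φ.right_inv hw]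
  unfold jac
  rw [hev.fderiv_eq, fderiv_id]
  exact LinearMap.det_id

omit [FiniteDimensional ℂ E] in
/-- The jacobians of `a` and of `a⁻¹`. -/
theorem foura_jac_inv {a : Fin r → ℂ} (ha : InT a) {φ ψ : OpenPartialHomeomorph X E}
    (hφ : φ ∈ Charts E X) (hψ : ψ ∈ Charts E X) {x : X} (h1 : x ∈ φ.source)
    (h2 : A.act a x ∈ ψ.source) :
    jac (pull A ha.inv φ) ψ (A.act a x) * A.jac ψ φ a x = 1 := by
  have h3 : x ∈ (pull A ha ψ).source := (mem_pull_source A ha ψ x).2 h2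
  have e1 : jac (pull A ha.inv φ) ψ (A.act a x) = jac φ (pull A ha ψ) x := by
    rw [← PAct2_jac A ha]
    have h4 : (pull A ha (pull A ha.inv φ) : X → E) = φ := by
      funext y
      change φ (A.act a⁻¹ (A.act a y)) = φ y
      rw [act_inv_act A ha]
    unfold jac
    rw [h4]
  rw [e1, ← jac_pull A ha, ← foura_jac_mul hφ (pull_mem A ha hψ) hφ h1 h3 h1, foura_jac_self h1]

omit [FiniteDimensional ℂ E] in
/-- The chain rule for the jacobians of the action. -/
theorem foura_jac_act_mul {a b : Fin r → ℂ} (ha : InT a) (hb : InT b)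
    {φ ψ κ : OpenPartialHomeomorph X E} (hφ : φ ∈ Charts E X) (hψ : ψ ∈ Charts E X)
    (hκ : κ ∈ Charts E X) {x : X} (h1 : A.act (a * b) x ∈ κ.source) (h2 : A.act b x ∈ φ.source)
    (h3 : x ∈ ψ.source) :
    A.jac κ ψ (a * b) x = A.jac κ φ a (A.act b x) * A.jac φ ψ b x := by
  have e1 : A.jac κ ψ (a * b) x = jac (pull A hb (pull A ha κ)) ψ x := by
    unfold jac TorusAction.jac
    have h4 : (κ ∘ A.act (a * b) ∘ ψ.symm : E → E) = (pull A hb (pull A ha κ) : X → E) ∘ ψ.symm := by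
      funext w
      change κ (A.act (a * b) (ψ.symm w)) = κ (A.act a (A.act b (ψ.symm w)))
      rw [A.mul a b ha hb]
    rw [h4]
  have h5 : x ∈ (pull A hb (pull A ha κ)).source := by
    rw [mem_pull_source, mem_pull_source, ← A.mul a b ha hb]
    exact h1
  have h6 : x ∈ (pull A hb φ).source := (mem_pull_source A hb φ x).2 h2
  rw [e1, foura_jac_mul (pull_mem A hb (pull_mem A ha hκ)) (pull_mem A hb hφ) hψ h5 h6 h3,
    PAct2_jac A hb]
  rfl

/-- Value of `mv` with a fixed frame and chart near `a x`.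
Proof. `s.trans'` at the point `a x` from the chart `pull A ha.inv φ` to `ψ`, and
`jac (pull A ha.inv φ) ψ (a x) = (A.jac ψ φ a x)⁻¹` (chain rule: `φ ∘ act a⁻¹ ∘ ψ.symm` and
`ψ ∘ act a ∘ φ.symm` are inverse to each other near the points), `lam_change` for the frames. -/
theorem mv_eq (s : Sec2 L P K J m U) {a : Fin r → ℂ} (ha : InT a) {i j φ x} {i' j' ψ}
    (hax : A.act a x ∈ U) (h1 : At L P i j φ x) (h2 : At L P i' j' ψ (A.act a x)) :
    mv ΛL ΛP s a ha i j φ x = s.f i' j' ψ (A.act a x) /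
      (ΛL.lam i' i a x ^ K * ΛP.lam j' j a x ^ J * A.jac ψ φ a x ^ m) := by
  have hL := fr_mem L (A.act a x)
  have hP := fr_mem P (A.act a x)
  have h3 : At L P (fr L (A.act a x)) (fr P (A.act a x)) (pull A ha.inv φ) (A.act a x) :=
    ⟨pull_mem A ha.inv h1.chart, hL, hP, by
      rw [mem_pull_source, act_inv_act A ha]; exact h1.mem⟩
  have e1 := s.trans' hax h3 h2
  have e2 := lam_change ΛL ha h1.memL h1.memL hL h2.memL
  have e3 := lam_change ΛP ha h1.memP h1.memP hP h2.memP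
  rw [L.one i x h1.memL, mul_one] at e2
  rw [P.one j x h1.memP, mul_one] at e3
  have e4 := foura_jac_inv (A := A) ha h1.chart h2.chart h1.mem h2.mem
  have n1 := lam_ne_zero ΛL ha h1.memL h2.memL
  have n2 := lam_ne_zero ΛP ha h1.memP h2.memP
  have n3 : A.jac ψ φ a x ≠ 0 := fun h0 => by rw [h0, mul_zero] at e4; exact zero_ne_one e4
  have n4 := LineBundle.g_ne L hL h2.memL
  have n5 := LineBundle.g_ne P hP h2.memP
  have e5 : jac (pull A ha.inv φ) ψ (A.act a x) = (A.jac ψ φ a x)⁻¹ := eq_inv_of_mul_eq_one_left e4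
  unfold mv
  rw [e1, e2, e3, e5, mul_pow, mul_pow, inv_pow]
  field_simp

/-- The determinant of an analytic family of linear maps is analytic. -/
theorem foura_det {V E : Type} [NormedAddCommGroup V] [NormedSpace ℂ V] [NormedAddCommGroup E]
    [NormedSpace ℂ E] [FiniteDimensional ℂ E] {L : V → E →L[ℂ] E} {a : V}
    (hL : AnalyticAt ℂ L a) : AnalyticAt ℂ (fun b => (L b).det) a := by
  let e := Module.finBasis ℂ E
  have h : (fun b => (L b).det) = fun b => ∑ σ : Equiv.Perm (Fin (Module.finrank ℂ E)),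
      ((Equiv.Perm.sign σ : ℤ) : ℂ) * ∏ i, e.repr (L b (e i)) (σ i) := by
    funext b
    have h1 : (L b).det = LinearMap.det (L b : E →ₗ[ℂ] E) := rfl
    rw [h1, ← LinearMap.det_toMatrix e, Matrix.det_apply']
    apply Finset.sum_congr rfl
    intro σ _
    congr 1
    apply Finset.prod_congr rfl
    intro i _
    rw [LinearMap.toMatrix_apply]
    rfl
  rw [h]
  apply Finset.analyticAt_fun_sum
  intro σ _
  apply AnalyticAt.mul analyticAt_const
  apply Finset.analyticAt_fun_prod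
  intro i _
  have h2 : AnalyticAt ℂ (fun b => L b (e i)) a :=
    ((ContinuousLinearMap.apply ℂ E (e i)).analyticAt _).comp hL
  have h3 := ((LinearMap.toContinuousLinearMap (e.coord (σ i))).analyticAt _).comp h2
  exact h3

/-- The Jacobian determinant in the second variable of an analytic map is analytic. -/
theorem foura_jac {V E : Type} [NormedAddCommGroup V] [NormedSpace ℂ V] [NormedAddCommGroup E]
    [NormedSpace ℂ E] [FiniteDimensional ℂ E] {G : V × E → E} {p : V × E}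
    (hG : AnalyticAt ℂ G p) :
    AnalyticAt ℂ (fun v : V × E => (fderiv ℂ (fun w => G (v.1, w)) v.2).det) p := by
  haveI : CompleteSpace E := FiniteDimensional.complete ℂ E
  have h1 : AnalyticAt ℂ (fderiv ℂ G) p := hG.fderiv
  have h2 : AnalyticAt ℂ (fun v : V × E => (fderiv ℂ G v).comp (ContinuousLinearMap.inr ℂ V E)) p :=
    ((ContinuousLinearMap.compL ℂ E (V × E) E).flip
      (ContinuousLinearMap.inr ℂ V E)).analyticAt _ |>.comp h1
  have h3 := foura_det h2
  refine h3.congr ?_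
  filter_upwards [hG.eventually_analyticAt] with v hv
  have h7 : HasFDerivAt G (fderiv ℂ G (v.1, v.2)) (v.1, v.2) := hv.differentiableAt.hasFDerivAt
  have h8 : HasFDerivAt (fun w : E => (v.1, w)) (ContinuousLinearMap.inr ℂ V E) v.2 :=
    hasFDerivAt_prodMk_right v.1 v.2
  have h9 : HasFDerivAt (fun w => G (v.1, w))
      ((fderiv ℂ G (v.1, v.2)).comp (ContinuousLinearMap.inr ℂ V E)) v.2 :=
    HasFDerivAt.comp v.2 (g := G) (f := fun w : E => (v.1, w)) h7 h8
  rw [h9.fderiv]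

omit [FiniteDimensional ℂ E] in
/-- The coordinates `(a, w) ↦ (a, φ.symm w)`. -/
theorem foura_pair {φ : OpenPartialHomeomorph X E} (hφ : φ ∈ Charts E X) {x : X}
    (hx : x ∈ φ.source) (a : Fin r → ℂ) :
    ContMDiffAt 𝓘(ℂ, (Fin r → ℂ) × E) (𝓘(ℂ, Fin r → ℂ).prod 𝓘(ℂ, E)) ω
        (fun p : (Fin r → ℂ) × E => (p.1, φ.symm p.2)) (a, φ x) := by
  have h3 : ContMDiffAt 𝓘(ℂ, E) 𝓘(ℂ, E) ω φ.symm (φ x) :=
    contMDiffAt_symm_of_mem_maximalAtlas hφ (φ.map_source hx)
  have h4 : ContMDiffAt 𝓘(ℂ, (Fin r → ℂ) × E) 𝓘(ℂ, E) ω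
      (fun p : (Fin r → ℂ) × E => φ.symm p.2) (a, φ x) :=
    ContMDiffAt.comp (g := φ.symm) (f := fun p : (Fin r → ℂ) × E => p.2) (a, φ x) h3
      contDiff_snd.contMDiff.contMDiffAt
  exact (contDiff_fst.contMDiff.contMDiffAt).prodMk h4

omit [FiniteDimensional ℂ E] in
/-- The map `(a, w) ↦ a (φ.symm w)`. -/
theorem foura_act {φ : OpenPartialHomeomorph X E} (hφ : φ ∈ Charts E X) {x : X}
    (hx : x ∈ φ.source) {a : Fin r → ℂ} (ha : InT a) :
    ContMDiffAt 𝓘(ℂ, (Fin r → ℂ) × E) 𝓘(ℂ, E) ω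
        (fun p : (Fin r → ℂ) × E => A.act p.1 (φ.symm p.2)) (a, φ x) := by
  have h6 : ContMDiffAt (𝓘(ℂ, Fin r → ℂ).prod 𝓘(ℂ, E)) 𝓘(ℂ, E) ω
      (fun v : (Fin r → ℂ) × X => A.act v.1 v.2) (a, φ.symm (φ x)) := by
    rw [φ.left_inv hx]
    exact A.hol a ha x
  exact ContMDiffAt.comp (g := fun v : (Fin r → ℂ) × X => A.act v.1 v.2)
      (f := fun p : (Fin r → ℂ) × E => (p.1, φ.symm p.2)) (a, φ x) h6 (foura_pair hφ hx a)

/-- `mv` as a function of the torus element and of the coordinates of the point is analytic.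

Proof. Near `(a0, φ x0)` use `mv_eq` with frames `i', j'` and a chart `ψ` at `a0 x0` (fixed; still
frames at `a x` for `(a, x)` near `(a0, x0)` by continuity of the action). All factors are analytic in
`(a, w)`, `x = φ.symm w`: `s.hol` composed with `A.hol`; `ΛL.hol`, `ΛP.hol` (nonzero: `lam_ne_zero`);
`A.jac ψ φ a x = det (fderiv (fun w => ψ (act a (φ.symm w))) (φ x))`: the map
`(a, w) ↦ ψ (act a (φ.symm w))` is analytic, its partial derivative in `w` is analytic
(`AnalyticAt.fderiv` of the joint map, composed with the inclusion `E → (Fin r → ℂ) × E`), the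
determinant is a polynomial in the coefficients (compare `PHolo_det`, `PHolo_jac` in TB/PHolo.lean); it
is nonzero. The value is given as a function of `a` through `if InT a` since `mv` needs a proof. -/
theorem mv_analyticAt (hU : IsOpen U) (s : Sec2 L P K J m U) {a0 : Fin r → ℂ} (ha0 : InT a0)
    {i j φ x0} (hx0 : A.act a0 x0 ∈ U) (h1 : At L P i j φ x0) :
    ∃ F : (Fin r → ℂ) × E → ℂ, AnalyticAt ℂ F (a0, φ x0) ∧
      ∀ᶠ v in 𝓝 (a0, φ x0), ∀ hv : InT v.1,
        F v = mv ΛL ΛP s v.1 hv i j φ (φ.symm v.2) := by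
  obtain ⟨i', j', h2⟩ := exists_at L P (A.act a0 x0)
  set ψ : OpenPartialHomeomorph X E := chartAt E (A.act a0 x0) with hψd
  have hact := foura_act (A := A) h1.chart h1.mem ha0
  have hpair := foura_pair (r := r) h1.chart h1.mem a0
  have hxx : φ.symm (φ x0) = x0 := φ.left_inv h1.mem
  -- the factors
  have a1 : AnalyticAt ℂ (fun v : (Fin r → ℂ) × E => s.f i' j' ψ (A.act v.1 (φ.symm v.2)))
      (a0, φ x0) := by
    have h3 : ContMDiffAt 𝓘(ℂ, (Fin r → ℂ) × E) 𝓘(ℂ) ω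
        (fun v : (Fin r → ℂ) × E => s.f i' j' ψ (A.act v.1 (φ.symm v.2))) (a0, φ x0) := by
      refine ContMDiffAt.comp (g := s.f i' j' ψ)
        (f := fun p : (Fin r → ℂ) × E => A.act p.1 (φ.symm p.2)) (a0, φ x0) ?_ hact
      simp only [hxx]
      exact s.hol' hx0 h2
    exact h3.contDiffAt.analyticAt
  have a2 : AnalyticAt ℂ (fun v : (Fin r → ℂ) × E => ΛL.lam i' i v.1 (φ.symm v.2))
      (a0, φ x0) := by
    have h3 : ContMDiffAt 𝓘(ℂ, (Fin r → ℂ) × E) 𝓘(ℂ) ω
        (fun v : (Fin r → ℂ) × E => ΛL.lam i' i v.1 (φ.symm v.2)) (a0, φ x0) := by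
      refine ContMDiffAt.comp (g := fun v : (Fin r → ℂ) × X => ΛL.lam i' i v.1 v.2)
        (f := fun p : (Fin r → ℂ) × E => (p.1, φ.symm p.2)) (a0, φ x0) ?_ hpair
      simp only [hxx]
      exact ΛL.hol i' i a0 x0 ha0 h1.memL h2.memL
    exact h3.contDiffAt.analyticAt
  have a3 : AnalyticAt ℂ (fun v : (Fin r → ℂ) × E => ΛP.lam j' j v.1 (φ.symm v.2))
      (a0, φ x0) := by
    have h3 : ContMDiffAt 𝓘(ℂ, (Fin r → ℂ) × E) 𝓘(ℂ) ω
        (fun v : (Fin r → ℂ) × E => ΛP.lam j' j v.1 (φ.symm v.2)) (a0, φ x0) := by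
      refine ContMDiffAt.comp (g := fun v : (Fin r → ℂ) × X => ΛP.lam j' j v.1 v.2)
        (f := fun p : (Fin r → ℂ) × E => (p.1, φ.symm p.2)) (a0, φ x0) ?_ hpair
      simp only [hxx]
      exact ΛP.hol j' j a0 x0 ha0 h1.memP h2.memP
    exact h3.contDiffAt.analyticAt
  have a4 : AnalyticAt ℂ (fun v : (Fin r → ℂ) × E => ψ (A.act v.1 (φ.symm v.2))) (a0, φ x0) := by
    have h3 : ContMDiffAt 𝓘(ℂ, (Fin r → ℂ) × E) 𝓘(ℂ, E) ω
        (fun v : (Fin r → ℂ) × E => ψ (A.act v.1 (φ.symm v.2))) (a0, φ x0) := by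
      refine ContMDiffAt.comp (g := ψ)
        (f := fun p : (Fin r → ℂ) × E => A.act p.1 (φ.symm p.2)) (a0, φ x0) ?_ hact
      simp only [hxx]
      exact contMDiffAt_of_mem_maximalAtlas h2.chart h2.mem
    exact h3.contDiffAt.analyticAt
  have a5 := foura_jac (V := Fin r → ℂ) (E := E)
    (G := fun v : (Fin r → ℂ) × E => ψ (A.act v.1 (φ.symm v.2))) a4
  set D : (Fin r → ℂ) × E → ℂ := fun v =>
    (fderiv ℂ (fun w => ψ (A.act v.1 (φ.symm w))) v.2).det with hD
  have hDjac : ∀ v : (Fin r → ℂ) × E, v.2 ∈ φ.target → D v = A.jac ψ φ v.1 (φ.symm v.2) := by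
    intro v hv
    rw [hD]
    unfold TorusAction.jac
    simp only
    rw [φ.right_inv hv]
    rfl
  have n1 := lam_ne_zero ΛL ha0 h1.memL h2.memL
  have n2 := lam_ne_zero ΛP ha0 h1.memP h2.memP
  have n3 : D (a0, φ x0) ≠ 0 := by
    rw [hDjac _ (φ.map_source h1.mem), hxx]
    have e4 := foura_jac_inv (A := A) ha0 h1.chart h2.chart h1.mem h2.mem
    exact fun h0 => by rw [h0, mul_zero] at e4; exact zero_ne_one e4
  refine ⟨fun v => s.f i' j' ψ (A.act v.1 (φ.symm v.2)) /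
    (ΛL.lam i' i v.1 (φ.symm v.2) ^ K * ΛP.lam j' j v.1 (φ.symm v.2) ^ J * D v ^ m), ?_, ?_⟩
  · refine a1.fun_div (((a2.fun_pow K).fun_mul (a3.fun_pow J)).fun_mul (a5.fun_pow m)) ?_
    simp only [hxx]
    exact mul_ne_zero (mul_ne_zero (pow_ne_zero _ n1) (pow_ne_zero _ n2)) (pow_ne_zero _ n3)
  · have c1 : ContinuousAt (fun p : (Fin r → ℂ) × E => A.act p.1 (φ.symm p.2)) (a0, φ x0) :=
      hact.continuousAt
    have c2 : ContinuousAt (fun p : (Fin r → ℂ) × E => φ.symm p.2) (a0, φ x0) :=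
      ContinuousAt.comp (g := φ.symm) (f := fun p : (Fin r → ℂ) × E => p.2)
        (φ.symm.continuousAt (φ.map_source h1.mem)) continuousAt_snd
    have v1 : ∀ᶠ v in 𝓝 (a0, φ x0), At L P i' j' ψ (A.act v.1 (φ.symm v.2)) := by
      refine c1.eventually ?_
      simp only [hxx]
      exact h2.eventually
    have v2 : ∀ᶠ v in 𝓝 (a0, φ x0), A.act v.1 (φ.symm v.2) ∈ U := by
      refine c1.eventually ?_
      simp only [hxx]
      exact hU.mem_nhds hx0
    have v3 : ∀ᶠ v : (Fin r → ℂ) × E in 𝓝 (a0, φ x0), At L P i j φ (φ.symm v.2) := by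
      refine c2.eventually ?_
      simp only [hxx]
      exact h1.eventually
    have v4 : ∀ᶠ v : (Fin r → ℂ) × E in 𝓝 (a0, φ x0), v.2 ∈ φ.target :=
      continuousAt_snd.eventually (φ.open_target.mem_nhds (φ.map_source h1.mem))
    filter_upwards [v1, v2, v3, v4] with v w1 w2 w3 w4 hv
    rw [mv_eq ΛL ΛP s hv w2 w3 w1, hDjac v w4]

/-- The transformation rule of `mv` under a change of frames and of the chart at `x`.
Proof. `s.trans` at `a x` for the charts `pull A ha.inv φ`, `pull A ha.inv ψ`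
(`jac (pull φ) (pull ψ) (a x) = jac φ ψ x`, `PAct2_jac` in TB/PAct2) and `lam_change`. -/
theorem mv_trans (s : Sec2 L P K J m U) {a : Fin r → ℂ} (ha : InT a) {i j φ i' j' ψ x}
    (hax : A.act a x ∈ U) (h1 : At L P i j φ x) (h2 : At L P i' j' ψ x) :
    mv ΛL ΛP s a ha i j φ x =
      L.g i i' x ^ K * P.g j j' x ^ J * jac φ ψ x ^ m * mv ΛL ΛP s a ha i' j' ψ x := by
  have hL := fr_mem L (A.act a x)
  have hP := fr_mem P (A.act a x)
  have h3 : At L P (fr L (A.act a x)) (fr P (A.act a x)) (pull A ha.inv φ) (A.act a x) :=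
    ⟨pull_mem A ha.inv h1.chart, hL, hP, by
      rw [mem_pull_source, act_inv_act A ha]; exact h1.mem⟩
  have h4 : At L P (fr L (A.act a x)) (fr P (A.act a x)) (pull A ha.inv ψ) (A.act a x) :=
    ⟨pull_mem A ha.inv h2.chart, hL, hP, by
      rw [mem_pull_source, act_inv_act A ha]; exact h2.mem⟩
  have e1 := s.trans' hax h3 h4
  rw [L.one _ _ hL, P.one _ _ hP, one_pow, one_pow, one_mul, one_mul, PAct2_jac A ha.inv,
    act_inv_act A ha] at e1
  have e2 := lam_change ΛL ha h2.memL h1.memL hL hL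
  have e3 := lam_change ΛP ha h2.memP h1.memP hP hP
  rw [L.one _ _ hL, one_mul] at e2
  rw [P.one _ _ hP, one_mul] at e3
  have n1 := lam_ne_zero ΛL ha h1.memL hL
  have n2 := lam_ne_zero ΛP ha h1.memP hP
  have n4 := LineBundle.g_ne L h1.memL h2.memL
  have n5 := LineBundle.g_ne P h1.memP h2.memP
  unfold mv
  rw [e1, e2, e3, mul_pow, mul_pow]
  field_simp

/-- The translate `a⁻¹ s` is a section, with the same weights.
Proof. The values are `mv`; holomorphic by `mv_analyticAt` with fixed `a`; rule: `mv_trans`. Weights: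
the torus is commutative: `b (a⁻¹ s) (x) = a⁻¹ (b s)(x)`; in coordinates the cocycle rule of `ΛL`, `ΛP`
and of the jacobians for `a b = b a` and the weight rule for `s` at `a x`. -/
theorem exists_translate (hU : IsOpen U) (hinv : ∀ a, InT a → ∀ x ∈ U, A.act a x ∈ U)
    (s : Sec2 L P K J m U) {a : Fin r → ℂ} (ha : InT a) : ∃ s' : Sec2 L P K J m U,
      (∀ i j φ x, x ∈ U → At L P i j φ x → s'.f i j φ x = mv ΛL ΛP s a ha i j φ x) ∧
      (∀ x ∈ U, s'.NZ x ↔ s.NZ (A.act a x)) ∧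
      ∀ (S : Finset (Fin r)) (χ : Fin r → ℤ), OfWt ΛL ΛP S χ s → OfWt ΛL ΛP S χ s' := by
  refine ⟨⟨fun i j φ x => mv ΛL ΛP s a ha i j φ x, ?_, ?_⟩, fun _ _ _ _ _ _ => rfl, ?_, ?_⟩
  · intro i j φ hφ x hx hi hj h
    have h1 : At L P i j φ x := ⟨hφ, hi, hj, h⟩
    obtain ⟨F, hF, hev⟩ := mv_analyticAt ΛL ΛP hU s ha (hinv a ha x hx) h1
    have h2 : ContMDiffAt 𝓘(ℂ, E) 𝓘(ℂ, (Fin r → ℂ) × E) ω (fun y : X => (a, φ y)) x := by
      have h3 : ContMDiffAt 𝓘(ℂ, E) 𝓘(ℂ, E) ω φ x := contMDiffAt_of_mem_maximalAtlas hφ h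
      have h4 : ContMDiffAt 𝓘(ℂ, E) 𝓘(ℂ, (Fin r → ℂ) × E) ω (fun w : E => (a, w)) (φ x) :=
        (contDiff_const.prodMk contDiff_id).contMDiff.contMDiffAt
      exact ContMDiffAt.comp (g := fun w : E => (a, w)) (f := φ) x h4 h3
    have h5 : ContMDiffAt 𝓘(ℂ, (Fin r → ℂ) × E) 𝓘(ℂ) ω F (a, φ x) := hF.contDiffAt.contMDiffAt
    have h6 : HolAt E (fun y : X => F (a, φ y)) x :=
      ContMDiffAt.comp (g := F) (f := fun y : X => (a, φ y)) x h5 h2
    refine h6.congr_of_eventuallyEq ?_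
    filter_upwards [h2.continuousAt.eventually hev, φ.open_source.mem_nhds h] with y hy hy'
    have h7 := hy ha
    simp only [φ.left_inv hy'] at h7
    exact h7.symm
  · intro i j i' j' φ hφ ψ hψ x hx h1 h2 h3 h4 h5 h6
    exact mv_trans ΛL ΛP s ha (hinv a ha x hx) ⟨hφ, h1, h2, h5⟩ ⟨hψ, h3, h4, h6⟩
  · intro x hx
    obtain ⟨i, j, h1⟩ := exists_at L P x
    have hax := hinv a ha x hx
    have hL := fr_mem L (A.act a x)
    have hP := fr_mem P (A.act a x)
    have h3 : At L P (fr L (A.act a x)) (fr P (A.act a x)) (pull A ha.inv (chartAt E x))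
        (A.act a x) :=
      ⟨pull_mem A ha.inv h1.chart, hL, hP, by
        rw [mem_pull_source, act_inv_act A ha]; exact h1.mem⟩
    rw [Sec2.nz_iff _ hx h1, s.nz_iff hax h3]
    have n1 := lam_ne_zero ΛL ha h1.memL hL
    have n2 := lam_ne_zero ΛP ha h1.memP hP
    show mv ΛL ΛP s a ha i j (chartAt E x) x ≠ 0 ↔ _
    unfold mv
    rw [Ne, div_eq_zero_iff, not_or]
    constructor
    · intro h
      exact h.1
    · intro h
      exact ⟨h, mul_ne_zero (pow_ne_zero _ n1) (pow_ne_zero _ n2)⟩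
  · intro S χ hs b hb i j i' j' φ hφ ψ hψ x hx hbx h1 h2 h3 h4 h5 h6
    have hb0 : InT b := hb.1
    have hax : A.act a x ∈ U := hinv a ha x hx
    have hz1 : A.act a (A.act b x) = A.act b (A.act a x) := by
      rw [← A.mul a b ha hb0, mul_comm, A.mul b a hb0 ha]
    have hbax : A.act b (A.act a x) ∈ U := hinv b hb0 _ hax
    have habx : A.act a (A.act b x) ∈ U := hinv a ha _ hbx
    obtain ⟨l, p, g1⟩ := exists_at L P (A.act b (A.act a x))
    obtain ⟨l', p', g2⟩ := exists_at L P (A.act a x)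
    set κ : OpenPartialHomeomorph X E := chartAt E (A.act b (A.act a x))
    set κ' : OpenPartialHomeomorph X E := chartAt E (A.act a x)
    have f1 : At L P i j φ (A.act b x) := ⟨hφ, h1, h2, h5⟩
    have f2 : At L P i' j' ψ x := ⟨hψ, h3, h4, h6⟩
    have g1' : At L P l p κ (A.act a (A.act b x)) := by rw [hz1]; exact g1
    have m1 := mv_eq ΛL ΛP s ha habx f1 g1'
    have m2 := mv_eq ΛL ΛP s ha hax f2 g2
    have w1 := hs.rule hb hax hbax g1 g2
    have hab : A.act (a * b) x = A.act a (A.act b x) := A.mul a b ha hb0 x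
    have hba : A.act (b * a) x = A.act b (A.act a x) := A.mul b a hb0 ha x
    have c1 : ΛL.lam l l' b (A.act a x) * ΛL.lam l' i' a x =
        ΛL.lam l i a (A.act b x) * ΛL.lam i i' b x := by
      rw [ΛL.mul l l' i' b a x hb0 ha f2.memL g2.memL (by rw [hba]; exact g1.memL),
        ΛL.mul l i i' a b x ha hb0 f2.memL f1.memL (by rw [hab]; exact g1'.memL), mul_comm a b]
    have c2 : ΛP.lam p p' b (A.act a x) * ΛP.lam p' j' a x =
        ΛP.lam p j a (A.act b x) * ΛP.lam j j' b x := by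
      rw [ΛP.mul p p' j' b a x hb0 ha f2.memP g2.memP (by rw [hba]; exact g1.memP),
        ΛP.mul p j j' a b x ha hb0 f2.memP f1.memP (by rw [hab]; exact g1'.memP), mul_comm a b]
    have c3 : A.jac κ κ' b (A.act a x) * A.jac κ' ψ a x =
        A.jac κ φ a (A.act b x) * A.jac φ ψ b x := by
      rw [← foura_jac_act_mul hb0 ha g2.chart f2.chart g1.chart (by rw [hba]; exact g1.mem)
        g2.mem f2.mem, ← foura_jac_act_mul ha hb0 f1.chart f2.chart g1.chart
        (by rw [hab]; exact g1'.mem) f1.mem f2.mem, mul_comm a b]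
    have n1 := lam_ne_zero ΛL ha f1.memL g1'.memL
    have n2 := lam_ne_zero ΛP ha f1.memP g1'.memP
    have n3 : A.jac κ φ a (A.act b x) ≠ 0 := by
      have e4 := foura_jac_inv (A := A) ha f1.chart g1'.chart f1.mem g1'.mem
      exact fun h0 => by rw [h0, mul_zero] at e4; exact zero_ne_one e4
    have n4 := lam_ne_zero ΛL ha f2.memL g2.memL
    have n5 := lam_ne_zero ΛP ha f2.memP g2.memP
    have n6 : A.jac κ' ψ a x ≠ 0 := by
      have e4 := foura_jac_inv (A := A) ha f2.chart g2.chart f2.mem g2.mem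
      exact fun h0 => by rw [h0, mul_zero] at e4; exact zero_ne_one e4
    show chr χ b * mv ΛL ΛP s a ha i j φ (A.act b x) =
      ΛL.lam i i' b x ^ K * ΛP.lam j j' b x ^ J * A.jac φ ψ b x ^ m *
        mv ΛL ΛP s a ha i' j' ψ x
    rw [m1, m2, hz1]
    have q1 : (ΛL.lam l l' b (A.act a x) ^ K * ΛP.lam p p' b (A.act a x) ^ J *
        A.jac κ κ' b (A.act a x) ^ m) *
        (ΛL.lam l' i' a x ^ K * ΛP.lam p' j' a x ^ J * A.jac κ' ψ a x ^ m) =
        (ΛL.lam l i a (A.act b x) ^ K * ΛP.lam p j a (A.act b x) ^ J *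
          A.jac κ φ a (A.act b x) ^ m) *
        (ΛL.lam i i' b x ^ K * ΛP.lam j j' b x ^ J * A.jac φ ψ b x ^ m) := by
      calc _ = (ΛL.lam l l' b (A.act a x) * ΛL.lam l' i' a x) ^ K *
            (ΛP.lam p p' b (A.act a x) * ΛP.lam p' j' a x) ^ J *
            (A.jac κ κ' b (A.act a x) * A.jac κ' ψ a x) ^ m := by ring
        _ = _ := by rw [c1, c2, c3]; ring
    have u1 : ΛL.lam l i a (A.act b x) ^ K * ΛP.lam p j a (A.act b x) ^ J *
          A.jac κ φ a (A.act b x) ^ m ≠ 0 :=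
      mul_ne_zero (mul_ne_zero (pow_ne_zero _ n1) (pow_ne_zero _ n2)) (pow_ne_zero _ n3)
    have u3 : ΛL.lam l' i' a x ^ K * ΛP.lam p' j' a x ^ J * A.jac κ' ψ a x ^ m ≠ 0 :=
      mul_ne_zero (mul_ne_zero (pow_ne_zero _ n4) (pow_ne_zero _ n5)) (pow_ne_zero _ n6)
    rw [← mul_div_assoc, w1, ← mul_div_assoc, div_eq_div_iff u1 u3]
    linear_combination s.f l' p' κ' (A.act a x) * q1

end Pool.Agent.Abd
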