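import Pool.Agent.H.MP_e23cd6_ag.GT.FourA

/-! Fourier components of sections. -/

set_option autoImplicit false

open scoped Manifold ContDiff Topology ENNReal
open MeasureTheory Set Filter

namespace Pool.Agent.Abd

variable {E : Type} [NormedAddCommGroup E] [NormedSpace ℂ E] [FiniteDimensional ℂ E] {r : ℕ}
  {X : Type} [TopologicalSpace X] [ChartedSpace E X] [IsManifold 𝓘(ℂ, E) ω X]
  {A : TorusAction E r X} {L P : LineBundle E X} {K J m k : ℕ} {U : Set X}
  (ΛL : Linearization A L) (ΛP : Linearization A P)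

/-- The value at `x` (in the frames `i`, `j` and the chart `φ`) of the component of weight `ν` with
respect to `T_{i₀}`: `(2π)⁻¹ ∫ e^(iνθ) ((e^(iθ))⁻¹ s)(x) dθ`. -/
noncomputable def fco (s : Sec2 L P K J m U) (i₀ : Fin r) (ν : ℤ) (i : L.ι) (j : P.ι)
    (φ : OpenPartialHomeomorph X E) (x : X) : ℂ :=
  (2 * Real.pi : ℂ)⁻¹ * ∫ θ in (0 : ℝ)..(2 * Real.pi),
    Complex.exp (Complex.I * θ) ^ ν *
      mv ΛL ΛP s (el i₀ (Complex.exp (Complex.I * θ))) (el_inT i₀ (Complex.exp_ne_zero _)) i j φ x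

/-- The integrand, in the coordinates of the point. -/
noncomputable def fourb_mm (s : Sec2 L P K J m U) (i₀ : Fin r) (ν : ℤ) (i : L.ι) (j : P.ι)
    (φ : OpenPartialHomeomorph X E) (w : E) (θ : ℝ) : ℂ :=
  Complex.exp (Complex.I * θ) ^ ν *
      mv ΛL ΛP s (el i₀ (Complex.exp (Complex.I * θ))) (el_inT i₀ (Complex.exp_ne_zero _)) i j φ
        (φ.symm w)

theorem fourb_el_cont (i₀ : Fin r) :
    Continuous (fun θ : ℝ => el i₀ (Complex.exp (Complex.I * θ))) := by
  unfold el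
  apply continuous_const.update
  fun_prop

theorem fourb_zpow_cont (ν : ℤ) : Continuous (fun θ : ℝ => Complex.exp (Complex.I * θ) ^ ν) := by
  apply Continuous.zpow₀
  · fun_prop
  · intro θ
    exact Or.inl (Complex.exp_ne_zero _)

theorem fourb_near (hU : IsOpen U) (hinv : ∀ a, InT a → ∀ x ∈ U, A.act a x ∈ U)
    (s : Sec2 L P K J m U) (i₀ : Fin r) (ν : ℤ) {i : L.ι} {j : P.ι}
    {φ : OpenPartialHomeomorph X E} {x0 : X} (hx0 : x0 ∈ U) (h1 : At L P i j φ x0) (θ0 : ℝ) :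
    ∀ᶠ z : E × ℝ in 𝓝 (φ x0, θ0),
      ContinuousAt (fun q : E × ℝ => fourb_mm ΛL ΛP s i₀ ν i j φ q.1 q.2) (z.1, z.2) ∧
      DifferentiableAt ℂ (fun w => fourb_mm ΛL ΛP s i₀ ν i j φ w z.2) z.1 := by
  have ha0 : InT (el i₀ (Complex.exp (Complex.I * θ0))) := el_inT i₀ (Complex.exp_ne_zero _)
  obtain ⟨F, hF, hFe⟩ := mv_analyticAt ΛL ΛP hU s ha0 (hinv _ ha0 x0 hx0) h1
  have hc : Continuous (fun q : E × ℝ => ((el i₀ (Complex.exp (Complex.I * q.2)) : Fin r → ℂ),
      q.1)) :=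
    ((fourb_el_cont i₀).comp continuous_snd).prodMk continuous_fst
  have hct : Tendsto (fun q : E × ℝ => ((el i₀ (Complex.exp (Complex.I * q.2)) : Fin r → ℂ), q.1))
      (𝓝 (φ x0, θ0)) (𝓝 (el i₀ (Complex.exp (Complex.I * θ0)), φ x0)) := hc.tendsto (φ x0, θ0)
  filter_upwards [hct.eventually hF.eventually_analyticAt,
    hct.eventually hFe.eventually_nhds] with z hz1 hz2
  constructor
  · have e : (fun q : E × ℝ => fourb_mm ΛL ΛP s i₀ ν i j φ q.1 q.2) =ᶠ[𝓝 (z.1, z.2)]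
        fun q : E × ℝ => Complex.exp (Complex.I * q.2) ^ ν *
          F (el i₀ (Complex.exp (Complex.I * q.2)), q.1) := by
      filter_upwards [(hc.tendsto (z.1, z.2)).eventually hz2] with q hq
      rw [hq (el_inT i₀ (Complex.exp_ne_zero _)), fourb_mm]
    refine ContinuousAt.congr ?_ e.symm
    apply ContinuousAt.mul
    · exact ((fourb_zpow_cont ν).comp continuous_snd).continuousAt
    · exact ContinuousAt.comp (f := fun q : E × ℝ =>
        ((el i₀ (Complex.exp (Complex.I * q.2)) : Fin r → ℂ), q.1)) (x := (z.1, z.2))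
        hz1.continuousAt hc.continuousAt
  · have hc2 : Continuous (fun w : E =>
        ((el i₀ (Complex.exp (Complex.I * z.2)) : Fin r → ℂ), w)) := by fun_prop
    have e : (fun w : E => fourb_mm ΛL ΛP s i₀ ν i j φ w z.2) =ᶠ[𝓝 z.1]
        fun w : E => Complex.exp (Complex.I * z.2) ^ ν *
          F (el i₀ (Complex.exp (Complex.I * z.2)), w) := by
      filter_upwards [(hc2.tendsto z.1).eventually hz2] with q hq
      rw [hq (el_inT i₀ (Complex.exp_ne_zero _)), fourb_mm]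
    refine DifferentiableAt.congr_of_eventuallyEq ?_ e
    apply DifferentiableAt.const_mul
    exact DifferentiableAt.comp z.1 (g := F)
      (f := fun w : E => ((el i₀ (Complex.exp (Complex.I * z.2)) : Fin r → ℂ), w))
      hz1.differentiableAt ((differentiableAt_const _).prodMk differentiableAt_id)

theorem fourb_analytic (hU : IsOpen U) (hinv : ∀ a, InT a → ∀ x ∈ U, A.act a x ∈ U)
    (s : Sec2 L P K J m U) (i₀ : Fin r) (ν : ℤ) {i : L.ι} {j : P.ι}
    {φ : OpenPartialHomeomorph X E} {x0 : X} (hx0 : x0 ∈ U) (h1 : At L P i j φ x0) :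
    AnalyticAt ℂ (fun w => fco ΛL ΛP s i₀ ν i j φ (φ.symm w)) (φ x0) := by
  have hK : IsCompact (uIcc (0 : ℝ) (2 * Real.pi)) := isCompact_uIcc
  have h2 := hK.eventually_forall_of_forall_eventually (x₀ := φ x0)
    (P := fun w θ => ContinuousAt (fun q : E × ℝ => fourb_mm ΛL ΛP s i₀ ν i j φ q.1 q.2) (w, θ) ∧
      DifferentiableAt ℂ (fun w => fourb_mm ΛL ΛP s i₀ ν i j φ w θ) w)
    (fun θ _ => fourb_near ΛL ΛP hU hinv s i₀ ν hx0 h1 θ)
  obtain ⟨V, hV1, hV2, hV3⟩ := eventually_nhds_iff.1 h2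
  have h3 : DifferentiableOn ℂ (fun w => ∫ θ in (0 : ℝ)..(2 * Real.pi),
      fourb_mm ΛL ΛP s i₀ ν i j φ w θ) V := by
    apply OkaP.differentiableOn_integral hV2
    · rintro ⟨w, θ⟩ ⟨hw, hθ⟩
      exact (hV1 w hw θ hθ).1.continuousWithinAt
    · intro θ hθ w hw
      exact (hV1 w hw θ hθ).2.differentiableWithinAt
  have h4 : AnalyticAt ℂ (fun w => ∫ θ in (0 : ℝ)..(2 * Real.pi),
      fourb_mm ΛL ΛP s i₀ ν i j φ w θ) (φ x0) := by
    apply analyticAt_of_diff
    filter_upwards [hV2.mem_nhds hV3] with w hw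
    exact (h3 w hw).differentiableAt (hV2.mem_nhds hw)
  exact analyticAt_const.mul h4

/-- The component is a section.
Proof. Holomorphic in `x`: by `mv_analyticAt` the integrand is jointly continuous in `(θ, x)` and
holomorphic in `x` near each `x0` uniformly for `θ ∈ [0, 2π]` (compactness);
`OkaP.differentiableOn_integral` (MP_ceb9a9/Scv4) and `analyticAt_of_diff` give analyticity in the
coordinate `φ`, hence `HolAt`. Transformation: `mv_trans` under the integral. -/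
theorem exists_fco (hU : IsOpen U) (hinv : ∀ a, InT a → ∀ x ∈ U, A.act a x ∈ U)
    (s : Sec2 L P K J m U) (i₀ : Fin r) (ν : ℤ) : ∃ sν : Sec2 L P K J m U,
      ∀ i j φ x, x ∈ U → At L P i j φ x → sν.f i j φ x = fco ΛL ΛP s i₀ ν i j φ x := by
  refine ⟨{ f := fun i j φ x => fco ΛL ΛP s i₀ ν i j φ x
            hol := ?_
            trans := ?_ }, fun _ _ _ _ _ _ => rfl⟩
  · intro i j φ hφ x hx hi hj hxs
    have h1 := fourb_analytic ΛL ΛP hU hinv s i₀ ν hx (⟨hφ, hi, hj, hxs⟩ : At L P i j φ x)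
    have h2 : ContMDiffAt 𝓘(ℂ, E) 𝓘(ℂ) ω (fun w => fco ΛL ΛP s i₀ ν i j φ (φ.symm w)) (φ x) :=
      h1.contDiffAt.contMDiffAt
    have h3 : ContMDiffAt 𝓘(ℂ, E) 𝓘(ℂ, E) ω φ x := contMDiffAt_of_mem_maximalAtlas hφ hxs
    have h4 := ContMDiffAt.comp x h2 h3
    refine ContMDiffAt.congr_of_eventuallyEq h4 ?_
    filter_upwards [φ.open_source.mem_nhds hxs] with y hy
    show fco ΛL ΛP s i₀ ν i j φ y = fco ΛL ΛP s i₀ ν i j φ (φ.symm (φ y))
    rw [φ.left_inv hy]
  · intro i j i' j' φ hφ ψ hψ x hx hi hj hi' hj' hxs hxs'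
    have e : ∀ θ : ℝ, Complex.exp (Complex.I * θ) ^ ν *
        mv ΛL ΛP s (el i₀ (Complex.exp (Complex.I * θ))) (el_inT i₀ (Complex.exp_ne_zero _))
          i j φ x = (L.g i i' x ^ K * P.g j j' x ^ J * jac φ ψ x ^ m) *
        (Complex.exp (Complex.I * θ) ^ ν *
        mv ΛL ΛP s (el i₀ (Complex.exp (Complex.I * θ))) (el_inT i₀ (Complex.exp_ne_zero _))
          i' j' ψ x) := by
      intro θ
      have hT : InT (el i₀ (Complex.exp (Complex.I * θ))) := el_inT i₀ (Complex.exp_ne_zero _)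
      rw [mv_trans ΛL ΛP s hT (hinv _ hT x hx) (⟨hφ, hi, hj, hxs⟩ : At L P i j φ x)
        (⟨hψ, hi', hj', hxs'⟩ : At L P i' j' ψ x)]
      ring
    show fco ΛL ΛP s i₀ ν i j φ x = L.g i i' x ^ K * P.g j j' x ^ J * jac φ ψ x ^ m *
      fco ΛL ΛP s i₀ ν i' j' ψ x
    unfold fco
    simp_rw [e]
    rw [intervalIntegral.integral_const_mul]
    ring

end Pool.Agent.Abd
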