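import Pool.Agent.H.MP_e23cd6_ag.GT.FourB

/-! Fourier components of sections: weights, the sum. -/

set_option autoImplicit false

open scoped Manifold ContDiff Topology ENNReal
open MeasureTheory Set Filter

namespace Pool.Agent.Abd

variable {E : Type} [NormedAddCommGroup E] [NormedSpace ℂ E] [FiniteDimensional ℂ E] {r : ℕ}
  {X : Type} [TopologicalSpace X] [ChartedSpace E X] [IsManifold 𝓘(ℂ, E) ω X]
  {A : TorusAction E r X} {L P : LineBundle E X} {K J m k : ℕ} {U : Set X}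
  (ΛL : Linearization A L) (ΛP : Linearization A P)

/-- Independence of the circle, for a function holomorphic outside the origin. -/
theorem fourc_circle {g : ℂ → ℂ} (hg : ∀ z, z ≠ 0 → DifferentiableAt ℂ g z) {c : ℂ} (hc : c ≠ 0) :
    ∫ θ in (0 : ℝ)..(2 * Real.pi), g (c * Complex.exp (Complex.I * θ)) =
      ∫ θ in (0 : ℝ)..(2 * Real.pi), g (Complex.exp (Complex.I * θ)) := by
  have hgc : ∀ z, z ≠ 0 → ContinuousAt g z := fun z hz => (hg z hz).continuousAt
  -- the circle integrals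
  have hR : ∀ R : ℝ, 0 < R → (∮ z in C(0, R), (z - 0)⁻¹ • g z) =
      Complex.I * ∫ θ in (0 : ℝ)..(2 * Real.pi), g (R * Complex.exp (Complex.I * θ)) := by
    intro R hR0
    unfold circleIntegral
    rw [← intervalIntegral.integral_const_mul]
    refine intervalIntegral.integral_congr fun θ _ => ?_
    simp only [deriv_circleMap, sub_zero, smul_eq_mul]
    have h1 : circleMap 0 R θ ≠ 0 := by
      simp [circleMap, hR0.ne']
    have h2 : circleMap 0 R θ = R * Complex.exp (Complex.I * θ) := by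
      simp [circleMap, mul_comm]
    rw [← h2]
    field_simp
  have hann : ∀ r R : ℝ, 0 < r → r ≤ R → (∮ z in C(0, R), (z - 0)⁻¹ • g z) =
      ∮ z in C(0, r), (z - 0)⁻¹ • g z := by
    intro r R hr hrR
    refine Complex.circleIntegral_sub_center_inv_smul_eq_of_differentiable_on_annulus_off_countable
      hr hrR Set.countable_empty ?_ ?_
    · intro z hz
      refine (hgc z ?_).continuousWithinAt
      rintro rfl
      exact hz.2 (by simpa using hr)
    · intro z hz
      refine hg z ?_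
      rintro rfl
      exact hz.1.2 (by simpa using hr.le)
  have hall : ∀ R : ℝ, 0 < R → (∮ z in C(0, R), (z - 0)⁻¹ • g z) =
      ∮ z in C(0, 1), (z - 0)⁻¹ • g z := by
    intro R hR0
    rcases le_total R 1 with h | h
    · exact (hann R 1 hR0 h).symm
    · exact hann 1 R one_pos h
  -- rotation
  set R : ℝ := ‖c‖ with hRdef
  set α : ℝ := Complex.arg c with hα
  have hR0 : 0 < R := norm_pos_iff.2 hc
  have hcR : c = R * Complex.exp (α * Complex.I) := (Complex.norm_mul_exp_arg_mul_I c).symm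
  have hper : Function.Periodic (fun θ : ℝ => g (R * Complex.exp (Complex.I * θ)))
      (2 * Real.pi) := by
    intro θ
    have : Complex.exp (Complex.I * ((θ + 2 * Real.pi : ℝ) : ℂ)) =
        Complex.exp (Complex.I * θ) := by
      rw [Complex.exp_eq_exp_iff_exists_int]
      exact ⟨1, by push_cast; ring⟩
    simp only [this]
  have hrot : ∫ θ in (0 : ℝ)..(2 * Real.pi), g (c * Complex.exp (Complex.I * θ)) =
      ∫ θ in (0 : ℝ)..(2 * Real.pi), g (R * Complex.exp (Complex.I * θ)) := by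
    have h1 : ∀ θ : ℝ, c * Complex.exp (Complex.I * θ) =
        R * Complex.exp (Complex.I * ((θ + α : ℝ) : ℂ)) := by
      intro θ
      rw [hcR, mul_assoc, ← Complex.exp_add]
      congr 2
      push_cast
      ring
    simp only [h1]
    rw [intervalIntegral.integral_comp_add_right
      (fun θ : ℝ => g (R * Complex.exp (Complex.I * θ))) α]
    have h2 := hper.intervalIntegral_add_eq α 0
    rw [zero_add, add_comm α] at h2
    rw [zero_add]
    exact h2
  rw [hrot]
  have h3 := hall R hR0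
  rw [hR R hR0, hR 1 one_pos] at h3
  have h4 := mul_left_cancel₀ Complex.I_ne_zero h3
  rw [h4]
  simp

/-- The frames at `a x` used in `mv`. -/
theorem fourc_at {a : Fin r → ℂ} (ha : InT a) {i j φ x} (h1 : At L P i j φ x) :
    At L P (fr L (A.act a x)) (fr P (A.act a x)) (pull A ha.inv φ) (A.act a x) :=
  ⟨pull_mem A ha.inv h1.chart, fr_mem L _, fr_mem P _,
    (mem_pull_source A ha.inv φ _).2 (by rw [act_inv_act A ha]; exact h1.mem)⟩

/-- The composition rule for two arbitrary torus elements. -/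
theorem fourc_comp (hinv : ∀ a, InT a → ∀ x ∈ U, A.act a x ∈ U) (s : Sec2 L P K J m U)
    {a b : Fin r → ℂ} (ha : InT a) (hb : InT b) {i j φ i' j' ψ x} (hx : x ∈ U)
    (h1 : At L P i j φ (A.act a x)) (h2 : At L P i' j' ψ x) :
    mv ΛL ΛP s b hb i j φ (A.act a x) =
      ΛL.lam i i' a x ^ K * ΛP.lam j j' a x ^ J * A.jac φ ψ a x ^ m *
        mv ΛL ΛP s (b * a) (hb.mul ha) i' j' ψ x := by
  have e1 : A.act (b * a) x = A.act b (A.act a x) := A.mul b a hb ha x
  have hU1 : A.act b (A.act a x) ∈ U := hinv b hb _ (hinv a ha x hx)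
  have A1 := fourc_at (A := A) hb h1
  have A2 := fourc_at (A := A) (hb.mul ha) h2
  unfold mv
  rw [e1] at A2 ⊢
  rw [s.trans' hU1 A1 A2, L.one _ _ (fr_mem L _), P.one _ _ (fr_mem P _), one_pow, one_pow,
    one_mul, one_mul]
  have e2 : jac (pull A hb.inv φ) (pull A (hb.mul ha).inv ψ) (A.act b (A.act a x)) =
      A.jac φ ψ a x := by
    have h3 : (pull A hb.inv φ : X → E) ∘ (pull A (hb.mul ha).inv ψ).symm =
        φ ∘ A.act a ∘ ψ.symm := by
      funext w
      change φ (A.act b⁻¹ (A.act (b * a)⁻¹⁻¹ (ψ.symm w))) = φ (A.act a (ψ.symm w))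
      rw [inv_inv, A.mul b a hb ha, act_inv_act A hb]
    have h4 : pull A (hb.mul ha).inv ψ (A.act b (A.act a x)) = ψ x := by
      rw [pull_apply, ← e1, act_inv_act A (hb.mul ha)]
    unfold jac TorusAction.jac
    rw [h3, h4]
  have e3 := ΛL.mul (fr L (A.act b (A.act a x))) i i' b a x hb ha h2.memL h1.memL
    (by rw [e1]; exact fr_mem L _)
  have e4 := ΛP.mul (fr P (A.act b (A.act a x))) j j' b a x hb ha h2.memP h1.memP
    (by rw [e1]; exact fr_mem P _)
  have n1 := lam_ne_zero ΛL ha h2.memL h1.memL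
  have n2 := lam_ne_zero ΛP ha h2.memP h1.memP
  rw [e2, ← e3, ← e4]
  have n3 := lam_ne_zero ΛL hb h1.memL (fr_mem L _)
  have n4 := lam_ne_zero ΛP hb h1.memP (fr_mem P _)
  field_simp
  ring

/-- `mv` for the unit element. -/
theorem fourc_one (s : Sec2 L P K J m U) (h1T : InT (1 : Fin r → ℂ)) {i j φ x} (hx : x ∈ U)
    (h1 : At L P i j φ x) : mv ΛL ΛP s 1 h1T i j φ x = s.f i j φ x := by
  have A1 := fourc_at (A := A) h1T h1
  unfold mv
  rw [A.one x] at A1 ⊢
  rw [s.trans' hx A1 h1, ΛL.one _ _ x (fr_mem L x) h1.memL, ΛP.one _ _ x (fr_mem P x) h1.memP]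
  have e1 : jac (pull A h1T.inv φ) φ x = 1 := by
    have h3 : (pull A h1T.inv φ : X → E) ∘ φ.symm = φ ∘ φ.symm := by
      funext w
      change φ (A.act 1⁻¹ (φ.symm w)) = φ (φ.symm w)
      rw [inv_one, A.one]
    unfold jac
    rw [h3]
    have h4 : φ ∘ φ.symm =ᶠ[𝓝 (φ x)] id := by
      filter_upwards [φ.open_target.mem_nhds (φ.map_source h1.mem)] with v hv
      exact φ.right_inv hv
    rw [h4.fderiv_eq, fderiv_id]
    exact LinearMap.det_id
  have n1 : L.g (fr L x) i x ≠ 0 := L.g_ne (fr_mem L x) h1.memL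
  have n2 : P.g (fr P x) j x ≠ 0 := P.g_ne (fr_mem P x) h1.memP
  rw [e1, one_pow, mul_one]
  field_simp

/-- `mv` on the one-parameter group `T_{i₀}`. -/
noncomputable def fourc_G (s : Sec2 L P K J m U) (i₀ : Fin r) (i : L.ι) (j : P.ι)
    (φ : OpenPartialHomeomorph X E) (x : X) (z : ℂ) : ℂ :=
  open Classical in if hz : z ≠ 0 then mv ΛL ΛP s (el i₀ z) (el_inT i₀ hz) i j φ x else 0

theorem fourc_G_eq (s : Sec2 L P K J m U) (i₀ : Fin r) (i : L.ι) (j : P.ι)
    (φ : OpenPartialHomeomorph X E) (x : X) {z : ℂ} (hz : z ≠ 0) :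
    fourc_G ΛL ΛP s i₀ i j φ x z = mv ΛL ΛP s (el i₀ z) (el_inT i₀ hz) i j φ x := by
  unfold fourc_G
  rw [dif_pos hz]

theorem fourc_G_analytic (hU : IsOpen U) (hinv : ∀ a, InT a → ∀ x ∈ U, A.act a x ∈ U)
    (s : Sec2 L P K J m U) (i₀ : Fin r) {i j φ x} (hx : x ∈ U) (h1 : At L P i j φ x) {z : ℂ}
    (hz : z ≠ 0) : AnalyticAt ℂ (fourc_G ΛL ΛP s i₀ i j φ x) z := by
  obtain ⟨F, hF, hev⟩ := mv_analyticAt ΛL ΛP hU s (el_inT i₀ hz)
    (hinv _ (el_inT i₀ hz) x hx) h1
  have hel : AnalyticAt ℂ (fun w : ℂ => el (r := r) i₀ w) z := by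
    rw [analyticAt_pi_iff (f := fun c w => el (r := r) i₀ w c)]
    intro c
    by_cases hc : c = i₀
    · subst hc
      have : (fun w : ℂ => el (r := r) c w c) = fun w => w := by funext w; simp [el]
      rw [this]
      exact analyticAt_id
    · have : (fun w : ℂ => el (r := r) i₀ w c) = fun _ => 1 := by
        funext w; simp [el, Function.update_of_ne hc]
      rw [this]
      exact analyticAt_const
  have hpair : AnalyticAt ℂ (fun w : ℂ => (el (r := r) i₀ w, φ x)) z :=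
    hel.prod analyticAt_const
  have hcomp : AnalyticAt ℂ (fun w : ℂ => F (el (r := r) i₀ w, φ x)) z :=
    AnalyticAt.fun_comp (g := F) (f := fun w : ℂ => (el (r := r) i₀ w, φ x)) hF hpair
  refine hcomp.congr ?_
  have ht := hpair.continuousAt.eventually hev
  filter_upwards [ht, isOpen_ne.mem_nhds hz] with w hw hw0
  rw [hw (el_inT i₀ hw0), fourc_G_eq ΛL ΛP s i₀ i j φ x hw0]
  simp only [φ.left_inv h1.mem]

theorem fourc_fco (s : Sec2 L P K J m U) (i₀ : Fin r) (ν : ℤ) (i : L.ι) (j : P.ι)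
    (φ : OpenPartialHomeomorph X E) (x : X) : fco ΛL ΛP s i₀ ν i j φ x =
      (2 * Real.pi : ℂ)⁻¹ * ∫ θ in (0 : ℝ)..(2 * Real.pi),
        Complex.exp (Complex.I * θ) ^ ν *
          fourc_G ΛL ΛP s i₀ i j φ x (Complex.exp (Complex.I * θ)) := by
  unfold fco
  congr 1
  refine intervalIntegral.integral_congr fun θ _ => ?_
  rw [fourc_G_eq ΛL ΛP s i₀ i j φ x (Complex.exp_ne_zero _)]

/-- The weight of the component.

Proof. (1) `T_{i₀}`: fix `x ∈ U` and frames at `x`; `G(b) = mv s (el i₀ b) x` is a holomorphic function of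
`b ∈ ℂ^*` (`mv_analyticAt`), and `sν(x)` is its coefficient `(2π)⁻¹ ∫ e^(iνθ) G(e^(iθ)) dθ`. For
`a = el i₀ c`, `c ≠ 0`: `a⁻¹ sν` at `x`, i.e. `mv sν a x`, equals `(2π)⁻¹ ∫ e^(iνθ) G(c e^(iθ)) dθ` (composition
rule `mv (…)`: `a⁻¹ (b⁻¹ s) = (a b)⁻¹ s`, in coordinates by the cocycle rules), and
`∮ b^ν G(c b) db/b = c^(-ν) ∮_{|b| = |c|} b^ν G(b) db/b = c^(-ν) ∮_{|b| = 1} b^ν G(b) db/b` (the integral of the
function `b^(ν-1) G(b)`, holomorphic on `ℂ^*`, over concentric circles does not depend on the radius: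
`Complex.circleIntegral_eq_of_differentiable_on_annulus_off_countable`-type lemma; rotation by `c/|c|` by
periodicity). So `mv sν a x = c^(-ν) sν(x)`, which is the weight rule (solve for `sν (a x)`).
(2) `T_S`: for `a ∈ T_S`: `exists_translate`-type commutation: `mv sν a x = (2π)⁻¹ ∫ e^(iνθ) (mv (b⁻¹ s) a)(x) =
χ(a)⁻¹ sν(x)` (`mv_mul`). (3) An element of `T_{S + i₀}` is the product of an element of `T_S` and one of
`T_{i₀}`; `i₀ ∉ S`. -/
theorem exists_fourier_wt (hU : IsOpen U) (hinv : ∀ a, InT a → ∀ x ∈ U, A.act a x ∈ U)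
    {S : Finset (Fin r)} {i₀ : Fin r} (hi₀ : i₀ ∉ S) {χ : Fin r → ℤ} (s : Sec2 L P K J m U)
    (hs : OfWt ΛL ΛP S χ s) (ν : ℤ) : ∃ sν : Sec2 L P K J m U,
      OfWt ΛL ΛP (insert i₀ S) (Function.update χ i₀ ν) sν ∧
      ∀ i j φ x, x ∈ U → At L P i j φ x → sν.f i j φ x = fco ΛL ΛP s i₀ ν i j φ x := by
  obtain ⟨sν, hsν⟩ := exists_fco ΛL ΛP hU hinv s i₀ ν
  refine ⟨sν, ?_, hsν⟩
  intro a ha i j i' j' φ hφ ψ hψ x hx hax m1 m2 m3 m4 m5 m6
  have A1 : At L P i j φ (A.act a x) := ⟨hφ, m1, m2, m5⟩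
  have A2 : At L P i' j' ψ x := ⟨hψ, m3, m4, m6⟩
  rw [hsν i j φ _ hax A1, hsν i' j' ψ x hx A2]
  set c : ℂ := a i₀ with hcdef
  have hc : c ≠ 0 := ha.1 i₀
  set a' : Fin r → ℂ := Function.update a i₀ 1 with ha'
  have ha'S : InTS S a' := by
    refine ⟨fun d => ?_, fun d hd => ?_⟩
    · by_cases hd : d = i₀
      · subst hd; simp [ha']
      · rw [ha', Function.update_of_ne hd]; exact ha.1 d
    · by_cases hdi : d = i₀
      · subst hdi; simp [ha']
      · rw [ha', Function.update_of_ne hdi]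
        exact ha.2 d (by simp [hdi, hd])
  have hmul : ∀ z : ℂ, el i₀ z * a = a' * el i₀ (c * z) := by
    intro z
    funext d
    by_cases hd : d = i₀
    · subst hd; simp [el, ha', hcdef, mul_comm]
    · simp [el, ha', Function.update_of_ne hd]
  have hchr : chr (Function.update χ i₀ ν) a = c ^ ν * chr χ a' := by
    unfold chr
    rw [← Finset.mul_prod_erase Finset.univ _ (Finset.mem_univ i₀),
      ← Finset.mul_prod_erase Finset.univ (fun d => a' d ^ χ d) (Finset.mem_univ i₀)]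
    simp only [Function.update_self, ha', one_zpow, one_mul]
    congr 1
    refine Finset.prod_congr rfl fun d hd => ?_
    rw [Function.update_of_ne (Finset.ne_of_mem_erase hd),
      Function.update_of_ne (Finset.ne_of_mem_erase hd)]
  have hchr0 : chr χ a' ≠ 0 := chr_ne_zero χ ha'S.1
  set Q : ℂ := ΛL.lam i i' a x ^ K * ΛP.lam j j' a x ^ J * A.jac φ ψ a x ^ m with hQ
  -- the values of the translates
  have hval : ∀ z : ℂ, z ≠ 0 → fourc_G ΛL ΛP s i₀ i j φ (A.act a x) z =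
      Q * ((chr χ a')⁻¹ * fourc_G ΛL ΛP s i₀ i' j' ψ x (c * z)) := by
    intro z hz
    have hcz : c * z ≠ 0 := mul_ne_zero hc hz
    rw [fourc_G_eq ΛL ΛP s i₀ i j φ _ hz, fourc_G_eq ΛL ΛP s i₀ i' j' ψ x hcz,
      fourc_comp ΛL ΛP hinv s ha.1 (el_inT i₀ hz) hx A1 A2]
    have h5 : ∀ (b : Fin r → ℂ) (hb : InT b), b = el i₀ z * a →
        mv ΛL ΛP s b hb i' j' ψ x =
          (chr χ a')⁻¹ * mv ΛL ΛP s (el i₀ (c * z)) (el_inT i₀ hcz) i' j' ψ x := by
      intro b hb hbe
      rw [hmul z] at hbe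
      subst hbe
      exact mv_mul ΛL ΛP hs ha'S (el_inT i₀ hcz) hx (hinv _ (el_inT i₀ hcz) x hx)
        (hinv _ hb x hx) A2
    rw [h5 _ _ rfl]
  have hG := fun {z : ℂ} (hz : z ≠ 0) => fourc_G_analytic ΛL ΛP hU hinv s i₀ hx A2 hz
  have hcirc := fourc_circle (g := fun z => z ^ ν * fourc_G ΛL ΛP s i₀ i' j' ψ x z)
    (fun z hz => ((analyticAt_id.zpow hz).mul (hG hz)).differentiableAt) hc
  rw [fourc_fco, fourc_fco, hchr]
  have hint : ∫ θ in (0 : ℝ)..(2 * Real.pi), Complex.exp (Complex.I * θ) ^ ν *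
        fourc_G ΛL ΛP s i₀ i j φ (A.act a x) (Complex.exp (Complex.I * θ)) =
      Q * (chr χ a')⁻¹ * (c ^ ν)⁻¹ * ∫ θ in (0 : ℝ)..(2 * Real.pi),
        (c * Complex.exp (Complex.I * θ)) ^ ν *
          fourc_G ΛL ΛP s i₀ i' j' ψ x (c * Complex.exp (Complex.I * θ)) := by
    rw [← intervalIntegral.integral_const_mul]
    refine intervalIntegral.integral_congr fun θ _ => ?_
    beta_reduce
    rw [hval _ (Complex.exp_ne_zero _), mul_zpow]
    have : c ^ ν ≠ 0 := zpow_ne_zero _ hc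
    field_simp
  rw [hint]
  beta_reduce at hcirc
  rw [hcirc]
  have hcν : c ^ ν ≠ 0 := zpow_ne_zero _ hc
  field_simp

/-- If only the components with weights in the finite set `Ξ` are nonzero at `x`, then `s x` is
their sum.
Proof. `θ ↦ mv s (el i₀ e^(iθ)) x - ∑_{ν ∈ Ξ} e^(-iνθ) fco ν x` is continuous, `2π`-periodic, and all its
Fourier coefficients vanish; so it is zero (`hasSum_fourier_series_of_summable` on `AddCircle (2π)`, or
`ContinuousMap` density of trigonometric polynomials), at `θ = 0`: `mv s 1 x = s.f i j φ x`. -/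
theorem fco_sum (hU : IsOpen U) (hinv : ∀ a, InT a → ∀ x ∈ U, A.act a x ∈ U)
    (s : Sec2 L P K J m U) (i₀ : Fin r) (Ξ : Finset ℤ) {i j φ x} (hx : x ∈ U)
    (h1 : At L P i j φ x) (h0 : ∀ ν, ν ∉ Ξ → fco ΛL ΛP s i₀ ν i j φ x = 0) :
    s.f i j φ x = ∑ ν ∈ Ξ, fco ΛL ΛP s i₀ ν i j φ x := by
  have hfact : Fact (0 < 2 * Real.pi) := ⟨Real.two_pi_pos⟩
  have hT : ∀ t : AddCircle (2 * Real.pi), ((AddCircle.toCircle t : Circle) : ℂ) ≠ 0 :=
    fun t => Circle.coe_ne_zero _
  have hcont : Continuous (fun t : AddCircle (2 * Real.pi) =>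
      fourc_G ΛL ΛP s i₀ i j φ x ((AddCircle.toCircle t : Circle) : ℂ)) := by
    rw [continuous_iff_continuousAt]
    intro t
    have h2 := (fourc_G_analytic ΛL ΛP hU hinv s i₀ hx h1 (hT t)).continuousAt
    have h3 : Continuous (fun t : AddCircle (2 * Real.pi) =>
        ((AddCircle.toCircle t : Circle) : ℂ)) :=
      continuous_induced_dom.comp AddCircle.continuous_toCircle
    exact ContinuousAt.comp (g := fourc_G ΛL ΛP s i₀ i j φ x)
      (f := fun t : AddCircle (2 * Real.pi) => ((AddCircle.toCircle t : Circle) : ℂ)) h2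
      h3.continuousAt
  let f : C(AddCircle (2 * Real.pi), ℂ) := ⟨_, hcont⟩
  have hexp : ∀ θ : ℝ, ((AddCircle.toCircle (θ : AddCircle (2 * Real.pi)) : Circle) : ℂ) =
      Complex.exp (Complex.I * θ) := by
    intro θ
    rw [AddCircle.toCircle_apply_mk, Circle.coe_exp]
    congr 1
    rw [div_self Real.two_pi_pos.ne', one_mul, mul_comm]
  have hcoef : ∀ n : ℤ, fourierCoeff f n = fco ΛL ΛP s i₀ (-n) i j φ x := by
    intro n
    rw [fourierCoeff_eq_intervalIntegral f n 0, fourc_fco, zero_add]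
    rw [Complex.real_smul]
    congr 1
    · push_cast
      rw [one_div]
    · refine intervalIntegral.integral_congr fun θ _ => ?_
      simp only [smul_eq_mul]
      congr 1
      · rw [fourier_coe_apply, ← Complex.exp_int_mul]
        congr 1
        have : (2 * (Real.pi : ℂ)) ≠ 0 := by
          exact_mod_cast Real.two_pi_pos.ne'
        push_cast
        field_simp
      · show fourc_G ΛL ΛP s i₀ i j φ x _ = _
        rw [hexp θ]
  have hzero : ∀ n : ℤ, n ∉ Ξ.image (fun ν => -ν) → fourierCoeff f n = 0 := by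
    intro n hn
    rw [hcoef]
    apply h0
    intro hmem
    exact hn (Finset.mem_image.2 ⟨-n, hmem, neg_neg n⟩)
  have hsum : Summable (fourierCoeff f) := summable_of_ne_finset_zero hzero
  have h4 := has_pointwise_sum_fourier_series_of_summable hsum 0
  have h5 : HasSum (fun n => fourierCoeff f n • (fourier n : AddCircle (2 * Real.pi) → ℂ) 0)
      (∑ n ∈ Ξ.image (fun ν => -ν),
        fourierCoeff f n • (fourier n : AddCircle (2 * Real.pi) → ℂ) 0) :=
    hasSum_sum_of_ne_finset_zero (fun n hn => by rw [hzero n hn, zero_smul])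
  have h6 := h4.unique h5
  have h7 : f 0 = s.f i j φ x := by
    show fourc_G ΛL ΛP s i₀ i j φ x ((AddCircle.toCircle 0 : Circle) : ℂ) = _
    rw [AddCircle.toCircle_zero, Circle.coe_one, fourc_G_eq ΛL ΛP s i₀ i j φ x one_ne_zero]
    have hel : el (r := r) i₀ 1 = 1 := by
      funext c
      by_cases hc : c = i₀
      · subst hc; simp [el]
      · simp [el, Function.update_of_ne hc]
    have h8 : ∀ (b : Fin r → ℂ) (hb : InT b), b = 1 → mv ΛL ΛP s b hb i j φ x = s.f i j φ x := by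
      intro b hb hb1
      subst hb1
      exact fourc_one ΛL ΛP s hb hx h1
    exact h8 _ _ hel
  rw [← h7, h6, Finset.sum_image (fun a _ b _ h => neg_injective h)]
  refine Finset.sum_congr rfl fun ν _ => ?_
  rw [hcoef, neg_neg, fourier_eval_zero, smul_eq_mul, mul_one]

/-- If `s` vanishes on the `T_{i₀}`-orbit of `x`, the components vanish at `x` (the integrand is 0). -/
theorem fco_eq_zero (s : Sec2 L P K J m U) (i₀ : Fin r)
    (hinv : ∀ a, InT a → ∀ x ∈ U, A.act a x ∈ U) {i j φ x} (hx : x ∈ U) (h1 : At L P i j φ x)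
    (h0 : ∀ a, InTS {i₀} a → ¬ s.NZ (A.act a x)) (ν : ℤ) : fco ΛL ΛP s i₀ ν i j φ x = 0 := by
  unfold fco
  have h2 : ∀ (z : ℂ) (hz : z ≠ 0), mv ΛL ΛP s (el i₀ z) (el_inT i₀ hz) i j φ x = 0 := by
    intro z hz
    have h3 := h0 _ (el_inTS i₀ hz)
    rw [s.nz_iff (hinv _ (el_inT i₀ hz) x hx) (fourc_at (A := A) (el_inT i₀ hz) h1),
      not_not] at h3
    unfold mv
    rw [h3, zero_div]
  have h4 : ∀ θ : ℝ, Complex.exp (Complex.I * θ) ^ ν *
      mv ΛL ΛP s (el i₀ (Complex.exp (Complex.I * θ))) (el_inT i₀ (Complex.exp_ne_zero _))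
        i j φ x = 0 := fun θ => by rw [h2 _ (Complex.exp_ne_zero _), mul_zero]
  simp only [h4, intervalIntegral.integral_zero, mul_zero]

end Pool.Agent.Abd
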