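import Pool.Agent.H.MP_e23cd6_ag.GT.FourC
import Pool.Agent.H.MP_e23cd6_ag.TB.PHolo

/-! Only finitely many Fourier components are nonzero. -/

set_option autoImplicit false

open scoped Manifold ContDiff Topology ENNReal
open MeasureTheory Set Filter

namespace Pool.Agent.Abd

variable {E : Type} [NormedAddCommGroup E] [NormedSpace ℂ E] [FiniteDimensional ℂ E] {r : ℕ}
  {X : Type} [TopologicalSpace X] [ChartedSpace E X] [IsManifold 𝓘(ℂ, E) ω X]
  {A : TorusAction E r X} {L P : LineBundle E X} {K J m k : ℕ} {U : Set X}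
  (ΛL : Linearization A L) (ΛP : Linearization A P)

variable [T2Space X]

omit [T2Space X] in
/-- the jacobian of the action is jointly continuous -/
theorem fourd_jac_cont (A : TorusAction E r X) {φ ψ : OpenPartialHomeomorph X E}
    (hφ : φ ∈ Charts E X) (hψ : ψ ∈ Charts E X) {a₀ : Fin r → ℂ} (ha : InT a₀) {y₀ : X}
    (hy : y₀ ∈ ψ.source) (hx : A.act a₀ y₀ ∈ φ.source) :
    ContinuousAt (fun v : (Fin r → ℂ) × X => A.jac φ ψ v.1 v.2) (a₀, y₀) := by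
  have hG : ContDiffAt ℂ 2 (fun p : ((Fin r → ℂ) × E) × E => φ (A.act p.1.1 (ψ.symm p.2)))
      ((a₀, ψ y₀), ψ y₀) := by
    have h3 : ContMDiffAt 𝓘(ℂ, E) 𝓘(ℂ, E) ω ψ.symm (ψ y₀) :=
      contMDiffAt_symm_of_mem_maximalAtlas hψ (ψ.map_source hy)
    have h4 : ContMDiffAt 𝓘(ℂ, ((Fin r → ℂ) × E) × E) 𝓘(ℂ, E) ω
        (fun p : ((Fin r → ℂ) × E) × E => ψ.symm p.2) ((a₀, ψ y₀), ψ y₀) :=
      ContMDiffAt.comp (g := ψ.symm) (f := fun p : ((Fin r → ℂ) × E) × E => p.2)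
        ((a₀, ψ y₀), ψ y₀) h3 contDiff_snd.contMDiff.contMDiffAt
    have h5 : ContMDiffAt 𝓘(ℂ, ((Fin r → ℂ) × E) × E) (𝓘(ℂ, Fin r → ℂ).prod 𝓘(ℂ, E)) ω
        (fun p : ((Fin r → ℂ) × E) × E => (p.1.1, ψ.symm p.2)) ((a₀, ψ y₀), ψ y₀) :=
      ((contDiff_fst.comp contDiff_fst).contMDiff.contMDiffAt).prodMk h4
    have h6 : ContMDiffAt (𝓘(ℂ, Fin r → ℂ).prod 𝓘(ℂ, E)) 𝓘(ℂ, E) ω
        (fun v : (Fin r → ℂ) × X => A.act v.1 v.2) (a₀, ψ.symm (ψ y₀)) := by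
      rw [ψ.left_inv hy]
      exact A.hol a₀ ha y₀
    have h7 : ContMDiffAt 𝓘(ℂ, ((Fin r → ℂ) × E) × E) 𝓘(ℂ, E) ω
        (fun p : ((Fin r → ℂ) × E) × E => A.act p.1.1 (ψ.symm p.2)) ((a₀, ψ y₀), ψ y₀) :=
      ContMDiffAt.comp (g := fun v : (Fin r → ℂ) × X => A.act v.1 v.2)
        (f := fun p : ((Fin r → ℂ) × E) × E => (p.1.1, ψ.symm p.2)) ((a₀, ψ y₀), ψ y₀) h6 h5
    have h8 : ContMDiffAt 𝓘(ℂ, E) 𝓘(ℂ, E) ω φ (A.act a₀ (ψ.symm (ψ y₀))) := by
      rw [ψ.left_inv hy]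
      exact contMDiffAt_of_mem_maximalAtlas hφ hx
    have h9 : ContMDiffAt 𝓘(ℂ, ((Fin r → ℂ) × E) × E) 𝓘(ℂ, E) ω
        (fun p : ((Fin r → ℂ) × E) × E => φ (A.act p.1.1 (ψ.symm p.2))) ((a₀, ψ y₀), ψ y₀) :=
      ContMDiffAt.comp (g := φ) (f := fun p : ((Fin r → ℂ) × E) × E => A.act p.1.1 (ψ.symm p.2))
        ((a₀, ψ y₀), ψ y₀) h8 h7
    exact h9.contDiffAt.of_le (by exact_mod_cast le_top)
  have h1 : DifferentiableAt ℂ (fun b : (Fin r → ℂ) × E =>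
      (fderiv ℂ (fun w => φ (A.act b.1 (ψ.symm w))) b.2).det) (a₀, ψ y₀) :=
    PHolo_jac (G := fun p : ((Fin r → ℂ) × E) × E => φ (A.act p.1.1 (ψ.symm p.2)))
      (y := fun b : (Fin r → ℂ) × E => b.2) hG differentiableAt_snd
  have h2 : ContinuousAt (fun v : (Fin r → ℂ) × X => (v.1, ψ v.2)) (a₀, y₀) := by
    refine continuousAt_fst.prodMk ?_
    exact ContinuousAt.comp (g := ψ) (f := fun v : (Fin r → ℂ) × X => v.2) (x := (a₀, y₀))
      (ψ.continuousAt hy) continuousAt_snd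
  exact ContinuousAt.comp (g := fun b : (Fin r → ℂ) × E =>
      (fderiv ℂ (fun w => φ (A.act b.1 (ψ.symm w))) b.2).det)
    (f := fun v : (Fin r → ℂ) × X => (v.1, ψ v.2)) (x := (a₀, y₀)) h1.continuousAt h2

omit [FiniteDimensional ℂ E] [IsManifold 𝓘(ℂ, E) ω X] [T2Space X] in
/-- the factor of the linearisation is jointly continuous -/
theorem fourd_lam_cont {L : LineBundle E X} (Λ : Linearization A L) {i j : L.ι} {a₀ : Fin r → ℂ}
    (ha : InT a₀) {y₀ : X} (hy : y₀ ∈ L.U j) (hx : A.act a₀ y₀ ∈ L.U i) :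
    ContinuousAt (fun v : (Fin r → ℂ) × X => Λ.lam i j v.1 v.2) (a₀, y₀) :=
  (Λ.hol i j a₀ y₀ ha hy hx).continuousAt

omit [FiniteDimensional ℂ E] [IsManifold 𝓘(ℂ, E) ω X] [T2Space X] in
/-- the action is jointly continuous -/
theorem fourd_act_cont (A : TorusAction E r X) {a₀ : Fin r → ℂ} (ha : InT a₀) (y₀ : X) :
    ContinuousAt (fun v : (Fin r → ℂ) × X => A.act v.1 v.2) (a₀, y₀) :=
  (A.hol a₀ ha y₀).continuousAt

/-- the compact set of torus elements with coordinates between `R⁻¹` and `R` -/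
def fourdG (r : ℕ) (R : ℝ) : Set (Fin r → ℂ) := {h | ∀ c, R⁻¹ ≤ ‖h c‖ ∧ ‖h c‖ ≤ R}

theorem fourdG_compact (r : ℕ) (R : ℝ) : IsCompact (fourdG r R) := by
  have h1 : fourdG r R = Set.pi univ (fun _ : Fin r => {z : ℂ | R⁻¹ ≤ ‖z‖ ∧ ‖z‖ ≤ R}) := by
    ext h
    simp [fourdG]
  rw [h1]
  apply isCompact_univ_pi
  intro _
  apply IsCompact.of_isClosed_subset (isCompact_closedBall (0 : ℂ) R)
  · exact (isClosed_le continuous_const continuous_norm).inter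
      (isClosed_le continuous_norm continuous_const)
  · intro z hz
    rw [Metric.mem_closedBall, dist_zero_right]
    exact hz.2

theorem fourdG_inT {r : ℕ} {R : ℝ} (hR : 0 < R) {h : Fin r → ℂ} (hh : h ∈ fourdG r R) :
    InT h := by
  intro c h0
  have h1 := (hh c).1
  rw [h0, norm_zero] at h1
  exact absurd h1 (not_le.mpr (inv_pos.mpr hR))

/-- Finiteness of weights over a cocompact set.

Proof. Choose `C` compact with `T_S C = U` (`Good.cocompact`), finitely many compact pieces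
`K_p ⊆ U` (compact subsets of coordinate domains with frames `i_p, j_p, φ_p`) whose interiors cover `C`; for
a section `t` let `M(t) = max_p sup_{K_p} ‖t.f i_p j_p φ_p‖`, finite. Let `D` be the compact set of
`b = el i₀ β`, `β ∈ {2, 1/2}` (two elements). For `x ∈ K_p` and such `b` there is `a ∈ T_S` with
`a b x ∈ C`, so `a b x ∈ K_q` for some `q`; all these `a` (for all `x, p, b`) have bounded coordinates and
inverses, by `Good.proper` for the compact set `⋃ b K_p ∪ C`. So `‖t at x‖ ≤ R ‖t at (a b x)‖ * |weight|`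
with a uniform constant (the factors `lam`, `jac` are continuous and nonzero on compact sets of `(a b, x)`,
and `|chr χ a|` is bounded): for `t` of `T_{S+i₀}`-weight `update χ i₀ ν`:
`|β|^ν |chr χ a| ‖t (a b x)‖ = ‖lam.. jac..‖ ‖t x‖`, hence `|β|^ν M(t) ≥ c M(t)`… precisely: choosing `β = 1/2`
(if `ν > 0`) or `β = 2` (if `ν < 0`): `‖t x‖ ≤ C_0 |β|^ν ‖t(a b x)‖ ≤ C_0 2^(-|ν|) M(t)` for all `x` in the
pieces, so `M(t) ≤ C_0 2^(-|ν|) M(t)` and `M(t) = 0` if `2^|ν| > C_0`. Then `t = 0` on `C`, hence on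
`U = T_S C` (weight rule). -/
theorem weights_bounded {S : Finset (Fin r)} (hG : Good A S U) {i₀ : Fin r} (hi₀ : i₀ ∉ S)
    (χ : Fin r → ℤ) (L' P' : LineBundle E X) (ΛL : Linearization A L')
    (ΛP : Linearization A P') (K J m : ℕ) : ∃ B : ℤ, ∀ ν : ℤ, B < |ν| →
      ∀ t : Sec2 L' P' K J m U, OfWt ΛL ΛP (insert i₀ S) (Function.update χ i₀ ν) t →
        ∀ x ∈ U, ¬ t.NZ x := by
  classical
  obtain ⟨C, hCU, hC, hcov⟩ := hG.cocompact
  have : LocallyCompactSpace X := ChartedSpace.locallyCompactSpace E X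
  -- compact pieces with frames
  have hpiece : ∀ x : X, ∃ (i : L'.ι) (j : P'.ι), x ∈ U → ∃ N : Set X, IsCompact N ∧ N ∈ 𝓝 x ∧
      N ⊆ U ∧ ∀ y ∈ N, At L' P' i j (chartAt E x) y := by
    intro x
    obtain ⟨i, j, h⟩ := exists_at L' P' x
    refine ⟨i, j, fun hx => ?_⟩
    have h1 : ∀ᶠ y in 𝓝 x, y ∈ U ∧ At L' P' i j (chartAt E x) y :=
      Filter.Eventually.and (hG.isOpen.mem_nhds hx) h.eventually
    obtain ⟨N, hN, hsub, hc⟩ := LocallyCompactSpace.local_compact_nhds x _ h1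
    exact ⟨N, hc, hN, fun y hy => (hsub hy).1, fun y hy => (hsub hy).2⟩
  choose fi fj hN using hpiece
  have hN' : ∀ x : X, ∃ N : Set X, x ∈ U → IsCompact N ∧ N ∈ 𝓝 x ∧
      N ⊆ U ∧ ∀ y ∈ N, At L' P' (fi x) (fj x) (chartAt E x) y := by
    intro x
    by_cases hx : x ∈ U
    · obtain ⟨N, h⟩ := hN x hx
      exact ⟨N, fun _ => h⟩
    · exact ⟨∅, fun h => absurd h hx⟩
  choose N hNN using hN'
  obtain ⟨T, hTC, hTcov⟩ := hC.elim_nhds_subcover N (fun x hx => (hNN x (hCU hx)).2.1)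
  have hTU : ∀ p ∈ T, p ∈ U := fun p hp => hCU (hTC p hp)
  -- properness
  let C' : Set X := C ∪ ⋃ p ∈ T, (A.act (el i₀ 2) '' N p ∪ A.act (el i₀ 2⁻¹) '' N p)
  have h2 : InT (el i₀ (2 : ℂ)) := el_inT i₀ two_ne_zero
  have h2' : InT (el i₀ (2⁻¹ : ℂ)) := el_inT i₀ (inv_ne_zero two_ne_zero)
  have hC'U : C' ⊆ U := by
    intro x hx
    rcases hx with hx | hx
    · exact hCU hx
    · simp only [mem_iUnion] at hx
      obtain ⟨p, hp, ⟨y, hy, rfl⟩ | ⟨y, hy, rfl⟩⟩ := hx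
      · exact hG.inv _ h2 _ ((hNN p (hTU p hp)).2.2.1 hy)
      · exact hG.inv _ h2' _ ((hNN p (hTU p hp)).2.2.1 hy)
  have hC' : IsCompact C' := by
    apply hC.union
    apply T.isCompact_biUnion
    intro p hp
    exact (((hNN p (hTU p hp)).1.image (act_continuous A h2)).union
      ((hNN p (hTU p hp)).1.image (act_continuous A h2')))
  obtain ⟨R0, hR0⟩ := hG.proper C' hC'U hC'
  set R1 : ℝ := max R0 1 with hR1
  have hR1pos : 0 < R1 := lt_of_lt_of_le one_pos (le_max_right _ _)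
  set R : ℝ := 2 * R1 with hRdef
  have hRpos : 0 < R := by positivity
  -- bounds of the factors
  let Fct : X → X → (Fin r → ℂ) × X → ℂ := fun p q v =>
    ΛL.lam (fi p) (fi q) v.1 v.2 ^ K * ΛP.lam (fj p) (fj q) v.1 v.2 ^ J *
      A.jac (chartAt E p) (chartAt E q) v.1 v.2 ^ m
  have hbd : ∀ p ∈ T, ∀ q ∈ T, ∃ B0 : ℝ, ∀ v : (Fin r → ℂ) × X, v.1 ∈ fourdG r R → v.2 ∈ N q →
      A.act v.1 v.2 ∈ N p → ‖Fct p q v‖ ≤ B0 := by
    intro p hp q hq
    obtain ⟨cp, -, cpU, cpA⟩ := hNN p (hTU p hp)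
    obtain ⟨cq, -, cqU, cqA⟩ := hNN q (hTU q hq)
    have hK1 : IsCompact (fourdG r R ×ˢ N q) := (fourdG_compact r R).prod cq
    have hact : ContinuousOn (fun v : (Fin r → ℂ) × X => A.act v.1 v.2) (fourdG r R ×ˢ N q) := by
      rintro ⟨a, y⟩ ⟨ha, -⟩
      exact (fourd_act_cont A (fourdG_inT hRpos ha) y).continuousWithinAt
    have hcl : IsClosed ((fourdG r R ×ˢ N q) ∩
        (fun v : (Fin r → ℂ) × X => A.act v.1 v.2) ⁻¹' N p) :=
      hact.preimage_isClosed_of_isClosed hK1.isClosed cp.isClosed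
    have hK2 : IsCompact ((fourdG r R ×ˢ N q) ∩
        (fun v : (Fin r → ℂ) × X => A.act v.1 v.2) ⁻¹' N p) :=
      hK1.of_isClosed_subset hcl inter_subset_left
    have hcont : ContinuousOn (Fct p q) ((fourdG r R ×ˢ N q) ∩
        (fun v : (Fin r → ℂ) × X => A.act v.1 v.2) ⁻¹' N p) := by
      rintro ⟨a, y⟩ ⟨⟨ha, hy⟩, hay⟩
      have haT := fourdG_inT hRpos ha
      have e1 := cqA y hy
      have e2 := cpA _ hay
      apply ContinuousAt.continuousWithinAt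
      exact (((fourd_lam_cont ΛL haT e1.memL e2.memL).pow K).mul
        ((fourd_lam_cont ΛP haT e1.memP e2.memP).pow J)).mul
        ((fourd_jac_cont A e2.chart e1.chart haT e1.mem e2.mem).pow m)
    obtain ⟨B0, hB0⟩ := hK2.exists_bound_of_continuousOn hcont
    exact ⟨B0, fun v h1 h3 h4 => hB0 v ⟨⟨h1, h3⟩, h4⟩⟩
  choose! B0 hB0 using hbd
  obtain ⟨B1, hB1⟩ := (fourdG_compact r R).exists_bound_of_continuousOn (f := chr χ)
    (fun a ha => (chr_contDiffAt χ (fourdG_inT hRpos ha)).continuousAt.continuousWithinAt)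
  -- a common bound
  obtain ⟨B2, hB2, hB2'⟩ : ∃ B2 : ℝ, 0 ≤ B2 ∧ ∀ p ∈ T, ∀ q ∈ T, B0 p q ≤ B2 := by
    refine ⟨∑ p ∈ T, ∑ q ∈ T, |B0 p q|, Finset.sum_nonneg fun p _ =>
      Finset.sum_nonneg fun q _ => abs_nonneg _, fun p hp q hq => ?_⟩
    calc B0 p q ≤ |B0 p q| := le_abs_self _
      _ ≤ ∑ q ∈ T, |B0 p q| :=
        Finset.single_le_sum (f := fun q => |B0 p q|) (fun q _ => abs_nonneg _) hq
      _ ≤ ∑ p ∈ T, ∑ q ∈ T, |B0 p q| :=
        Finset.single_le_sum (f := fun p => ∑ q ∈ T, |B0 p q|)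
          (fun p _ => Finset.sum_nonneg fun q _ => abs_nonneg _) hp
  have hB1' : ∀ a ∈ fourdG r R, ‖chr χ a‖ ≤ |B1| := fun a ha => (hB1 a ha).trans (le_abs_self _)
  obtain ⟨n, hn⟩ : ∃ n : ℕ, |B1| * B2 < 2 ^ n := pow_unbounded_of_one_lt _ one_lt_two
  refine ⟨n, fun ν hν t ht => ?_⟩
  by_contra hcon
  push Not at hcon
  obtain ⟨x1, hx1, hnz1⟩ := hcon
  set χ' : Fin r → ℤ := Function.update χ i₀ ν with hχ'
  -- the values on the pieces
  have hval : ∀ p ∈ T, ∃ y ∈ N p, ∀ z ∈ N p,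
      ‖t.f (fi p) (fj p) (chartAt E p) z‖ ≤ ‖t.f (fi p) (fj p) (chartAt E p) y‖ := by
    intro p hp
    obtain ⟨cp, cpn, cpU, cpA⟩ := hNN p (hTU p hp)
    have h1 : ContinuousOn (fun z => ‖t.f (fi p) (fj p) (chartAt E p) z‖) (N p) := by
      intro z hz
      have h3 : ContinuousAt (t.f (fi p) (fj p) (chartAt E p)) z :=
        ContMDiffAt.continuousAt (t.hol' (cpU hz) (cpA z hz))
      exact h3.norm.continuousWithinAt
    obtain ⟨y, hy, hmax⟩ := cp.exists_isMaxOn ⟨p, mem_of_mem_nhds cpn⟩ h1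
    exact ⟨y, hy, fun z hz => hmax hz⟩
  choose! yy hyy hyymax using hval
  -- the nonvanishing point moved into `C`
  obtain ⟨a1, ha1, ha1C⟩ := hcov x1 hx1
  have hins : ∀ a, InTS S a → InTS (insert i₀ S) a := fun a ha =>
    ⟨ha.1, fun c hc => ha.2 c fun h => hc (Finset.mem_insert_of_mem h)⟩
  have hTne : T.Nonempty := by
    have h1 := hTcov ha1C
    simp only [mem_iUnion] at h1
    obtain ⟨p, hp, -⟩ := h1
    exact ⟨p, hp⟩
  obtain ⟨p0, hp0, hp0max⟩ := T.exists_max_image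
    (fun p => ‖t.f (fi p) (fj p) (chartAt E p) (yy p)‖) hTne
  set x0 : X := yy p0 with hx0
  obtain ⟨cp0, -, cp0U, cp0A⟩ := hNN p0 (hTU p0 hp0)
  have hx0N : x0 ∈ N p0 := hyy p0 hp0
  have hMax : ∀ p ∈ T, ∀ z ∈ N p, ‖t.f (fi p) (fj p) (chartAt E p) z‖ ≤
      ‖t.f (fi p0) (fj p0) (chartAt E p0) x0‖ :=
    fun p hp z hz => (hyymax p hp z hz).trans (hp0max p hp)
  -- the maximum is positive
  have hpos : 0 < ‖t.f (fi p0) (fj p0) (chartAt E p0) x0‖ := by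
    have h1 := hTcov ha1C
    simp only [mem_iUnion] at h1
    obtain ⟨p, hp, hpN⟩ := h1
    obtain ⟨-, -, cpU, cpA⟩ := hNN p (hTU p hp)
    obtain ⟨i, j, hat⟩ := exists_at L' P' x1
    have h3 := ht.rule (hins _ ha1) hx1 (cpU hpN) (cpA _ hpN) hat
    refine lt_of_lt_of_le ?_ (hMax p hp _ hpN)
    rw [norm_pos_iff]
    intro h0
    -- use the inverse element
    have h4 : InTS (insert i₀ S) a1⁻¹ := by
      refine ⟨ha1.1.inv, fun c hc => ?_⟩
      rw [Pi.inv_apply, (hins _ ha1).2 c hc, inv_one]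
    have h5 : A.act a1⁻¹ (A.act a1 x1) = x1 := act_inv_act A ha1.1 x1
    have h6 := ht.rule h4 (cpU hpN) (x := A.act a1 x1) (i := i) (j := j) (φ := chartAt E x1)
      (by rw [h5]; exact hx1) (by rw [h5]; exact hat) (cpA _ hpN)
    rw [h0, mul_zero, h5] at h6
    rcases mul_eq_zero.mp h6 with h7 | h7
    · exact chr_ne_zero _ ha1.1.inv h7
    · exact (t.nz_iff hx1 hat).mp hnz1 h7
  -- the contraction
  obtain ⟨β, hβ0, hβC, hβn, hβR, hβR'⟩ : ∃ β : ℂ, β ≠ 0 ∧ A.act (el i₀ β) x0 ∈ C' ∧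
      ‖β ^ ν‖ = (2 : ℝ) ^ (-|ν|) ∧ ‖β‖ ≤ 2 ∧ 2⁻¹ ≤ ‖β‖ := by
    rcases le_total 0 ν with h | h
    · refine ⟨2⁻¹, inv_ne_zero two_ne_zero, ?_, ?_, ?_, ?_⟩
      · right
        simp only [mem_iUnion]
        exact ⟨p0, hp0, Or.inr ⟨x0, hx0N, rfl⟩⟩
      · rw [abs_of_nonneg h, norm_zpow, norm_inv, Complex.norm_ofNat, inv_zpow, zpow_neg]
      · rw [norm_inv, Complex.norm_ofNat]; norm_num
      · rw [norm_inv, Complex.norm_ofNat]
    · refine ⟨2, two_ne_zero, ?_, ?_, ?_, ?_⟩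
      · right
        simp only [mem_iUnion]
        exact ⟨p0, hp0, Or.inl ⟨x0, hx0N, rfl⟩⟩
      · rw [abs_of_nonpos h, neg_neg, norm_zpow, Complex.norm_ofNat]
      · rw [Complex.norm_ofNat]
      · rw [Complex.norm_ofNat]; norm_num
  have hbT : InT (el i₀ β) := el_inT i₀ hβ0
  obtain ⟨a, ha, haC⟩ := hcov _ (hC'U hβC)
  have haR := hR0 a ha _ hβC (Or.inl haC)
  have hq := hTcov haC
  simp only [mem_iUnion] at hq
  obtain ⟨q, hq, hqN⟩ := hq
  obtain ⟨-, -, cqU, cqA⟩ := hNN q (hTU q hq)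
  -- norms of the coordinates of `a` and of `g = a b`
  have haR1 : ∀ c, ‖a c‖ ≤ R1 ∧ R1⁻¹ ≤ ‖a c‖ := by
    intro c
    obtain ⟨h1, h3⟩ := haR c
    refine ⟨h1.trans (le_max_left _ _), ?_⟩
    have h4 : 0 < ‖a c‖ := norm_pos_iff.mpr (ha.1 c)
    rw [norm_inv] at h3
    have h5 : ‖a c‖⁻¹ ≤ R1 := h3.trans (le_max_left _ _)
    rw [inv_le_comm₀ hR1pos h4]
    exact h5
  have haG : a ∈ fourdG r R := by
    intro c
    obtain ⟨h1, h3⟩ := haR1 c
    constructor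
    · refine le_trans ?_ h3
      rw [inv_le_inv₀ hRpos hR1pos]
      linarith
    · linarith
  set g : Fin r → ℂ := a * el i₀ β with hg
  have hgT : InT g := ha.1.mul hbT
  have hel : ∀ c, ‖el i₀ β c‖ ≤ 2 ∧ 2⁻¹ ≤ ‖el i₀ β c‖ := by
    intro c
    by_cases hc : c = i₀
    · subst hc
      simp only [el, Function.update_self]
      exact ⟨hβR, hβR'⟩
    · simp only [el, Function.update_of_ne hc, Pi.one_apply, norm_one]
      norm_num
  have hgG : g⁻¹ ∈ fourdG r R := by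
    intro c
    obtain ⟨h1, h3⟩ := haR1 c
    obtain ⟨h4, h5⟩ := hel c
    have h6 : 0 < ‖a c‖ := norm_pos_iff.mpr (ha.1 c)
    have h7 : 0 < ‖el i₀ β c‖ := norm_pos_iff.mpr (hbT c)
    have h8 : ‖g c‖ = ‖a c‖ * ‖el i₀ β c‖ := by rw [hg, Pi.mul_apply, norm_mul]
    have h9 : ‖g c‖ ≤ R := by
      rw [h8, hRdef, mul_comm (2 : ℝ)]
      exact mul_le_mul h1 h4 h7.le hR1pos.le
    have h10 : R⁻¹ ≤ ‖g c‖ := by
      rw [h8, hRdef, mul_comm (2 : ℝ), mul_inv]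
      exact mul_le_mul h3 h5 (by norm_num) h6.le
    have h11 : 0 < ‖g c‖ := norm_pos_iff.mpr (hgT c)
    rw [Pi.inv_apply, norm_inv]
    constructor
    · rw [inv_le_inv₀ hRpos h11]; exact h9
    · rw [inv_le_comm₀ h11 hRpos]; exact h10
  set y : X := A.act a (A.act (el i₀ β) x0) with hy
  have hgy : A.act g x0 = y := A.mul a (el i₀ β) ha.1 hbT x0
  have hgy' : A.act g⁻¹ y = x0 := by rw [← hgy]; exact act_inv_act A hgT x0
  have hgS : InTS (insert i₀ S) g⁻¹ := by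
    refine ⟨hgT.inv, fun c hc => ?_⟩
    have h1 : c ∉ S := fun h => hc (Finset.mem_insert_of_mem h)
    have h3 : c ≠ i₀ := fun h => hc (by rw [h]; exact Finset.mem_insert_self _ _)
    rw [Pi.inv_apply, hg, Pi.mul_apply, ha.2 c h1]
    simp [el, Function.update_of_ne h3]
  have hrule := ht.rule hgS (cqU hqN) (x := y) (i := fi p0) (j := fj p0) (φ := chartAt E p0)
    (by rw [hgy']; exact cp0U hx0N) (by rw [hgy']; exact cp0A x0 hx0N) (cqA y hqN)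
  rw [hgy'] at hrule
  have hFb : ‖Fct p0 q (g⁻¹, y)‖ ≤ B2 :=
    (hB0 p0 hp0 q hq (g⁻¹, y) hgG hqN (by rw [hgy']; exact hx0N)).trans (hB2' p0 hp0 q hq)
  -- the character
  have hchr : ‖chr χ' g‖ ≤ |B1| * (2 : ℝ) ^ (-|ν|) := by
    rw [hg, chr_mul, norm_mul, chr_el, hχ', Function.update_self, hβn]
    refine mul_le_mul_of_nonneg_right ?_ (zpow_nonneg (by norm_num) _)
    have h1 : chr (Function.update χ i₀ ν) a = chr χ a := by
      unfold chr
      refine Finset.prod_congr rfl fun c _ => ?_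
      by_cases hc : c = i₀
      · rw [hc, ha.2 i₀ hi₀, one_zpow, one_zpow]
      · rw [Function.update_of_ne hc]
    rw [h1]
    exact hB1' a haG
  have hinvchr : chr χ' g * chr χ' g⁻¹ = 1 := by
    rw [← chr_mul, hgT.mul_inv]
    simp [chr]
  have heq : t.f (fi p0) (fj p0) (chartAt E p0) x0 =
      chr χ' g * (Fct p0 q (g⁻¹, y) * t.f (fi q) (fj q) (chartAt E q) y) := by
    have h1 : t.f (fi p0) (fj p0) (chartAt E p0) x0 =
        chr χ' g * (chr χ' g⁻¹ * t.f (fi p0) (fj p0) (chartAt E p0) x0) := by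
      rw [← mul_assoc, hinvchr, one_mul]
    rw [h1, hrule]
  have hlt : |B1| * (2 : ℝ) ^ (-|ν|) * B2 < 1 := by
    have h1 : (2 : ℝ) ^ (-|ν|) ≤ ((2 : ℝ) ^ n)⁻¹ := by
      rw [← zpow_natCast, ← zpow_neg]
      exact zpow_le_zpow_right₀ one_le_two (by omega)
    have h3 : (0 : ℝ) < 2 ^ n := by positivity
    calc |B1| * (2 : ℝ) ^ (-|ν|) * B2 = (|B1| * B2) * (2 : ℝ) ^ (-|ν|) := by ring
      _ ≤ (|B1| * B2) * ((2 : ℝ) ^ n)⁻¹ :=
        mul_le_mul_of_nonneg_left h1 (mul_nonneg (abs_nonneg _) hB2)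
      _ < 1 := by
        rw [← div_eq_mul_inv, div_lt_one h3]
        exact hn
  have hfin : ‖t.f (fi p0) (fj p0) (chartAt E p0) x0‖ ≤
      (|B1| * (2 : ℝ) ^ (-|ν|) * B2) * ‖t.f (fi p0) (fj p0) (chartAt E p0) x0‖ := by
    have h1 : ‖t.f (fi p0) (fj p0) (chartAt E p0) x0‖ =
        ‖chr χ' g‖ * (‖Fct p0 q (g⁻¹, y)‖ * ‖t.f (fi q) (fj q) (chartAt E q) y‖) := by
      conv_lhs => rw [heq]
      rw [norm_mul, norm_mul]
    rw [h1, mul_assoc (|B1| * (2 : ℝ) ^ (-|ν|))]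
    refine mul_le_mul hchr ?_ (by positivity)
      (mul_nonneg (abs_nonneg _) (zpow_nonneg (by norm_num) _))
    rw [← h1]
    exact mul_le_mul hFb (hMax q hq y hqN) (norm_nonneg _) hB2
  nlinarith

/-- The decomposition of a section into its finitely many components (`exists_fourier_wt`,
`fco_sum`, `fco_eq_zero`, `weights_bounded`, `Ξ = [-B, B]`). -/
theorem exists_components {S : Finset (Fin r)} (hG : Good A S U) {i₀ : Fin r} (hi₀ : i₀ ∉ S)
    {χ : Fin r → ℤ} (s : Sec2 L P K J m U) (hs : OfWt ΛL ΛP S χ s) :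
    ∃ (Ξ : Finset ℤ) (sν : ℤ → Sec2 L P K J m U),
      (∀ ν, OfWt ΛL ΛP (insert i₀ S) (Function.update χ i₀ ν) (sν ν)) ∧
      (∀ ν, ν ∉ Ξ → ∀ x ∈ U, ¬ (sν ν).NZ x) ∧
      (∀ x ∈ U, ∀ i j φ, At L P i j φ x → s.f i j φ x = ∑ ν ∈ Ξ, (sν ν).f i j φ x) ∧
      ∀ x ∈ U, (∀ a, InTS {i₀} a → ¬ s.NZ (A.act a x)) → ∀ ν, ¬ (sν ν).NZ x := by
  obtain ⟨B, hB⟩ := weights_bounded hG hi₀ χ L P ΛL ΛP K J m
  have hex := fun ν => exists_fourier_wt ΛL ΛP hG.isOpen hG.inv hi₀ s hs ν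
  choose sν hwt hval using hex
  have hout : ∀ ν, ν ∉ Finset.Icc (-B) B → B < |ν| := by
    intro ν hν
    rw [Finset.mem_Icc, not_and_or, not_le, not_le] at hν
    rcases hν with h | h
    · exact lt_of_lt_of_le (by linarith) (neg_le_abs ν)
    · exact lt_of_lt_of_le h (le_abs_self ν)
  refine ⟨Finset.Icc (-B) B, sν, hwt, ?_, ?_, ?_⟩
  · intro ν hν x hx
    exact hB ν (hout ν hν) (sν ν) (hwt ν) x hx
  · intro x hx i j φ hat
    have h0 : ∀ ν, ν ∉ Finset.Icc (-B) B → fco ΛL ΛP s i₀ ν i j φ x = 0 := by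
      intro ν hν
      have h1 := hB ν (hout ν hν) (sν ν) (hwt ν) x hx
      rw [(sν ν).nz_iff hx hat, not_not, hval ν i j φ x hx hat] at h1
      exact h1
    rw [fco_sum ΛL ΛP hG.isOpen hG.inv s i₀ _ hx hat h0]
    exact Finset.sum_congr rfl fun ν _ => (hval ν i j φ x hx hat).symm
  · intro x hx h ν
    obtain ⟨i, j, hat⟩ := exists_at L P x
    rw [(sν ν).nz_iff hx hat, not_not, hval ν i j _ x hx hat]
    exact fco_eq_zero ΛL ΛP s i₀ hG.inv hx hat h ν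

end Pool.Agent.Abd
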