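import Pool.Agent.H.MP_e23cd6_ag.GT.Alg
import Pool.Agent.H.MP_e23cd6_ag.TB.PAct

/-! Points which are not fixed modulo `T_S`. -/

set_option autoImplicit false

open scoped Manifold ContDiff Topology ENNReal
open MeasureTheory Set Filter

namespace Pool.Agent.Abd

variable {E : Type} [NormedAddCommGroup E] [NormedSpace ℂ E]  {r : ℕ}
  {X : Type} [TopologicalSpace X] [ChartedSpace E X] [IsManifold 𝓘(ℂ, E) ω X] [T2Space X]
  {A : TorusAction E r X} {U : Set X}

omit [IsManifold 𝓘(ℂ, E) ω X] [T2Space X] in
theorem freed_cont (A : TorusAction E r X) {a : Fin r → ℂ} (ha : InT a) (y : X) :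
    ContinuousAt (fun v : (Fin r → ℂ) × X => A.act v.1 v.2) (a, y) :=
  (A.hol a ha y).continuousAt

theorem freed_inT_exp (w : Fin r → ℂ) : InT (fun c => Complex.exp (w c)) :=
  fun _ => Complex.exp_ne_zero _

omit [IsManifold 𝓘(ℂ, E) ω X] [T2Space X] in
/-- The additive group of the `w` with `exp w x = x`. -/
noncomputable def freedG (A : TorusAction E r X) (x : X) : AddSubgroup (Fin r → ℂ) where
  carrier := {w | A.act (fun c => Complex.exp (w c)) x = x}
  zero_mem' := by
    show A.act (fun c => Complex.exp ((0 : Fin r → ℂ) c)) x = x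
    have h : (fun c : Fin r => Complex.exp ((0 : Fin r → ℂ) c)) = 1 := by
      funext c
      simp
    rw [h, A.one]
  add_mem' := by
    intro w w' h h'
    show A.act (fun c => Complex.exp ((w + w') c)) x = x
    have e : (fun c : Fin r => Complex.exp ((w + w') c)) =
        (fun c => Complex.exp (w c)) * (fun c => Complex.exp (w' c)) := by
      funext c
      simp [Complex.exp_add]
    rw [e, A.mul _ _ (freed_inT_exp w) (freed_inT_exp w')]
    have h1 : A.act (fun c => Complex.exp (w c)) x = x := h
    have h2 : A.act (fun c => Complex.exp (w' c)) x = x := h'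
    rw [h2, h1]
  neg_mem' := by
    intro w h
    show A.act (fun c => Complex.exp ((-w) c)) x = x
    have h1 : A.act (fun c => Complex.exp (w c)) x = x := h
    have e : (fun c : Fin r => Complex.exp ((-w) c)) = (fun c => Complex.exp (w c))⁻¹ := by
      funext c
      simp [Complex.exp_neg]
    rw [e]
    conv_lhs => rw [← h1]
    exact act_inv_act A (freed_inT_exp w) x

omit [IsManifold 𝓘(ℂ, E) ω X] [T2Space X] in
theorem freed_mem (A : TorusAction E r X) (x : X) (w : Fin r → ℂ) :
    w ∈ freedG A x ↔ A.act (fun c => Complex.exp (w c)) x = x := Iff.rfl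

omit [IsManifold 𝓘(ℂ, E) ω X] [T2Space X] in
theorem freed_cexp (A : TorusAction E r X) {Y : Type} [TopologicalSpace Y]
    {f : Y → Fin r → ℂ} {g : Y → X} (hf : Continuous f) (hg : Continuous g) :
    Continuous (fun y => A.act (fun c => Complex.exp (f y c)) (g y)) := by
  rw [continuous_iff_continuousAt]
  intro y
  have h1 : ContinuousAt (fun y => ((fun c => Complex.exp (f y c) : Fin r → ℂ), g y)) y := by
    apply Continuous.continuousAt
    refine Continuous.prodMk ?_ hg
    exact continuous_pi fun c => Complex.continuous_exp.comp ((continuous_apply c).comp hf)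
  exact ContinuousAt.comp (g := fun v : (Fin r → ℂ) × X => A.act v.1 v.2)
    (f := fun y => ((fun c => Complex.exp (f y c) : Fin r → ℂ), g y))
    (freed_cont A (freed_inT_exp (f y)) (g y)) h1

omit [IsManifold 𝓘(ℂ, E) ω X] in
theorem freed_closed (A : TorusAction E r X) (x : X) :
    IsClosed (freedG A x : Set (Fin r → ℂ)) :=
  isClosed_eq (freed_cexp A continuous_id continuous_const) continuous_const

/-- A closed subgroup of `ℂ ^ r` with arbitrarily small nonzero elements contains a line. -/
theorem freed_line (G : AddSubgroup (Fin r → ℂ)) (hG : IsClosed (G : Set (Fin r → ℂ)))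
    (v : ℕ → Fin r → ℂ) (hv : ∀ n, v n ∈ G) (h0 : ∀ n, v n ≠ 0)
    (hl : Tendsto v atTop (𝓝 0)) : ∃ u : Fin r → ℂ, ‖u‖ = 1 ∧ ∀ s : ℝ, s • u ∈ G := by
  have hn : ∀ n, 0 < ‖v n‖ := fun n => norm_pos_iff.2 (h0 n)
  obtain ⟨u, hu, φ, hφ, hlim⟩ := (isCompact_sphere (0 : Fin r → ℂ) 1).tendsto_subseq
    (x := fun n => (‖v n‖⁻¹ : ℝ) • v n) (by
      intro n
      rw [mem_sphere_zero_iff_norm, norm_smul, norm_inv, norm_norm, inv_mul_cancel₀ (hn n).ne'])
  refine ⟨u, by simpa using hu, fun s => ?_⟩
  have h1 : Tendsto (fun n => ‖v (φ n)‖) atTop (𝓝 0) := by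
    have := (hl.comp hφ.tendsto_atTop).norm
    simpa using this
  have h2 : Tendsto (fun n => (⌊s / ‖v (φ n)‖⌋ : ℝ) * ‖v (φ n)‖) atTop (𝓝 s) := by
    rw [tendsto_iff_norm_sub_tendsto_zero]
    refine squeeze_zero (fun n => norm_nonneg _) (fun n => ?_) h1
    rw [Real.norm_eq_abs, abs_le]
    have hp := hn (φ n)
    have e1 := Int.floor_le (s / ‖v (φ n)‖)
    have e2 := Int.lt_floor_add_one (s / ‖v (φ n)‖)
    rw [le_div_iff₀ hp] at e1
    rw [div_lt_iff₀ hp] at e2
    constructor
    · linarith
    · linarith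
  have h3 : Tendsto (fun n => ⌊s / ‖v (φ n)‖⌋ • v (φ n)) atTop (𝓝 (s • u)) := by
    have := h2.smul hlim
    refine this.congr fun n => ?_
    have hp := hn (φ n)
    simp only [Function.comp]
    rw [smul_smul, mul_assoc, mul_inv_cancel₀ hp.ne', mul_one]
    exact Int.cast_smul_eq_zsmul ℝ _ _
  exact hG.mem_of_tendsto h3 (Eventually.of_forall fun n => G.zsmul_mem (hv _) _)

/-- If the point `x` has stabiliser elements `≠ 1` arbitrarily close to `1`, then a one-parameter
subgroup fixes it.
Proof. `h_n → 1`, `h_n ≠ 1`, `h_n x = x`; write `h_n = (exp (v_n c))_c` with `v_n → 0`, `v_n ≠ 0`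
(`Complex.log` near `1`); a subsequence of `v_n / ‖v_n‖` converges to a unit vector `v`. For real `s` let
`N_n = ⌊s / ‖v_n‖⌋`: `N_n v_n → s v`, and `h_n ^ N_n x = x`, so `exp (s v) x = x` (continuity of the action,
`T2`). -/
theorem exists_one_param {x : X} (h : ∀ ε > 0, ∃ a, InT a ∧ a ≠ 1 ∧ (∀ c, ‖a c - 1‖ < ε) ∧
    A.act a x = x) : ∃ v : Fin r → ℂ, ‖v‖ = 1 ∧
      ∀ s : ℝ, A.act (fun c => Complex.exp (s * v c)) x = x := by
  have hpos : ∀ n : ℕ, (0 : ℝ) < 1 / ((n : ℝ) + 1) := fun n => by positivity
  choose a ha h1 hc hx using fun n : ℕ => h (1 / ((n : ℝ) + 1)) (hpos n)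
  have hexp : ∀ n, (fun c => Complex.exp (Complex.log (a n c))) = a n := fun n =>
    funext fun c => Complex.exp_log (ha n c)
  have hlim : Tendsto (fun n => (fun c => Complex.log (a n c) : Fin r → ℂ)) atTop (𝓝 0) := by
    rw [tendsto_pi_nhds]
    intro c
    have e1 : Tendsto (fun n => a n c) atTop (𝓝 1) := by
      rw [tendsto_iff_norm_sub_tendsto_zero]
      exact squeeze_zero (fun n => norm_nonneg _) (fun n => (hc n c).le)
        tendsto_one_div_add_atTop_nhds_zero_nat
    have e2 : ContinuousAt Complex.log 1 := continuousAt_clog (by simp [Complex.slitPlane])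
    have e3 := e2.tendsto.comp e1
    simpa [Function.comp_def] using e3
  obtain ⟨u, hu, hs⟩ := freed_line (freedG A x) (freed_closed A x)
    (fun n => (fun c => Complex.log (a n c))) (fun n => by
      rw [freed_mem, hexp n]
      exact hx n) (fun n h0 => h1 n (by
        rw [← hexp n]
        funext c
        have := congrFun h0 c
        simp only [Pi.zero_apply] at this
        rw [this, Complex.exp_zero]
        rfl)) hlim
  refine ⟨u, hu, fun s => ?_⟩
  have := (freed_mem A x _).1 (hs s)
  simpa using this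

omit [IsManifold 𝓘(ℂ, E) ω X] [T2Space X] in
/-- A point whose stabiliser contains a one-parameter group has an infinite stabiliser. -/
theorem freed_infinite {x : X} {v : Fin r → ℂ} (hv : ‖v‖ = 1)
    (hs : ∀ s : ℝ, A.act (fun c => Complex.exp (s * v c)) x = x) :
    {a : Fin r → ℂ | InT a ∧ A.act a x = x}.Infinite := by
  obtain ⟨c, hc⟩ : ∃ c, v c ≠ 0 := by
    by_contra hcon
    push Not at hcon
    have : v = 0 := funext hcon
    rw [this, norm_zero] at hv
    exact zero_ne_one hv
  refine Set.infinite_of_injective_forall_mem (f := fun n : ℕ =>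
    (fun c => Complex.exp (((1 / ((n : ℝ) + 1) : ℝ) : ℂ) * v c))) ?_ ?_
  · intro n m hnm
    have e1 : Complex.exp (((1 / ((n : ℝ) + 1) : ℝ) : ℂ) * v c) =
        Complex.exp (((1 / ((m : ℝ) + 1) : ℝ) : ℂ) * v c) := congrFun hnm c
    have hb : ∀ k : ℕ, |((((1 / ((k : ℝ) + 1) : ℝ) : ℂ)) * v c).im| ≤ 1 := by
      intro k
      have hk : (0 : ℝ) ≤ k := Nat.cast_nonneg k
      calc |((((1 / ((k : ℝ) + 1) : ℝ) : ℂ)) * v c).im| ≤ ‖(((1 / ((k : ℝ) + 1) : ℝ) : ℂ)) * v c‖ :=
            Complex.abs_im_le_norm _
        _ = (1 / ((k : ℝ) + 1)) * ‖v c‖ := by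
            rw [norm_mul, Complex.norm_real, Real.norm_of_nonneg (by positivity)]
        _ ≤ 1 * 1 := by
            apply mul_le_mul _ _ (norm_nonneg _) zero_le_one
            · rw [div_le_one (by positivity)]
              linarith
            · rw [← hv]
              exact norm_le_pi_norm v c
        _ = 1 := one_mul 1
    have hpi := Real.pi_gt_three
    have e2 := Complex.exp_inj_of_neg_pi_lt_of_le_pi
      (by linarith [(abs_le.1 (hb n)).1]) (by linarith [(abs_le.1 (hb n)).2])
      (by linarith [(abs_le.1 (hb m)).1]) (by linarith [(abs_le.1 (hb m)).2]) e1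
    have e3 := mul_right_cancel₀ hc e2
    have e4 : (1 / ((n : ℝ) + 1) : ℝ) = 1 / ((m : ℝ) + 1) := by exact_mod_cast e3
    have e5 : ((n : ℝ) + 1) = (m : ℝ) + 1 := by
      have := congrArg (fun z : ℝ => z⁻¹) e4
      simpa using this
    exact_mod_cast add_right_cancel e5
  · intro n
    exact ⟨fun c => Complex.exp_ne_zero _, hs _⟩

/-- If some point of `X` has a finite stabiliser and `U` is dense, then some point of `U` is not
fixed by `T_{i₀}` modulo `T_S`.

Proof. Suppose not. Let `x ∈ U`. For each `a ∈ T_{i₀}` there is `b ∈ T_S` with `a x = b x`, so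
`h = b⁻¹ a` fixes `x` and has `i₀`-th coordinate `a i₀` (`i₀ ∉ S`). For the infinitely many `a` with
`a i₀ ∈ [1, 2]` the points `a x = b x` lie in a compact set (image of `[1,2]`), so by `Good.proper` (for this
compact set together with `x`) the `b`, hence the `h`, lie in a compact subset of the torus; two of them,
`h ≠ h'`, are as close as we like, and `h⁻¹ h'` fixes `x`, is `≠ 1` and close to `1`. By `exists_one_param` there
is a unit vector `v` with `exp (s v) x = x` for all real `s`. Now let `x0` be a point with finite stabiliser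
and `x_n → x0` a net/filter in `U` (dense): the set of pairs `{(x, v) : ‖v‖ = 1, ∀ s, exp (s v) x = x}` is
closed and the unit sphere is compact, so there is a unit `v` for `x0`: its stabiliser is infinite
(`exp (s v)`, `s` small, are pairwise different). Contradiction. -/
theorem exists_not_fixed {S : Finset (Fin r)} (hG : Good A S U) (hd : Dense U) {i₀ : Fin r}
    (hi₀ : i₀ ∉ S) (hfin : ∃ x0, {a : Fin r → ℂ | InT a ∧ A.act a x0 = x0}.Finite) :
    ∃ x ∈ U, ∃ a, InTS {i₀} a ∧ ∀ b, InTS S b → A.act a x ≠ A.act b x := by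
  by_contra hcon
  push Not at hcon
  have key : ∀ x ∈ U, ∃ v : Fin r → ℂ, ‖v‖ = 1 ∧
      ∀ s : ℝ, A.act (fun c => Complex.exp (s * v c)) x = x := by
    intro x hx
    apply exists_one_param
    intro ε hε
    -- the elements `a_n`
    set t : ℕ → ℝ := fun n => 1 + 1 / ((n : ℝ) + 1) with ht
    have htp : ∀ n, 0 < t n := fun n => by
      have : (0 : ℝ) < 1 / ((n : ℝ) + 1) := by positivity
      simp only [ht]
      linarith
    have htI : ∀ n, t n ∈ Icc (1 : ℝ) 2 := fun n => by
      have h1 : (0 : ℝ) < 1 / ((n : ℝ) + 1) := by positivity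
      have h2 : 1 / ((n : ℝ) + 1) ≤ 1 := by
        rw [div_le_one (by positivity)]
        linarith [(Nat.cast_nonneg n : (0 : ℝ) ≤ n)]
      simp only [ht]
      exact ⟨by linarith, by linarith⟩
    have htinj : Function.Injective t := by
      intro n m hnm
      simp only [ht] at hnm
      have e4 : (1 / ((n : ℝ) + 1) : ℝ) = 1 / ((m : ℝ) + 1) := by linarith
      have e5 : ((n : ℝ) + 1) = (m : ℝ) + 1 := by
        have := congrArg (fun z : ℝ => z⁻¹) e4
        simpa using this
      exact_mod_cast add_right_cancel e5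
    have htl : Tendsto t atTop (𝓝 1) := by
      have := (tendsto_one_div_add_atTop_nhds_zero_nat (𝕜 := ℝ)).const_add 1
      simpa [ht] using this
    let q : ℝ → Fin r → ℂ := fun z => Function.update 1 i₀ (z : ℂ)
    have hqT : ∀ z : ℝ, 0 < z → InTS {i₀} (q z) := by
      intro z hz
      refine ⟨fun c => ?_, fun c hc => ?_⟩
      · by_cases hc : c = i₀
        · subst hc
          simp only [q, Function.update_self]
          exact_mod_cast hz.ne'
        · simp only [q, Function.update_of_ne hc]
          exact one_ne_zero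
      · rw [Finset.mem_singleton] at hc
        simp only [q, Function.update_of_ne hc, Pi.one_apply]
    have hqc : Continuous q := by
      refine continuous_pi fun c => ?_
      by_cases hc : c = i₀
      · subst hc
        simp only [q, Function.update_self]
        exact Complex.continuous_ofReal
      · simp only [q, Function.update_of_ne hc]
        exact continuous_const
    choose b hb hab using fun n => hcon x hx (q (t n)) (hqT _ (htp n))
    -- the compact set
    have hC1 : IsCompact ((fun z : ℝ => A.act (q z) x) '' Icc 1 2) := by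
      apply isCompact_Icc.image_of_continuousOn
      intro z hz
      apply ContinuousAt.continuousWithinAt
      have hz0 : 0 < z := lt_of_lt_of_le one_pos hz.1
      exact ContinuousAt.comp (g := fun v : (Fin r → ℂ) × X => A.act v.1 v.2)
        (f := fun z : ℝ => (q z, x)) (freed_cont A (hqT z hz0).1 x)
        ((hqc.prodMk continuous_const).continuousAt)
    have hC2 : ((fun z : ℝ => A.act (q z) x) '' Icc 1 2) ⊆ U := by
      rintro _ ⟨z, hz, rfl⟩
      exact hG.inv _ (hqT z (lt_of_lt_of_le one_pos hz.1)).1 x hx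
    have hxC : x ∈ ((fun z : ℝ => A.act (q z) x) '' Icc 1 2) := by
      refine ⟨1, ⟨le_refl _, one_le_two⟩, ?_⟩
      have : q 1 = 1 := by
        simp only [q, Complex.ofReal_one]
        exact Function.update_eq_self i₀ 1
      simp only [this, A.one]
    obtain ⟨R, hR⟩ := hG.proper _ hC2 hC1
    have hbR : ∀ n c, ‖b n c‖ ≤ R ∧ ‖(b n c)⁻¹‖ ≤ R := fun n c => by
      refine hR (b n) (hb n) x hxC ?_ c
      rw [← hab n]
      exact ⟨t n, htI n, rfl⟩
    -- a convergent subsequence of the inverses
    let d : ℕ → Fin r → ℂ := fun n => (b n)⁻¹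
    obtain ⟨d0, hd0, φ, hφ, hlim⟩ := (isCompact_univ_pi
      (fun _ : Fin r => isCompact_closedBall (0 : ℂ) R)).tendsto_subseq (x := d) (by
        intro n c _
        rw [mem_closedBall_zero_iff]
        exact (hbR n c).2)
    have hd0T : InT d0 := by
      intro c h0
      have e1 : Tendsto (fun n => ‖d (φ n) c‖) atTop (𝓝 ‖d0 c‖) :=
        (((continuous_apply c).tendsto _).comp hlim).norm
      rw [h0, norm_zero] at e1
      have hRpos : 0 < R := by
        have := (hbR 0 c).1
        exact lt_of_lt_of_le (norm_pos_iff.2 ((hb 0).1 c)) this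
      have e2 : ∀ n, R⁻¹ ≤ ‖d (φ n) c‖ := by
        intro n
        simp only [d, Pi.inv_apply, norm_inv]
        exact inv_anti₀ (norm_pos_iff.2 ((hb _).1 c)) (hbR _ c).1
      have e3 := ge_of_tendsto e1 (Eventually.of_forall e2)
      exact absurd e3 (not_le.2 (inv_pos.2 hRpos))
    -- the elements `h_n`
    let g : ℕ → Fin r → ℂ := fun n => d (φ n) * q (t (φ n))
    have hgT : ∀ n, InT (g n) := fun n => (hb (φ n)).1.inv.mul (hqT _ (htp _)).1
    have hgx : ∀ n, A.act (g n) x = x := by
      intro n
      simp only [g, d]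
      rw [A.mul _ _ (hb (φ n)).1.inv (hqT _ (htp _)).1, hab (φ n), act_inv_act A (hb (φ n)).1]
    have hgl : Tendsto g atTop (𝓝 d0) := by
      have e1 : Tendsto (fun n => q (t (φ n))) atTop (𝓝 (q 1)) :=
        (hqc.tendsto 1).comp (htl.comp hφ.tendsto_atTop)
      have e2 : q 1 = 1 := by
        simp only [q, Complex.ofReal_one]
        exact Function.update_eq_self i₀ 1
      rw [e2] at e1
      have := hlim.mul e1
      simpa [g, Function.comp_def] using this
    have hgi : ∀ n, g n i₀ = (t (φ n) : ℂ) := by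
      intro n
      simp only [g, d, Pi.mul_apply, Pi.inv_apply, q, Function.update_self]
      rw [(hb (φ n)).2 i₀ hi₀]
      simp
    -- quotients
    have hql : Tendsto (fun n => (g n)⁻¹ * g (n + 1)) atTop (𝓝 1) := by
      rw [tendsto_pi_nhds]
      intro c
      have e1 : Tendsto (fun n => g n c) atTop (𝓝 (d0 c)) :=
        ((continuous_apply c).tendsto _).comp hgl
      have e2 := (e1.inv₀ (hd0T c)).mul (e1.comp (tendsto_add_atTop_nat 1))
      rw [inv_mul_cancel₀ (hd0T c)] at e2
      simpa [Function.comp_def] using e2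
    have hev : ∀ᶠ n in atTop, ∀ c, ‖((g n)⁻¹ * g (n + 1)) c - 1‖ < ε := by
      rw [eventually_all]
      intro c
      have e1 : Tendsto (fun n => ((g n)⁻¹ * g (n + 1)) c) atTop (𝓝 1) :=
        ((continuous_apply c).tendsto _).comp hql
      have e2 := (tendsto_iff_norm_sub_tendsto_zero.1 e1).eventually (gt_mem_nhds hε)
      exact e2
    obtain ⟨n, hn⟩ := hev.exists
    refine ⟨(g n)⁻¹ * g (n + 1), (hgT n).inv.mul (hgT _), ?_, hn, ?_⟩
    · intro h1
      have e1 := congrFun h1 i₀
      simp only [Pi.mul_apply, Pi.inv_apply, Pi.one_apply] at e1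
      have e2 : g n i₀ = g (n + 1) i₀ := by
        have h0 := (hgT n) i₀
        field_simp at e1
        exact e1.symm
      rw [hgi, hgi] at e2
      have e3 : t (φ n) = t (φ (n + 1)) := by exact_mod_cast e2
      have e4 := hφ.injective (htinj e3)
      omega
    · rw [A.mul _ _ (hgT n).inv (hgT _), hgx]
      conv_lhs => rw [← hgx n]
      exact act_inv_act A (hgT n) x
  -- the limit
  obtain ⟨x0, hx0⟩ := hfin
  let Sp := Metric.sphere (0 : Fin r → ℂ) 1
  have : CompactSpace Sp := isCompact_iff_compactSpace.1 (isCompact_sphere _ _)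
  let Z : Set (X × Sp) := ⋂ s : ℝ, {p | A.act (fun c => Complex.exp (s * (p.2 : Fin r → ℂ) c)) p.1
    = p.1}
  have hZ : IsClosed Z := by
    apply isClosed_iInter
    intro s
    have hcont : Continuous (fun p : X × Sp => (fun c => (s : ℂ) * (p.2 : Fin r → ℂ) c :
        Fin r → ℂ)) := by
      refine continuous_pi fun c => ?_
      exact continuous_const.mul ((continuous_apply c).comp
        (continuous_subtype_val.comp continuous_snd))
    exact isClosed_eq (freed_cexp A hcont continuous_fst) continuous_fst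
  have hI : IsClosed (Prod.fst '' Z) := isClosedMap_fst_of_compactSpace Z hZ
  have hUI : U ⊆ Prod.fst '' Z := by
    intro x hx
    obtain ⟨v, hv, hs⟩ := key x hx
    refine ⟨(x, ⟨v, by simpa [Sp] using hv⟩), ?_, rfl⟩
    exact Set.mem_iInter.2 fun s => hs s
  have hall : x0 ∈ Prod.fst '' Z := hI.closure_subset_iff.2 hUI (hd x0)
  obtain ⟨⟨y, v⟩, hy, hyx⟩ := hall
  have hyx' : y = x0 := hyx
  subst hyx'
  refine freed_infinite (A := A) (x := y) (v := v) ?_ ?_ hx0
  · simpa [Sp] using v.2
  · intro s
    exact Set.mem_iInter.1 hy s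

end Pool.Agent.Abd
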