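import Pool.Agent.H.MP_e23cd6_ag.GT.Alg

/-! The identity theorem for sections. -/

set_option autoImplicit false

open scoped Manifold ContDiff Topology ENNReal
open MeasureTheory Set Filter

namespace Pool.Agent.Abd

variable {E : Type} [NormedAddCommGroup E] [NormedSpace ℂ E]
  {X : Type} [TopologicalSpace X] [ChartedSpace E X] [IsManifold 𝓘(ℂ, E) ω X]
  {L P : LineBundle E X} {K J m : ℕ} {U : Set X}

omit [IsManifold 𝓘(ℂ, E) ω X] in
/-- a section read in a chart is analytic -/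
theorem idt_analytic (s : Sec2 L P K J m U) {i : L.ι} {j : P.ι} {φ : OpenPartialHomeomorph X E}
    {x : X} (hx : x ∈ U) (h : At L P i j φ x) : AnalyticAt ℂ (s.f i j φ ∘ φ.symm) (φ x) := by
  have h2 : ContMDiffAt 𝓘(ℂ, E) 𝓘(ℂ, E) ω φ.symm (φ x) :=
    contMDiffAt_symm_of_mem_maximalAtlas h.chart (φ.map_source h.mem)
  have h3 : ContMDiffAt 𝓘(ℂ, E) 𝓘(ℂ) ω (s.f i j φ) (φ.symm (φ x)) := by
    rw [φ.left_inv h.mem]
    exact s.hol' hx h
  have h4 := (ContMDiffAt.comp (φ x) h3 h2).contDiffAt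
  exact h4.analyticAt

omit [NormedSpace ℂ E] [ChartedSpace E X] [IsManifold 𝓘(ℂ, E) ω X] in
theorem idt_symm {x : X} {φ : OpenPartialHomeomorph X E} (hx : x ∈ φ.source) :
    Filter.Tendsto φ.symm (𝓝 (φ x)) (𝓝 x) := by
  have h1 := φ.continuousAt_symm (φ.map_source hx)
  unfold ContinuousAt at h1
  rwa [φ.left_inv hx] at h1

/-- A section over a connected open set which is nonzero somewhere is nonzero somewhere in every
nonempty open subset.

Proof. Let `Z` be the set of `x ∈ U` near which `s` vanishes identically (`∀ᶠ y in 𝓝 x, ¬ s.NZ y`). `Z` is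
open. `Z` is closed in `U`: for `x ∈ U ∩ closure Z` take frames and the chart `φ` at `x`; the function
`s.f i j φ ∘ φ.symm` is analytic at `φ x`, on a ball around `φ x`, and vanishes on a nonempty open subset
of the ball, hence on the ball (`AnalyticOnNhd.eqOn_zero_of_preconnected_of_eventuallyEq_zero`). `U`
preconnected and not contained in `Z` (a point where `s` is nonzero), so `Z = ∅`. -/
theorem nz_dense (hU : IsOpen U) (hc : IsPreconnected U) (s : Sec2 L P K J m U)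
    (hs : ∃ x ∈ U, s.NZ x) {W : Set X} (hW : IsOpen W) (hWU : W ⊆ U) (hne : W.Nonempty) :
    ∃ x ∈ W, s.NZ x := by
  by_contra hno
  push Not at hno
  set Z : Set X := {x | ∀ᶠ y in 𝓝 x, ¬ s.NZ y} with hZ
  have hZo : IsOpen Z := isOpen_setOfPred_eventually_nhds
  have hne' : (U ∩ Z).Nonempty := by
    obtain ⟨w, hw⟩ := hne
    exact ⟨w, hWU hw, Filter.mem_of_superset (hW.mem_nhds hw) fun y hy => hno y hy⟩
  have hcl : closure Z ∩ U ⊆ Z := by
    rintro x ⟨hxZ, hxU⟩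
    obtain ⟨i, j, hAt⟩ := exists_at L P x
    set φ := chartAt E x with hφ
    -- the good neighbourhood of `φ x`
    have h1 : ∀ᶠ y in 𝓝 x, At L P i j φ y ∧ y ∈ U :=
      hAt.eventually.and (hU.mem_nhds hxU)
    have h2 : ∀ᶠ w in 𝓝 (φ x), (At L P i j φ (φ.symm w) ∧ φ.symm w ∈ U) ∧ w ∈ φ.target :=
      ((idt_symm hAt.mem).eventually h1).and (φ.open_target.mem_nhds (φ.map_source hAt.mem))
    obtain ⟨ε, hε, hball⟩ := Metric.eventually_nhds_iff_ball.1 h2
    have hana : AnalyticOnNhd ℂ (s.f i j φ ∘ φ.symm) (Metric.ball (φ x) ε) := by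
      intro w hw
      obtain ⟨⟨h3, h4⟩, h5⟩ := hball w hw
      have h6 := idt_analytic s h4 h3
      rwa [φ.right_inv h5] at h6
    -- a point of `Z` close to `x`
    have h3 : ∀ᶠ y in 𝓝 x, y ∈ φ.source ∧ φ y ∈ Metric.ball (φ x) ε := by
      have h4 := (φ.continuousAt hAt.mem).eventually
        (Metric.isOpen_ball.mem_nhds (Metric.mem_ball_self hε))
      filter_upwards [φ.open_source.mem_nhds hAt.mem, h4] with y hy1 hy2
      exact ⟨hy1, hy2⟩
    obtain ⟨z, ⟨hz1, hz2⟩, hz3⟩ := (mem_closure_iff_nhds.1 hxZ) _ h3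
    have hz4 : ∀ᶠ w in 𝓝 (φ z), ¬ s.NZ (φ.symm w) := (idt_symm hz1).eventually hz3
    have hz5 : (s.f i j φ ∘ φ.symm) =ᶠ[𝓝 (φ z)] 0 := by
      filter_upwards [hz4, Metric.isOpen_ball.mem_nhds hz2] with w hw1 hw2
      obtain ⟨⟨h4, h5⟩, -⟩ := hball w hw2
      by_contra h6
      exact hw1 ((s.nz_iff h5 h4).2 h6)
    have hzero := hana.eqOn_zero_of_preconnected_of_eventuallyEq_zero
      (convex_ball (φ x) ε).isPreconnected hz2 hz5
    show ∀ᶠ y in 𝓝 x, ¬ s.NZ y
    filter_upwards [h3, h1] with y hy1 hy2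
    rw [s.nz_iff hy2.2 hy2.1, not_not]
    have h7 := hzero hy1.2
    change s.f i j φ (φ.symm (φ y)) = 0 at h7
    rwa [φ.left_inv hy1.1] at h7
  obtain ⟨x, hxU, hx⟩ := hs
  have h8 : x ∈ Z := hc.subset_of_closure_inter_subset hZo hne' hcl hxU
  have h9 : ∀ᶠ y in 𝓝 x, ¬ s.NZ y := h8
  exact h9.self_of_nhds hx

/-- The nonzero locus of a section is open. -/
theorem nz_isOpen (hU : IsOpen U) (s : Sec2 L P K J m U) : IsOpen {x | x ∈ U ∧ s.NZ x} := by
  rw [isOpen_iff_mem_nhds]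
  rintro x ⟨hx, hs⟩
  obtain ⟨i, j, hAt⟩ := exists_at L P x
  have h0 := (s.nz_iff hx hAt).1 hs
  have h1 : ContinuousAt (s.f i j (chartAt E x)) x := (s.hol' hx hAt).continuousAt
  filter_upwards [hU.mem_nhds hx, hAt.eventually, h1.eventually_ne h0] with y h2 h3 h4
  exact ⟨h2, (s.nz_iff h2 h3).2 h4⟩

end Pool.Agent.Abd
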