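import Pool.Agent.H.MP_e23cd6_ag.GT.Alg
import Pool.Agent.H.MP_e23cd6_ag.KltChart

/-! The klt condition may be checked in one frame near each point. -/

set_option autoImplicit false

open scoped Manifold ContDiff Topology ENNReal
open MeasureTheory Set Filter

namespace Pool.Agent.Abd

variable {E : Type} [NormedAddCommGroup E] [NormedSpace ℂ E] [FiniteDimensional ℂ E]
  [MeasureSpace E] [BorelSpace E] [(volume : Measure E).IsAddHaarMeasure]
  {X : Type} [TopologicalSpace X] [ChartedSpace E X] [IsManifold 𝓘(ℂ, E) ω X]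
  {L P : LineBundle E X} {K J m : ℕ} {U : Set X}

/-- The same as `klt_of_local` (KltChart.lean) for `Sec2`; copy that proof (two factors
`L.g ^ K * P.g ^ J` instead of one). -/
theorem klt2_of_local (hU : IsOpen U) (t : Sec2 L P K J m U)
    (ht : ∀ x ∈ U, ∃ i j φ, At L P i j φ x ∧
      ∃ N ∈ 𝓝 (φ x), ∫⁻ z in N, ‖t.f i j φ (φ.symm z)‖ₑ ^ (-(2 : ℝ) / m) < ⊤) : t.Klt := by
  intro i' j' φ' hφ' x hxU hxi' hxj' hxφ'
  obtain ⟨i, j, φ, hat, N, hN, hint⟩ := ht x hxU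
  have hφ := hat.chart
  have hxi := hat.memL
  have hxj := hat.memP
  have hxφ := hat.mem
  haveI : FiniteDimensional ℝ E := FiniteDimensional.complexToReal E
  set τ : ℝ := 2 / m with hτd
  have hτ : 0 ≤ τ := by positivity
  have hτe : -(2 : ℝ) / m = -τ := by rw [hτd, neg_div]
  rw [hτe] at hint ⊢
  -- the bound near x
  have hg : ContinuousAt (L.g i i') x := (L.hol i i' x hxi hxi').continuousAt
  have hg' : ContinuousAt (P.g j j') x := (P.hol j j' x hxj hxj').continuousAt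
  have hj : ContinuousAt (jac φ φ') x := kltchart_jac_continuousAt hφ hφ' hxφ hxφ'
  have hgj : ContinuousAt (fun y => ‖L.g i i' y ^ K * P.g j j' y ^ J * jac φ φ' y ^ m‖) x :=
    (((hg.pow K).mul (hg'.pow J)).mul (hj.pow m)).norm
  set C : ℝ := ‖L.g i i' x ^ K * P.g j j' x ^ J * jac φ φ' x ^ m‖ + 1 with hC
  have hCpos : 0 < C := by positivity
  have hev1 : ∀ᶠ y in 𝓝 x, ‖L.g i i' y ^ K * P.g j j' y ^ J * jac φ φ' y ^ m‖ < C :=
    hgj.eventually_lt continuousAt_const (by rw [hC]; linarith)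
  -- the Jacobian of the coordinate change
  set F : E → E := φ' ∘ φ.symm with hF
  have hFx : ContDiffAt ℂ ω F (φ x) := kltchart_contDiffAt hφ' hφ hxφ' hxφ
  set Jd : E → ℝ := fun w => |((fderiv ℂ F w).restrictScalars ℝ).det| with hJ
  have hJc : ContinuousAt Jd (φ x) := kltchart_det_continuousAt hFx
  have hev2 : ∀ᶠ z in 𝓝 (φ x), Jd z < Jd (φ x) + 1 :=
    hJc.eventually_lt continuousAt_const (by linarith)
  -- pull back the first condition
  have hsymm : Filter.Tendsto φ.symm (𝓝 (φ x)) (𝓝 x) := by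
    have h1 := φ.symm.continuousAt (φ.map_source hxφ)
    have h2 : φ.symm (φ x) = x := φ.left_inv hxφ
    rw [ContinuousAt, h2] at h1
    exact h1
  have hev3 : ∀ᶠ y in 𝓝 x, y ∈ U ∧ y ∈ L.U i ∧ y ∈ L.U i' ∧ y ∈ P.U j ∧ y ∈ P.U j' ∧ y ∈ φ.source ∧ y ∈ φ'.source ∧
      ‖L.g i i' y ^ K * P.g j j' y ^ J * jac φ φ' y ^ m‖ < C := by
    filter_upwards [hU.mem_nhds hxU, (L.isOpen i).mem_nhds hxi, (L.isOpen i').mem_nhds hxi',
      (P.isOpen j).mem_nhds hxj, (P.isOpen j').mem_nhds hxj',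
      φ.open_source.mem_nhds hxφ, φ'.open_source.mem_nhds hxφ', hev1] with y h0 h1 h2 h1' h2' h3 h4 h5
    exact ⟨h0, h1, h2, h1', h2', h3, h4, h5⟩
  have hev4 := hsymm.eventually hev3
  have hev5 : ∀ᶠ z in 𝓝 (φ x), z ∈ N ∧ z ∈ φ.target ∧ Jd z < Jd (φ x) + 1 ∧
      φ.symm z ∈ U ∧ φ.symm z ∈ L.U i ∧ φ.symm z ∈ L.U i' ∧ φ.symm z ∈ P.U j ∧
      φ.symm z ∈ P.U j' ∧ φ.symm z ∈ φ.source ∧ φ.symm z ∈ φ'.source ∧
      ‖L.g i i' (φ.symm z) ^ K * P.g j j' (φ.symm z) ^ J * jac φ φ' (φ.symm z) ^ m‖ < C := by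
    filter_upwards [hN, φ.open_target.mem_nhds (φ.map_source hxφ), hev2, hev4] with z h1 h2 h3 h4
    exact ⟨h1, h2, h3, h4⟩
  obtain ⟨A, hA, hAo, hxA⟩ := eventually_nhds_iff.1 hev5
  have hAsrc : A ⊆ (φ.symm.trans φ').source := by
    intro z hz
    obtain ⟨a1, a2, a3, a4, a5, a6, a7, a8, a9, a10, a11⟩ := hA z hz
    simp only [OpenPartialHomeomorph.trans_source, OpenPartialHomeomorph.symm_source, mem_inter_iff,
      mem_preimage]
    exact ⟨a2, a10⟩
  have hFe : ∀ z, (φ.symm.trans φ') z = F z := fun z => rfl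
  have hFA : (φ.symm.trans φ') '' A = F '' A := rfl
  refine ⟨F '' A, ?_, ?_⟩
  · have h1 : IsOpen ((φ.symm.trans φ') '' A) :=
      (φ.symm.trans φ').isOpen_image_of_subset_source hAo hAsrc
    rw [hFA] at h1
    refine h1.mem_nhds ⟨φ x, hxA, ?_⟩
    simp only [hF, Function.comp, φ.left_inv hxφ]
  · have hinj : InjOn F A := by
      intro z hz w hw h
      exact (φ.symm.trans φ').injOn (hAsrc hz) (hAsrc hw) h
    have hder : ∀ z ∈ A, HasFDerivWithinAt F ((fderiv ℂ F z).restrictScalars ℝ) A z := by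
      intro z hz
      obtain ⟨a1, a2, a3, a4, a5, a6, a7, a8, a9, a10, a11⟩ := hA z hz
      have h2 := kltchart_contDiffAt hφ' hφ a10 a9
      rw [φ.right_inv a2] at h2
      have h3 : HasFDerivAt F (fderiv ℂ F z) z :=
        (h2.differentiableAt (by simp)).hasFDerivAt
      exact (h3.restrictScalars ℝ).hasFDerivWithinAt
    rw [lintegral_image_eq_lintegral_abs_det_fderiv_mul volume hAo.measurableSet hder hinj]
    have hle : ∀ z ∈ A, ENNReal.ofReal |((fderiv ℂ F z).restrictScalars ℝ).det| *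
        ‖t.f i' j' φ' (φ'.symm (F z))‖ₑ ^ (-τ) ≤
        ENNReal.ofReal (Jd (φ x) + 1) * (ENNReal.ofReal C) ^ τ *
          ‖t.f i j φ (φ.symm z)‖ₑ ^ (-τ) := by
      intro z hz
      obtain ⟨h1, h2, h3, h0, h4, h5, h4', h5', h6, h7, h8⟩ := hA z hz
      have h9 : φ'.symm (F z) = φ.symm z := φ'.left_inv h7
      rw [h9, mul_assoc]
      refine mul_le_mul' (ENNReal.ofReal_le_ofReal h3.le) ?_
      refine kltchart_enorm_rpow (by simpa using hCpos) ENNReal.ofReal_ne_top hτ ?_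
      rw [t.trans i j i' j' φ hφ φ' hφ' (φ.symm z) h0 h4 h4' h5 h5' h6 h7, enorm_mul]
      refine mul_le_mul' ?_ le_rfl
      rw [← ofReal_norm]
      exact ENNReal.ofReal_le_ofReal h8.le
    calc _ ≤ ∫⁻ z in A, ENNReal.ofReal (Jd (φ x) + 1) * (ENNReal.ofReal C) ^ τ *
          ‖t.f i j φ (φ.symm z)‖ₑ ^ (-τ) := setLIntegral_mono' hAo.measurableSet hle
      _ = ENNReal.ofReal (Jd (φ x) + 1) * (ENNReal.ofReal C) ^ τ *
          ∫⁻ z in A, ‖t.f i j φ (φ.symm z)‖ₑ ^ (-τ) :=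
        lintegral_const_mul' _ _ (ENNReal.mul_ne_top ENNReal.ofReal_ne_top
          (ENNReal.rpow_ne_top_of_nonneg hτ ENNReal.ofReal_ne_top))
      _ < ⊤ := by
        refine ENNReal.mul_lt_top ?_ ?_
        · exact (ENNReal.mul_ne_top ENNReal.ofReal_ne_top
            (ENNReal.rpow_ne_top_of_nonneg hτ ENNReal.ofReal_ne_top)).lt_top
        · refine lt_of_le_of_lt (lintegral_mono_set ?_) hint
          exact fun z hz => (hA z hz).1

end Pool.Agent.Abd
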