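import Pool.Agent.H.MP_e23cd6_ag.GT.KltPt
import Pool.Agent.H.MP_e23cd6_ag.GT.Klt2
import Pool.Agent.H.MP_e23cd6_ag.GT.BertC
import Pool.Agent.H.MP_e23cd6_ag.GT.FourD

/-! The klt pair on the quotient. -/

set_option autoImplicit false

open scoped Manifold ContDiff Topology ENNReal
open MeasureTheory Set Filter

namespace Pool.Agent.Abd

variable {E : Type} [NormedAddCommGroup E] [NormedSpace ℂ E] [FiniteDimensional ℂ E]
  [MeasureSpace E] [BorelSpace E] [(volume : Measure E).IsAddHaarMeasure] {r : ℕ}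
  {X : Type} [TopologicalSpace X] [ChartedSpace E X] [IsManifold 𝓘(ℂ, E) ω X] [T2Space X]
  [CompactSpace X] {A : TorusAction E r X} {L P : LineBundle E X} {K J m k : ℕ} {U : Set X}
  (ΛL : Linearization A L) (ΛP : Linearization A P)

/-- The klt transfer.

Proof. Components `Ξ, sν` of `s` (`exists_components`), `fm_sum Ξ m hm (k χ i₀) 1` gives `q ≥ 2, Λ, c0`.
For each `x0 ∈ U'` `klt_point` gives frames, a chart and an open `V`. `U'` is covered by countably many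
of the `V` (`X` is second countable: `ChartedSpace.secondCountable_of_sigmaCompact E X`;
`TopologicalSpace.countable_cover_nhds` / `isOpen.. Lindelof`). `bertini_countable` with the measures
`volume.restrict (φ_j '' V_j)` and `g j l w = ∏ ν (sν ν).f … (φ.symm w) ^ l ν` (continuous on the open set
`φ '' V`: `contMDiff`), `τ = 2 / (m q)` (`0 < τ < 2` since `m q ≥ 2`) gives `C : Λ → ℂ`. Let
`t = sum_l C l • mono Ξ sν l` restricted to `U'` (`Sec2.mono Finset.univ (fun ν : Ξ => sν ν) l q`,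
`Sec2.sum`, `Sec2.smul`, `Sec2.res`), of bidegree `(q (k K), q (k J), q m)`; its weight is
`χ' = q k χ` on `insert i₀ S` by `OfWt.mono` (`∑ l ν (k χ c) = q k χ c` for `c ∈ S`, `∑ l ν ν = q k χ i₀`
for `c = i₀`; note `i₀ ∉ S`). `Klt` by `klt2_of_local`. -/
theorem klt_transfer {S : Finset (Fin r)} (hG : Good A S U) {i₀ : Fin r} (hi₀ : i₀ ∉ S)
    {U' : Set X} (hU' : IsOpen U') (hU'U : U' ⊆ U)
    (hp : ∀ C ⊆ U', IsCompact C → ∃ R : ℝ, ∀ a, InTS (insert i₀ S) a →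
      ∀ x ∈ C, A.act a x ∈ C → ∀ c, ‖a c‖ ≤ R ∧ ‖(a c)⁻¹‖ ≤ R)
    (hm : 1 ≤ m) {χ : Fin r → ℤ} (h : NormOn L P K J U) (hh : h.Inv ΛL ΛP S χ)
    (s : Sec2 L P (k * K) (k * J) m U) (hs : OfWt ΛL ΛP S (fun c => k * χ c) s) (hklt : s.Klt)
    (hgr : ∀ x0 ∈ U', ∃ V ∈ 𝓝 x0, ∃ C : ℝ, ∀ x ∈ V, ∀ n : ℤ,
      h.gr ΛL ΛP (el i₀ ((2 : ℂ) ^ n)) x ≤ C * ‖chr χ (el i₀ ((2 : ℂ) ^ n))‖) :
    ∃ q : ℕ, 1 ≤ q ∧ ∃ t : Sec2 L P (q * (k * K)) (q * (k * J)) (q * m) U',
      OfWt ΛL ΛP (insert i₀ S) (fun c => q * (k * χ c)) t ∧ t.Klt := by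
  have hE : ProperSpace E := FiniteDimensional.proper ℂ E
  have hX : SecondCountableTopology X := ChartedSpace.secondCountable_of_sigmaCompact E X
  obtain ⟨Ξ, sν, hsν, -, hsum, -⟩ := exists_components ΛL ΛP hG hi₀ s hs
  obtain ⟨q, hq, Λ, hΛ, c0, hc0, hc0', hfm⟩ := fm_sum Ξ m hm (k * χ i₀) 1 le_rfl
  have hpt : ∀ x0 : X, x0 ∈ U' → ∃ i j φ, ∃ V, IsOpen V ∧ x0 ∈ V ∧ V ⊆ U' ∧
      (∀ x ∈ V, At L P i j φ x) ∧
      ∫⁻ w in φ '' V, (∑ l : Λ, ‖∏ ν : Ξ, (sν ν).f i j φ (φ.symm w) ^ (l : Ξ → ℕ) ν‖ₑ) ^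
        (-(2 : ℝ) / (m * q : ℕ)) < ⊤ := fun x0 hx0 =>
    klt_point ΛL ΛP hG hi₀ hU' hU'U hp hm h hh s hs hklt Ξ sν hsν hsum hgr hc0 hc0' hfm hx0
  choose i j φ V hVo hxV hVU hAt hint using hpt
  classical
  obtain ⟨T, hTU, hTc, hT⟩ := TopologicalSpace.countable_cover_nhdsWithin
    (f := fun x => if hx : x ∈ U' then V x hx else ∅) (s := U') (fun x hx => by
      rw [dif_pos hx]
      exact mem_nhdsWithin_of_mem_nhds ((hVo x hx).mem_nhds (hxV x hx)))
  have hcount : Countable T := hTc.to_subtype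
  have hmq : 2 ≤ m * q := by nlinarith
  have hmq' : (2 : ℝ) ≤ ((m * q : ℕ) : ℝ) := by exact_mod_cast hmq
  have hτ : (0 : ℝ) < 2 / ((m * q : ℕ) : ℝ) := by positivity
  have hτ2 : (2 : ℝ) / ((m * q : ℕ) : ℝ) < 2 := by
    rw [div_lt_iff₀ (by linarith)]
    linarith
  have hopen : ∀ t (ht : t ∈ U'), IsOpen (φ t ht '' V t ht) := fun t ht =>
    (φ t ht).isOpen_image_of_subset_source (hVo t ht) (fun x hx => (hAt t ht x hx).mem)
  obtain ⟨C, hC⟩ := bertini_countable (J := T) (Λ := Λ)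
    (fun t => volume.restrict (φ t (hTU t.2) '' V t (hTU t.2)))
    (fun t l w => ∏ ν : Ξ, (sν ν).f (i t (hTU t.2)) (j t (hTU t.2)) (φ t (hTU t.2))
      ((φ t (hTU t.2)).symm w) ^ (l : Ξ → ℕ) ν)
    (fun t l => by
      refine ContinuousOn.aemeasurable ?_ (hopen t (hTU t.2)).measurableSet
      rintro w ⟨x, hx, rfl⟩
      apply ContinuousAt.continuousWithinAt
      have hs1 : x ∈ (φ t (hTU t.2)).source := (hAt t (hTU t.2) x hx).mem
      have h1 : ContinuousAt (φ t (hTU t.2)).symm (φ t (hTU t.2) x) :=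
        (φ t (hTU t.2)).continuousAt_symm ((φ t (hTU t.2)).map_source hs1)
      refine tendsto_finsetProd _ ?_
      intro ν _
      apply ContinuousAt.pow
      have h2 := ((sν ν).hol' (hU'U (hVU t (hTU t.2) hx)) (hAt t (hTU t.2) x hx)).continuousAt
      rw [← (φ t (hTU t.2)).left_inv hs1] at h2
      exact ContinuousAt.comp (f := (φ t (hTU t.2)).symm) h2 h1) hτ hτ2 (fun t => by
      have h1 := hint t (hTU t.2)
      rwa [neg_div] at h1)
  refine ⟨q, by omega, Sec2.sum Finset.univ (fun l : Λ => Sec2.smul (C l)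
    (Sec2.mono Finset.univ (fun ν : Ξ => (sν ν).res hU'U) (l : Ξ → ℕ) q (hΛ l l.2).1)), ?_, ?_⟩
  · apply OfWt.sum
    intro l _
    apply OfWt.smul
    refine OfWt.mono (w := fun ν : Ξ => Function.update (fun c => (k : ℤ) * χ c) i₀ (ν : ℤ))
      (fun ν _ => (hsν ν).res hU'U) _ _ _ ?_
    intro c hc
    by_cases hci : c = i₀
    · subst hci
      have h1 := (hΛ l l.2).2
      simp only [Function.update_self]
      push_cast at h1
      linarith
    · simp only [Function.update_of_ne hci]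
      rw [← Finset.sum_mul]
      have h1 := (hΛ l l.2).1
      rw [← h1]
      push_cast
      rfl
  · apply klt2_of_local hU'
    intro x hx
    have h1 := hT hx
    simp only [mem_iUnion, exists_prop] at h1
    obtain ⟨t, htT, hxt⟩ := h1
    rw [dif_pos (hTU htT)] at hxt
    refine ⟨i t (hTU htT), j t (hTU htT), φ t (hTU htT), hAt t (hTU htT) x hxt,
      φ t (hTU htT) '' V t (hTU htT), (hopen t (hTU htT)).mem_nhds ⟨x, hxt, rfl⟩, ?_⟩
    have h2 := hC ⟨t, htT⟩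
    have h3 : -(2 : ℝ) / ((q * m : ℕ) : ℝ) = -(2 / ((m * q : ℕ) : ℝ)) := by
      rw [mul_comm q m, neg_div]
    rw [h3]
    exact h2

end Pool.Agent.Abd
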