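import Pool.Agent.H.MP_e23cd6_ag.GT.MetG
import Pool.Agent.H.MP_e23cd6_ag.GT.FourD
import Pool.Agent.H.MP_e23cd6_ag.GT.ConnT
import Pool.Agent.H.MP_e23cd6_ag.GT.ExtR
import Pool.Agent.H.MP_e23cd6_ag.GT.KltFin
import Pool.Agent.H.MP_e23cd6_ag.GT.FreeD

/-! MP_e23cd6_ag, torus actions: the analytic facts used in the reduction step, for metrics on the
line bundles on `U / T_S`. -/

set_option autoImplicit false

open scoped Manifold ContDiff Topology ENNReal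
open MeasureTheory Set Filter

namespace Pool.Agent.Abd

variable {E : Type} [NormedAddCommGroup E] [NormedSpace ℂ E] [FiniteDimensional ℂ E] {r : ℕ}
  {X : Type} [TopologicalSpace X] [ChartedSpace E X] [IsManifold 𝓘(ℂ, E) ω X] [T2Space X]
  {L P : LineBundle E X} {A : TorusAction E r X}
  {ΛL : Linearization A L} {ΛP : Linearization A P} {S : Finset (Fin r)} {U : Set X}
  {K J K' J' k m : ℕ} {χ χ' : Fin r → ℤ}

/-- Decomposition into finitely many components for the `i`-th factor of the torus. -/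
theorem gt_components (hG : Good A S U) {i : Fin r} (hi : i ∉ S) (s : Sec2 L P K J m U)
    (hs : OfWt ΛL ΛP S χ s) : ∃ (T : Finset ℤ) (t : ℤ → Sec2 L P K J m U),
      (∀ c, OfWt ΛL ΛP (insert i S) (fun d => if d = i then c else χ d) (t c)) ∧
      ∀ i₁ j φ x, x ∈ U → At L P i₁ j φ x → s.f i₁ j φ x = ∑ c ∈ T, (t c).f i₁ j φ x := by
  obtain ⟨Ξ, sν, h1, -, h3, -⟩ := exists_components (ΛL := ΛL) (ΛP := ΛP) hG hi s hs
  refine ⟨Ξ, sν, fun c => ?_, fun i₁ j φ x hx hat => h3 x hx i₁ j φ hat⟩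
  have e : (fun d => if d = i then c else χ d) = Function.update χ i c := by
    funext d
    rw [Function.update_apply]
  rw [e]
  exact h1 c

/-- The translate of a section by an element of the torus. -/
theorem gt_translate (hUo : IsOpen U) (hU : ∀ a, InT a → ∀ x ∈ U, A.act a x ∈ U)
    (s : Sec2 L P K J m U) (hs : OfWt ΛL ΛP S χ s) {b : Fin r → ℂ} (hb : InT b) :
    ∃ t : Sec2 L P K J m U, OfWt ΛL ΛP S χ t ∧ ∀ x ∈ U, (t.NZ x ↔ s.NZ (A.act b x)) := by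
  obtain ⟨t, -, h2, h3⟩ := exists_translate (ΛL := ΛL) (ΛP := ΛP) hUo hU s hb
  exact ⟨t, h3 S χ hs, h2⟩

/-- Identity theorem: on a connected open set the points where a nonzero section does not vanish
are dense. -/
theorem exists_nz (hUo : IsOpen U) (hUc : IsConnected U) (s : Sec2 L P K J m U) {x₀ : X}
    (hx₀ : x₀ ∈ U) (hs : s.NZ x₀) {V : Set X} (hV : IsOpen V) (hVU : V ⊆ U) (hVn : V.Nonempty) :
    ∃ y ∈ V, s.NZ y :=
  nz_dense hUo hUc.isPreconnected s ⟨x₀, hx₀, hs⟩ hV hVU hVn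

/-- The complement of a thin set in a connected open set is connected. -/
theorem isConnected_of_thin (hUo : IsOpen U) (hUc : IsConnected U) {V : Set X} (hVU : V ⊆ U)
    (v : Sec2 L P K J 0 U) {x₀ : X} (hx₀ : x₀ ∈ U) (hv : v.NZ x₀)
    (hVv : ∀ x ∈ U, v.NZ x → x ∈ V) : IsConnected V :=
  conn_of_nz hUo hUc v ⟨x₀, hx₀, hv⟩ hVU hVv

/-- Extension of bounded sections of a given weight across a thin set. -/
theorem exists_extension (hG : Good A S U) {V : Set X} (hVU : V ⊆ U) (hV : IsOpen V)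
    (hVinv : ∀ a, InTS S a → ∀ x ∈ V, A.act a x ∈ V) (v : Sec2 L P K' J' 0 U) {x₀ : X}
    (hx₀ : x₀ ∈ U) (hv : v.NZ x₀) (hVv : ∀ x ∈ U, v.NZ x → x ∈ V) (h : Met ΛL ΛP S U K J χ)
    (s : Sec2 L P K J 0 V) (hs : OfWt ΛL ΛP S χ s) {C : ℝ} (hC : ∀ x ∈ V, h.num s x ≤ C) :
    ∃ t : Sec2 L P K J 0 U, OfWt ΛL ΛP S χ t ∧
      ∀ i j φ x, x ∈ V → At L P i j φ x → t.f i j φ x = s.f i j φ x := by
  obtain ⟨t, h1, h2⟩ := extend_sec ΛL ΛP hG.isOpen hG.conn.isPreconnected hV hVU v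
    ⟨x₀, hx₀, hv⟩ hVv s (by
      intro x0 hx0 i j φ hat
      have hp := h.pos i j x0 hx0 hat.memL hat.memP
      have hc := h.cont i j x0 hx0 hat.memL hat.memP
      have h3 : ∀ᶠ x in 𝓝 x0, h.h i j x0 / 2 < h.h i j x :=
        hc.eventually (lt_mem_nhds (by linarith))
      have h4 : ∀ᶠ x in 𝓝 x0, At L P i j φ x := hat.eventually
      refine ⟨_, h3.and h4, C / (h.h i j x0 / 2), ?_⟩
      intro x hx hxV
      have h5 : h.h i j x0 / 2 < h.h i j x := hx.1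
      have h6 := h.num_eq hVU s hxV hx.2
      have h7 := hC x hxV
      rw [h6] at h7
      rw [le_div_iff₀ (by linarith)]
      calc ‖s.f i j φ x‖ * (h.h i j x0 / 2) ≤ ‖s.f i j φ x‖ * h.h i j x :=
            mul_le_mul_of_nonneg_left h5.le (norm_nonneg _)
        _ ≤ C := h7)
  exact ⟨t, h2 S χ hVinv hs, fun i j φ x hx hat => h1 i j φ x hx hat⟩

/-- The norm given by a metric. -/
def Met.toNormOn (h : Met ΛL ΛP S U K J χ) : NormOn L P K J U where
  h := h.h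
  pos := h.pos
  cont := h.cont
  trans := by
    intro i j i' j' x hx h1 h2 h3 h4
    have := h.trans hx h1 h2 h3 h4
    rw [← this]
    ring

theorem Met.toNormOn_gr (h : Met ΛL ΛP S U K J χ) {a : Fin r → ℂ} (ha : InT a) {x : X}
    (hx : x ∈ U) (hax : A.act a x ∈ U) :
    h.toNormOn.gr ΛL ΛP a x = h.gr a x * ‖chr χ a‖ := by
  have h4 : ‖chr χ a‖ ≠ 0 := norm_ne_zero_iff.2 (chr_ne_zero χ ha)
  have h5 := (h.pos _ _ x hx (fr_mem L x) (fr_mem P x)).ne'
  rw [h.gr_eq ha hx hax (fr_mem L (A.act a x)) (fr_mem P (A.act a x)) (fr_mem L x) (fr_mem P x)]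
  unfold NormOn.gr
  show _ * h.h _ _ _ / h.h _ _ _ = _
  rw [div_mul_eq_mul_div, div_eq_div_iff h5 (mul_ne_zero h4 h5)]
  ring

theorem Met.toNormOn_inv (h : Met ΛL ΛP S U K J χ) : h.toNormOn.Inv ΛL ΛP S χ := by
  intro a ha x hx hax
  rw [h.toNormOn_gr ha.1 hx hax, h.gr_S ha hx hax, one_mul]

/-- Transfer of klt pairs: `χ i` is the normalised weight, so that the growth of the metric of
`L ^ K` along the `i`-th factor of the torus is bounded on `V`. -/
theorem KltQ.transfer [CompactSpace X] [MeasureSpace E] [BorelSpace E]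
    [(volume : Measure E).IsAddHaarMeasure]
    (hG : Good A S U) {i : Fin r} (hi : i ∉ S) {V : Set X} (hVU : V ⊆ U)
    (hGV : Good A (insert i S) V) (h : Met ΛL ΛP S U K 0 χ)
    (hgr : ∀ x₀ ∈ V, ∃ N ∈ 𝓝 x₀, ∃ C : ℝ, ∀ x ∈ N, x ∈ V → ∀ n : ℤ, h.gr (sh i n) x ≤ C)
    (hm : 1 ≤ m) (hklt : KltQ ΛL ΛP S U K χ k m) :
    KltQ ΛL ΛP (insert i S) V K χ k m := by
  obtain ⟨q₀, hq₀, s, hs, hk⟩ := hklt
  have hm' : 1 ≤ m * q₀ := Nat.mul_pos hm hq₀
  have hs' : OfWt ΛL ΛP S (fun c => (((k * q₀ : ℕ) : ℤ)) * χ c)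
      (s.cast rfl (Nat.mul_zero (k * q₀)).symm rfl : Sec2 L P (k * q₀ * K) (k * q₀ * 0) (m * q₀) U) := by
    have e : (fun c => (((k * q₀ : ℕ) : ℤ)) * χ c) = fun c => (k : ℤ) * (q₀ : ℤ) * χ c := by
      funext c
      push_cast
      ring
    rw [e]
    exact hs.cast _ _ _
  have hk' : (s.cast rfl (Nat.mul_zero (k * q₀)).symm rfl :
      Sec2 L P (k * q₀ * K) (k * q₀ * 0) (m * q₀) U).Klt := hk
  obtain ⟨q, hq, t, ht, htk⟩ := klt_transfer ΛL ΛP hG hi hGV.isOpen hVU hGV.proper hm'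
    h.toNormOn h.toNormOn_inv _ hs' hk' (by
      intro x0 hx0
      obtain ⟨N, hN, C, hC⟩ := hgr x0 hx0
      refine ⟨N ∩ V, inter_mem hN (hGV.isOpen.mem_nhds hx0), C, ?_⟩
      intro x hx n
      have hin : InT (el i ((2 : ℂ) ^ n)) := el_inT i (zpow_ne_zero n two_ne_zero)
      rw [h.toNormOn_gr hin (hVU hx.2) (hG.inv _ hin x (hVU hx.2))]
      exact mul_le_mul_of_nonneg_right (hC x hx.1 hx.2 n) (norm_nonneg _))
  refine ⟨q₀ * q, Nat.mul_pos hq₀ hq, t.cast (by ring) (by ring) (by ring), ?_, ?_⟩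
  · have e : (fun c => (k : ℤ) * ((q₀ * q : ℕ) : ℤ) * χ c) =
        fun c => (q : ℤ) * ((((k * q₀ : ℕ) : ℤ)) * χ c) := by
      funext c
      push_cast
      ring
    rw [e]
    exact ht.cast _ _ _
  · have e : ((m * (q₀ * q) : ℕ) : ℝ) = ((q * (m * q₀) : ℕ) : ℝ) := by
      push_cast
      ring
    intro i' j φ hφ x hx h1 h2 h3
    obtain ⟨N, hN, hI⟩ := htk i' j φ hφ x hx h1 h2 h3
    refine ⟨N, hN, ?_⟩
    rw [e]
    exact hI

/-- If some point of `X` has a finite stabiliser then no factor of the torus acts trivially on the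
quotient of a dense open set. -/
theorem exists_moving (hG : Good A S U) (hd : Dense U) {i : Fin r} (hi : i ∉ S)
    (hst : ∃ x₀ : X, {a : Fin r → ℂ | InT a ∧ A.act a x₀ = x₀}.Finite) :
    ¬ ∀ x ∈ U, ∀ a, InTS {i} a → ∃ b, InTS S b ∧ A.act b x = A.act a x := by
  intro h
  obtain ⟨x, hx, a, ha, hb⟩ := exists_not_fixed hG hd hi hst
  obtain ⟨b, hb1, hb2⟩ := h x hx a ha
  exact hb b hb1 hb2.symm

end Pool.Agent.Abd
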