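import Pool.Agent.H.MP_e23cd6_ag.GT.SumInt
import Pool.Agent.H.MP_e23cd6_ag.GT.FSum

/-! Local integrability of the sum of the monomials. -/

set_option autoImplicit false

open scoped Manifold ContDiff Topology ENNReal
open MeasureTheory Set Filter

namespace Pool.Agent.Abd

variable {E : Type} [NormedAddCommGroup E] [NormedSpace ℂ E] [FiniteDimensional ℂ E]
  [MeasureSpace E] [BorelSpace E] [(volume : Measure E).IsAddHaarMeasure] {r : ℕ}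
  {X : Type} [TopologicalSpace X] [ChartedSpace E X] [IsManifold 𝓘(ℂ, E) ω X] [T2Space X]
  {A : TorusAction E r X} {L P : LineBundle E X} {K J m k : ℕ} {U : Set X}
  (ΛL : Linearization A L) (ΛP : Linearization A P)

/-- Comparison with the term of one element of the discrete group.

Setting: `s` of `T_S`-weight `k χ`, `h` invariant for `χ`, `n' ∈ ℤ^S`, `n ∈ ℤ`. Then the density at
`lat (n' + n e_i) x` equals `‖mv s (sh i n) x‖ (gr (sh i n) x * h i j x) ^ k`.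
Proof. `dens_move` for `a = lat n' * sh i n = lat (n' + single i n)`, then `mv_mul` and `gr_mul` with
`a = lat n'`, `b = sh i n`: the factors `‖chr (kχ) (lat n')‖⁻¹` and `‖chr χ (lat n')‖ ^ k` cancel (`Inv`). -/
theorem dens_lat (hinv : ∀ a, InT a → ∀ x ∈ U, A.act a x ∈ U) {S : Finset (Fin r)}
    {χ : Fin r → ℤ} (h : NormOn L P K J U) (hh : h.Inv ΛL ΛP S χ)
    (s : Sec2 L P (k * K) (k * J) m U) (hs : OfWt ΛL ΛP S (fun c => k * χ c) s) {i₀ : Fin r}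
    {n' : Fin r → ℤ} (hn' : ∀ c, c ∉ S → n' c = 0) (n : ℤ) {i j φ x} (hx : x ∈ U)
    (h1 : At L P i j φ x) :
    dens h s (pull A (lat_inT (n' + Pi.single i₀ n)).inv φ)
        (A.act (lat (n' + Pi.single i₀ n)) x) =
      ‖mv ΛL ΛP s (el i₀ ((2 : ℂ) ^ n)) (el_inT i₀ (zpow_ne_zero n two_ne_zero)) i j φ x‖ * (h.gr ΛL ΛP (el i₀ ((2 : ℂ) ^ n)) x * h.h i j x) ^ k := by
  have hb : InT (el (r := r) i₀ ((2 : ℂ) ^ n)) := el_inT i₀ (zpow_ne_zero n two_ne_zero)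
  have ha : InTS S (lat n') := lat_inTS hn'
  have hbx := hinv _ hb x hx
  have key : ∀ (c : Fin r → ℂ) (hc : InT c), c = lat n' * el i₀ ((2 : ℂ) ^ n) →
      dens h s (pull A hc.inv φ) (A.act c x) =
        ‖mv ΛL ΛP s (el i₀ ((2 : ℂ) ^ n)) hb i j φ x‖ *
          (h.gr ΛL ΛP (el i₀ ((2 : ℂ) ^ n)) x * h.h i j x) ^ k := by
    intro c hc hce
    subst hce
    have habx := hinv _ hc x hx
    rw [dens_move ΛL ΛP h s hc hx habx h1, mv_mul ΛL ΛP hs ha hb hx hbx habx h1,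
      gr_mul ΛL ΛP h ha.1 hb hx hbx habx, hh _ ha _ hbx (hinv _ ha.1 _ hbx), chr_nsmul, norm_mul,
      norm_inv, norm_pow]
    have h2 : ‖chr χ (lat n')‖ ^ k ≠ 0 := pow_ne_zero _ (norm_ne_zero_iff.2 (chr_ne_zero χ ha.1))
    rw [mul_assoc ‖chr χ (lat n')‖, mul_pow]
    field_simp
  exact key _ (lat_inT _) (by rw [lat_add, el_two])

theorem kltpt_rpow_anti {x y : ℝ≥0∞} (h : x ≤ y) {z : ℝ} (hz : z ≤ 0) : y ^ z ≤ x ^ z := by
  have h1 : x ^ (-z) ≤ y ^ (-z) := ENNReal.rpow_le_rpow h (neg_nonneg.2 hz)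
  have h2 := ENNReal.inv_le_inv.2 h1
  rwa [← ENNReal.rpow_neg, ← ENNReal.rpow_neg, neg_neg] at h2

/-- The density is continuous. -/
theorem kltpt_cont (h : NormOn L P K J U) (hU : IsOpen U) (s : Sec2 L P (k * K) (k * J) m U)
    {ψ : OpenPartialHomeomorph X E} (hψ : ψ ∈ Charts E X) {y : X} (hy : y ∈ U)
    (hyψ : y ∈ ψ.source) : ContinuousAt (dens h s ψ) y := by
  obtain ⟨i, hi⟩ := L.cover y
  obtain ⟨j, hj⟩ := P.cover y
  have h1 : At L P i j ψ y := ⟨hψ, hi, hj, hyψ⟩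
  have h2 : ContinuousAt (fun y => ‖s.f i j ψ y‖ * h.h i j y ^ k) y :=
    ((s.hol' hy h1).continuousAt.norm).mul ((h.cont i j y hy hi hj).pow k)
  refine h2.congr ?_
  filter_upwards [h1.eventually, hU.mem_nhds hy] with y' h3 h4
  exact (dens_eq h s h4 h3).symm

/-- The value of the translate by `el i₀ (2 ^ n)` as a sum over the weights. -/
theorem kltpt_mv (hinv : ∀ a, InT a → ∀ x ∈ U, A.act a x ∈ U) {S : Finset (Fin r)}
    {i₀ : Fin r} {χ : Fin r → ℤ} (s : Sec2 L P (k * K) (k * J) m U)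
    (Ξ : Finset ℤ) (sν : ℤ → Sec2 L P (k * K) (k * J) m U)
    (hsν : ∀ ν, OfWt ΛL ΛP (insert i₀ S) (Function.update (fun c => k * χ c) i₀ ν) (sν ν))
    (hsum : ∀ x ∈ U, ∀ i j φ, At L P i j φ x → s.f i j φ x = ∑ ν ∈ Ξ, (sν ν).f i j φ x)
    (n : ℤ) {i j φ x} (hx : x ∈ U) (h1 : At L P i j φ x) :
    mv ΛL ΛP s (el i₀ ((2 : ℂ) ^ n)) (el_inT i₀ (zpow_ne_zero n two_ne_zero)) i j φ x =
      ∑ ν : Ξ, (2 : ℂ) ^ (-(n * (ν : ℤ))) * (sν ν).f i j φ x := by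
  have hb : InT (el (r := r) i₀ ((2 : ℂ) ^ n)) := el_inT i₀ (zpow_ne_zero n two_ne_zero)
  have hbS : InTS (insert i₀ S) (el (r := r) i₀ ((2 : ℂ) ^ n)) := by
    refine ⟨hb, fun c hc => ?_⟩
    have : c ≠ i₀ := fun h => hc (by rw [h]; exact Finset.mem_insert_self _ _)
    simp [el, Function.update_of_ne this]
  have hbx := hinv _ hb x hx
  have e1 : mv ΛL ΛP s (el i₀ ((2 : ℂ) ^ n)) hb i j φ x =
      mv ΛL ΛP (Sec2.sum Ξ sν) (el i₀ ((2 : ℂ) ^ n)) hb i j φ x :=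
    mv_congr ΛL ΛP (fun i j φ x hx h => hsum x hx i j φ h) hb hbx h1
  rw [e1, mv_sum, ← Finset.sum_coe_sort Ξ]
  refine Finset.sum_congr rfl fun ν _ => ?_
  rw [mv_of_wt ΛL ΛP (hsν ν) hbS hx hbx h1, chr_el, Function.update_self, ← zpow_mul, ← zpow_neg]

/-- The pointwise estimate. -/
theorem kltpt_point {S : Finset (Fin r)} {i₀ : Fin r} (hi₀ : i₀ ∉ S)
    (hinv : ∀ a, InT a → ∀ x ∈ U, A.act a x ∈ U) (hm : 1 ≤ m) {χ : Fin r → ℤ}
    (h : NormOn L P K J U) (hh : h.Inv ΛL ΛP S χ)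
    (s : Sec2 L P (k * K) (k * J) m U) (hs : OfWt ΛL ΛP S (fun c => k * χ c) s)
    (Ξ : Finset ℤ) (sν : ℤ → Sec2 L P (k * K) (k * J) m U)
    (hsν : ∀ ν, OfWt ΛL ΛP (insert i₀ S) (Function.update (fun c => k * χ c) i₀ ν) (sν ν))
    (hsum : ∀ x ∈ U, ∀ i j φ, At L P i j φ x → s.f i j φ x = ∑ ν ∈ Ξ, (sν ν).f i j φ x)
    {q : ℕ} {Λ : Finset (Ξ → ℕ)} {c0 : ℝ≥0∞}
    (hfm : ∀ z : Ξ → ℂ, c0 * (∑ l : Λ, ‖∏ ν, z ν ^ (l : Ξ → ℕ) ν‖ₑ) ^ (-(2 : ℝ) / (m * q : ℕ)) ≤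
      ∑' n : ℤ, (‖∑ ν : Ξ, (2 : ℂ) ^ (-(n * (ν : ℤ))) * z ν‖ₑ *
        ENNReal.ofReal ((2 : ℝ) ^ ((n : ℝ) * (k * χ i₀ : ℤ) / (1 : ℕ)))) ^ (-(2 : ℝ) / m))
    {Kh : Set X} (hKh : ∀ x ∈ U, ∃ n : Fin r → ℤ, (∀ c, c ∉ S → n c = 0) ∧ A.act (lat n) x ∈ Kh)
    {i j φ x} (hx : x ∈ U) (h1 : At L P i j φ x) {C : ℝ} (hC : 0 < C)
    (hgr : ∀ n : ℤ, h.gr ΛL ΛP (el i₀ ((2 : ℂ) ^ n)) x ≤ C * ‖chr χ (el i₀ ((2 : ℂ) ^ n))‖)
    {H : ℝ} (hH : 0 < H) (hHx : h.h i j x ≤ H) :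
    ENNReal.ofReal ((C * H) ^ k) ^ (-(2 : ℝ) / m) *
      (c0 * (∑ l : Λ, ‖∏ ν : Ξ, (sν ν).f i j φ x ^ (l : Ξ → ℕ) ν‖ₑ) ^
        (-(2 : ℝ) / (m * q : ℕ))) ≤
      ∑' d : {n : Fin r → ℤ // ∀ c, c ∉ insert i₀ S → n c = 0},
        ({x | A.act (lat d.1) x ∈ Kh} : Set X).indicator (fun x =>
          ENNReal.ofReal (dens h s (pull A (lat_inT d.1).inv φ)
            (A.act (lat d.1) x)) ^ (-(2 : ℝ) / m)) x := by
  refine (mul_le_mul_right (hfm fun ν => (sν ν).f i j φ x) _).trans ?_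
  rw [← ENNReal.tsum_mul_left]
  have hch : ∀ n : ℤ, ∃ n' : Fin r → ℤ, (∀ c, c ∉ S → n' c = 0) ∧
      A.act (lat n') (A.act (el i₀ ((2 : ℂ) ^ n)) x) ∈ Kh := fun n =>
    hKh _ (hinv _ (el_inT i₀ (zpow_ne_zero n two_ne_zero)) x hx)
  choose n' hn' hK using hch
  let d : ℤ → {n : Fin r → ℤ // ∀ c, c ∉ insert i₀ S → n c = 0} := fun n =>
    ⟨n' n + Pi.single i₀ n, fun c hc => by
      have h2 : c ≠ i₀ := fun h => hc (by rw [h]; exact Finset.mem_insert_self _ _)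
      have h3 : c ∉ S := fun h => hc (Finset.mem_insert_of_mem h)
      rw [Pi.add_apply, hn' n c h3, Pi.single_eq_of_ne h2, add_zero]⟩
  have hd : Function.Injective d := by
    intro a b hab
    have h2 := congrFun (congrArg Subtype.val hab) i₀
    simp only [d, Pi.add_apply, hn' _ i₀ hi₀, Pi.single_eq_same, zero_add] at h2
    exact h2
  refine le_trans ?_ (ENNReal.tsum_comp_le_tsum_of_injective hd _)
  refine ENNReal.tsum_le_tsum fun n => ?_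
  have hb : InT (el (r := r) i₀ ((2 : ℂ) ^ n)) := el_inT i₀ (zpow_ne_zero n two_ne_zero)
  have hmem : A.act (lat (d n).1) x ∈ Kh := by
    show A.act (lat (n' n + Pi.single i₀ n)) x ∈ Kh
    rw [lat_add, ← el_two, A.mul _ _ (lat_inT _) hb]
    exact hK n
  rw [Set.indicator_of_mem (show x ∈ {x | A.act (lat (d n).1) x ∈ Kh} from hmem)]
  have e1 : dens h s (pull A (lat_inT (d n).1).inv φ) (A.act (lat (d n).1) x) =
      ‖mv ΛL ΛP s (el i₀ ((2 : ℂ) ^ n)) (el_inT i₀ (zpow_ne_zero n two_ne_zero)) i j φ x‖ *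
        (h.gr ΛL ΛP (el i₀ ((2 : ℂ) ^ n)) x * h.h i j x) ^ k :=
    dens_lat ΛL ΛP hinv h hh s hs (hn' n) n hx h1
  rw [e1, kltpt_mv ΛL ΛP hinv s Ξ sν hsν hsum n hx h1]
  have hneg : -(2 : ℝ) / m ≤ 0 := by
    apply div_nonpos_of_nonpos_of_nonneg (by norm_num) (by positivity)
  have hbx := hinv _ hb x hx
  have g0 := gr_pos ΛL ΛP h hb hx hbx
  have h0 := h.pos i j x hx h1.memL h1.memP
  rw [← ENNReal.mul_rpow_of_ne_top ENNReal.ofReal_ne_top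
    (ENNReal.mul_ne_top enorm_ne_top ENNReal.ofReal_ne_top)]
  refine kltpt_rpow_anti ?_ hneg
  rw [ENNReal.ofReal_mul (norm_nonneg _), ofReal_norm]
  have e2 : ‖chr χ (el (r := r) i₀ ((2 : ℂ) ^ n))‖ = (2 : ℝ) ^ ((n : ℝ) * χ i₀) := by
    rw [chr_el, norm_zpow, norm_zpow, Complex.norm_ofNat, ← zpow_mul,
      ← Real.rpow_intCast, Int.cast_mul]
  have e3 : (h.gr ΛL ΛP (el i₀ ((2 : ℂ) ^ n)) x * h.h i j x) ^ k ≤
      (C * H) ^ k * (2 : ℝ) ^ ((n : ℝ) * (k * χ i₀ : ℤ) / (1 : ℕ)) := by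
    have h5 : h.gr ΛL ΛP (el i₀ ((2 : ℂ) ^ n)) x * h.h i j x ≤
        (C * H) * (2 : ℝ) ^ ((n : ℝ) * χ i₀) := by
      calc h.gr ΛL ΛP (el i₀ ((2 : ℂ) ^ n)) x * h.h i j x
          ≤ (C * ‖chr χ (el (r := r) i₀ ((2 : ℂ) ^ n))‖) * H :=
            mul_le_mul (hgr n) hHx h0.le (by positivity)
        _ = _ := by rw [e2]; ring
    refine (pow_le_pow_left₀ (by positivity) h5 k).trans (le_of_eq ?_)
    rw [mul_pow, ← Real.rpow_natCast ((2 : ℝ) ^ ((n : ℝ) * χ i₀)), ← Real.rpow_mul (by norm_num)]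
    congr 2
    push_cast
    ring
  calc _ ≤ ‖∑ ν : Ξ, (2 : ℂ) ^ (-(n * (ν : ℤ))) * (sν ν).f i j φ x‖ₑ *
        ENNReal.ofReal ((C * H) ^ k * (2 : ℝ) ^ ((n : ℝ) * (k * χ i₀ : ℤ) / (1 : ℕ))) := by
        gcongr
    _ = _ := by
        rw [ENNReal.ofReal_mul (by positivity)]
        ring

/-- Local integrability of the sum of the monomials at a point `x0` of `U'`.

Proof. Let `φ = chartAt E x0`, `i, j` frames at `x0`, `V` a small open neighbourhood of `x0`, contained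
in `φ.source`, in `L.U i`, `P.U j`, in the wandering neighbourhood of `exists_wander` (for
`insert i₀ S` and `U'`), in the neighbourhood of `hgr`, and such that `h i j ≤ H` on `V`. `Kh` from
`exists_khat`. For `x ∈ V` and `n : ℤ` choose (`exists_khat` for the point `el i₀ (2 ^ n) x`) `n' ∈ ℤ^S` with
`lat (n' + single i₀ n) x ∈ Kh`; by `dens_lat` and `hgr`
`dens(…) ≤ ‖mv s (el i₀ (2 ^ n)) x‖ * (C 2 ^ (n χ i₀) H) ^ k`, so with `w = k χ i₀`: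
`(‖mv s (el i₀ (2 ^ n)) x‖ 2 ^ (n w)) ^ (-2/m) ≤ (C H) ^ (2k/m) dens(…) ^ (-2/m)`. Moreover
`mv s (el i₀ (2 ^ n)) x = ∑_{ν ∈ Ξ} 2 ^ (-nν) (sν ν).f i j φ x` (`hsum`, `mv_congr`, `mv_sum`, `mv_of_wt`,
`chr_el`). Sum over `n`: distinct pairs `(n, n')` are distinct elements of `ℤ^{S + i₀}`, so
`∑_n (…) (x) ≤ C' ∑_{n'' ∈ ℤ^{S+i₀}} 1[lat n'' x ∈ Kh] dens(lat n'' x) ^ (-2/m)`, whose integral over
`φ '' V` is finite by `sum_int_lt_top` (`lintegral_tsum` / `lintegral_iSup`; measurability of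
`w ↦ dens …` on open sets: continuity). With `hfm` (the inequality of `fm_sum` for `e = 1`) for
`z ν = (sν ν).f i j φ x` the claim follows. -/
theorem klt_point {S : Finset (Fin r)} (hG : Good A S U) {i₀ : Fin r} (hi₀ : i₀ ∉ S)
    {U' : Set X} (hU' : IsOpen U') (hU'U : U' ⊆ U)
    (hp : ∀ C ⊆ U', IsCompact C → ∃ R : ℝ, ∀ a, InTS (insert i₀ S) a →
      ∀ x ∈ C, A.act a x ∈ C → ∀ c, ‖a c‖ ≤ R ∧ ‖(a c)⁻¹‖ ≤ R)
    (hm : 1 ≤ m) {χ : Fin r → ℤ} (h : NormOn L P K J U) (hh : h.Inv ΛL ΛP S χ)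
    (s : Sec2 L P (k * K) (k * J) m U) (hs : OfWt ΛL ΛP S (fun c => k * χ c) s) (hklt : s.Klt)
    (Ξ : Finset ℤ) (sν : ℤ → Sec2 L P (k * K) (k * J) m U)
    (hsν : ∀ ν, OfWt ΛL ΛP (insert i₀ S) (Function.update (fun c => k * χ c) i₀ ν) (sν ν))
    (hsum : ∀ x ∈ U, ∀ i j φ, At L P i j φ x → s.f i j φ x = ∑ ν ∈ Ξ, (sν ν).f i j φ x)
    (hgr : ∀ x0 ∈ U', ∃ V ∈ 𝓝 x0, ∃ C : ℝ, ∀ x ∈ V, ∀ n : ℤ,
      h.gr ΛL ΛP (el i₀ ((2 : ℂ) ^ n)) x ≤ C * ‖chr χ (el i₀ ((2 : ℂ) ^ n))‖)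
    {q : ℕ} {Λ : Finset (Ξ → ℕ)} {c0 : ℝ≥0∞} (hc0 : c0 ≠ 0) (hc0' : c0 ≠ ⊤)
    (hfm : ∀ z : Ξ → ℂ, c0 * (∑ l : Λ, ‖∏ ν, z ν ^ (l : Ξ → ℕ) ν‖ₑ) ^ (-(2 : ℝ) / (m * q : ℕ)) ≤
      ∑' n : ℤ, (‖∑ ν : Ξ, (2 : ℂ) ^ (-(n * (ν : ℤ))) * z ν‖ₑ *
        ENNReal.ofReal ((2 : ℝ) ^ ((n : ℝ) * (k * χ i₀ : ℤ) / (1 : ℕ)))) ^ (-(2 : ℝ) / m))
    {x0 : X} (hx0 : x0 ∈ U') :
    ∃ i j φ, ∃ V, IsOpen V ∧ x0 ∈ V ∧ V ⊆ U' ∧ (∀ x ∈ V, At L P i j φ x) ∧
      ∫⁻ w in φ '' V, (∑ l : Λ, ‖∏ ν : Ξ, (sν ν).f i j φ (φ.symm w) ^ (l : Ξ → ℕ) ν‖ₑ) ^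
        (-(2 : ℝ) / (m * q : ℕ)) < ⊤ := by
  have hU := hG.isOpen
  have hinv := hG.inv
  obtain ⟨i, j, hat⟩ := exists_at L P x0
  set φ := chartAt E x0 with hφdef
  have hφ : φ ∈ Charts E X := hat.chart
  obtain ⟨Vw, hVw, hx0w, hVwU, hfin⟩ := exists_wander (A := A) hU' hp hx0
  obtain ⟨Vg, hVg, C, hC⟩ := hgr x0 hx0
  obtain ⟨Kh, hKh, hKhU, hKhx⟩ := exists_khat hG
  have hx0U : x0 ∈ U := hU'U hx0
  have hHev : ∀ᶠ x in 𝓝 x0, h.h i j x < h.h i j x0 + 1 :=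
    (h.cont i j x0 hx0U hat.memL hat.memP).eventually_lt continuousAt_const (by linarith)
  have hnb : Vw ∩ (Vg ∩ ({x | At L P i j φ x} ∩ {x | h.h i j x < h.h i j x0 + 1})) ∈ 𝓝 x0 :=
    Filter.inter_mem (hVw.mem_nhds hx0w) (Filter.inter_mem hVg
      (Filter.inter_mem hat.eventually hHev))
  set V := interior (Vw ∩ (Vg ∩ ({x | At L P i j φ x} ∩ {x | h.h i j x < h.h i j x0 + 1})))
    with hVdef
  have hV : IsOpen V := isOpen_interior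
  have hx0V : x0 ∈ V := mem_interior_iff_mem_nhds.2 hnb
  have hVsub := fun {x : X} (hx : x ∈ V) => interior_subset hx
  have hVU' : V ⊆ U' := fun x hx => hVwU (hVsub hx).1
  have hVU : V ⊆ U := fun x hx => hU'U (hVU' hx)
  have hVat : ∀ x ∈ V, At L P i j φ x := fun x hx => (hVsub hx).2.2.1
  have hVφ : V ⊆ φ.source := fun x hx => (hVat x hx).mem
  refine ⟨i, j, φ, V, hV, hx0V, hVU', hVat, ?_⟩
  -- constants
  set C1 : ℝ := max C 1 with hC1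
  have hC1pos : 0 < C1 := lt_of_lt_of_le one_pos (le_max_right _ _)
  set H : ℝ := h.h i j x0 + 1 with hH
  have hHpos : 0 < H := by
    have := h.pos i j x0 hx0U hat.memL hat.memP
    linarith
  set κ : ℝ≥0∞ := ENNReal.ofReal ((C1 * H) ^ k) ^ (-(2 : ℝ) / m) with hκ
  have hbase : ENNReal.ofReal ((C1 * H) ^ k) ≠ 0 := by
    rw [ne_eq, ENNReal.ofReal_eq_zero, not_le]
    positivity
  have hκ0 : κ ≠ 0 := by
    rw [hκ, ne_eq, ENNReal.rpow_eq_zero_iff]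
    push Not
    exact ⟨fun h => absurd h hbase, fun h => absurd h ENNReal.ofReal_ne_top⟩
  have hκT : κ ≠ ⊤ := by
    rw [hκ, ne_eq, ENNReal.rpow_eq_top_iff]
    push Not
    exact ⟨fun h => absurd h hbase, fun h => absurd h ENNReal.ofReal_ne_top⟩
  -- the sets
  let D := {n : Fin r → ℤ // ∀ c, c ∉ insert i₀ S → n c = 0}
  have hcD : Countable D := Subtype.countable
  let B : D → Set E := fun d => φ '' (V ∩ {x | A.act (lat d.1) x ∈ Kh})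
  let f : D → E → ℝ≥0∞ := fun d w => ENNReal.ofReal (dens h s (pull A (lat_inT d.1).inv φ)
    (A.act (lat d.1) (φ.symm w))) ^ (-(2 : ℝ) / m)
  have hOpen : IsOpen (φ '' V) := φ.isOpen_image_of_subset_source hV hVφ
  have hsymm : ∀ w ∈ φ '' V, φ.symm w ∈ V := by
    rintro w ⟨x, hx, rfl⟩
    rw [φ.left_inv (hVφ hx)]
    exact hx
  have htgt : φ '' V ⊆ φ.target := by
    rintro w ⟨x, hx, rfl⟩
    exact φ.map_source (hVφ hx)
  have hact : ∀ d : D, ContinuousOn (fun w => A.act (lat d.1) (φ.symm w)) (φ '' V) := by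
    intro d
    exact (act_continuous A (lat_inT d.1)).comp_continuousOn (φ.continuousOn_symm.mono htgt)
  have hB : ∀ d, MeasurableSet (B d) := by
    intro d
    have e1 : B d = φ '' V \ (φ '' V ∩ (fun w => A.act (lat d.1) (φ.symm w)) ⁻¹' Khᶜ) := by
      ext w
      constructor
      · rintro ⟨x, ⟨hx, hxK⟩, rfl⟩
        refine ⟨⟨x, hx, rfl⟩, fun h2 => h2.2 ?_⟩
        show A.act (lat d.1) (φ.symm (φ x)) ∈ Kh
        rw [φ.left_inv (hVφ hx)]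
        exact hxK
      · rintro ⟨⟨x, hx, rfl⟩, h3⟩
        refine ⟨x, ⟨hx, ?_⟩, rfl⟩
        by_contra h4
        refine h3 ⟨⟨x, hx, rfl⟩, ?_⟩
        show A.act (lat d.1) (φ.symm (φ x)) ∈ Khᶜ
        rw [φ.left_inv (hVφ hx)]
        exact h4
    rw [e1]
    exact hOpen.measurableSet.diff
      ((hact d).isOpen_inter_preimage hOpen hKh.isClosed.isOpen_compl).measurableSet
  have hBV : ∀ d, B d ⊆ φ '' V := fun d => Set.image_mono Set.inter_subset_left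
  have hf : ∀ d, AEMeasurable (f d) (volume.restrict (φ '' V)) := by
    intro d
    have h2 : ContinuousOn (fun w => dens h s (pull A (lat_inT d.1).inv φ)
        (A.act (lat d.1) (φ.symm w))) (φ '' V) := by
      intro w hw
      have h3 := hsymm w hw
      have h4 : ContinuousAt (dens h s (pull A (lat_inT d.1).inv φ))
          (A.act (lat d.1) (φ.symm w)) := by
        apply kltpt_cont h hU s (pull_mem A (lat_inT d.1).inv hφ)
          (hinv _ (lat_inT d.1) _ (hVU h3))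
        rw [mem_pull_source, act_inv_act A (lat_inT d.1)]
        exact hVφ h3
      exact ContinuousAt.comp_continuousWithinAt (f := fun w => A.act (lat d.1) (φ.symm w)) h4
        (hact d w hw)
    have h5 : AEMeasurable (fun w => dens h s (pull A (lat_inT d.1).inv φ)
        (A.act (lat d.1) (φ.symm w))) (volume.restrict (φ '' V)) :=
      h2.aemeasurable hOpen.measurableSet
    exact h5.ennreal_ofReal.pow_const _
  have htot := sum_int_lt_top h hU hinv hm s hklt hKh hKhU (insert i₀ S) hφ hV hVU hVφ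
    (hfin.subset (fun n hn => ⟨hn.1, by
      obtain ⟨x, hx, hx2⟩ := hn.2
      exact ⟨x, (hVsub hx).1, (hVsub hx2).1⟩⟩))
  have hint : ∫⁻ w in φ '' V, ∑' d : D, (B d).indicator (f d) w < ⊤ := by
    rw [lintegral_tsum (fun d => (hf d).indicator (hB d))]
    refine lt_of_le_of_lt (ENNReal.tsum_le_tsum fun d => ?_) htot
    rw [lintegral_indicator (hB d), Measure.restrict_restrict (hB d),
      Set.inter_eq_left.2 (hBV d)]
  have hpt : ∀ w ∈ φ '' V, κ * (c0 * (∑ l : Λ, ‖∏ ν : Ξ, (sν ν).f i j φ (φ.symm w) ^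
      (l : Ξ → ℕ) ν‖ₑ) ^ (-(2 : ℝ) / (m * q : ℕ))) ≤ ∑' d : D, (B d).indicator (f d) w := by
    intro w hw
    have h2 := hsymm w hw
    refine (kltpt_point ΛL ΛP hi₀ hinv hm h hh s hs Ξ sν hsν hsum hfm hKhx (hVU h2)
      (hVat _ h2) hC1pos (fun n => ?_) hHpos (le_of_lt (hVsub h2).2.2.2)).trans ?_
    · refine (hC _ (hVsub h2).2.1 n).trans ?_
      exact mul_le_mul_of_nonneg_right (le_max_left _ _) (norm_nonneg _)
    · refine ENNReal.tsum_le_tsum fun d => ?_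
      by_cases h3 : A.act (lat d.1) (φ.symm w) ∈ Kh
      · rw [Set.indicator_of_mem (show φ.symm w ∈ {x | A.act (lat d.1) x ∈ Kh} from h3),
          Set.indicator_of_mem (show w ∈ B d from
            ⟨φ.symm w, ⟨h2, h3⟩, φ.right_inv (htgt hw)⟩)]
      · rw [Set.indicator_of_notMem (show φ.symm w ∉ {x | A.act (lat d.1) x ∈ Kh} from h3)]
        exact bot_le
  have hfinal : κ * (c0 * ∫⁻ w in φ '' V, (∑ l : Λ, ‖∏ ν : Ξ, (sν ν).f i j φ (φ.symm w) ^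
      (l : Ξ → ℕ) ν‖ₑ) ^ (-(2 : ℝ) / (m * q : ℕ))) < ⊤ := by
    rw [← lintegral_const_mul' _ _ hc0', ← lintegral_const_mul' _ _ hκT]
    exact lt_of_le_of_lt (setLIntegral_mono' hOpen.measurableSet hpt) hint
  by_contra hcon
  rw [not_lt, top_le_iff] at hcon
  rw [hcon, ENNReal.mul_top hc0, ENNReal.mul_top hκ0] at hfinal
  exact lt_irrefl _ hfinal

end Pool.Agent.Abd
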