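import Pool.Agent.H.MP_e23cd6_ag.GT.Met

/-! MP_e23cd6_ag, torus actions: semiample bundles on `U / T_S`, finite generating families. -/

set_option autoImplicit false

open scoped Manifold ContDiff Topology ENNReal
open MeasureTheory Set Filter

namespace Pool.Agent.Abd

variable {E : Type} [NormedAddCommGroup E] [NormedSpace ℂ E] {r : ℕ}
  {X : Type} [TopologicalSpace X] [ChartedSpace E X]
  {L P : LineBundle E X} {A : TorusAction E r X}
  {ΛL : Linearization A L} {ΛP : Linearization A P} {S : Finset (Fin r)} {U : Set X}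
  {K J K' J' m : ℕ} {χ χ' : Fin r → ℤ}

/-- PROOF. The set of points with the same frames `i j φ` is a neighbourhood (`At.eventually`),
`s.f i j φ` is continuous at `x` (`HolAt` implies `ContinuousAt`), `Sec2.nz_iff`. -/
theorem Sec2.nz_open (s : Sec2 L P K J m U) (hU : IsOpen U) {x : X} (hx : x ∈ U) (h : s.NZ x) :
    ∀ᶠ y in 𝓝 x, y ∈ U ∧ s.NZ y := by
  obtain ⟨i, j, φ, hφ, h1, h2, h3, h4⟩ := h
  have hat : At L P i j φ x := ⟨hφ, h1, h2, h3⟩
  have hc : ContinuousAt (s.f i j φ) x := (s.hol' hx hat).continuousAt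
  filter_upwards [hU.mem_nhds hx, hat.eventually, hc.eventually_ne h4] with y hy hy1 hy2
  exact ⟨hy, i, j, φ, hy1.chart, hy1.memL, hy1.memP, hy1.mem, hy2⟩

/-- Nonvanishing is invariant under `T_S`. PROOF. `OfWt.rule`, `chr_ne_zero`, and the factors on the
right hand side are not zero (`Λ.lam ≠ 0` by `Linearization.mul` with the inverse element;
`A.jac ≠ 0` is not needed if you use the rule for `a` and for `a⁻¹`: if `s.f .. (x) = 0` then
`s.f .. (a x) = 0` by the rule for `a`, and conversely by the rule for `a⁻¹` at `a x`). -/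
theorem OfWt.nz_act [IsManifold 𝓘(ℂ, E) ω X] {s : Sec2 L P K J m U} (hs : OfWt ΛL ΛP S χ s)
    {a : Fin r → ℂ} (ha : InTS S a) {x : X} (hx : x ∈ U) (hax : A.act a x ∈ U) :
    s.NZ (A.act a x) ↔ s.NZ x := by
  obtain ⟨i, j, h1⟩ := exists_at L P (A.act a x)
  obtain ⟨i', j', h2⟩ := exists_at L P x
  rw [s.nz_iff hax h1, s.nz_iff hx h2, not_iff_not]
  have ha' := inTS_inv ha
  have e0 := act_inv_act A ha.1 x
  constructor
  · intro h0
    have hx' : A.act a⁻¹ (A.act a x) ∈ U := by rw [e0]; exact hx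
    have h2' : At L P i' j' (chartAt E x) (A.act a⁻¹ (A.act a x)) := by rw [e0]; exact h2
    have e := hs.rule ha' hax hx' h2' h1
    rw [h0, mul_zero, e0] at e
    exact (mul_eq_zero.1 e).resolve_left (chr_ne_zero χ ha'.1)
  · intro h0
    have e := hs.rule ha hx hax h1 h2
    rw [h0, mul_zero] at e
    exact (mul_eq_zero.1 e).resolve_left (chr_ne_zero χ ha.1)

/-- The weight on a smaller torus. -/
theorem OfWt.mono_S {s : Sec2 L P K J m U} {S' : Finset (Fin r)} (h : S' ⊆ S)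
    (hs : OfWt ΛL ΛP S χ s) : OfWt ΛL ΛP S' χ s :=
  fun a ha => hs a (inTS_mono h ha)

/-- Only the coordinates in `S` of the weight matter. PROOF. `chr χ a = chr χ' a` for `a ∈ T_S`
(`Finset.prod_congr`; for `c ∉ S` both factors are `1`). -/
theorem OfWt.congr_wt {s : Sec2 L P K J m U} (h : ∀ c ∈ S, χ c = χ' c)
    (hs : OfWt ΛL ΛP S χ s) : OfWt ΛL ΛP S χ' s := by
  intro a ha i j i' j' φ hφ ψ hψ x hx hax h1 h2 h3 h4 h5 h6
  have e := hs a ha i j i' j' φ hφ ψ hψ x hx hax h1 h2 h3 h4 h5 h6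
  have e1 : chr χ' a = chr χ a := by
    unfold chr
    refine Finset.prod_congr rfl fun c _ => ?_
    by_cases hc : c ∈ S
    · rw [h c hc]
    · rw [ha.2 c hc, one_zpow, one_zpow]
  rw [e1]
  exact e

/-- A semiample bundle has a multiple with a finite generating family.

PROOF. `l` from `SemiQ`. The compact set `C` of `Good.cocompact` is covered by the open sets where
the sections `s_x`, `x ∈ C`, do not vanish (`nz_open`); take a finite subcover
(`IsCompact.elim_nhds_subcover` or `IsCompact.elim_finite_subcover`) and enumerate it by `Fin n`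
(`Finset.equivFin`). For `x ∈ U` there is `a ∈ T_S` with `a x ∈ C`, and `nz_act`. -/
theorem SemiQ.exists_family [IsManifold 𝓘(ℂ, E) ω X] (hG : Good A S U)
    (h : SemiQ ΛL ΛP S U K J χ) : ∃ l : ℕ, 1 ≤ l ∧ ∃ (n : ℕ) (s : Fin n → Sec2 L P (l * K) (l * J) 0 U),
      (∀ b, OfWt ΛL ΛP S (fun c => l * χ c) (s b)) ∧ ∀ x ∈ U, ∃ b, (s b).NZ x := by
  classical
  obtain ⟨l, hl, h⟩ := h
  obtain ⟨C, hCU, hC, hcov⟩ := hG.cocompact
  have : Nonempty (Sec2 L P (l * K) (l * J) 0 U) := ⟨Sec2.zero⟩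
  choose! s hs using h
  obtain ⟨T, hT, hT2⟩ := hC.elim_nhds_subcover (fun x => {y | y ∈ U ∧ (s x).NZ y})
    (fun x hx => (s x).nz_open hG.isOpen (hCU hx) (hs x (hCU hx)).2)
  refine ⟨l, hl, T.card, fun b => s (T.equivFin.symm b), fun b => ?_, fun x hx => ?_⟩
  · exact (hs _ (hCU (hT _ (T.equivFin.symm b).2))).1
  · obtain ⟨a, ha, hax⟩ := hcov x hx
    have h1 := hT2 hax
    rw [mem_iUnion₂] at h1
    obtain ⟨y, hy, h2⟩ := h1
    refine ⟨T.equivFin ⟨y, hy⟩, ?_⟩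
    beta_reduce
    rw [Equiv.symm_apply_apply]
    exact ((hs y (hCU (hT y hy))).1.nz_act ha hx h2.1).1 h2.2

/-- Semiampleness from generation at each point with varying exponents.

PROOF. As in `exists_family` choose finitely many points `x_b ∈ C` with sections `s_b` of exponents
`l_b` such that every point of `C` is a nonzero of some `s_b`. Put `l = ∏ l_b` and take the
`(l / l_b)`-th powers (`Sec2.pow`, `nz_pow`, `OfWt.pow`, `Sec2.cast` for
`l / l_b * (l_b * K) = l * K`), then spread by `nz_act`. -/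
theorem SemiQ.of_local [IsManifold 𝓘(ℂ, E) ω X] (hG : Good A S U)
    (h : ∀ x ∈ U, ∃ l : ℕ, 1 ≤ l ∧ ∃ s : Sec2 L P (l * K) (l * J) 0 U,
      OfWt ΛL ΛP S (fun c => l * χ c) s ∧ s.NZ x) : SemiQ ΛL ΛP S U K J χ := by
  classical
  obtain ⟨C, hCU, hC, hcov⟩ := hG.cocompact
  have h' : ∀ x, ∃ l : ℕ, ∃ s : Sec2 L P (l * K) (l * J) 0 U, x ∈ U →
      1 ≤ l ∧ OfWt ΛL ΛP S (fun c => l * χ c) s ∧ s.NZ x := by
    intro x
    by_cases hx : x ∈ U
    · obtain ⟨l, hl, s, hs⟩ := h x hx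
      exact ⟨l, s, fun _ => ⟨hl, hs⟩⟩
    · exact ⟨0, Sec2.zero, fun hx' => absurd hx' hx⟩
  choose l s hs using h'
  obtain ⟨T, hT, hT2⟩ := hC.elim_nhds_subcover (fun x => {y | y ∈ U ∧ (s x).NZ y})
    (fun x hx => (s x).nz_open hG.isOpen (hCU hx) (hs x (hCU hx)).2.2)
  have hpos : ∀ y ∈ T, 0 < l y := fun y hy => (hs y (hCU (hT y hy))).1
  have hprod : 0 < ∏ y ∈ T, l y := Finset.prod_pos fun y hy => hpos y hy
  refine ⟨∏ y ∈ T, l y, hprod, fun x hx => ?_⟩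
  obtain ⟨a, ha, hax⟩ := hcov x hx
  have h1 := hT2 hax
  rw [mem_iUnion₂] at h1
  obtain ⟨y, hy, h2⟩ := h1
  have hdvd : l y ∣ ∏ y ∈ T, l y := Finset.dvd_prod_of_mem l hy
  obtain ⟨c, hc⟩ := hdvd
  have hc0 : c ≠ 0 := by
    rintro rfl
    rw [hc, mul_zero] at hprod
    omega
  have hc' : c * l y = ∏ y ∈ T, l y := by rw [hc, mul_comm]
  have hnz : (s y).NZ x := ((hs y (hCU (hT y hy))).2.1.nz_act ha hx h2.1).1 h2.2
  refine ⟨((s y).pow c).cast (by rw [← mul_assoc, hc']) (by rw [← mul_assoc, hc'])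
    (mul_zero c), ?_, ?_⟩
  · refine OfWt.cast (OfWt.congr_wt ?_ ((hs y (hCU (hT y hy))).2.1.pow c)) _ _ _
    intro d _
    rw [← hc']
    push_cast
    ring
  · rw [Sec2.nz_cast, (s y).nz_pow hc0 hx]
    exact hnz

/-- Multiples. PROOF. `l` and the `c`-th powers of the sections, with casts and `congr_wt`. -/
theorem SemiQ.nsmul [IsManifold 𝓘(ℂ, E) ω X] (h : SemiQ ΛL ΛP S U K J χ) {c : ℕ} (hc : 1 ≤ c) :
    SemiQ ΛL ΛP S U (c * K) (c * J) (fun d => c * χ d) := by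
  obtain ⟨l, hl, h⟩ := h
  refine ⟨l, hl, fun x hx => ?_⟩
  obtain ⟨s, hs, hn⟩ := h x hx
  refine ⟨(s.pow c).cast (by ring) (by ring) (mul_zero c), ?_, ?_⟩
  · refine OfWt.cast (OfWt.congr_wt ?_ (hs.pow c)) _ _ _
    intro d _
    ring
  · rw [Sec2.nz_cast, s.nz_pow (by omega) hx]
    exact hn

theorem SemiQ.congr_wt (h : SemiQ ΛL ΛP S U K J χ) (hχ : ∀ c ∈ S, χ c = χ' c) :
    SemiQ ΛL ΛP S U K J χ' := by
  obtain ⟨l, hl, h⟩ := h
  refine ⟨l, hl, fun x hx => ?_⟩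
  obtain ⟨s, hs, hn⟩ := h x hx
  exact ⟨s, OfWt.congr_wt (fun c hc => by rw [hχ c hc]) hs, hn⟩

/-- PROOF. As for `SemiQ.nsmul`; for the separation take `c`-th powers (`nz_pow`). -/
theorem AmpleQ.nsmul [IsManifold 𝓘(ℂ, E) ω X] (h : AmpleQ ΛL ΛP S U K J χ) {c : ℕ} (hc : 1 ≤ c) :
    AmpleQ ΛL ΛP S U (c * K) (c * J) (fun d => c * χ d) := by
  refine ⟨h.1.nsmul hc, fun x hx y hy hxy => ?_⟩
  obtain ⟨l, hl, s, hs, hn, hn'⟩ := h.2 x hx y hy hxy
  refine ⟨l, hl, (s.pow c).cast (by ring) (by ring) (mul_zero c), ?_, ?_, ?_⟩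
  · refine OfWt.cast (OfWt.congr_wt ?_ (hs.pow c)) _ _ _
    intro d _
    ring
  · rw [Sec2.nz_cast, s.nz_pow (by omega) hx]
    exact hn
  · rw [Sec2.nz_cast, s.nz_pow (by omega) hy]
    exact hn'

theorem AmpleQ.congr_wt (h : AmpleQ ΛL ΛP S U K J χ) (hχ : ∀ c ∈ S, χ c = χ' c) :
    AmpleQ ΛL ΛP S U K J χ' := by
  refine ⟨h.1.congr_wt hχ, fun x hx y hy hxy => ?_⟩
  obtain ⟨l, hl, s, hs, hn, hn'⟩ := h.2 x hx y hy hxy
  exact ⟨l, hl, s, OfWt.congr_wt (fun c hc => by rw [hχ c hc]) hs, hn, hn'⟩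

end Pool.Agent.Abd
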