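import Pool.Agent.H.MP_e23cd6_ag.GT.LvlM
import Pool.Agent.H.MP_e23cd6_ag.GT.DefsH

/-! MP_e23cd6_ag, torus actions: the statements of `LvlA` for the bundles which are semiample or
ample by means of sections over `X` (`SemiG`, `AmpleG`). All proofs are the same as in `LvlA`, with
sections over `univ`, or reduce to them by `Sec2.res`. -/

set_option autoImplicit false

open scoped Manifold ContDiff Topology ENNReal
open MeasureTheory Set Filter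

namespace Pool.Agent.Abd

variable {E : Type} [NormedAddCommGroup E] [NormedSpace ℂ E] {r : ℕ}
  {X : Type} [TopologicalSpace X] [ChartedSpace E X]
  {L P : LineBundle E X} {A : TorusAction E r X}
  {ΛL : Linearization A L} {ΛP : Linearization A P} {S : Finset (Fin r)} {U V : Set X}
  {K J K' J' m : ℕ} {χ χ' : Fin r → ℤ}

/-- PROOF. Restrict the sections to `U` (`Sec2.res`, `OfWt.res`, `Sec2.nz_res`). -/
theorem SemiG.toQ (h : SemiG ΛL ΛP S U K J χ) : SemiQ ΛL ΛP S U K J χ := by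
  obtain ⟨l, hl, h⟩ := h
  refine ⟨l, hl, fun x hx => ?_⟩
  obtain ⟨s, hs, hn⟩ := h x hx
  exact ⟨s.res (subset_univ U), hs.res _, (s.nz_res _ x).2 hn⟩

theorem AmpleG.toQ (h : AmpleG ΛL ΛP S U K J χ) : AmpleQ ΛL ΛP S U K J χ := by
  refine ⟨h.1.toQ, fun x hx y hy hxy => ?_⟩
  obtain ⟨l, hl, s, hs, hn, hn'⟩ := h.2 x hx y hy hxy
  exact ⟨l, hl, s.res (subset_univ U), hs.res _, (s.nz_res _ x).2 hn,
    fun hc => hn' ((s.nz_res _ y).1 hc)⟩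

theorem NefG.toQ (h : NefG ΛL ΛP S U K χ) : NefQ ΛL ΛP S U K χ := by
  obtain ⟨K', J', χ', hA, hN⟩ := h
  exact ⟨K', J', χ', hA.toQ, fun N hN1 => (hN N hN1).toQ⟩

theorem SemiG.exists_family [IsManifold 𝓘(ℂ, E) ω X] (hG : Good A S U)
    (h : SemiG ΛL ΛP S U K J χ) : ∃ l : ℕ, 1 ≤ l ∧
      ∃ (n : ℕ) (s : Fin n → Sec2 L P (l * K) (l * J) 0 univ),
      (∀ b, OfWt ΛL ΛP S (fun c => l * χ c) (s b)) ∧ ∀ x ∈ U, ∃ b, (s b).NZ x := by
  classical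
  obtain ⟨l, hl, h⟩ := h
  obtain ⟨C, hCU, hC, hcov⟩ := hG.cocompact
  have : Nonempty (Sec2 L P (l * K) (l * J) 0 (univ : Set X)) := ⟨Sec2.zero⟩
  choose! s hs using h
  obtain ⟨T, hT, hT2⟩ := hC.elim_nhds_subcover (fun x => {y | y ∈ univ ∧ (s x).NZ y})
    (fun x hx => (s x).nz_open isOpen_univ (mem_univ x) (hs x (hCU hx)).2)
  refine ⟨l, hl, T.card, fun b => s (T.equivFin.symm b), fun b => ?_, fun x hx => ?_⟩
  · exact (hs _ (hCU (hT _ (T.equivFin.symm b).2))).1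
  · obtain ⟨a, ha, hax⟩ := hcov x hx
    have h1 := hT2 hax
    rw [mem_iUnion₂] at h1
    obtain ⟨y, hy, h2⟩ := h1
    refine ⟨T.equivFin ⟨y, hy⟩, ?_⟩
    beta_reduce
    rw [Equiv.symm_apply_apply]
    exact ((hs y (hCU (hT y hy))).1.nz_act ha (mem_univ x) h2.1).1 h2.2

theorem SemiG.of_local [IsManifold 𝓘(ℂ, E) ω X] (hG : Good A S U)
    (h : ∀ x ∈ U, ∃ l : ℕ, 1 ≤ l ∧ ∃ s : Sec2 L P (l * K) (l * J) 0 univ,
      OfWt ΛL ΛP S (fun c => l * χ c) s ∧ s.NZ x) : SemiG ΛL ΛP S U K J χ := by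
  classical
  obtain ⟨C, hCU, hC, hcov⟩ := hG.cocompact
  have h' : ∀ x, ∃ l : ℕ, ∃ s : Sec2 L P (l * K) (l * J) 0 (univ : Set X), x ∈ U →
      1 ≤ l ∧ OfWt ΛL ΛP S (fun c => l * χ c) s ∧ s.NZ x := by
    intro x
    by_cases hx : x ∈ U
    · obtain ⟨l, hl, s, hs⟩ := h x hx
      exact ⟨l, s, fun _ => ⟨hl, hs⟩⟩
    · exact ⟨0, Sec2.zero, fun hx' => absurd hx' hx⟩
  choose l s hs using h'
  obtain ⟨T, hT, hT2⟩ := hC.elim_nhds_subcover (fun x => {y | y ∈ univ ∧ (s x).NZ y})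
    (fun x hx => (s x).nz_open isOpen_univ (mem_univ x) (hs x (hCU hx)).2.2)
  have hpos : ∀ y ∈ T, 0 < l y := fun y hy => (hs y (hCU (hT y hy))).1
  have hprod : 0 < ∏ y ∈ T, l y := Finset.prod_pos fun y hy => hpos y hy
  refine ⟨∏ y ∈ T, l y, hprod, fun x hx => ?_⟩
  obtain ⟨a, ha, hax⟩ := hcov x hx
  have h1 := hT2 hax
  rw [mem_iUnion₂] at h1
  obtain ⟨y, hy, h2⟩ := h1
  have hdvd : l y ∣ ∏ y ∈ T, l y := Finset.dvd_prod_of_mem l hy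
  obtain ⟨c, hc⟩ := hdvd
  have hc0 : c ≠ 0 := by
    rintro rfl
    rw [hc, mul_zero] at hprod
    omega
  have hc' : c * l y = ∏ y ∈ T, l y := by rw [hc, mul_comm]
  have hnz : (s y).NZ x :=
    ((hs y (hCU (hT y hy))).2.1.nz_act ha (mem_univ x) h2.1).1 h2.2
  refine ⟨((s y).pow c).cast (by rw [← mul_assoc, hc']) (by rw [← mul_assoc, hc'])
    (mul_zero c), ?_, ?_⟩
  · refine OfWt.cast (OfWt.congr_wt ?_ ((hs y (hCU (hT y hy))).2.1.pow c)) _ _ _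
    intro d _
    rw [← hc']
    push_cast
    ring
  · rw [Sec2.nz_cast, (s y).nz_pow hc0 (mem_univ x)]
    exact hnz

theorem SemiG.nsmul [IsManifold 𝓘(ℂ, E) ω X] (h : SemiG ΛL ΛP S U K J χ) {c : ℕ} (hc : 1 ≤ c) :
    SemiG ΛL ΛP S U (c * K) (c * J) (fun d => c * χ d) := by
  obtain ⟨l, hl, h⟩ := h
  refine ⟨l, hl, fun x hx => ?_⟩
  obtain ⟨s, hs, hn⟩ := h x hx
  refine ⟨(s.pow c).cast (by ring) (by ring) (mul_zero c), ?_, ?_⟩
  · refine OfWt.cast (OfWt.congr_wt ?_ (hs.pow c)) _ _ _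
    intro d _
    ring
  · rw [Sec2.nz_cast, s.nz_pow (by omega) (mem_univ x)]
    exact hn

theorem SemiG.congr_wt (h : SemiG ΛL ΛP S U K J χ) (hχ : ∀ c ∈ S, χ c = χ' c) :
    SemiG ΛL ΛP S U K J χ' := by
  obtain ⟨l, hl, h⟩ := h
  refine ⟨l, hl, fun x hx => ?_⟩
  obtain ⟨s, hs, hn⟩ := h x hx
  exact ⟨s, OfWt.congr_wt (fun c hc => by rw [hχ c hc]) hs, hn⟩

theorem AmpleG.nsmul [IsManifold 𝓘(ℂ, E) ω X] (h : AmpleG ΛL ΛP S U K J χ) {c : ℕ} (hc : 1 ≤ c) :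
    AmpleG ΛL ΛP S U (c * K) (c * J) (fun d => c * χ d) := by
  refine ⟨h.1.nsmul hc, fun x hx y hy hxy => ?_⟩
  obtain ⟨l, hl, s, hs, hn, hn'⟩ := h.2 x hx y hy hxy
  refine ⟨l, hl, (s.pow c).cast (by ring) (by ring) (mul_zero c), ?_, ?_, ?_⟩
  · refine OfWt.cast (OfWt.congr_wt ?_ (hs.pow c)) _ _ _
    intro d _
    ring
  · rw [Sec2.nz_cast, s.nz_pow (by omega) (mem_univ x)]
    exact hn
  · rw [Sec2.nz_cast, s.nz_pow (by omega) (mem_univ y)]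
    exact hn'

theorem AmpleG.congr_wt (h : AmpleG ΛL ΛP S U K J χ) (hχ : ∀ c ∈ S, χ c = χ' c) :
    AmpleG ΛL ΛP S U K J χ' := by
  refine ⟨h.1.congr_wt hχ, fun x hx y hy hxy => ?_⟩
  obtain ⟨l, hl, s, hs, hn, hn'⟩ := h.2 x hx y hy hxy
  exact ⟨l, hl, s, OfWt.congr_wt (fun c hc => by rw [hχ c hc]) hs, hn, hn'⟩

end Pool.Agent.Abd
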