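import Pool.Agent.H.MP_e23cd6_ag.GT.Alg
import Pool.Agent.H.MP_e23cd6_ag.TB.PAct

/-! MP_e23cd6_ag, torus actions: continuous metrics on the line bundle on `U / T_S` given by
`L ^ K ⊗ P ^ J` and the weight `χ`, and the norms of sections. -/

set_option autoImplicit false

open scoped Manifold ContDiff Topology ENNReal
open MeasureTheory Set Filter

namespace Pool.Agent.Abd

variable {E : Type} [NormedAddCommGroup E] [NormedSpace ℂ E] {r : ℕ}
  {X : Type} [TopologicalSpace X] [ChartedSpace E X]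
  {L P : LineBundle E X} {A : TorusAction E r X}

/-- The element `2 ^ n` of the `i`-th factor of the torus. -/
noncomputable def sh (i : Fin r) (n : ℤ) : Fin r → ℂ := Function.update 1 i ((2 : ℂ) ^ n)

/-- A continuous metric on the line bundle on `U / T_S` whose sections are the sections of
`L ^ K ⊗ P ^ J` over `U` of `T_S`-weight `χ`: `h i j x` is the norm of the frame at `x`. -/
structure Met (ΛL : Linearization A L) (ΛP : Linearization A P) (S : Finset (Fin r)) (U : Set X)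
    (K J : ℕ) (χ : Fin r → ℤ) where
  h : L.ι → P.ι → X → ℝ
  pos : ∀ i j x, x ∈ U → x ∈ L.U i → x ∈ P.U j → 0 < h i j x
  cont : ∀ i j x, x ∈ U → x ∈ L.U i → x ∈ P.U j → ContinuousAt (h i j) x
  equiv : ∀ a, InTS S a → ∀ i j i' j' x, x ∈ U → A.act a x ∈ U → A.act a x ∈ L.U i →
    A.act a x ∈ P.U j → x ∈ L.U i' → x ∈ P.U j' →
    h i j (A.act a x) * (‖ΛL.lam i i' a x‖ ^ K * ‖ΛP.lam j j' a x‖ ^ J) = ‖chr χ a‖ * h i' j' x

variable {ΛL : Linearization A L} {ΛP : Linearization A P} {S : Finset (Fin r)} {U : Set X}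
  {K J K' J' : ℕ} {χ χ' : Fin r → ℤ}

theorem inTS_one (S : Finset (Fin r)) : InTS S (1 : Fin r → ℂ) :=
  ⟨fun _ => one_ne_zero, fun _ _ => rfl⟩

theorem inTS_mul {a b : Fin r → ℂ} (ha : InTS S a) (hb : InTS S b) : InTS S (a * b) :=
  ⟨fun c => mul_ne_zero (ha.1 c) (hb.1 c), fun c hc => by simp [ha.2 c hc, hb.2 c hc]⟩

theorem inTS_inv {a : Fin r → ℂ} (ha : InTS S a) : InTS S a⁻¹ :=
  ⟨fun c => inv_ne_zero (ha.1 c), fun c hc => by simp [ha.2 c hc]⟩

theorem inTS_mono {S' : Finset (Fin r)} (h : S ⊆ S') {a : Fin r → ℂ} (ha : InTS S a) :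
    InTS S' a := ⟨ha.1, fun c hc => ha.2 c (fun h' => hc (h h'))⟩

theorem act_comm (A : TorusAction E r X) {a b : Fin r → ℂ} (ha : InT a) (hb : InT b) (x : X) :
    A.act a (A.act b x) = A.act b (A.act a x) := by
  rw [← A.mul a b ha hb, ← A.mul b a hb ha, mul_comm]

/-- The change of frames. PROOF. `equiv` for `a = 1`, `ΛL.one`, `ΛP.one`, `chr χ 1 = 1`. -/
theorem Met.trans (h : Met ΛL ΛP S U K J χ) {i j i' j'} {x : X} (hx : x ∈ U) (h1 : x ∈ L.U i)
    (h2 : x ∈ P.U j) (h3 : x ∈ L.U i') (h4 : x ∈ P.U j') :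
    h.h i j x * (‖L.g i i' x‖ ^ K * ‖P.g j j' x‖ ^ J) = h.h i' j' x := by
  have e := h.equiv 1 (inTS_one S) i j i' j' x hx (by rw [A.one]; exact hx)
    (by rw [A.one]; exact h1) (by rw [A.one]; exact h2) h3 h4
  have e1 : chr χ (1 : Fin r → ℂ) = 1 := by simp [chr]
  rw [A.one, ΛL.one i i' x h1 h3, ΛP.one j j' x h2 h4, e1, norm_one, one_mul] at e
  exact e

/-- Two metrics: the metric on the product of the `k`-th and the `j`-th power. -/
noncomputable def Met.comb (h : Met ΛL ΛP S U K J χ) (h' : Met ΛL ΛP S U K' J' χ') (k j : ℕ) :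
    Met ΛL ΛP S U (k * K + j * K') (k * J + j * J') (fun c => k * χ c + j * χ' c) where
  h := fun i i' x => h.h i i' x ^ k * h'.h i i' x ^ j
  pos := fun i i' x h1 h2 h3 =>
    mul_pos (pow_pos (h.pos i i' x h1 h2 h3) k) (pow_pos (h'.pos i i' x h1 h2 h3) j)
  cont := fun i i' x h1 h2 h3 => ((h.cont i i' x h1 h2 h3).pow k).mul ((h'.cont i i' x h1 h2 h3).pow j)
  equiv := by
    intro a ha i j₁ i' j₁' x h1 h2 h3 h4 h5 h6
    have e1 := h.equiv a ha i j₁ i' j₁' x h1 h2 h3 h4 h5 h6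
    have e2 := h'.equiv a ha i j₁ i' j₁' x h1 h2 h3 h4 h5 h6
    have e3 : chr (fun c => (k : ℤ) * χ c + (j : ℤ) * χ' c) a = chr χ a ^ k * chr χ' a ^ j := by
      rw [← chr_nsmul, ← chr_nsmul, ← chr_add _ _ ha.1]
      rfl
    rw [e3, norm_mul, norm_pow, norm_pow]
    calc _ = (h.h i j₁ (A.act a x) * (‖ΛL.lam i i' a x‖ ^ K * ‖ΛP.lam j₁ j₁' a x‖ ^ J)) ^ k *
          (h'.h i j₁ (A.act a x) * (‖ΛL.lam i i' a x‖ ^ K' * ‖ΛP.lam j₁ j₁' a x‖ ^ J')) ^ j := by
          ring
      _ = _ := by rw [e1, e2]; ring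

/-- The metric on the quotient of two line bundles. -/
noncomputable def Met.div (h : Met ΛL ΛP S U (K + K') J (χ + χ')) (h' : Met ΛL ΛP S U K' J χ') :
    Met ΛL ΛP S U K 0 χ where
  h := fun i i' x => h.h i i' x / h'.h i i' x
  pos := fun i i' x h1 h2 h3 => div_pos (h.pos i i' x h1 h2 h3) (h'.pos i i' x h1 h2 h3)
  cont := fun i i' x h1 h2 h3 =>
    (h.cont i i' x h1 h2 h3).div (h'.cont i i' x h1 h2 h3) (h'.pos i i' x h1 h2 h3).ne'
  equiv := by
    intro a ha i j i' j' x h1 h2 h3 h4 h5 h6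
    have e1 := h.equiv a ha i j i' j' x h1 h2 h3 h4 h5 h6
    have e2 := h'.equiv a ha i j i' j' x h1 h2 h3 h4 h5 h6
    have hb1 := h'.pos i j _ h2 h3 h4
    have hb0 := h'.pos i' j' x h1 h5 h6
    have hc' : ‖chr χ' a‖ ≠ 0 := by
      rw [norm_ne_zero_iff]
      unfold chr
      exact Finset.prod_ne_zero_iff.2 fun c _ => zpow_ne_zero _ (ha.1 c)
    have e3 : chr (χ + χ') a = chr χ a * chr χ' a := chr_add _ _ ha.1
    rw [e3, norm_mul] at e1
    rw [pow_zero, mul_one, div_mul_eq_mul_div, ← mul_div_assoc, div_eq_div_iff hb1.ne' hb0.ne']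
    apply mul_left_cancel₀ hc'
    rw [pow_add] at e1
    linear_combination (h'.h i j (A.act a x)) * e1 -
      (h.h i j (A.act a x) * ‖ΛL.lam i i' a x‖ ^ K) * e2

/-- The restriction of a metric. -/
def Met.res (h : Met ΛL ΛP S U K J χ) {V : Set X} (hV : V ⊆ U) : Met ΛL ΛP S V K J χ where
  h := h.h
  pos := fun i j x hx => h.pos i j x (hV hx)
  cont := fun i j x hx => h.cont i j x (hV hx)
  equiv := fun a ha i j i' j' x hx hax => h.equiv a ha i j i' j' x (hV hx) (hV hax)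

open Classical in
/-- The norm of the section `s` at the point `x`, in any frames (see `num_eq`). -/
noncomputable def Met.num (h : Met ΛL ΛP S U K J χ) {V : Set X} (s : Sec2 L P K J 0 V) (x : X) : ℝ :=
  if hx : ∃ i j φ, At L P i j φ x then
    ‖s.f hx.choose hx.choose_spec.choose hx.choose_spec.choose_spec.choose x‖ *
      h.h hx.choose hx.choose_spec.choose x
  else 0

/-- The growth factor of the metric under the action of the torus element `a`, in any frames (see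
`gr_eq`). -/
noncomputable def Met.gr (h : Met ΛL ΛP S U K J χ) (a : Fin r → ℂ) (x : X) : ℝ :=
  h.h (L.cover (A.act a x)).choose (P.cover (A.act a x)).choose (A.act a x) *
    (‖ΛL.lam (L.cover (A.act a x)).choose (L.cover x).choose a x‖ ^ K *
      ‖ΛP.lam (P.cover (A.act a x)).choose (P.cover x).choose a x‖ ^ J) /
    (‖chr χ a‖ * h.h (L.cover x).choose (P.cover x).choose x)

end Pool.Agent.Abd
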