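import Pool.Agent.H.MP_e23cd6_ag.GT.MetN

/-! MP_e23cd6_ag, torus actions: growth factors of metrics. -/

set_option autoImplicit false

open scoped Manifold ContDiff Topology ENNReal
open MeasureTheory Set Filter

namespace Pool.Agent.Abd

variable {E : Type} [NormedAddCommGroup E] [NormedSpace ℂ E] {r : ℕ}
  {X : Type} [TopologicalSpace X] [ChartedSpace E X]
  {L P : LineBundle E X} {A : TorusAction E r X}
  {ΛL : Linearization A L} {ΛP : Linearization A P} {S : Finset (Fin r)} {U : Set X}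
  {K J K' J' : ℕ} {χ χ' : Fin r → ℤ}

/-- The values of a linearisation in other frames. -/
theorem lam_frames (ΛL : Linearization A L) {a : Fin r → ℂ} (ha : InT a) {i i' i₁ i₁'} {x : X}
    (h1 : A.act a x ∈ L.U i) (h2 : x ∈ L.U i') (h3 : A.act a x ∈ L.U i₁) (h4 : x ∈ L.U i₁') :
    ΛL.lam i i' a x = L.g i i₁ (A.act a x) * ΛL.lam i₁ i₁' a x * L.g i₁' i' x := by
  have h11 : InT (1 : Fin r → ℂ) := fun _ => one_ne_zero
  have e1 := ΛL.mul i i₁ i₁' 1 a x h11 ha h4 h3 (by rw [one_mul]; exact h1)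
  rw [one_mul, ΛL.one i i₁ _ h1 h3] at e1
  have e2 := ΛL.mul i i₁' i' a 1 x ha h11 h2 (by rw [A.one]; exact h4)
    (by rw [mul_one]; exact h1)
  rw [mul_one, A.one, ΛL.one i₁' i' _ h4 h2] at e2
  rw [← e2, ← e1]

/-- PROOF. `Met.trans` at `x` and at `a x`, and the relations `lam i i' a x = g i i₁ (a x) *
lam i₁ i₁' a x * g i₁' i' x`, which follow from `Linearization.mul` and `Linearization.one`. -/
theorem Met.gr_eq (h : Met ΛL ΛP S U K J χ) {a : Fin r → ℂ} (ha : InT a) {i j i' j'} {x : X}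
    (hx : x ∈ U) (hax : A.act a x ∈ U) (h1 : A.act a x ∈ L.U i) (h2 : A.act a x ∈ P.U j)
    (h3 : x ∈ L.U i') (h4 : x ∈ P.U j') :
    h.gr a x = h.h i j (A.act a x) * (‖ΛL.lam i i' a x‖ ^ K * ‖ΛP.lam j j' a x‖ ^ J) /
      (‖chr χ a‖ * h.h i' j' x) := by
  obtain ⟨hI, hI'⟩ := (⟨(L.cover (A.act a x)).choose_spec, (P.cover (A.act a x)).choose_spec⟩ :
    A.act a x ∈ L.U (L.cover (A.act a x)).choose ∧ A.act a x ∈ P.U (P.cover (A.act a x)).choose)
  obtain ⟨hJ, hJ'⟩ := (⟨(L.cover x).choose_spec, (P.cover x).choose_spec⟩ :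
    x ∈ L.U (L.cover x).choose ∧ x ∈ P.U (P.cover x).choose)
  unfold Met.gr
  generalize (L.cover (A.act a x)).choose = I at *
  generalize (P.cover (A.act a x)).choose = I' at *
  generalize (L.cover x).choose = I₀ at *
  generalize (P.cover x).choose = I₀' at *
  have t1 := h.trans hax h1 h2 hI hI'
  have t2 := h.trans hx hJ hJ' h3 h4
  have r1 := lam_frames ΛL ha h1 h3 hI hJ
  have r2 := lam_frames ΛP ha h2 h4 hI' hJ'
  have g1 : 0 < ‖L.g I₀ i' x‖ := norm_pos_iff.2 (L.g_ne hJ h3)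
  have g2 : 0 < ‖P.g I₀' j' x‖ := norm_pos_iff.2 (P.g_ne hJ' h4)
  have g3 : 0 < h.h I₀ I₀' x := h.pos _ _ _ hx hJ hJ'
  have g4 : 0 < ‖chr χ a‖ := norm_pos_iff.2 (chr_ne_zero χ ha)
  rw [r1, r2, ← t1, ← t2]
  simp only [norm_mul, mul_pow]
  rw [div_eq_div_iff (by positivity) (by positivity)]
  ring

theorem Met.gr_pos (h : Met ΛL ΛP S U K J χ) {a : Fin r → ℂ} (ha : InT a) {x : X} (hx : x ∈ U)
    (hax : A.act a x ∈ U) : 0 < h.gr a x := by
  obtain ⟨i, hi⟩ := L.cover (A.act a x)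
  obtain ⟨j, hj⟩ := P.cover (A.act a x)
  obtain ⟨i', hi'⟩ := L.cover x
  obtain ⟨j', hj'⟩ := P.cover x
  rw [h.gr_eq ha hx hax hi hj hi' hj']
  have g1 : 0 < ‖ΛL.lam i i' a x‖ := norm_pos_iff.2 (lam_ne_zero ΛL ha hi' hi)
  have g2 : 0 < ‖ΛP.lam j j' a x‖ := norm_pos_iff.2 (lam_ne_zero ΛP ha hj' hj)
  have g3 : 0 < h.h i' j' x := h.pos _ _ _ hx hi' hj'
  have g5 : 0 < h.h i j (A.act a x) := h.pos _ _ _ hax hi hj
  have g4 : 0 < ‖chr χ a‖ := norm_pos_iff.2 (chr_ne_zero χ ha)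
  positivity

/-- PROOF. `gr_eq`, `Linearization.mul`, `chr_mul`. -/
theorem Met.gr_mul (h : Met ΛL ΛP S U K J χ) {a b : Fin r → ℂ} (ha : InT a) (hb : InT b) {x : X}
    (hx : x ∈ U) (hbx : A.act b x ∈ U) (habx : A.act a (A.act b x) ∈ U) :
    h.gr (a * b) x = h.gr a (A.act b x) * h.gr b x := by
  obtain ⟨i, hi⟩ := L.cover (A.act a (A.act b x))
  obtain ⟨j, hj⟩ := P.cover (A.act a (A.act b x))
  obtain ⟨i₁, hi₁⟩ := L.cover (A.act b x)
  obtain ⟨j₁, hj₁⟩ := P.cover (A.act b x)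
  obtain ⟨i', hi'⟩ := L.cover x
  obtain ⟨j', hj'⟩ := P.cover x
  have hab : InT (a * b) := fun c => mul_ne_zero (ha c) (hb c)
  have e0 : A.act (a * b) x = A.act a (A.act b x) := A.mul a b ha hb x
  have e1 := ΛL.mul i i₁ i' a b x ha hb hi' hi₁ (by rw [e0]; exact hi)
  have e2 := ΛP.mul j j₁ j' a b x ha hb hj' hj₁ (by rw [e0]; exact hj)
  rw [h.gr_eq ha hbx habx hi hj hi₁ hj₁, h.gr_eq hb hx hbx hi₁ hj₁ hi' hj',
    h.gr_eq (i := i) (j := j) hab hx (by rw [e0]; exact habx) (by rw [e0]; exact hi)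
      (by rw [e0]; exact hj) hi' hj', e0, ← e1, ← e2, chr_mul]
  have g3 : 0 < h.h i' j' x := h.pos _ _ _ hx hi' hj'
  have g6 : 0 < h.h i₁ j₁ (A.act b x) := h.pos _ _ _ hbx hi₁ hj₁
  have g4 : 0 < ‖chr χ a‖ := norm_pos_iff.2 (chr_ne_zero χ ha)
  have g5 : 0 < ‖chr χ b‖ := norm_pos_iff.2 (chr_ne_zero χ hb)
  simp only [norm_mul, mul_pow]
  rw [div_mul_div_comm, div_eq_div_iff (by positivity) (by positivity)]
  ring

/-- PROOF. `Met.equiv`. -/
theorem Met.gr_S (h : Met ΛL ΛP S U K J χ) {a : Fin r → ℂ} (ha : InTS S a) {x : X} (hx : x ∈ U)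
    (hax : A.act a x ∈ U) : h.gr a x = 1 := by
  obtain ⟨i, hi⟩ := L.cover (A.act a x)
  obtain ⟨j, hj⟩ := P.cover (A.act a x)
  obtain ⟨i', hi'⟩ := L.cover x
  obtain ⟨j', hj'⟩ := P.cover x
  rw [h.gr_eq ha.1 hx hax hi hj hi' hj', h.equiv a ha i j i' j' x hx hax hi hj hi' hj']
  have g3 : 0 < h.h i' j' x := h.pos _ _ _ hx hi' hj'
  have g4 : 0 < ‖chr χ a‖ := norm_pos_iff.2 (chr_ne_zero χ ha.1)
  exact div_self (by positivity)

/-- PROOF. `gr (a b) = gr (b a)`, `gr_mul`, `gr_S`, `act_comm`. -/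
theorem Met.gr_act (h : Met ΛL ΛP S U K J χ) (hU : ∀ a, InT a → ∀ x ∈ U, A.act a x ∈ U)
    {a b : Fin r → ℂ} (ha : InT a) (hb : InTS S b) {x : X} (hx : x ∈ U) :
    h.gr a (A.act b x) = h.gr a x := by
  have hbx := hU b hb.1 x hx
  have hax := hU a ha x hx
  have e1 := h.gr_mul ha hb.1 hx hbx (hU a ha _ hbx)
  have e2 := h.gr_mul hb.1 ha hx hax (hU b hb.1 _ hax)
  rw [h.gr_S hb hx hbx, mul_one] at e1
  rw [h.gr_S hb hax (hU b hb.1 _ hax), one_mul] at e2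
  rw [← e1, ← e2, mul_comm]

/-- PROOF. Near `x`, `gr_eq` holds with fixed frames; `Met.cont` at `a x` and `x`, continuity of
`act a` and of `lam` in `x` (`A.hol`, `ΛL.hol`: `ContMDiffAt` of two variables, restricted to
`(a, x)`), denominators are not zero. -/
theorem Met.gr_cont (h : Met ΛL ΛP S U K J χ) (hUo : IsOpen U)
    (hU : ∀ a, InT a → ∀ x ∈ U, A.act a x ∈ U) {a : Fin r → ℂ} (ha : InT a) {x : X} (hx : x ∈ U) :
    ContinuousAt (h.gr a) x := by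
  obtain ⟨i, hi⟩ := L.cover (A.act a x)
  obtain ⟨j, hj⟩ := P.cover (A.act a x)
  obtain ⟨i', hi'⟩ := L.cover x
  obtain ⟨j', hj'⟩ := P.cover x
  have hax := hU a ha x hx
  have hpair : ContinuousAt (fun y : X => (a, y)) x := by fun_prop
  have hact : ContinuousAt (A.act a) x := by
    have h1 := (A.hol a ha x).continuousAt
    exact ContinuousAt.comp (g := fun v : (Fin r → ℂ) × X => A.act v.1 v.2)
      (f := fun y : X => (a, y)) h1 hpair
  have hlL : ContinuousAt (fun y => ΛL.lam i i' a y) x := by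
    have h1 := (ΛL.hol i i' a x ha hi' hi).continuousAt
    exact ContinuousAt.comp (g := fun v : (Fin r → ℂ) × X => ΛL.lam i i' v.1 v.2)
      (f := fun y : X => (a, y)) h1 hpair
  have hlP : ContinuousAt (fun y => ΛP.lam j j' a y) x := by
    have h1 := (ΛP.hol j j' a x ha hj' hj).continuousAt
    exact ContinuousAt.comp (g := fun v : (Fin r → ℂ) × X => ΛP.lam j j' v.1 v.2)
      (f := fun y : X => (a, y)) h1 hpair
  have hh : ContinuousAt (fun y => h.h i j (A.act a y)) x :=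
    ContinuousAt.comp (g := h.h i j) (f := A.act a) (h.cont i j _ hax hi hj) hact
  have hh' := h.cont i' j' x hx hi' hj'
  have g3 : 0 < h.h i' j' x := h.pos _ _ _ hx hi' hj'
  have g4 : 0 < ‖chr χ a‖ := norm_pos_iff.2 (chr_ne_zero χ ha)
  have hmain : ContinuousAt (fun y => h.h i j (A.act a y) *
      (‖ΛL.lam i i' a y‖ ^ K * ‖ΛP.lam j j' a y‖ ^ J) / (‖chr χ a‖ * h.h i' j' y)) x :=
    (hh.mul ((hlL.norm.pow K).mul (hlP.norm.pow J))).div (continuousAt_const.mul hh')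
      (by positivity)
  refine hmain.congr ?_
  filter_upwards [hUo.mem_nhds hx, hact.preimage_mem_nhds ((L.isOpen i).mem_nhds hi),
    hact.preimage_mem_nhds ((P.isOpen j).mem_nhds hj), (L.isOpen i').mem_nhds hi',
    (P.isOpen j').mem_nhds hj'] with y k1 k2 k3 k4 k5
  exact (h.gr_eq ha k1 (hU a ha y k1) k2 k3 k4 k5).symm

theorem Met.gr_comb (h : Met ΛL ΛP S U K J χ) (h' : Met ΛL ΛP S U K' J' χ') (k j : ℕ)
    {a : Fin r → ℂ} (ha : InT a) {x : X} (hx : x ∈ U) (hax : A.act a x ∈ U) :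
    (h.comb h' k j).gr a x = h.gr a x ^ k * h'.gr a x ^ j := by
  obtain ⟨i, hi⟩ := L.cover (A.act a x)
  obtain ⟨i₁, hj⟩ := P.cover (A.act a x)
  obtain ⟨i', hi'⟩ := L.cover x
  obtain ⟨i₁', hj'⟩ := P.cover x
  rw [(h.comb h' k j).gr_eq ha hx hax hi hj hi' hj', h.gr_eq ha hx hax hi hj hi' hj',
    h'.gr_eq ha hx hax hi hj hi' hj']
  have e3 : chr (fun c => (k : ℤ) * χ c + (j : ℤ) * χ' c) a = chr χ a ^ k * chr χ' a ^ j := by
    rw [← chr_nsmul, ← chr_nsmul, ← chr_add _ _ ha]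
    rfl
  rw [e3]
  simp only [Met.comb]
  have g3 : 0 < h.h i' i₁' x := h.pos _ _ _ hx hi' hj'
  have g4 : 0 < ‖chr χ a‖ := norm_pos_iff.2 (chr_ne_zero χ ha)
  have g5 : 0 < h'.h i' i₁' x := h'.pos _ _ _ hx hi' hj'
  have g6 : 0 < ‖chr χ' a‖ := norm_pos_iff.2 (chr_ne_zero χ' ha)
  rw [div_pow, div_pow, div_mul_div_comm, norm_mul, norm_pow, norm_pow,
    div_eq_div_iff (by positivity) (by positivity)]
  ring

/-- The norm of a section `s` along the orbit of the `i`-th factor of the torus: if `s` has the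
`T_{S + i}`-weight `χ + c e_i` then `|s|(a x) = |a_i| ^ (-c) * gr a x * |s|(x)` for `a ∈ T_i`.
PROOF. `OfWt.rule` for `insert i S`, `chr (χ + c e_i) a = chr χ a * a i ^ c` for `a ∈ T_i`
(`chr_add`), `num_eq`, `gr_eq`. -/
theorem Met.num_shift (h : Met ΛL ΛP S U K J χ) {V : Set X} (hV : V ⊆ U) [IsManifold 𝓘(ℂ, E) ω X]
    {i : Fin r} {c : ℤ} {s : Sec2 L P K J 0 V}
    (hs : OfWt ΛL ΛP (insert i S) (fun d => χ d + if d = i then c else 0) s)
    {a : Fin r → ℂ} (ha : InTS {i} a) {x : X} (hx : x ∈ V) (hax : A.act a x ∈ V) :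
    h.num s (A.act a x) = ‖a i‖ ^ (-c) * h.gr a x * h.num s x := by
  obtain ⟨i₁, j₁, h1⟩ := exists_at L P (A.act a x)
  obtain ⟨i₂, j₂, h2⟩ := exists_at L P x
  have hS : InTS (insert i S) a :=
    ⟨ha.1, fun d hd => ha.2 d (by
      intro h0
      rw [Finset.mem_singleton] at h0
      exact hd (Finset.mem_insert.2 (Or.inl h0)))⟩
  have e1 := hs.rule hS hx hax h1 h2
  rw [pow_zero, mul_one] at e1
  have e2 : chr (fun d => χ d + if d = i then c else 0) a = chr χ a * a i ^ c := by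
    have e3 : (fun d => χ d + if d = i then c else 0) =
        χ + (fun d => if d = i then c else 0) := rfl
    rw [e3, chr_add _ _ ha.1]
    congr 1
    unfold chr
    rw [Finset.prod_eq_single i]
    · simp
    · intro d _ hd
      simp [hd]
    · intro h0
      exact absurd (Finset.mem_univ i) h0
  rw [h.num_eq hV s hax h1, h.num_eq hV s hx h2,
    h.gr_eq ha.1 (hV hx) (hV hax) h1.memL h1.memP h2.memL h2.memP]
  have e4 := congrArg norm e1
  rw [e2] at e4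
  simp only [norm_mul, norm_pow, norm_zpow] at e4
  have g3 : 0 < h.h i₂ j₂ x := h.pos _ _ _ (hV hx) h2.memL h2.memP
  have g4 : 0 < ‖chr χ a‖ := norm_pos_iff.2 (chr_ne_zero χ ha.1)
  have g5 : 0 < ‖a i‖ := norm_pos_iff.2 (ha.1 i)
  have g6 : 0 < ‖a i‖ ^ c := zpow_pos g5 c
  rw [zpow_neg]
  have e5 : (‖a i‖ ^ c)⁻¹ * (h.h i₁ j₁ (A.act a x) *
      (‖ΛL.lam i₁ i₂ a x‖ ^ K * ‖ΛP.lam j₁ j₂ a x‖ ^ J) / (‖chr χ a‖ * h.h i₂ j₂ x)) *
      (‖s.f i₂ j₂ (chartAt E x) x‖ * h.h i₂ j₂ x) =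
      (‖a i‖ ^ c)⁻¹ * h.h i₁ j₁ (A.act a x) * (‖ΛL.lam i₁ i₂ a x‖ ^ K * ‖ΛP.lam j₁ j₂ a x‖ ^ J *
        ‖s.f i₂ j₂ (chartAt E x) x‖) / ‖chr χ a‖ := by
    field_simp
  rw [e5, ← e4]
  field_simp

end Pool.Agent.Abd
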