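import Pool.Agent.H.MP_e23cd6_ag.GT.Alg
import Pool.Agent.H.MP_e23cd6_ag.TB.PAct2
import Pool.Agent.H.MP_e23cd6_ag.TB.PChg

/-! Translates of sections, continuous norms, densities. -/

set_option autoImplicit false

open scoped Manifold ContDiff Topology ENNReal
open MeasureTheory Set Filter

namespace Pool.Agent.Abd

variable {E : Type} [NormedAddCommGroup E] [NormedSpace ℂ E] {r : ℕ}
  {X : Type} [TopologicalSpace X] [ChartedSpace E X]
  {L P : LineBundle E X} {K J m k : ℕ} {U V : Set X}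

/-- A continuous norm on `L ^ K ⊗ P ^ J` over `U`; `h i j x` is the norm of the frame. -/
structure NormOn (L P : LineBundle E X) (K J : ℕ) (U : Set X) where
  h : L.ι → P.ι → X → ℝ
  pos : ∀ i j x, x ∈ U → x ∈ L.U i → x ∈ P.U j → 0 < h i j x
  cont : ∀ i j x, x ∈ U → x ∈ L.U i → x ∈ P.U j → ContinuousAt (h i j) x
  trans : ∀ i j i' j' x, x ∈ U → x ∈ L.U i → x ∈ P.U j → x ∈ L.U i' → x ∈ P.U j' →
    h i' j' x = ‖L.g i i' x‖ ^ K * ‖P.g j j' x‖ ^ J * h i j x

/-- A frame of the line bundle `L` at the point `x`. -/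
noncomputable def fr (L : LineBundle E X) (x : X) : L.ι := (L.cover x).choose

theorem fr_mem (L : LineBundle E X) (x : X) : x ∈ L.U (fr L x) := (L.cover x).choose_spec

variable {A : TorusAction E r X} (ΛL : Linearization A L) (ΛP : Linearization A P)

/-- The factor `‖a ξ‖ / ‖ξ‖` for `ξ` in the fibre of `L ^ K ⊗ P ^ J` at `x`. -/
noncomputable def NormOn.gr (h : NormOn L P K J U) (a : Fin r → ℂ) (x : X) : ℝ :=
  ‖ΛL.lam (fr L (A.act a x)) (fr L x) a x‖ ^ K * ‖ΛP.lam (fr P (A.act a x)) (fr P x) a x‖ ^ J *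
    h.h (fr L (A.act a x)) (fr P (A.act a x)) (A.act a x) / h.h (fr L x) (fr P x) x

/-- The norm is `T_S`-invariant, on the line bundle over `U / T_S` given by the weight `χ`. -/
def NormOn.Inv (h : NormOn L P K J U) (S : Finset (Fin r)) (χ : Fin r → ℤ) : Prop :=
  ∀ a, InTS S a → ∀ x ∈ U, A.act a x ∈ U → h.gr ΛL ΛP a x = ‖chr χ a‖

/-- The value at `x` of the section `a⁻¹ s`, where `s` is a section of `L ^ K ⊗ P ^ J ⊗ K_X ^ (-m)`. -/
noncomputable def mv (s : Sec2 L P K J m U) (a : Fin r → ℂ) (ha : InT a) (i : L.ι) (j : P.ι)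
    (φ : OpenPartialHomeomorph X E) (x : X) : ℂ :=
  s.f (fr L (A.act a x)) (fr P (A.act a x)) (pull A ha.inv φ) (A.act a x) /
    (ΛL.lam (fr L (A.act a x)) i a x ^ K * ΛP.lam (fr P (A.act a x)) j a x ^ J)

omit [TopologicalSpace X] [ChartedSpace E X] in
theorem move_jac_self [TopologicalSpace X] {φ : OpenPartialHomeomorph X E} {x : X}
    (hx : x ∈ φ.source) : jac φ φ x = 1 := by
  unfold jac
  have h1 : (φ ∘ φ.symm : E → E) =ᶠ[𝓝 (φ x)] id := by
    filter_upwards [φ.open_target.mem_nhds (φ.map_source hx)] with z hz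
    exact φ.right_inv hz
  rw [h1.fderiv_eq, fderiv_id]
  exact LinearMap.det_id

theorem move_jac {a b c : Fin r → ℂ} (hb : InT b) (hc : InT c)
    (hbc : ∀ z, A.act b (A.act a z) = A.act c z) {φ : OpenPartialHomeomorph X E} {x : X}
    (hx : A.act c x ∈ φ.source) : A.jac (pull A hb φ) (pull A hc φ) a x = 1 := by
  have h1 : (pull A hb φ : X → E) ∘ A.act a ∘ (pull A hc φ).symm =
      (pull A hc φ : X → E) ∘ (pull A hc φ).symm := by
    funext w
    change φ (A.act b (A.act a ((pull A hc φ).symm w))) = φ (A.act c ((pull A hc φ).symm w))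
    rw [hbc]
  have h2 : A.jac (pull A hb φ) (pull A hc φ) a x = jac (pull A hc φ) (pull A hc φ) x := by
    unfold TorusAction.jac jac
    rw [h1]
  rw [h2]
  exact move_jac_self ((mem_pull_source A hc φ x).2 hx)

theorem move_jac_one {a : Fin r → ℂ} (ha : InT a) {φ : OpenPartialHomeomorph X E} {x : X}
    (hx : x ∈ φ.source) : A.jac (pull A ha.inv φ) φ a x = 1 := by
  have h1 : (pull A ha.inv φ : X → E) ∘ A.act a ∘ φ.symm = (φ : X → E) ∘ φ.symm := by
    funext w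
    change φ (A.act a⁻¹ (A.act a (φ.symm w))) = φ (φ.symm w)
    rw [act_inv_act A ha]
  have h2 : A.jac (pull A ha.inv φ) φ a x = jac φ φ x := by
    unfold TorusAction.jac jac
    rw [h1]
  rw [h2]
  exact move_jac_self hx

section

variable [IsManifold 𝓘(ℂ, E) ω X]

/-- The frames and the chart at the point `a x`. -/
theorem move_at {a : Fin r → ℂ} (ha : InT a) {i : L.ι} {j : P.ι} {φ : OpenPartialHomeomorph X E}
    {x : X} (h1 : At L P i j φ x) :
    At L P (fr L (A.act a x)) (fr P (A.act a x)) (pull A ha.inv φ) (A.act a x) :=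
  ⟨pull_mem A ha.inv h1.chart, fr_mem L _, fr_mem P _,
    (mem_pull_source A ha.inv φ _).2 (by rw [act_inv_act A ha]; exact h1.mem)⟩

/-- `mv` of a section of weight `χ`, for `a ∈ T_S`.
Proof. The weight rule for the frames at `a x`, the chart `pull A ha.inv φ` at `a x` and the chart
`φ` at `x`: `A.jac (pull A ha.inv φ) φ a x = 1` since `pull a⁻¹ φ ∘ act a ∘ φ.symm = id` near `φ x`. -/
theorem mv_of_wt {S : Finset (Fin r)} {χ : Fin r → ℤ} {s : Sec2 L P K J m U}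
    (hs : OfWt ΛL ΛP S χ s) {a : Fin r → ℂ} (ha : InTS S a) {i j φ x} (hx : x ∈ U)
    (hax : A.act a x ∈ U) (h1 : At L P i j φ x) :
    mv ΛL ΛP s a ha.1 i j φ x = (chr χ a)⁻¹ * s.f i j φ x := by
  have h2 := move_at (A := A) ha.1 h1
  have h3 := hs.rule ha hx hax h2 h1
  rw [move_jac_one ha.1 h1.mem, one_pow, mul_one] at h3
  have h4 : chr χ a ≠ 0 := chr_ne_zero χ ha.1
  have h5 := pow_ne_zero K (lam_ne_zero ΛL ha.1 h1.memL (fr_mem L (A.act a x)))
  have h6 := pow_ne_zero J (lam_ne_zero ΛP ha.1 h1.memP (fr_mem P (A.act a x)))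
  unfold mv
  rw [div_eq_iff (mul_ne_zero h5 h6), eq_comm, mul_assoc, inv_mul_eq_iff_eq_mul₀ h4, h3]
  ring

/-- Composition rule: `(a b)⁻¹ s = b⁻¹ (a⁻¹ s)`; here for `a ∈ T_S` and `s` of `T_S`-weight `χ`.
Proof. `(a b)⁻¹ s` at `x`: the vector `s (a b x)`, and `s (a (b x)) = χ(a)⁻¹ a (s (b x))`. In
coordinates: weight rule at the point `b x` for `a`, with frames `fr` at `a b x` and at `b x`, charts
`pull (a b)⁻¹ φ` and `pull b⁻¹ φ` (jacobian `1`), and the cocycle rule `Λ.mul`. -/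
theorem mv_mul {S : Finset (Fin r)} {χ : Fin r → ℤ} {s : Sec2 L P K J m U}
    (hs : OfWt ΛL ΛP S χ s) {a b : Fin r → ℂ} (ha : InTS S a) (hb : InT b) {i j φ x}
    (hx : x ∈ U) (hbx : A.act b x ∈ U) (habx : A.act (a * b) x ∈ U) (h1 : At L P i j φ x) :
    mv ΛL ΛP s (a * b) (ha.1.mul hb) i j φ x = (chr χ a)⁻¹ * mv ΛL ΛP s b hb i j φ x := by
  have _ := hx
  have hab : InT (a * b) := ha.1.mul hb
  have e1 : A.act a (A.act b x) = A.act (a * b) x := (A.mul a b ha.1 hb x).symm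
  have h2 := move_at (A := A) hab h1
  have h2' := move_at (A := A) hb h1
  have h3 := hs.rule ha hbx (by rw [e1]; exact habx) (i := fr L (A.act (a * b) x))
    (j := fr P (A.act (a * b) x)) (φ := pull A hab.inv φ) (by rw [e1]; exact h2) h2'
  have e2 : ∀ z, A.act (a * b)⁻¹ (A.act a z) = A.act b⁻¹ z := by
    intro z
    rw [← A.mul _ _ hab.inv ha.1]
    congr 1
    rw [mul_inv_rev, mul_assoc, ha.1.inv_mul, mul_one]
  have e3 : A.jac (pull A hab.inv φ) (pull A hb.inv φ) a (A.act b x) = 1 :=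
    move_jac hab.inv hb.inv e2 (by rw [act_inv_act A hb]; exact h1.mem)
  rw [e3, one_pow, mul_one, e1] at h3
  have h4 : chr χ a ≠ 0 := chr_ne_zero χ ha.1
  have hL := ΛL.mul (fr L (A.act (a * b) x)) (fr L (A.act b x)) i a b x ha.1 hb h1.memL
    (fr_mem L _) (fr_mem L _)
  have hP := ΛP.mul (fr P (A.act (a * b) x)) (fr P (A.act b x)) j a b x ha.1 hb h1.memP
    (fr_mem P _) (fr_mem P _)
  have h5 := pow_ne_zero K (lam_ne_zero ΛL hb h1.memL (fr_mem L (A.act b x)))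
  have h6 := pow_ne_zero J (lam_ne_zero ΛP hb h1.memP (fr_mem P (A.act b x)))
  have h7 := pow_ne_zero K (lam_ne_zero ΛL ha.1 (fr_mem L (A.act b x))
    (i := fr L (A.act (a * b) x)) (by rw [e1]; exact fr_mem L _))
  have h8 := pow_ne_zero J (lam_ne_zero ΛP ha.1 (fr_mem P (A.act b x))
    (i := fr P (A.act (a * b) x)) (by rw [e1]; exact fr_mem P _))
  unfold mv
  rw [← hL, ← hP, mul_pow, mul_pow, div_eq_iff (by
    exact mul_ne_zero (mul_ne_zero h7 h5) (mul_ne_zero h8 h6)), eq_comm, mul_assoc,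
    inv_mul_eq_iff_eq_mul₀ h4, h3]
  field_simp

/-- The same for a finite sum of sections (the value `mv` is additive). -/
theorem mv_sum {ι : Type} (T : Finset ι) (s : ι → Sec2 L P K J m U) {a : Fin r → ℂ} (ha : InT a)
    (i : L.ι) (j : P.ι) (φ : OpenPartialHomeomorph X E) (x : X) :
    mv ΛL ΛP (Sec2.sum T s) a ha i j φ x = ∑ b ∈ T, mv ΛL ΛP (s b) a ha i j φ x := by
  unfold mv
  rw [← Finset.sum_div]
  rfl

/-- `mv` depends only on the values of the section. -/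
theorem mv_congr {s s' : Sec2 L P K J m U} (h : ∀ i j φ x, x ∈ U → At L P i j φ x →
    s.f i j φ x = s'.f i j φ x) {a : Fin r → ℂ} (ha : InT a) {i j φ x} (hax : A.act a x ∈ U)
    (h1 : At L P i j φ x) : mv ΛL ΛP s a ha i j φ x = mv ΛL ΛP s' a ha i j φ x := by
  unfold mv
  rw [h _ _ _ _ hax (move_at (A := A) ha h1)]

/-- The growth factor is multiplicative. -/
theorem gr_mul (h : NormOn L P K J U) {a b : Fin r → ℂ} (ha : InT a) (hb : InT b) {x : X}
    (hx : x ∈ U) (hbx : A.act b x ∈ U) (habx : A.act (a * b) x ∈ U) :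
    h.gr ΛL ΛP (a * b) x = h.gr ΛL ΛP a (A.act b x) * h.gr ΛL ΛP b x := by
  have _ := habx
  have e1 : A.act a (A.act b x) = A.act (a * b) x := (A.mul a b ha hb x).symm
  have hL := ΛL.mul (fr L (A.act (a * b) x)) (fr L (A.act b x)) (fr L x) a b x ha hb (fr_mem L x)
    (fr_mem L _) (fr_mem L _)
  have hP := ΛP.mul (fr P (A.act (a * b) x)) (fr P (A.act b x)) (fr P x) a b x ha hb (fr_mem P x)
    (fr_mem P _) (fr_mem P _)
  have h1 := (h.pos _ _ x hx (fr_mem L x) (fr_mem P x)).ne'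
  have h2 := (h.pos _ _ (A.act b x) hbx (fr_mem L _) (fr_mem P _)).ne'
  unfold NormOn.gr
  rw [e1, ← hL, ← hP, norm_mul, norm_mul, mul_pow, mul_pow]
  field_simp

theorem gr_pos (h : NormOn L P K J U) {a : Fin r → ℂ} (ha : InT a) {x : X} (hx : x ∈ U)
    (hax : A.act a x ∈ U) : 0 < h.gr ΛL ΛP a x := by
  have h1 := h.pos _ _ x hx (fr_mem L x) (fr_mem P x)
  have h2 := h.pos _ _ (A.act a x) hax (fr_mem L _) (fr_mem P _)
  have h3 := norm_pos_iff.2 (lam_ne_zero ΛL ha (fr_mem L x) (fr_mem L (A.act a x)))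
  have h4 := norm_pos_iff.2 (lam_ne_zero ΛP ha (fr_mem P x) (fr_mem P (A.act a x)))
  unfold NormOn.gr
  exact div_pos (mul_pos (mul_pos (pow_pos h3 _) (pow_pos h4 _)) h2) h1

/-- The growth factor in any frames. -/
theorem gr_eq (h : NormOn L P K J U) {a : Fin r → ℂ} (ha : InT a) {x : X} (hx : x ∈ U)
    (hax : A.act a x ∈ U) {i : L.ι} {j : P.ι} {i' : L.ι} {j' : P.ι} (hi : A.act a x ∈ L.U i)
    (hj : A.act a x ∈ P.U j) (hi' : x ∈ L.U i') (hj' : x ∈ P.U j') :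
    h.gr ΛL ΛP a x * h.h i' j' x =
      ‖ΛL.lam i i' a x‖ ^ K * ‖ΛP.lam j j' a x‖ ^ J * h.h i j (A.act a x) := by
  have h1 := (h.pos _ _ x hx (fr_mem L x) (fr_mem P x)).ne'
  have t1 := h.trans (fr L x) (fr P x) i' j' x hx (fr_mem L x) (fr_mem P x) hi' hj'
  have t2 := h.trans (fr L (A.act a x)) (fr P (A.act a x)) i j (A.act a x) hax (fr_mem L _)
    (fr_mem P _) hi hj
  have c1 := lam_change ΛL ha (i := i) (i' := fr L (A.act a x)) (j := i') (j' := fr L x)
    hi' (fr_mem L x) hi (fr_mem L _)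
  have c2 := lam_change ΛP ha (i := j) (i' := fr P (A.act a x)) (j := j') (j' := fr P x)
    hj' (fr_mem P x) hj (fr_mem P _)
  have g1 : ‖L.g i (fr L (A.act a x)) (A.act a x)‖ ^ K *
      ‖L.g (fr L (A.act a x)) i (A.act a x)‖ ^ K = 1 := by
    rw [← mul_pow, ← norm_mul, L.mul i _ i _ hi (fr_mem L _) hi, L.one i _ hi, norm_one, one_pow]
  have g2 : ‖P.g j (fr P (A.act a x)) (A.act a x)‖ ^ J *
      ‖P.g (fr P (A.act a x)) j (A.act a x)‖ ^ J = 1 := by
    rw [← mul_pow, ← norm_mul, P.mul j _ j _ hj (fr_mem P _) hj, P.one j _ hj, norm_one, one_pow]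
  rw [c1, c2, t1, t2]
  unfold NormOn.gr
  simp only [norm_mul, mul_pow]
  rw [div_mul_eq_mul_div, div_eq_iff h1]
  linear_combination (-(‖ΛL.lam (fr L (A.act a x)) (fr L x) a x‖ ^ K *
    ‖ΛP.lam (fr P (A.act a x)) (fr P x) a x‖ ^ J *
    h.h (fr L (A.act a x)) (fr P (A.act a x)) (A.act a x) * ‖L.g (fr L x) i' x‖ ^ K *
    ‖P.g (fr P x) j' x‖ ^ J * h.h (fr L x) (fr P x) x)) * g1 +
    (-(‖ΛL.lam (fr L (A.act a x)) (fr L x) a x‖ ^ K *
    ‖ΛP.lam (fr P (A.act a x)) (fr P x) a x‖ ^ J *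
    h.h (fr L (A.act a x)) (fr P (A.act a x)) (A.act a x) * ‖L.g (fr L x) i' x‖ ^ K *
    ‖P.g (fr P x) j' x‖ ^ J * h.h (fr L x) (fr P x) x *
    (‖L.g i (fr L (A.act a x)) (A.act a x)‖ ^ K *
      ‖L.g (fr L (A.act a x)) i (A.act a x)‖ ^ K))) * g2

end

/-- The absolute value of the section `s` of `(L ^ K ⊗ P ^ J) ^ k ⊗ K_X ^ (-m)` in the chart `φ`
with respect to the norm `h`. -/
noncomputable def dens (h : NormOn L P K J U) (s : Sec2 L P (k * K) (k * J) m U)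
    (φ : OpenPartialHomeomorph X E) (x : X) : ℝ :=
  ‖s.f (fr L x) (fr P x) φ x‖ * h.h (fr L x) (fr P x) x ^ k

section

variable [IsManifold 𝓘(ℂ, E) ω X]

theorem dens_eq (h : NormOn L P K J U) (s : Sec2 L P (k * K) (k * J) m U) {i j φ x}
    (hx : x ∈ U) (h1 : At L P i j φ x) : dens h s φ x = ‖s.f i j φ x‖ * h.h i j x ^ k := by
  have h2 : At L P (fr L x) (fr P x) φ x := ⟨h1.chart, fr_mem L x, fr_mem P x, h1.mem⟩
  have h3 := s.trans' hx h2 h1
  have t1 := h.trans (fr L x) (fr P x) i j x hx (fr_mem L x) (fr_mem P x) h1.memL h1.memP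
  rw [move_jac_self h1.mem, one_pow, mul_one] at h3
  unfold dens
  rw [h3, t1]
  simp only [norm_mul, norm_pow, mul_pow, pow_mul]
  ring

theorem dens_chart (h : NormOn L P K J U) (s : Sec2 L P (k * K) (k * J) m U)
    {φ ψ : OpenPartialHomeomorph X E} (hφ : φ ∈ Charts E X) (hψ : ψ ∈ Charts E X) {x : X}
    (hx : x ∈ U) (h1 : x ∈ φ.source) (h2 : x ∈ ψ.source) :
    dens h s φ x = ‖jac φ ψ x‖ ^ m * dens h s ψ x := by
  have h3 := s.trans' hx (⟨hφ, fr_mem L x, fr_mem P x, h1⟩ : At L P (fr L x) (fr P x) φ x)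
    (⟨hψ, fr_mem L x, fr_mem P x, h2⟩ : At L P (fr L x) (fr P x) ψ x)
  rw [L.one _ _ (fr_mem L x), P.one _ _ (fr_mem P x), one_pow, one_pow, one_mul, one_mul] at h3
  unfold dens
  rw [h3, norm_mul, norm_pow, mul_assoc]

/-- The density at `a x`, in the chart `φ` transported by `a`. -/
theorem dens_move (h : NormOn L P K J U) (s : Sec2 L P (k * K) (k * J) m U) {a : Fin r → ℂ}
    (ha : InT a) {i j φ x} (hx : x ∈ U) (hax : A.act a x ∈ U) (h1 : At L P i j φ x) :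
    dens h s (pull A ha.inv φ) (A.act a x) =
      ‖mv ΛL ΛP s a ha i j φ x‖ * (h.gr ΛL ΛP a x * h.h i j x) ^ k := by
  have h3 := norm_ne_zero_iff.2 (lam_ne_zero ΛL ha h1.memL (fr_mem L (A.act a x)))
  have h4 := norm_ne_zero_iff.2 (lam_ne_zero ΛP ha h1.memP (fr_mem P (A.act a x)))
  rw [gr_eq ΛL ΛP h ha hx hax (fr_mem L _) (fr_mem P _) h1.memL h1.memP]
  unfold mv dens
  rw [norm_div, norm_mul, norm_pow, norm_pow]
  have e1 : ‖ΛL.lam (fr L (A.act a x)) i a x‖ ^ (k * K) *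
      ‖ΛP.lam (fr P (A.act a x)) j a x‖ ^ (k * J) =
      (‖ΛL.lam (fr L (A.act a x)) i a x‖ ^ K * ‖ΛP.lam (fr P (A.act a x)) j a x‖ ^ J) ^ k := by
    rw [mul_pow, ← pow_mul, ← pow_mul, mul_comm K k, mul_comm J k]
  rw [e1, mul_pow _ (h.h (fr L (A.act a x)) (fr P (A.act a x)) (A.act a x)) k,
    ← mul_assoc, div_mul_cancel₀]
  exact pow_ne_zero _ (mul_ne_zero (pow_ne_zero _ h3) (pow_ne_zero _ h4))

end

end Pool.Agent.Abd
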