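import Pool.Agent.H.MP_e23cd6_ag.GT.PStep

/-! MP_e23cd6_ag, torus actions: sections of multiples of `D` over a chamber extend to `U` and are
bounded from below near the fixed point. -/

set_option autoImplicit false

open scoped Manifold ContDiff Topology ENNReal
open MeasureTheory Set Filter

namespace Pool.Agent.Abd

variable {E : Type} [NormedAddCommGroup E] [NormedSpace ℂ E] [FiniteDimensional ℂ E] {r : ℕ}
  {X : Type} [TopologicalSpace X] [ChartedSpace E X] [IsManifold 𝓘(ℂ, E) ω X] [T2Space X]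
  {L P : LineBundle E X} {A : TorusAction E r X}
  {ΛL : Linearization A L} {ΛP : Linearization A P} {S : Finset (Fin r)} {U : Set X}
  [CompactSpace X] [ConnectedSpace X]

/-- The extended sections. PROOF. `SemiQ.exists_family` for `cham_good` gives `l` and sections over
the chamber; `cham_bounds`; `exists_extension` (with `v` from `cham_thin`, `V` = the chamber, the metric
`D.hD.pow l`, the weight on `S`: `OfWt.mono_S`) gives `t b` over `U` with the same values on the chamber,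
so `num (t b) x = num (s b) x` there (`Met.num_eq`). -/
theorem Lvl.cham_extend (D : Lvl ΛL ΛP S U) (V : GT.Fam D.sys) {σ : ℤ} (hσ : σ = 1 ∨ σ = -1)
    {p : Quo A S U} (hp : D.Normal p) (hne : (D.Cham V σ).Nonempty)
    (H : SemiQ ΛL ΛP (insert D.i S) (D.Cham V σ) D.K 0 D.χ) : ∃ l : ℕ, 1 ≤ l ∧
    ∃ (n : ℕ) (t : Fin n → Sec2 L P (l * D.K) 0 0 U), (∀ b, OfWt ΛL ΛP S (fun c => l * D.χ c) (t b)) ∧
    ∃ O ∈ 𝓝 p, ∃ ε : ℝ, 0 < ε ∧ ∀ x, ∀ hx : x ∈ D.Cham V σ, Quo.mk A S U ⟨x, hx.1⟩ ∈ O →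
      ε ≤ ∑ b, (D.hD.pow l).num (t b) x := by
  obtain ⟨l, hl, n, s, hs, hgen⟩ := H.exists_family (D.cham_good V hσ hne)
  have hs' : ∀ b, OfWt ΛL ΛP (insert D.i S) (fun c => l * D.χ c)
      ((s b).cast rfl (mul_zero l) rfl) := fun b => (hs b).cast rfl (mul_zero l) rfl
  have hgen' : ∀ x ∈ D.Cham V σ, ∃ b, ((s b).cast rfl (mul_zero l) rfl).NZ x := hgen
  obtain ⟨⟨C, hC⟩, O, hO, ε, hε, hlow⟩ := D.cham_bounds V hσ hp
    (fun b => (s b).cast rfl (mul_zero l) rfl) hs' hgen'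
  obtain ⟨K₀, J₀, v, ⟨x₀, hx₀, hv⟩, hVv⟩ := D.cham_thin V hσ hne
  have hext : ∀ b, ∃ t : Sec2 L P (l * D.K) 0 0 U, OfWt ΛL ΛP S (fun c => l * D.χ c) t ∧
      ∀ i j φ x, x ∈ D.Cham V σ → At L P i j φ x → t.f i j φ x = (s b).f i j φ x := fun b =>
    exists_extension D.good (D.cham_sub V σ) (D.cham_open V σ)
      (fun a ha x hx => D.cham_inv V hσ a ha.1 x hx) v hx₀ hv hVv (D.hD.pow l)
      ((s b).cast rfl (mul_zero l) rfl) ((hs' b).mono_S (Finset.subset_insert _ _)) (C := C)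
      (fun x hx => hC b x hx)
  choose t ht htf using hext
  refine ⟨l, hl, n, t, ht, O, hO, ε, hε, fun x hx hxO => ?_⟩
  have h1 := hlow x hx hxO
  have h2 : ∀ b, (D.hD.pow l).num (t b) x =
      (D.hD.pow l).num ((s b).cast rfl (mul_zero l) rfl : Sec2 L P (l * D.K) 0 0 (D.Cham V σ)) x := by
    intro b
    obtain ⟨i, j, hat⟩ := exists_at L P x
    rw [(D.hD.pow l).num_eq (subset_refl U) (t b) hx.1 hat,
      (D.hD.pow l).num_eq (D.cham_sub V σ) _ hx hat, htf b i j _ x hx hat]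
    rfl
  rw [Finset.sum_congr rfl fun b _ => h2 b]
  exact h1

omit [FiniteDimensional ℂ E] [IsManifold 𝓘(ℂ, E) ω X] [T2Space X] [CompactSpace X]
  [ConnectedSpace X] in
theorem pstep2_near (hU : IsOpen U) {x₀ : X} (hx₀ : x₀ ∈ U) {O : Set (Quo A S U)}
    (hO : O ∈ 𝓝 (Quo.mk A S U ⟨x₀, hx₀⟩)) :
    ∀ᶠ x in 𝓝 x₀, ∀ hx : x ∈ U, Quo.mk A S U ⟨x, hx⟩ ∈ O := by
  have h1 : ∀ᶠ y : U in 𝓝 ⟨x₀, hx₀⟩, Quo.mk A S U y ∈ O :=
    (Quo.mk_cont A S U).continuousAt.eventually hO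
  have h2 := hU.isOpenEmbedding_subtypeVal.map_nhds_eq ⟨x₀, hx₀⟩
  have h3 : ∀ᶠ x in map Subtype.val (𝓝 (⟨x₀, hx₀⟩ : U)), ∀ hx : x ∈ U,
      Quo.mk A S U ⟨x, hx⟩ ∈ O := by
    rw [eventually_map]
    filter_upwards [h1] with y hy hx
    exact hy
  rw [h2] at h3
  exact h3

/-- THE FIXED POINT STEP.

PROOF. Suppose that all sections over `U` of multiples of `D` of the right `T_S`-weight vanish at
`x₀`. For each of the two signs `σ` whose chamber is nonempty take `l`, `t`, `O`, `ε` from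
`cham_extend`; `num (t b)` is continuous at `x₀` (`Met.num_cont`) with value `0` (`num_pos_iff`,
`num_nonneg`), so `∑ b, num (t b) x < ε` and `mk x ∈ O` for all `x` in a neighbourhood of `x₀`. Also by
`GT.Fam.nearS` there is a neighbourhood of `x₀` (preimage of `O'`) in which every point `x` of `U` whose
class is not fixed lies in one of the two chambers. By `hcl` there is such an `x` in the intersection
of these neighbourhoods: contradiction. -/
theorem Lvl.p_step (D : Lvl ΛL ΛP S U) (V : GT.Fam D.sys) {x₀ : X} (hx₀ : x₀ ∈ U)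
    (hp : D.Normal (Quo.mk A S U ⟨x₀, hx₀⟩))
    (hcl : ∀ N ∈ 𝓝 x₀, ∃ x ∈ N, ∃ hx : x ∈ U, D.f 1 (Quo.mk A S U ⟨x, hx⟩) ≠ Quo.mk A S U ⟨x, hx⟩)
    (H : ∀ σ : ℤ, σ = 1 ∨ σ = -1 → (D.Cham V σ).Nonempty →
      SemiQ ΛL ΛP (insert D.i S) (D.Cham V σ) D.K 0 D.χ) :
    ∃ l : ℕ, 1 ≤ l ∧ ∃ s : Sec2 L P (l * D.K) (l * 0) 0 U,
      OfWt ΛL ΛP S (fun c => l * D.χ c) s ∧ s.NZ x₀ := by
  haveI : CompactSpace (Quo A S U) := Quo.compact D.good
  by_contra hcon
  have key : ∀ σ : ℤ, (σ = 1 ∨ σ = -1) → ∀ᶠ x in 𝓝 x₀, x ∉ D.Cham V σ := by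
    intro σ hσ
    by_cases hne : (D.Cham V σ).Nonempty
    · obtain ⟨l, hl, n, t, ht, O, hO, ε, hε, hlow⟩ := D.cham_extend V hσ hp hne (H σ hσ hne)
      have h0 : ∀ b, (D.hD.pow l).num (t b) x₀ = 0 := by
        intro b
        have h1 : ¬ (t b).NZ x₀ := fun h1 =>
          hcon ⟨l, hl, (t b).cast rfl (mul_zero l).symm rfl,
            (ht b).cast rfl (mul_zero l).symm rfl, h1⟩
        rw [← (D.hD.pow l).num_pos_iff (subset_refl U) (t b) hx₀, not_lt] at h1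
        exact le_antisymm h1 ((D.hD.pow l).num_nonneg (subset_refl U) (t b) hx₀)
      have h2 : Tendsto (fun x => ∑ b, (D.hD.pow l).num (t b) x) (𝓝 x₀)
          (𝓝 (∑ b, (D.hD.pow l).num (t b) x₀)) :=
        tendsto_finsetSum _ fun b _ =>
          (D.hD.pow l).num_cont (subset_refl U) D.good.isOpen (t b) hx₀
      rw [Finset.sum_eq_zero fun b _ => h0 b] at h2
      filter_upwards [h2.eventually (gt_mem_nhds hε), pstep2_near D.good.isOpen hx₀ hO]
        with x h3 h4 h5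
      exact absurd h3 (not_lt.2 (hlow x h5 (h4 h5.1)))
    · exact Eventually.of_forall fun x hx => hne ⟨x, hx⟩
  obtain ⟨O', hO', hnear⟩ := V.nearS hp.fixed hp.b hp.a
  obtain ⟨x, ⟨h1, h2, h3⟩, hx, hfx⟩ := hcl _
    ((key 1 (Or.inl rfl)).and ((key (-1) (Or.inr rfl)).and (pstep2_near D.good.isOpen hx₀ hO')))
  obtain ⟨σ, hσ, h4, h5⟩ := hnear _ (h3 hx) hfx
  rcases hσ with rfl | rfl
  · exact h1 ⟨hx, h4, h5⟩
  · exact h2 ⟨hx, h4, h5⟩

end Pool.Agent.Abd
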