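import Pool.Agent.H.MP_e23cd6_ag.GT.LvlA

/-! MP_e23cd6_ag, torus actions: the quotient space `U / T_S`. -/

set_option autoImplicit false

open scoped Manifold ContDiff Topology ENNReal
open MeasureTheory Set Filter

namespace Pool.Agent.Abd

variable {E : Type} [NormedAddCommGroup E] [NormedSpace ℂ E] {r : ℕ}
  {X : Type} [TopologicalSpace X] [ChartedSpace E X]

/-- The equivalence relation on `U` whose classes are the `T_S`-orbits. -/
def orbSetoid (A : TorusAction E r X) (S : Finset (Fin r)) (U : Set X) : Setoid U where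
  r := fun x y => ∃ a, InTS S a ∧ A.act a x.1 = y.1
  iseqv := by
    refine ⟨fun x => ⟨1, inTS_one S, A.one _⟩, ?_, ?_⟩
    · rintro x y ⟨a, ha, h⟩
      refine ⟨a⁻¹, inTS_inv ha, ?_⟩
      rw [← h]
      exact act_inv_act A ha.1 _
    · rintro x y z ⟨a, ha, h⟩ ⟨b, hb, h'⟩
      refine ⟨b * a, inTS_mul hb ha, ?_⟩
      rw [A.mul b a hb.1 ha.1, h, h']

/-- The quotient space `U / T_S`. -/
def Quo (A : TorusAction E r X) (S : Finset (Fin r)) (U : Set X) : Type := Quotient (orbSetoid A S U)

instance (A : TorusAction E r X) (S : Finset (Fin r)) (U : Set X) : TopologicalSpace (Quo A S U) :=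
  inferInstanceAs (TopologicalSpace (Quotient (orbSetoid A S U)))

/-- The orbit of a point. -/
def Quo.mk (A : TorusAction E r X) (S : Finset (Fin r)) (U : Set X) (x : U) : Quo A S U :=
  Quotient.mk (orbSetoid A S U) x

theorem Quo.mk_cont (A : TorusAction E r X) (S : Finset (Fin r)) (U : Set X) :
    Continuous (Quo.mk A S U) := continuous_quotient_mk'

theorem Quo.mk_surj (A : TorusAction E r X) (S : Finset (Fin r)) (U : Set X) :
    Function.Surjective (Quo.mk A S U) := Quotient.mk_surjective

theorem Quo.mk_eq {A : TorusAction E r X} {S : Finset (Fin r)} {U : Set X} {x y : U} :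
    Quo.mk A S U x = Quo.mk A S U y ↔ ∃ a, InTS S a ∧ A.act a x.1 = y.1 := Quotient.eq

/-- `U / T_S` is compact. PROOF. It is the image of the compact set `C` of `Good.cocompact` (as a
subset of the subtype `U`: `isCompact_iff_isCompact_univ`, `Subtype.isCompact_iff` or
`Topology.IsInducing.isCompact_preimage`) under `Quo.mk`: every `x ∈ U` has `a x ∈ C` for some
`a ∈ T_S`. -/
theorem Quo.compact {A : TorusAction E r X} {S : Finset (Fin r)} {U : Set X} (hG : Good A S U) :
    CompactSpace (Quo A S U) := by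
  obtain ⟨C, hCU, hC, hcov⟩ := hG.cocompact
  have h1 : IsCompact (Subtype.val ⁻¹' C : Set U) := by
    rw [Subtype.isCompact_iff, Subtype.image_preimage_coe, inter_eq_right.2 hCU]
    exact hC
  refine ⟨?_⟩
  have h2 : (univ : Set (Quo A S U)) = Quo.mk A S U '' (Subtype.val ⁻¹' C : Set U) := by
    symm
    rw [eq_univ_iff_forall]
    intro q
    obtain ⟨x, rfl⟩ := Quo.mk_surj A S U q
    obtain ⟨a, ha, hax⟩ := hcov x.1 x.2
    exact ⟨⟨A.act a x.1, hCU hax⟩, hax, (Quo.mk_eq.2 ⟨a, ha, rfl⟩).symm⟩
  rw [h2]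
  exact h1.image (Quo.mk_cont A S U)

/-- A real function on `X` which is continuous at the points of `U` and `T_S`-invariant on `U`
defines a continuous function on `U / T_S`. -/
theorem Quo.exists_lift {A : TorusAction E r X} {S : Finset (Fin r)} {U : Set X} (g : X → ℝ)
    (hg : ∀ x ∈ U, ContinuousAt g x)
    (hinv : ∀ x ∈ U, ∀ a, InTS S a → A.act a x ∈ U → g (A.act a x) = g x) :
    ∃ u : Quo A S U → ℝ, Continuous u ∧ ∀ x : U, u (Quo.mk A S U x) = g x.1 := by
  refine ⟨Quotient.lift (fun x : U => g x.1) ?_, ?_, fun x => rfl⟩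
  · rintro x y ⟨a, ha, h⟩
    show g x.1 = g y.1
    rw [← h]
    exact (hinv x.1 x.2 a ha (by rw [h]; exact y.2)).symm
  · apply Continuous.quotient_lift
    rw [continuous_iff_continuousAt]
    intro x
    exact (hg x.1 x.2).comp continuous_subtype_val.continuousAt

/-- The action of the torus element `a` on `U / T_S`. -/
noncomputable def Quo.act {A : TorusAction E r X} {S : Finset (Fin r)} {U : Set X}
    (hU : ∀ a, InT a → ∀ x ∈ U, A.act a x ∈ U) (a : Fin r → ℂ) (ha : InT a) :
    Quo A S U → Quo A S U :=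
  Quotient.map (fun x : U => (⟨A.act a x.1, hU a ha x.1 x.2⟩ : U)) (by
    rintro x y ⟨b, hb, h⟩
    refine ⟨b, hb, ?_⟩
    show A.act b (A.act a x.1) = A.act a y.1
    rw [act_comm A hb.1 ha, h])

theorem Quo.act_mk {A : TorusAction E r X} {S : Finset (Fin r)} {U : Set X}
    (hU : ∀ a, InT a → ∀ x ∈ U, A.act a x ∈ U) (a : Fin r → ℂ) (ha : InT a) (x : U) :
    Quo.act hU a ha (Quo.mk A S U x) = Quo.mk A S U ⟨A.act a x.1, hU a ha x.1 x.2⟩ := rfl

/-- PROOF. `Continuous.quotient_map'` or `continuous_quot_lift`-style; the map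
`x ↦ ⟨A.act a x, _⟩` is continuous by `A.hol` (`ContMDiffAt` of two variables, restricted to
`x ↦ (a, x)`). -/
theorem Quo.act_cont {A : TorusAction E r X} {S : Finset (Fin r)} {U : Set X}
    (hU : ∀ a, InT a → ∀ x ∈ U, A.act a x ∈ U) (a : Fin r → ℂ) (ha : InT a) :
    Continuous (Quo.act (S := S) hU a ha) := by
  unfold Quo.act
  apply Continuous.quotient_map'
  have h1 : Continuous (A.act a) := by
    rw [continuous_iff_continuousAt]
    intro y
    have h2 : ContinuousAt (fun v : (Fin r → ℂ) × X => A.act v.1 v.2) (a, y) :=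
      (A.hol a ha y).continuousAt
    have h3 : ContinuousAt (fun x : X => ((a, x) : (Fin r → ℂ) × X)) y :=
      continuousAt_const.prodMk continuousAt_id
    exact ContinuousAt.comp (g := fun v : (Fin r → ℂ) × X => A.act v.1 v.2)
      (f := fun x : X => ((a, x) : (Fin r → ℂ) × X)) h2 h3
  exact (h1.comp continuous_subtype_val).subtype_mk _

theorem sh_inTS (i : Fin r) (n : ℤ) : InTS {i} (sh i n) := by
  refine ⟨fun c => ?_, fun c hc => ?_⟩
  · unfold sh
    by_cases h : c = i
    · subst h
      simp only [Function.update_self]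
      exact zpow_ne_zero _ two_ne_zero
    · simp [Function.update_of_ne h]
  · unfold sh
    have h : c ≠ i := by simpa using hc
    simp [Function.update_of_ne h]

theorem sh_zero (i : Fin r) : sh i 0 = (1 : Fin r → ℂ) := by
  unfold sh
  rw [zpow_zero]
  exact Function.update_eq_self i (1 : Fin r → ℂ)

theorem sh_add (i : Fin r) (m n : ℤ) : sh i (m + n) = sh i m * sh i n := by
  unfold sh
  ext c
  by_cases h : c = i
  · subst h
    simp [zpow_add₀ (two_ne_zero : (2 : ℂ) ≠ 0)]
  · simp [Function.update_of_ne h]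

theorem sh_self (i : Fin r) (n : ℤ) : sh i n i = (2 : ℂ) ^ n := by
  unfold sh
  simp

end Pool.Agent.Abd
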