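import Mathlib

/-! MP_e23cd6_ag, torus actions: extension of characters (divisibility of `ℂ^*`). -/

set_option autoImplicit false

namespace Pool.Agent.Abd

/-- `ℂ^*` is divisible. -/
noncomputable def divUnitsNat : DivisibleBy (Additive ℂˣ) ℕ :=
  divisibleByOfSMulRightSurj _ _ (fun {n} hn a => by
    obtain ⟨z, hz⟩ := IsAlgClosed.exists_pow_nat_eq ((Additive.toMul a : ℂˣ) : ℂ)
      (Nat.pos_of_ne_zero hn)
    have hz0 : z ≠ 0 := by
      rintro rfl
      rw [zero_pow hn] at hz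
      exact (Units.ne_zero _) hz.symm
    refine ⟨Additive.ofMul (Units.mk0 z hz0), ?_⟩
    apply Additive.toMul.injective
    apply Units.ext
    simpa using hz)

theorem baerUnits : Module.Baer ℤ (Additive ℂˣ) := by
  have : DivisibleBy (Additive ℂˣ) ℕ := divUnitsNat
  have : DivisibleBy (Additive ℂˣ) ℤ := AddGroup.divisibleByIntOfDivisibleByNat _
  exact Module.Baer.of_divisible _

/-- A multiplicative function on a subsemigroup of `ℕ × ℤ` with values in `ℂ^*` is the restriction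
of a character `(l, c) ↦ c₀ ^ l * b ^ c`.

PROOF. Let `H` be the set of the differences `(l - l', c - c')` in `ℤ × ℤ` of elements of `Γ`; it is a
subgroup (`Γ` is nonempty and closed under addition). `g(l - l', c - c') = θ l c / θ l' c'` is well
defined (if `l₁ - l₁' = l₂ - l₂'` and `c₁ - c₁' = c₂ - c₂'` then `θ(l₁ + l₂', ..) = θ(l₂ + l₁', ..)` and
`hmul`) and a homomorphism `H → Additive ℂˣ`. `Additive ℂˣ` is divisible (every complex number has
`n`-th roots: `IsAlgClosed.exists_pow_nat_eq`), so by `Module.Baer.of_divisible` and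
`Module.Baer.extension_property` (for `ℤ`-modules, the inclusion of the submodule `H` of `ℤ × ℤ`) `g`
extends to `g' : ℤ × ℤ → Additive ℂˣ`. Put `c₀ = g'(1, 0)`, `b = g'(0, 1)`. For `(l, c) ∈ Γ`,
`(l, c) = (2 l, 2 c) - (l, c) ∈ H` and `g(l, c) = θ(2l, 2c) / θ(l, c) = θ(l, c)`, so
`θ l c = g'(l, c) = c₀ ^ l * b ^ c`. -/
theorem exists_char (Γ : ℕ → ℤ → Prop) (θ : ℕ → ℤ → ℂ) (hne : ∃ l c, Γ l c)
    (hadd : ∀ l c l' c', Γ l c → Γ l' c' → Γ (l + l') (c + c'))
    (h0 : ∀ l c, Γ l c → θ l c ≠ 0)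
    (hmul : ∀ l c l' c', Γ l c → Γ l' c' → θ (l + l') (c + c') = θ l c * θ l' c') :
    ∃ c₀ b : ℂ, c₀ ≠ 0 ∧ b ≠ 0 ∧ ∀ l c, Γ l c → θ l c = c₀ ^ l * b ^ c := by
  classical
  have wd : ∀ l₁ c₁ l₁' c₁' l₂ c₂ l₂' c₂', Γ l₁ c₁ → Γ l₁' c₁' → Γ l₂ c₂ → Γ l₂' c₂' →
      (l₁ : ℤ) - l₁' = l₂ - l₂' → c₁ - c₁' = c₂ - c₂' →
      θ l₁ c₁ / θ l₁' c₁' = θ l₂ c₂ / θ l₂' c₂' := by
    intro l₁ c₁ l₁' c₁' l₂ c₂ l₂' c₂' h1 h1' h2 h2' hl hc
    rw [div_eq_div_iff (h0 _ _ h1') (h0 _ _ h2')]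
    have e1 : l₁ + l₂' = l₂ + l₁' := by omega
    have e2 : c₁ + c₂' = c₂ + c₁' := by omega
    rw [← hmul _ _ _ _ h1 h2', ← hmul _ _ _ _ h2 h1', e1, e2]
  let H : AddSubgroup (ℤ × ℤ) :=
    { carrier := {a | ∃ l c l' c', Γ l c ∧ Γ l' c' ∧ a = ((l : ℤ) - l', c - c')}
      zero_mem' := by
        obtain ⟨l, c, h⟩ := hne
        exact ⟨l, c, l, c, h, h, by ext <;> simp⟩
      add_mem' := by
        rintro a a' ⟨l, c, l', c', h, h', rfl⟩ ⟨m, d, m', d', k, k', rfl⟩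
        refine ⟨l + m, c + d, l' + m', c' + d', hadd _ _ _ _ h k, hadd _ _ _ _ h' k', ?_⟩
        ext
        · simp; ring
        · simp; ring
      neg_mem' := by
        rintro a ⟨l, c, l', c', h, h', rfl⟩
        refine ⟨l', c', l, c, h', h, ?_⟩
        ext
        · simp
        · simp }
  have hH : ∀ a : H, ∃ l c l' c', Γ l c ∧ Γ l' c' ∧ (a : ℤ × ℤ) = ((l : ℤ) - l', c - c') :=
    fun a => a.2
  choose L C L' C' hL hL' hE using hH
  let g : H →+ Additive ℂˣ := AddMonoidHom.mk'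
    (fun a => Additive.ofMul (Units.mk0 (θ (L a) (C a) / θ (L' a) (C' a))
      (div_ne_zero (h0 _ _ (hL a)) (h0 _ _ (hL' a))))) (by
      intro a b
      rw [← ofMul_mul]
      congr 1
      apply Units.ext
      simp only [Units.val_mul, Units.val_mk0]
      rw [wd (L (a + b)) (C (a + b)) (L' (a + b)) (C' (a + b)) (L a + L b) (C a + C b)
        (L' a + L' b) (C' a + C' b) (hL _) (hL' _) (hadd _ _ _ _ (hL a) (hL b))
        (hadd _ _ _ _ (hL' a) (hL' b)) ?_ ?_, hmul _ _ _ _ (hL a) (hL b),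
        hmul _ _ _ _ (hL' a) (hL' b), mul_div_mul_comm]
      · have h1 := congrArg Prod.fst (hE (a + b))
        have h2 := congrArg Prod.fst (hE a)
        have h3 := congrArg Prod.fst (hE b)
        simp only [AddSubgroup.coe_add, Prod.fst_add] at h1 h2 h3
        push_cast
        linarith
      · have h1 := congrArg Prod.snd (hE (a + b))
        have h2 := congrArg Prod.snd (hE a)
        have h3 := congrArg Prod.snd (hE b)
        simp only [AddSubgroup.coe_add, Prod.snd_add] at h1 h2 h3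
        linarith)
  obtain ⟨g', hg'⟩ := baerUnits.extension_property_addMonoidHom H.subtype
    (AddSubgroup.subtype_injective H) g
  refine ⟨((g' (1, 0)).toMul : ℂˣ), ((g' (0, 1)).toMul : ℂˣ), Units.ne_zero _, Units.ne_zero _, ?_⟩
  intro l c h
  have hmem : ((l : ℤ), c) ∈ H := by
    refine ⟨l + l, c + c, l, c, hadd _ _ _ _ h h, h, ?_⟩
    ext
    · simp
    · simp
  have e1 : g' ((l : ℤ), c) = g ⟨((l : ℤ), c), hmem⟩ := by
    rw [← hg']; rfl
  have e2 : ((l : ℤ), c) = (l : ℕ) • ((1 : ℤ), (0 : ℤ)) + (c : ℤ) • ((0 : ℤ), (1 : ℤ)) := by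
    ext
    · simp
    · simp
  have e3 : g' ((l : ℤ), c) = (l : ℕ) • g' (1, 0) + (c : ℤ) • g' (0, 1) := by
    conv_lhs => rw [e2]
    rw [map_add, map_nsmul, map_zsmul]
  have e4 : θ (L ⟨((l : ℤ), c), hmem⟩) (C ⟨((l : ℤ), c), hmem⟩) /
      θ (L' ⟨((l : ℤ), c), hmem⟩) (C' ⟨((l : ℤ), c), hmem⟩) = θ l c := by
    rw [wd _ _ _ _ (l + l) (c + c) l c (hL _) (hL' _) (hadd _ _ _ _ h h) h ?_ ?_,
      hmul _ _ _ _ h h, mul_div_assoc, div_self (h0 _ _ h), mul_one]
    · have h1 := congrArg Prod.fst (hE ⟨((l : ℤ), c), hmem⟩)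
      simp only at h1
      push_cast
      linarith
    · have h1 := congrArg Prod.snd (hE ⟨((l : ℤ), c), hmem⟩)
      simp only at h1
      linarith
  have e5 : (((g' ((l : ℤ), c)).toMul : ℂˣ) : ℂ) = θ l c := by
    rw [e1]
    exact e4
  rw [← e5, e3]
  simp

end Pool.Agent.Abd
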