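import Pool.Agent.H.MP_e23cd6_ag.GT.ChamB3

/-! MP_e23cd6_ag, torus actions: the sections of the multiples of `B = k₀ D + a`: products, powers,
linear combinations, monomials of the weight of `a'`, separation of `T_S`-orbits. -/

set_option autoImplicit false

open scoped Manifold ContDiff Topology ENNReal
open MeasureTheory Set Filter

namespace Pool.Agent.Abd

variable {E : Type} [NormedAddCommGroup E] [NormedSpace ℂ E] [FiniteDimensional ℂ E] {r : ℕ}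
  {X : Type} [TopologicalSpace X] [ChartedSpace E X] [IsManifold 𝓘(ℂ, E) ω X] [T2Space X]
  {L P : LineBundle E X} {A : TorusAction E r X}
  {ΛL : Linearization A L} {ΛP : Linearization A P} {S : Finset (Fin r)} {U : Set X}
  [CompactSpace X] [ConnectedSpace X]

/-- PROOF. `Sec2.mul`, `Sec2.cast`, `OfWt.mul`, `OfWt.congr_wt`. -/
theorem Lvl.B_mul (D : Lvl ΛL ΛP S U) (k₀ : ℕ) {l l' : ℕ} {c c' : ℤ} {v : D.SecT (k₀ * l) l}
    (hv : OfWt ΛL ΛP (insert D.i S) (D.wt (k₀ * l) l c) v) {w : D.SecT (k₀ * l') l'}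
    (hw : OfWt ΛL ΛP (insert D.i S) (D.wt (k₀ * l') l' c') w) :
    ∃ m : D.SecT (k₀ * (l + l')) (l + l'),
      OfWt ΛL ΛP (insert D.i S) (D.wt (k₀ * (l + l')) (l + l') (c + c')) m ∧
      ∀ i j φ x, m.f i j φ x = v.f i j φ x * w.f i j φ x := by
  have e1 : k₀ * l * D.K + l * D.K' + (k₀ * l' * D.K + l' * D.K') =
      k₀ * (l + l') * D.K + (l + l') * D.K' := by ring
  have e2 : k₀ * l * 0 + l * D.J' + (k₀ * l' * 0 + l' * D.J') =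
      k₀ * (l + l') * 0 + (l + l') * D.J' := by ring
  refine ⟨(v.mul w).cast e1 e2 (add_zero 0), ?_, fun _ _ _ _ => rfl⟩
  refine OfWt.cast (OfWt.congr_wt ?_ (hv.mul hw)) _ _ _
  intro d _
  simp only [Pi.add_apply, Lvl.wt]
  push_cast
  split_ifs <;> ring

/-- PROOF. `Sec2.pow`, `Sec2.cast`, `OfWt.pow`, `OfWt.congr_wt`. -/
theorem Lvl.B_pow (D : Lvl ΛL ΛP S U) (k₀ : ℕ) {l : ℕ} {c : ℤ} {v : D.SecT (k₀ * l) l}
    (hv : OfWt ΛL ΛP (insert D.i S) (D.wt (k₀ * l) l c) v) (e : ℕ) :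
    ∃ m : D.SecT (k₀ * (e * l)) (e * l),
      OfWt ΛL ΛP (insert D.i S) (D.wt (k₀ * (e * l)) (e * l) (e * c)) m ∧
      ∀ i j φ x, m.f i j φ x = v.f i j φ x ^ e := by
  have e1 : e * (k₀ * l * D.K + l * D.K') = k₀ * (e * l) * D.K + e * l * D.K' := by ring
  have e2 : e * (k₀ * l * 0 + l * D.J') = k₀ * (e * l) * 0 + e * l * D.J' := by ring
  refine ⟨(v.pow e).cast e1 e2 (mul_zero e), ?_, fun _ _ _ _ => rfl⟩
  refine OfWt.cast (OfWt.congr_wt ?_ (hv.pow e)) _ _ _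
  intro d _
  simp only [Lvl.wt]
  push_cast
  split_ifs <;> ring

/-- PROOF. `Sec2.add`, `Sec2.smul`, `OfWt.add`, `OfWt.smul`. -/
theorem Lvl.B_lin (D : Lvl ΛL ΛP S U) {k j : ℕ} {χ : Fin r → ℤ} {v w : D.SecT k j}
    (hv : OfWt ΛL ΛP (insert D.i S) χ v) (hw : OfWt ΛL ΛP (insert D.i S) χ w) (a b : ℂ) :
    ∃ m : D.SecT k j, OfWt ΛL ΛP (insert D.i S) χ m ∧
      ∀ i j φ x, m.f i j φ x = a * v.f i j φ x + b * w.f i j φ x := by
  exact ⟨(Sec2.smul a v).add (Sec2.smul b w), (hv.smul a).add (hw.smul b), fun _ _ _ _ => rfl⟩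

/-- The two sections at a point of the chamber. PROOF. `sp > 0`, `sm > 0` and `GT.Fam.m_pos_iff` give
`q, q' ∈ V.F`, which are in `R (k0 N) N` (`V.hF`), i.e. come from sections (`num_pos_iff`). -/
theorem Lvl.exists_pm (D : Lvl ΛL ΛP S U) (V : GT.Fam D.sys) (σ : ℤ) {x : X}
    (hx : x ∈ D.Cham V σ) : ∃ (cp cm : ℤ) (vp vm : D.SecT (V.k0 * V.N) V.N), 0 < σ * cp ∧
      σ * cm ≤ 0 ∧ OfWt ΛL ΛP (insert D.i S) (D.wt (V.k0 * V.N) V.N cp) vp ∧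
      OfWt ΛL ΛP (insert D.i S) (D.wt (V.k0 * V.N) V.N cm) vm ∧ vp.NZ x ∧ vm.NZ x := by
  obtain ⟨hxU, h1, h2⟩ := hx
  obtain ⟨q, hq, hc, hqx⟩ := (V.m_pos_iff _ _).1 h1
  obtain ⟨q', hq', hc', hqx'⟩ := (V.m_pos_iff _ _).1 h2
  obtain ⟨s, hs, hsn⟩ := (D.cham_R_iff hxU).1 ⟨q.2, V.hF q hq, hqx⟩
  obtain ⟨s', hs', hsn'⟩ := (D.cham_R_iff hxU).1 ⟨q'.2, V.hF q' hq', hqx'⟩
  exact ⟨q.1, q'.1, s, s', hc, hc', hs, hs', hsn, hsn'⟩

end Pool.Agent.Abd
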