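import Pool.Agent.H.MP_e23cd6_ag.GT.SepB2

/-! MP_e23cd6_ag, torus actions: two points of the chamber which are not separated by the sections
of multiples of `a'`. -/

set_option autoImplicit false

open scoped Manifold ContDiff Topology ENNReal
open MeasureTheory Set Filter

namespace Pool.Agent.Abd

variable {E : Type} [NormedAddCommGroup E] [NormedSpace ℂ E] [FiniteDimensional ℂ E] {r : ℕ}
  {X : Type} [TopologicalSpace X] [ChartedSpace E X] [IsManifold 𝓘(ℂ, E) ω X] [T2Space X]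
  {L P : LineBundle E X} {A : TorusAction E r X}
  {ΛL : Linearization A L} {ΛP : Linearization A P} {S : Finset (Fin r)} {U : Set X}
  [CompactSpace X] [ConnectedSpace X]

/-- Every section of a multiple of `a'` which does not vanish at `x` does not vanish at `y`. -/
def Lvl.NoSep (D : Lvl ΛL ΛP S U) (V : GT.Fam D.sys) (σ : ℤ) (x y : X) : Prop :=
  ∀ l : ℕ, 1 ≤ l → ∀ s : D.SecT (V.k0 * (2 * V.N * l)) (2 * V.N * l),
    OfWt ΛL ΛP (insert D.i S) (D.wt (V.k0 * (2 * V.N * l)) (2 * V.N * l) (σ * l)) s →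
    s.NZ x → s.NZ y

/-- PROOF. Take `vp`, `vm` for `x` (`exists_pm`) and the monomial `m` of `B_mono`: it does not vanish
at `x`, so not at `y`, so `v` does not vanish at `y` (frames at `y`: `exists_at`, `nz_iff`). -/
theorem Lvl.NoSep.nz (D : Lvl ΛL ΛP S U) (V : GT.Fam D.sys) {σ : ℤ} (hσ : σ = 1 ∨ σ = -1)
    {x y : X} (hx : x ∈ D.Cham V σ) (H : D.NoSep V σ x y) {l : ℕ} (hl : 1 ≤ l) {c : ℤ}
    {v : D.SecT (V.k0 * l) l} (hv : OfWt ΛL ΛP (insert D.i S) (D.wt (V.k0 * l) l c) v)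
    (h : v.NZ x) : v.NZ y := by
  obtain ⟨cp, cm, vp, vm, hcp, hcm, hvp, hvm, hpx, hmx⟩ := D.exists_pm V σ hx
  obtain ⟨l'', hl'', m, hm, e, α, β, he, hα, hβ, hf⟩ := D.B_mono V hσ hl hcp hcm hv hvp hvm
  obtain ⟨i, j, hat⟩ := exists_at L P x
  obtain ⟨i', j', hat'⟩ := exists_at L P y
  have h1 : m.NZ x := by
    rw [m.nz_iff (mem_univ x) hat, hf]
    exact mul_ne_zero (mul_ne_zero (pow_ne_zero _ ((v.nz_iff (mem_univ x) hat).1 h))
      (pow_ne_zero _ ((vp.nz_iff (mem_univ x) hat).1 hpx)))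
      (pow_ne_zero _ ((vm.nz_iff (mem_univ x) hat).1 hmx))
  have h2 := H l'' hl'' m hm h1
  rw [m.nz_iff (mem_univ y) hat', hf] at h2
  rw [v.nz_iff (mem_univ y) hat']
  intro h0
  apply h2
  rw [h0, zero_pow (by omega), zero_mul, zero_mul]

/-- Rewriting of the degree and the weight. -/
theorem Lvl.sepC_cast (D : Lvl ΛL ΛP S U) (k₀ : ℕ) {l l' : ℕ} {c c' : ℤ} (hl : l = l')
    (hc : c = c') {v : D.SecT (k₀ * l) l}
    (hv : OfWt ΛL ΛP (insert D.i S) (D.wt (k₀ * l) l c) v) :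
    ∃ m : D.SecT (k₀ * l') l', OfWt ΛL ΛP (insert D.i S) (D.wt (k₀ * l') l' c') m ∧
      ∀ i j φ x, m.f i j φ x = v.f i j φ x := by
  subst hl hc
  exact ⟨v, hv, fun _ _ _ _ => rfl⟩

/-- The converse. PROOF. Suppose `v.NZ y` and `¬ v.NZ x`. Take `vp`, `vm` for `x` (they do not vanish at
`y` by `NoSep.nz`). Let `m` be the monomial of `B_mono` for `v` (with `l''`) and `m₀` the one for `vp`
(with `l₀''`). `m` vanishes at `x` and not at `y`, `m₀` does not vanish at `x` and `y`. The powers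
`m ^ l₀''` and `m₀ ^ l''` (`B_pow`, after rewriting the degrees, `2 N l'' * l₀''`) have the same degree
and weight; with the frames of `exists_at` at `y`, `s = m₀ ^ l'' - λ m ^ l₀''` (`B_lin`),
`λ = m₀(y) ^ l'' / m(y) ^ l₀''`, vanishes at `y` and not at `x`: contradiction to `H`. -/
theorem Lvl.NoSep.nz' (D : Lvl ΛL ΛP S U) (V : GT.Fam D.sys) {σ : ℤ} (hσ : σ = 1 ∨ σ = -1)
    {x y : X} (hx : x ∈ D.Cham V σ) (H : D.NoSep V σ x y) {l : ℕ} (hl : 1 ≤ l) {c : ℤ}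
    {v : D.SecT (V.k0 * l) l} (hv : OfWt ΛL ΛP (insert D.i S) (D.wt (V.k0 * l) l c) v)
    (h : v.NZ y) : v.NZ x := by
  by_contra hcon
  obtain ⟨cp, cm, vp, vm, hcp, hcm, hvp, hvm, hpx, hmx⟩ := D.exists_pm V σ hx
  have hpy := Lvl.NoSep.nz D V hσ hx H V.hN hvp hpx
  have hmy := Lvl.NoSep.nz D V hσ hx H V.hN hvm hmx
  obtain ⟨l'', hl'', m, hm, e, α, β, he, hα, hβ, hf⟩ := D.B_mono V hσ hl hcp hcm hv hvp hvm
  obtain ⟨l₀, hl₀, m₀, hm₀, e₀, α₀, β₀, he₀, hα₀, hβ₀, hf₀⟩ :=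
    D.B_mono V hσ V.hN hcp hcm hvp hvp hvm
  obtain ⟨i, j, hat⟩ := exists_at L P x
  obtain ⟨i', j', hat'⟩ := exists_at L P y
  rw [vp.nz_iff (mem_univ x) hat] at hpx
  rw [vm.nz_iff (mem_univ x) hat] at hmx
  rw [vp.nz_iff (mem_univ y) hat'] at hpy
  rw [vm.nz_iff (mem_univ y) hat'] at hmy
  rw [v.nz_iff (mem_univ y) hat'] at h
  rw [v.nz_iff (mem_univ x) hat, not_not] at hcon
  have hmx0 : m.f i j (chartAt E x) x = 0 := by
    rw [hf, hcon, zero_pow (by omega), zero_mul, zero_mul]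
  have hmy0 : m.f i' j' (chartAt E y) y ≠ 0 := by
    rw [hf]
    exact mul_ne_zero (mul_ne_zero (pow_ne_zero _ h) (pow_ne_zero _ hpy)) (pow_ne_zero _ hmy)
  have hm₀x0 : m₀.f i j (chartAt E x) x ≠ 0 := by
    rw [hf₀]
    exact mul_ne_zero (mul_ne_zero (pow_ne_zero _ hpx) (pow_ne_zero _ hpx)) (pow_ne_zero _ hmx)
  obtain ⟨p, hp, hpf⟩ := D.B_pow V.k0 hm l₀
  obtain ⟨p₀, hp₀, hpf₀⟩ := D.B_pow V.k0 hm₀ l''
  have e1 : l₀ * (2 * V.N * l'') = 2 * V.N * (l'' * l₀) := by ring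
  have e2 : l'' * (2 * V.N * l₀) = 2 * V.N * (l'' * l₀) := by ring
  obtain ⟨q, hq, hqf⟩ := D.sepC_cast V.k0 e1
    (show (l₀ : ℤ) * (σ * l'') = σ * ((l'' * l₀ : ℕ) : ℤ) by push_cast; ring) hp
  obtain ⟨q₀, hq₀, hqf₀⟩ := D.sepC_cast V.k0 e2
    (show (l'' : ℤ) * (σ * l₀) = σ * ((l'' * l₀ : ℕ) : ℤ) by push_cast; ring) hp₀
  obtain ⟨s, hs, hsf⟩ := D.B_lin hq₀ hq 1
    (-(m₀.f i' j' (chartAt E y) y ^ l'' / m.f i' j' (chartAt E y) y ^ l₀))
  have hsx : s.NZ x := by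
    rw [s.nz_iff (mem_univ x) hat, hsf, hqf, hqf₀, hpf, hpf₀, hmx0, zero_pow (by omega)]
    intro h0
    apply pow_ne_zero l'' hm₀x0
    linear_combination h0
  have hsy := H (l'' * l₀) (Nat.mul_pos hl'' hl₀) s hs hsx
  rw [s.nz_iff (mem_univ y) hat'] at hsy
  apply hsy
  rw [hsf, hqf, hqf₀, hpf, hpf₀]
  field_simp
  ring

end Pool.Agent.Abd
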