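import Pool.Agent.H.MP_e23cd6_ag.GT.SepC2
import Pool.Agent.H.MP_e23cd6_ag.GT.SepB3
import Pool.Agent.H.MP_e23cd6_ag.GT.ChamC

/-! MP_e23cd6_ag, torus actions: the new bundle `a'` is ample on the chamber. -/

set_option autoImplicit false

open scoped Manifold ContDiff Topology ENNReal
open MeasureTheory Set Filter

namespace Pool.Agent.Abd

variable {E : Type} [NormedAddCommGroup E] [NormedSpace ℂ E] [FiniteDimensional ℂ E] {r : ℕ}
  {X : Type} [TopologicalSpace X] [ChartedSpace E X] [IsManifold 𝓘(ℂ, E) ω X] [T2Space X]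
  {L P : LineBundle E X} {A : TorusAction E r X}
  {ΛL : Linearization A L} {ΛP : Linearization A P} {S : Finset (Fin r)} {U : Set X}
  [CompactSpace X] [ConnectedSpace X]

/-- PROOF. Semiample: `new_semi` with `n' = 0` (casts). Separation: let `x`, `y` be in the chamber,
`y` not in the `T_{S + i}`-orbit of `x`, and suppose that for all `l ≥ 1` every section `s` of `l a'` with
`s.NZ x` has `s.NZ y`; with casts (`l newK = k₀ (2 N l) K + 2 N l K'` etc., `OfWt.congr_wt`) this is
`NoSep V σ x y`. `exists_shift` gives `a ∈ T_i`. If `a y` was not in the `T_S`-orbit of `x`, `B_sep` for `x`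
and `z = a y` gives `s` with `s.NZ x`, `¬ s.NZ (a y)`: contradiction. So `a y = b x`, `b ∈ T_S`, and
`y = (a⁻¹ b) x` with `a⁻¹ * b ∈ T_{S + i}`: contradiction. -/
theorem Lvl.new_ample (D : Lvl ΛL ΛP S U) (V : GT.Fam D.sys) {σ : ℤ} (hσ : σ = 1 ∨ σ = -1)
    {p : Quo A S U} (hp : D.Normal p) :
    AmpleG ΛL ΛP (insert D.i S) (D.Cham V σ) (D.newK V) (D.newJ V) (D.newχ V σ) := by
  refine ⟨?_, fun x hx y hy hxy => ?_⟩
  · have h := D.new_semi V hσ hp 0
    rw [zero_mul, zero_add] at h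
    refine h.congr_wt fun c _ => ?_
    rw [Nat.cast_zero, zero_mul, zero_add]
  · by_contra hcon
    have hN : D.NoSep V σ x y := by
      intro l hl s hs hn
      by_contra hn'
      apply hcon
      have e1 : V.k0 * (2 * V.N * l) * D.K + 2 * V.N * l * D.K' = l * D.newK V := by
        unfold Lvl.newK
        ring
      have e2 : V.k0 * (2 * V.N * l) * 0 + 2 * V.N * l * D.J' = l * D.newJ V := by
        unfold Lvl.newJ
        ring
      refine ⟨l, hl, s.cast e1 e2 rfl, ?_, ?_, ?_⟩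
      · refine OfWt.cast (OfWt.congr_wt ?_ hs) _ _ _
        intro d _
        simp only [Lvl.wt, Lvl.newχ]
        push_cast
        split_ifs <;> ring
      · rw [Sec2.nz_cast]
        exact hn
      · rw [Sec2.nz_cast]
        exact hn'
    obtain ⟨a, ha, hs⟩ := Lvl.NoSep.exists_shift D V hσ hx hN
    have hyU : y ∈ U := D.cham_sub V σ hy
    have hxU : x ∈ U := D.cham_sub V σ hx
    have hay : A.act a y ∈ U := D.inv a ha.1 y hyU
    by_cases h : ∃ b, InTS S b ∧ A.act a y = A.act b x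
    · obtain ⟨b, hb, e⟩ := h
      refine hxy ⟨a⁻¹ * b, ?_, ?_⟩
      · refine inTS_mul (inTS_mono ?_ (inTS_inv ha)) (inTS_mono (Finset.subset_insert _ _) hb)
        intro c hc
        rw [Finset.mem_singleton] at hc
        rw [hc]
        exact Finset.mem_insert_self _ _
      · rw [A.mul a⁻¹ b (inTS_inv ha).1 hb.1, ← e, act_inv_act A ha.1]
    · obtain ⟨l, hl, s, hs1, hs2, hs3⟩ := D.B_sep V.k0 hxU hay h
      exact hs3 ((hs l hl s hs1).1 hs2)

/-- PROOF. `new_ample`, `new_semi`. -/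
theorem Lvl.new_nef (D : Lvl ΛL ΛP S U) (V : GT.Fam D.sys) {σ : ℤ} (hσ : σ = 1 ∨ σ = -1)
    {p : Quo A S U} (hp : D.Normal p) : NefG ΛL ΛP (insert D.i S) (D.Cham V σ) D.K D.χ :=
  ⟨_, _, _, D.new_ample V hσ hp, fun N _ => D.new_semi V hσ hp N⟩

end Pool.Agent.Abd
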