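import Pool.Agent.H.MP_e23cd6_ag.GT.ChamA
import Pool.Agent.H.MP_e23cd6_ag.GT.LvlG
import Pool.Agent.H.MP_e23cd6_ag.GT.DynH

/-! MP_e23cd6_ag, torus actions: existence of levels, normalisation at a fixed point. -/

set_option autoImplicit false

open scoped Manifold ContDiff Topology ENNReal
open MeasureTheory Set Filter

namespace Pool.Agent.Abd

variable {E : Type} [NormedAddCommGroup E] [NormedSpace ℂ E] [FiniteDimensional ℂ E] {r : ℕ}
  {X : Type} [TopologicalSpace X] [ChartedSpace E X] [IsManifold 𝓘(ℂ, E) ω X] [T2Space X]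
  {L P : LineBundle E X} {A : TorusAction E r X}
  {ΛL : Linearization A L} {ΛP : Linearization A P} {S : Finset (Fin r)} {U : Set X}
  [CompactSpace X] [ConnectedSpace X]

/-- The data of a level exist. PROOF. The metric on `a` is given by `SemiQ.exists_met` (for
`hA.1.toQ`), the one on `D + a` by `SemiQ.exists_met` for `hN 1` (casts: `1 * K + K' = K + K'`,
`(fun c => 1 * χ c + χ' c) = χ + χ'`), the one on `D` is `Met.div`. -/
theorem exists_lvl (hG : Good A S U) {i : Fin r} (hi : i ∉ S) {K K' J' : ℕ} {χ χ' : Fin r → ℤ}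
    (hA : AmpleG ΛL ΛP S U K' J' χ')
    (hN : ∀ N : ℕ, 1 ≤ N → SemiG ΛL ΛP S U (N * K + K') J' (fun c => N * χ c + χ' c)) :
    ∃ D : Lvl ΛL ΛP S U, D.i = i ∧ D.K = K ∧ D.χ = χ ∧ D.K' = K' ∧ D.J' = J' ∧ D.χ' = χ' := by
  obtain ⟨ha⟩ := SemiQ.exists_met hG hA.1.toQ
  have h1 := (hN 1 le_rfl).toQ
  have e1 : 1 * K + K' = K + K' := by rw [one_mul]
  have e2 : (fun c => ((1 : ℕ) : ℤ) * χ c + χ' c) = χ + χ' := by
    funext c
    simp
  rw [e1, e2] at h1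
  obtain ⟨hs⟩ := SemiQ.exists_met hG h1
  exact ⟨⟨i, hi, hG, K, χ, K', J', χ', hA, hN, hs.div ha, ha⟩, rfl, rfl, rfl, rfl, rfl, rfl⟩

/-- PROOF. The `l`-th power of the section: `l * (k * q * K) = k * q * (l * K)`,
`l * (m * q) = l * m * q`; `‖s ^ l‖ ^ (-2/(l m q)) = ‖s‖ ^ (-2/(m q))` (`ENNReal.rpow`). -/
theorem KltQ.nsmul [MeasureSpace E] {K k m : ℕ} {χ : Fin r → ℤ} (h : KltQ ΛL ΛP S U K χ k m)
    {l : ℕ} (hl : 1 ≤ l) : KltQ ΛL ΛP S U (l * K) (fun c => l * χ c) k (l * m) := by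
  obtain ⟨q, hq, s, hs, hk⟩ := h
  refine ⟨q, hq, (s.pow l).cast (by ring) (mul_zero l) (by ring), ?_, ?_⟩
  · refine OfWt.cast (OfWt.congr_wt ?_ (hs.pow l)) _ _ _
    intro c _
    ring
  · intro i j φ hφ x hx h1 h2 h3
    obtain ⟨N, hN, hint⟩ := hk i j φ hφ x hx h1 h2 h3
    refine ⟨N, hN, ?_⟩
    have hl0 : (l : ℝ) ≠ 0 := by
      have : l ≠ 0 := by omega
      exact_mod_cast this
    have e : ∀ z : E, ‖((s.pow l).cast (by ring : l * (k * q * K) = k * q * (l * K)) (mul_zero l)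
        (by ring : l * (m * q) = l * m * q)).f i j φ (φ.symm z)‖ₑ ^ (-(2 : ℝ) / ((l * m * q : ℕ) : ℝ)) =
        ‖s.f i j φ (φ.symm z)‖ₑ ^ (-(2 : ℝ) / ((m * q : ℕ) : ℝ)) := by
      intro z
      show ‖s.f i j φ (φ.symm z) ^ l‖ₑ ^ (-(2 : ℝ) / ((l * m * q : ℕ) : ℝ)) = _
      rw [enorm_pow, ← ENNReal.rpow_natCast, ← ENNReal.rpow_mul]
      congr 1
      push_cast
      rw [mul_assoc (l : ℝ), ← mul_div_assoc, mul_div_mul_left _ _ hl0]
    simp only [e]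
    exact hint

theorem KltQ.congr_wt [MeasureSpace E] {K k m : ℕ} {χ χ' : Fin r → ℤ}
    (h : KltQ ΛL ΛP S U K χ k m) (hχ : ∀ c ∈ S, χ c = χ' c) : KltQ ΛL ΛP S U K χ' k m := by
  obtain ⟨q, hq, s, hs, hk⟩ := h
  exact ⟨q, hq, s, OfWt.congr_wt (fun c hc => by rw [hχ c hc]) hs, hk⟩

end Pool.Agent.Abd
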