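import Pool.Agent.H.MP_e23cd6_ag.GT.StepA

/-! MP_e23cd6_ag, torus actions: existence of levels, normalisation at a fixed point. -/

set_option autoImplicit false

open scoped Manifold ContDiff Topology ENNReal
open MeasureTheory Set Filter

namespace Pool.Agent.Abd

variable {E : Type} [NormedAddCommGroup E] [NormedSpace ℂ E] [FiniteDimensional ℂ E] {r : ℕ}
  {X : Type} [TopologicalSpace X] [ChartedSpace E X] [IsManifold 𝓘(ℂ, E) ω X] [T2Space X]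
  {L P : LineBundle E X} {A : TorusAction E r X}
  {ΛL : Linearization A L} {ΛP : Linearization A P} {S : Finset (Fin r)} {U : Set X}
  [CompactSpace X] [ConnectedSpace X]

/-- NORMALISATION at the fixed point `p`.

PROOF. `D.gen 0` gives `l₀` and a function in `R 0 l₀ c₀` which is positive at `p`, i.e. a section `s₀` of
`l₀ a` of weight `wt 0 l₀ c₀` with `s₀.NZ` at the points over `p`; `D.gen 1` gives `l₁` and a section `s₁` of
degree `(1 * l₁, l₁)` of weight `wt (1 * l₁) l₁ c₁`. `l = l₀ l₁`. New data: `K₁ = l K`,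
`χ₁ = l χ + (l₀ c₁ - l₁ c₀) e_i`, `K₁' = l K'`, `J₁' = l J'`, `χ₁' = l χ' + l₁ c₀ e_i`; the bundles are ample
and nef (`AmpleG.nsmul`, `SemiG.nsmul`, `congr_wt`: the coordinate `i ∉ S` does not matter;
`N (l K) + l K' = l (N K + K')`); `exists_lvl` gives `D₁`. Normality: the flow of `D₁` is the flow of `D`
(same `i`). `s₀ ^ l₁`, cast to `D₁.SecT 0 1`, has the weight `D₁.wt 0 1 0` and does not vanish over `p`, so
`0 = 0 * b + 1 * a` by `GT.Sys.exp_fixed` for `D₁.sys` (`cham_R_iff`); `s₁ ^ l₀`, cast to `D₁.SecT 1 1`, has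
the weight `D₁.wt 1 1 0`, so `0 = b + a`. -/
theorem Lvl.normalise (D : Lvl ΛL ΛP S U) (p : Quo A S U) (hp : D.f 1 p = p) :
    ∃ (D₁ : Lvl ΛL ΛP S U) (l : ℕ), 1 ≤ l ∧ D₁.i = D.i ∧ D₁.K = l * D.K ∧
      (∀ c ∈ S, D₁.χ c = l * D.χ c) ∧ D₁.Normal p := by
  obtain ⟨y, rfl⟩ := Quo.mk_surj A S U p
  obtain ⟨l₀, hl₀, F₀, hF₀, hF₀'⟩ := D.gen 0
  obtain ⟨⟨c₀, u₀⟩, hq₀, hu₀⟩ := hF₀' (Quo.mk A S U y)
  obtain ⟨s₀, hs₀, hn₀⟩ := (D.cham_R_iff y.2).1 ⟨u₀, hF₀ _ hq₀, hu₀⟩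
  obtain ⟨l₁, hl₁, F₁, hF₁, hF₁'⟩ := D.gen 1
  obtain ⟨⟨c₁, u₁⟩, hq₁, hu₁⟩ := hF₁' (Quo.mk A S U y)
  obtain ⟨s₁, hs₁, hn₁⟩ := (D.cham_R_iff y.2).1 ⟨u₁, hF₁ _ hq₁, hu₁⟩
  have hl : 1 ≤ l₀ * l₁ := Nat.mul_pos hl₀ hl₁
  have hA : AmpleG ΛL ΛP S U (l₀ * l₁ * D.K') (l₀ * l₁ * D.J')
      (fun d => ((l₀ * l₁ : ℕ) : ℤ) * D.χ' d + if d = D.i then (l₁ : ℤ) * c₀ else 0) := by
    refine (D.ample.nsmul hl).congr_wt ?_
    intro d hd
    have h : d ≠ D.i := fun e => D.hi (e ▸ hd)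
    rw [if_neg h, add_zero]
  have hN : ∀ N : ℕ, 1 ≤ N → SemiG ΛL ΛP S U (N * (l₀ * l₁ * D.K) + l₀ * l₁ * D.K')
      (l₀ * l₁ * D.J') (fun d => (N : ℤ) * (((l₀ * l₁ : ℕ) : ℤ) * D.χ d +
        if d = D.i then (l₀ : ℤ) * c₁ - (l₁ : ℤ) * c₀ else 0) +
        (((l₀ * l₁ : ℕ) : ℤ) * D.χ' d + if d = D.i then (l₁ : ℤ) * c₀ else 0)) := by
    intro N hN
    have h := (D.semi N hN).nsmul hl
    have e : l₀ * l₁ * (N * D.K + D.K') = N * (l₀ * l₁ * D.K) + l₀ * l₁ * D.K' := by ring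
    rw [e] at h
    refine h.congr_wt ?_
    intro d hd
    have h : d ≠ D.i := fun e => D.hi (e ▸ hd)
    rw [if_neg h, if_neg h]
    ring
  obtain ⟨D₁, hi, hK, hχ, hK', hJ', hχ'⟩ := exists_lvl (K := l₀ * l₁ * D.K)
    (χ := fun d => ((l₀ * l₁ : ℕ) : ℤ) * D.χ d +
      if d = D.i then (l₀ : ℤ) * c₁ - (l₁ : ℤ) * c₀ else 0) D.good D.hi hA hN
  have hfix : D₁.sys.f 1 (Quo.mk A S U y) = Quo.mk A S U y := by
    refine Eq.trans ?_ hp
    show D₁.f 1 (Quo.mk A S U y) = D.f 1 (Quo.mk A S U y)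
    rw [D₁.f_mk, D.f_mk]
    congr 1
    apply Subtype.ext
    show A.act (sh D₁.i (-1)) y.1 = A.act (sh D.i (-1)) y.1
    rw [hi]
  have hw0 : (0 : ℝ) = D₁.sys.a (Quo.mk A S U y) := by
    obtain ⟨u, hu, hu'⟩ := (D₁.cham_R_iff (k := 0) (j := 1) (c := 0) y.2).2 ⟨(s₀.pow l₁).cast
      (by rw [hK, hK']; ring) (by rw [hJ']; ring) (mul_zero l₁), by
        refine OfWt.cast (OfWt.congr_wt ?_ (by rw [hi]; exact hs₀.pow l₁)) _ _ _
        intro d _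
        simp only [Lvl.wt, hχ', hi]
        push_cast
        split_ifs <;> ring, by
        rw [Sec2.nz_cast, s₀.nz_pow (by omega) (mem_univ _)]
        exact hn₀⟩
    have h := D₁.sys.exp_fixed hfix hu hu'
    push_cast at h
    linarith
  have hw1 : (0 : ℝ) = D₁.sys.b (Quo.mk A S U y) + D₁.sys.a (Quo.mk A S U y) := by
    obtain ⟨u, hu, hu'⟩ := (D₁.cham_R_iff (k := 1) (j := 1) (c := 0) y.2).2 ⟨(s₁.pow l₀).cast
      (by rw [hK, hK']; ring) (by rw [hJ']; ring) (mul_zero l₀), by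
        refine OfWt.cast (OfWt.congr_wt ?_ (by rw [hi]; exact hs₁.pow l₀)) _ _ _
        intro d _
        simp only [Lvl.wt, hχ, hχ', hi]
        push_cast
        split_ifs <;> ring, by
        rw [Sec2.nz_cast, s₁.nz_pow (by omega) (mem_univ _)]
        exact hn₁⟩
    have h := D₁.sys.exp_fixed hfix hu hu'
    push_cast at h
    linarith
  refine ⟨D₁, l₀ * l₁, hl, hi, hK, ?_, hfix, by linarith, hw0.symm⟩
  intro c hc
  have h : c ≠ D.i := fun e => D.hi (e ▸ hc)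
  rw [hχ]
  beta_reduce
  rw [if_neg h, add_zero]

end Pool.Agent.Abd
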