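import Pool.Agent.H.MP_e23cd6_ag.GT.StepA2
import Pool.Agent.H.MP_e23cd6_ag.GT.StepB
import Pool.Agent.H.MP_e23cd6_ag.GT.PStep2
import Pool.Agent.H.MP_e23cd6_ag.GT.SepD

/-! MP_e23cd6_ag, torus actions: the reduction step and the induction. -/

set_option autoImplicit false

open scoped Manifold ContDiff Topology ENNReal
open MeasureTheory Set Filter

namespace Pool.Agent.Abd

variable {E : Type} [NormedAddCommGroup E] [NormedSpace ℂ E] [FiniteDimensional ℂ E]
  [MeasureSpace E] [BorelSpace E] [(volume : Measure E).IsAddHaarMeasure] {r : ℕ}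
  {X : Type} [TopologicalSpace X] [ChartedSpace E X] [IsManifold 𝓘(ℂ, E) ω X] [T2Space X]
  {L P : LineBundle E X} {A : TorusAction E r X}
  (ΛL : Linearization A L) (ΛP : Linearization A P)

/-- Abundance for the klt pairs on `U / T_S` given by the bundles `L ^ K` and weights: nef (by means
of sections over `X`) and klt imply semiample. -/
def AbG (S : Finset (Fin r)) (U : Set X) : Prop :=
  ∀ (K : ℕ) (χ : Fin r → ℤ) (k m : ℕ), 1 ≤ K → 1 ≤ k → 1 ≤ m → NefG ΛL ΛP S U K χ →
    KltQ ΛL ΛP S U K χ k m → SemiQ ΛL ΛP S U K 0 χ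

variable {ΛL ΛP} {S : Finset (Fin r)} {U : Set X} [CompactSpace X] [ConnectedSpace X]

/-- Semiampleness over the chambers of a normal level.

PROOF. The chamber is Good (`cham_good`), dense if `U` is (`cham_dense`), contained in `U`; `new_nef`
gives `NefG`; `KltQ.transfer` with `D.growth` gives `KltQ`; apply the hypothesis. -/
theorem Lvl.cham_semi (D : Lvl ΛL ΛP S U) (V : GT.Fam D.sys) {p : Quo A S U} (hp : D.Normal p)
    (hd : Dense U) {k m : ℕ} (hK : 1 ≤ D.K) (hk : 1 ≤ k) (hm : 1 ≤ m)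
    (hklt : KltQ ΛL ΛP S U D.K D.χ k m)
    (IH : ∀ U' : Set X, Dense U' → Good A (insert D.i S) U' → AbG ΛL ΛP (insert D.i S) U')
    {σ : ℤ} (hσ : σ = 1 ∨ σ = -1) (hne : (D.Cham V σ).Nonempty) :
    SemiQ ΛL ΛP (insert D.i S) (D.Cham V σ) D.K 0 D.χ := by
  have hG' := D.cham_good V hσ hne
  have hd' := D.cham_dense V hσ hne hd
  have hnef := D.new_nef V hσ hp
  have hkl : KltQ ΛL ΛP (insert D.i S) (D.Cham V σ) D.K D.χ k m :=
    KltQ.transfer D.good D.hi (D.cham_sub V σ) hG' D.hD (fun x₀ hx₀ => D.growth V hσ hp hx₀) hm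
      hklt
  exact IH _ hd' hG' D.K D.χ k m hK hk hm hnef hkl

/-- THE STEP.

PROOF. Let `NefG` be given by `K', J', χ'`. By `SemiQ.of_local` it suffices to find for each `x ∈ U` an
`l ≥ 1` and a section over `U` of `L ^ (l K)` of weight `l χ` which does not vanish at `x`. `D` from
`exists_lvl`; `GT.Sys.exists_near_fixed` for `D.sys` (`CompactSpace` from `Quo.compact`) and `mk x` gives a
fixed class `mk p` close to the orbit of `mk x`. `D₁`, `l₁` from `Lvl.normalise` at `mk p`; a family `V` of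
`D₁.sys` (`GT.Sys.exists_fam`). `KltQ` for `D₁`: `KltQ.nsmul`, `congr_wt`. `Lvl.p_step` for `D₁` with
`moving_dense` (from `exists_moving`) and `cham_semi` gives `l ≥ 1` and `s` of `L ^ (l l₁ K)`, `s.NZ p`,
of `T_S`-weight `l l₁ χ`. `gt_components` gives a component `t` of `T_{S + i}`-weight with `t.NZ p` (as in
`exists_comp_nz`), which has the same `T_S`-weight (`mono_S`, `congr_wt`); `nz_of_near`: `t.NZ x`. Cast
`l * (l₁ * K) = l * l₁ * K`. (`D₁.f = D.f` as `D₁.i = D.i`.) -/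
theorem ab_step (hG : Good A S U) (hd : Dense U) {i : Fin r} (hi : i ∉ S)
    (hst : ∃ x₀ : X, {a : Fin r → ℂ | InT a ∧ A.act a x₀ = x₀}.Finite)
    (IH : ∀ U' : Set X, Dense U' → Good A (insert i S) U' → AbG ΛL ΛP (insert i S) U') :
    AbG ΛL ΛP S U := by
  intro K χ k m hK hk hm hnef hklt
  obtain ⟨K', J', χ', hA, hN⟩ := hnef
  obtain ⟨D, hDi, hDK, hDχ, -, -, -⟩ := exists_lvl hG hi hA hN
  haveI : CompactSpace (Quo A S U) := Quo.compact hG
  refine SemiQ.of_local hG fun x hx => ?_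
  obtain ⟨p', hpfix, hnear⟩ := D.sys.exists_near_fixed (Quo.mk A S U ⟨x, hx⟩)
  obtain ⟨p, rfl⟩ := Quo.mk_surj A S U p'
  obtain ⟨D₁, l₁, hl₁, hi₁, hK₁, hχ₁, hnorm⟩ := D.normalise (Quo.mk A S U p) hpfix
  obtain ⟨V⟩ := D₁.sys.exists_fam
  have hk2 : KltQ ΛL ΛP S U D₁.K D₁.χ k (l₁ * m) := by
    rw [hK₁, hDK]
    exact (hklt.nsmul hl₁).congr_wt (fun c hc => by rw [hχ₁ c hc, hDχ])
  have hK1 : 1 ≤ D₁.K := by
    rw [hK₁, hDK]
    exact Nat.mul_pos hl₁ hK
  have hm1 : 1 ≤ l₁ * m := Nat.mul_pos hl₁ hm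
  have IH' : ∀ U' : Set X, Dense U' → Good A (insert D₁.i S) U' →
      AbG ΛL ΛP (insert D₁.i S) U' := by
    rw [hi₁, hDi]
    exact IH
  obtain ⟨l, hl, s, hs, hsn⟩ := D₁.p_step V p.2 hnorm
    (D₁.moving_dense (D₁.exists_moving hd hst) p.2)
    (fun σ hσ hne => D₁.cham_semi V hnorm hd hK1 hk hm1 hk2 IH' hσ hne)
  obtain ⟨T, t, ht, hsum⟩ := gt_components hG D.hi s hs
  obtain ⟨i₁, j₁, hat⟩ := exists_at L P p.1
  have h1 := (s.nz_iff p.2 hat).1 hsn
  rw [hsum i₁ j₁ _ p.1 p.2 hat] at h1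
  obtain ⟨c, _, hc⟩ := Finset.exists_ne_zero_of_sum_ne_zero h1
  have hcn : (t c).NZ p.1 := ((t c).nz_iff p.2 hat).2 hc
  have hxn : (t c).NZ x := D.nz_of_near (ht c) p.2 hx hcn hnear
  have e1 : l * D₁.K = l * l₁ * K := by rw [hK₁, hDK, mul_assoc]
  have e2 : l * 0 = l * l₁ * 0 := by simp
  refine ⟨l * l₁, Nat.mul_pos hl hl₁, (t c).cast e1 e2 rfl, ?_, ?_⟩
  · refine OfWt.cast (OfWt.congr_wt ?_ ((ht c).mono_S (Finset.subset_insert D.i S))) e1 e2 rfl
    intro d hd'
    have hne : d ≠ D.i := fun h => D.hi (h ▸ hd')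
    rw [if_neg hne, hχ₁ d hd', hDχ]
    push_cast
    ring
  · rw [Sec2.nz_cast]
    exact hxn

/-- THE INDUCTION. PROOF. Induction on the number of elements of the complement of `S`; if `S` is
everything use `H`, otherwise take `i ∉ S` and `ab_step`. -/
theorem ab_all (hst : ∃ x₀ : X, {a : Fin r → ℂ | InT a ∧ A.act a x₀ = x₀}.Finite)
    (H : ∀ U : Set X, Dense U → Good A Finset.univ U → AbG ΛL ΛP Finset.univ U)
    (S : Finset (Fin r)) (U : Set X) (hd : Dense U) (hG : Good A S U) : AbG ΛL ΛP S U := by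
  classical
  have key : ∀ (n : ℕ) (S : Finset (Fin r)), (Finset.univ \ S).card = n → ∀ U : Set X, Dense U →
      Good A S U → AbG ΛL ΛP S U := by
    intro n
    induction n with
    | zero =>
      intro S hS U hd hG
      have h1 : S = Finset.univ := by
        have h2 := Finset.card_eq_zero.1 hS
        exact Finset.eq_univ_iff_forall.2 fun c => by
          by_contra hc
          have : c ∈ Finset.univ \ S := Finset.mem_sdiff.2 ⟨Finset.mem_univ c, hc⟩
          rw [h2] at this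
          simp at this
      subst h1
      exact H U hd hG
    | succ n ih =>
      intro S hS U hd hG
      obtain ⟨i, hi'⟩ : (Finset.univ \ S).Nonempty := by
        rw [← Finset.card_pos, hS]
        omega
      have hi : i ∉ S := (Finset.mem_sdiff.1 hi').2
      refine ab_step hG hd hi hst (ih (insert i S) ?_)
      have e : Finset.univ \ insert i S = (Finset.univ \ S).erase i := by
        ext c
        simp only [Finset.mem_sdiff, Finset.mem_univ, true_and, Finset.mem_insert, not_or,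
          Finset.mem_erase]
      rw [e, Finset.card_erase_of_mem hi', hS]
      rfl
  exact key _ S rfl U hd hG

end Pool.Agent.Abd
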