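import Pool.Agent.H.MP_e23cd6_ag.GT.Move
import Pool.Agent.H.MP_e23cd6_ag.GT.Wander
import Pool.Agent.H.MP_e23cd6_ag.TB.PNorm

/-! The integral over the translates of a small set is finite. -/

set_option autoImplicit false

open scoped Manifold ContDiff Topology ENNReal
open MeasureTheory Set Filter

namespace Pool.Agent.Abd

variable {E : Type} [NormedAddCommGroup E] [NormedSpace ℂ E] [FiniteDimensional ℂ E]
  [MeasureSpace E] [BorelSpace E] [(volume : Measure E).IsAddHaarMeasure] {r : ℕ}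
  {X : Type} [TopologicalSpace X] [ChartedSpace E X] [IsManifold 𝓘(ℂ, E) ω X] [T2Space X]
  {A : TorusAction E r X} {L P : LineBundle E X} {K J m k : ℕ} {U : Set X}

omit [MeasureSpace E] [BorelSpace E] [(volume : Measure E).IsAddHaarMeasure] [T2Space X]
  [FiniteDimensional ℂ E] [IsManifold 𝓘(ℂ, E) ω X] in
theorem sumint_symm_tendsto {ψ : OpenPartialHomeomorph X E} {y : X} (hy : y ∈ ψ.source) :
    Tendsto ψ.symm (𝓝 (ψ y)) (𝓝 y) := by
  have h1 := ψ.symm.continuousAt (ψ.map_source hy)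
  rwa [ContinuousAt, ψ.left_inv hy] at h1

theorem sumint_enorm_le {a b : ℝ≥0∞} {τ : ℝ} (hτ : 0 ≤ τ) (h : a ≤ b) : b ^ (-τ) ≤ a ^ (-τ) := by
  rw [ENNReal.rpow_neg, ENNReal.rpow_neg]
  exact ENNReal.inv_le_inv.2 (ENNReal.rpow_le_rpow h hτ)

/-- The piece around one point. -/
theorem sumint_piece (h : NormOn L P K J U) (hU : IsOpen U) (s : Sec2 L P (k * K) (k * J) m U)
    (hs : s.Klt) {y : X} (hy : y ∈ U) :
    ∃ C : Set E, IsCompact C ∧ C ⊆ (chartAt E y).target ∧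
      (∀ v ∈ C, (chartAt E y).symm v ∈ U) ∧ C ∈ 𝓝 (chartAt E y y) ∧
      ∫⁻ v in C, ENNReal.ofReal (dens h s (chartAt E y) ((chartAt E y).symm v)) ^
        (-(2 : ℝ) / m) < ⊤ := by
  have : ProperSpace E := FiniteDimensional.proper ℂ E
  have hψ : chartAt E y ∈ Charts E X := IsManifold.chart_mem_maximalAtlas y
  have hys : y ∈ (chartAt E y).source := mem_chart_source E y
  obtain ⟨i, hi⟩ := L.cover y
  obtain ⟨j, hj⟩ := P.cover y
  obtain ⟨N, hN, hint⟩ := hs i j (chartAt E y) hψ y hy hi hj hys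
  set ψ := chartAt E y with hψdef
  have hpos := h.pos i j y hy hi hj
  set δ : ℝ := h.h i j y / 2 with hδ
  have hδ0 : 0 < δ := by positivity
  have hlt : δ < h.h i j y := by rw [hδ]; linarith
  have hev : ∀ᶠ x in 𝓝 y, x ∈ U ∧ At L P i j ψ x ∧ δ < h.h i j x := by
    have hat : At L P i j ψ y := ⟨hψ, hi, hj, hys⟩
    filter_upwards [hU.mem_nhds hy, hat.eventually,
      (h.cont i j y hy hi hj).eventually (lt_mem_nhds hlt)] with x h1 h2 h3
    exact ⟨h1, h2, h3⟩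
  have hev2 := (sumint_symm_tendsto hys).eventually hev
  have hev3 : ∀ᶠ v in 𝓝 (ψ y), v ∈ N ∧ v ∈ ψ.target ∧ ψ.symm v ∈ U ∧
      At L P i j ψ (ψ.symm v) ∧ δ < h.h i j (ψ.symm v) := by
    filter_upwards [hN, ψ.open_target.mem_nhds (ψ.map_source hys), hev2] with v h1 h2 h3
    exact ⟨h1, h2, h3⟩
  obtain ⟨ε, hε, hball⟩ := Metric.nhds_basis_closedBall.eventually_iff.1 hev3
  refine ⟨Metric.closedBall (ψ y) ε, isCompact_closedBall _ _, fun v hv => (hball hv).2.1,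
    fun v hv => (hball hv).2.2.1, Metric.closedBall_mem_nhds _ hε, ?_⟩
  set τ : ℝ := 2 / m with hτd
  have hτ : 0 ≤ τ := by positivity
  have hτe : -(2 : ℝ) / m = -τ := by rw [hτd, neg_div]
  rw [hτe] at hint ⊢
  have hc0 : ENNReal.ofReal (δ ^ k) ≠ 0 := by
    have : 0 < δ ^ k := by positivity
    simpa using this
  have hle : ∀ v ∈ Metric.closedBall (ψ y) ε,
      ENNReal.ofReal (dens h s ψ (ψ.symm v)) ^ (-τ) ≤
        ENNReal.ofReal (δ ^ k) ^ (-τ) * ‖s.f i j ψ (ψ.symm v)‖ₑ ^ (-τ) := by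
    intro v hv
    obtain ⟨-, -, h3, h4, h5⟩ := hball hv
    rw [dens_eq h s h3 h4, ← ENNReal.mul_rpow_of_ne_top ENNReal.ofReal_ne_top enorm_ne_top]
    refine sumint_enorm_le hτ ?_
    rw [← ofReal_norm, ← ENNReal.ofReal_mul (by positivity)]
    refine ENNReal.ofReal_le_ofReal ?_
    rw [mul_comm]
    exact mul_le_mul_of_nonneg_left (pow_le_pow_left₀ hδ0.le h5.le k) (norm_nonneg _)
  have hctop : ENNReal.ofReal (δ ^ k) ^ (-τ) ≠ ⊤ := by
    rw [ENNReal.rpow_neg]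
    refine ENNReal.inv_ne_top.2 ?_
    intro h0
    rcases (ENNReal.rpow_eq_zero_iff).1 h0 with h2 | h2
    · exact hc0 h2.1
    · exact ENNReal.ofReal_ne_top h2.1
  calc _ ≤ ∫⁻ v in Metric.closedBall (ψ y) ε,
        ENNReal.ofReal (δ ^ k) ^ (-τ) * ‖s.f i j ψ (ψ.symm v)‖ₑ ^ (-τ) :=
        setLIntegral_mono' Metric.isClosed_closedBall.measurableSet hle
    _ = ENNReal.ofReal (δ ^ k) ^ (-τ) *
        ∫⁻ v in Metric.closedBall (ψ y) ε, ‖s.f i j ψ (ψ.symm v)‖ₑ ^ (-τ) :=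
        lintegral_const_mul' _ _ hctop
    _ < ⊤ := by
        refine ENNReal.mul_lt_top hctop.lt_top (lt_of_le_of_lt (lintegral_mono_set ?_) hint)
        exact fun v hv => (hball hv).1

/-- A compact subset of `U` is covered by finitely many compact coordinate pieces on which
`dens ^ (-2/m)` has finite integral.
Proof. For `y ∈ Kh`: `s.Klt` at `y` with frames `i, j` and the chart `ψ = chartAt E y` gives `N`; shrink
to a closed ball `C` around `ψ y`, contained in `N`, in `ψ.target` and in the preimages of `U`,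
`L.U i`, `P.U j` (open sets), on which `h i j` is bounded below by `δ > 0` (continuity), so
`dens ^ (-2/m) ≤ (‖f‖ * δ ^ k) ^ (-2/m)`. Compactness of `Kh`. -/
theorem exists_pieces (h : NormOn L P K J U) (hU : IsOpen U) (s : Sec2 L P (k * K) (k * J) m U)
    (hs : s.Klt) {Kh : Set X} (hKh : IsCompact Kh) (hKU : Kh ⊆ U) :
    ∃ (I : Type) (_ : Fintype I) (ψ : I → OpenPartialHomeomorph X E) (C : I → Set E),
      (∀ p, ψ p ∈ Charts E X) ∧ (∀ p, IsCompact (C p)) ∧ (∀ p, C p ⊆ (ψ p).target) ∧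
      (∀ p, ∀ v ∈ C p, (ψ p).symm v ∈ U) ∧
      (∀ y ∈ Kh, ∃ p, y ∈ (ψ p).source ∧ ψ p y ∈ C p) ∧
      ∑ p, ∫⁻ v in C p, ENNReal.ofReal (dens h s (ψ p) ((ψ p).symm v)) ^ (-(2 : ℝ) / m) < ⊤ := by
  choose! C hC1 hC2 hC3 hC4 hC5 using fun (y : X) (hy : y ∈ U) => sumint_piece h hU s hs hy
  have hnb : ∀ y ∈ Kh, {x | x ∈ (chartAt E y).source ∧ chartAt E y x ∈ C y} ∈ 𝓝 y := by
    intro y hy
    filter_upwards [(chartAt E y).open_source.mem_nhds (mem_chart_source E y),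
      ((chartAt E y).continuousAt (mem_chart_source E y)).preimage_mem_nhds (hC4 y (hKU hy))]
      with x h1 h2
    exact ⟨h1, h2⟩
  obtain ⟨t, ht, hcov⟩ := hKh.elim_nhds_subcover _ hnb
  refine ⟨{x // x ∈ t}, inferInstance, fun p => chartAt E p.1, fun p => C p.1,
    fun p => IsManifold.chart_mem_maximalAtlas p.1, fun p => hC1 p.1 (hKU (ht p.1 p.2)),
    fun p => hC2 p.1 (hKU (ht p.1 p.2)), fun p => hC3 p.1 (hKU (ht p.1 p.2)), ?_, ?_⟩
  · intro y hy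
    obtain ⟨p, hp, hy2⟩ := mem_iUnion₂.1 (hcov hy)
    exact ⟨⟨p, hp⟩, hy2⟩
  · exact ENNReal.sum_lt_top.2 fun p _ => hC5 p.1 (hKU (ht p.1 p.2))

/-- One translate: change of variables.
Proof. `lintegral_chart_change` (TB/PChg) for the charts `pull A ha.inv φ` and `ψ` and
`Q = {w ∈ φ '' V : a (φ.symm w) ∈ ψ.source, ψ (a φ.symm w) ∈ C}`; `(pull A ha.inv φ).symm w =
a (φ.symm w)`; by `dens_chart` `dens ψ ^ (-2/m) * ‖jac ψ (pull φ)‖ ^ 2 = dens (pull φ) ^ (-2/m)`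
(exponent `m * (-2/m) = -2`, `jac ≠ 0`, `m ≥ 1`; `jac_mul_jac`-type cocycle or `dens_chart` in both
directions). `Q` is measurable: relatively closed in an open set. -/
theorem int_move (h : NormOn L P K J U) (hU : IsOpen U)
    (hinv : ∀ a, InT a → ∀ x ∈ U, A.act a x ∈ U) (hm : 1 ≤ m)
    (s : Sec2 L P (k * K) (k * J) m U) {a : Fin r → ℂ} (ha : InT a)
    {φ ψ : OpenPartialHomeomorph X E} (hφ : φ ∈ Charts E X) (hψ : ψ ∈ Charts E X)
    {V : Set X} (hV : IsOpen V) (hVU : V ⊆ U) (hVφ : V ⊆ φ.source) {C : Set E}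
    (hC : IsCompact C) (hCψ : C ⊆ ψ.target) :
    ∫⁻ w in φ '' (V ∩ {x | A.act a x ∈ ψ.source ∧ ψ (A.act a x) ∈ C}),
        ENNReal.ofReal (dens h s (pull A ha.inv φ) (A.act a (φ.symm w))) ^ (-(2 : ℝ) / m) =
      ∫⁻ v in C ∩ {v | A.act a⁻¹ (ψ.symm v) ∈ V},
        ENNReal.ofReal (dens h s ψ (ψ.symm v)) ^ (-(2 : ℝ) / m) := by
  set φ' := pull A ha.inv φ with hφ'
  have hφ'm : φ' ∈ Charts E X := pull_mem A ha.inv hφ
  have hsymm : ∀ w, φ'.symm w = A.act a (φ.symm w) := by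
    intro w
    have h1 : φ'.symm w = A.act a⁻¹⁻¹ (φ.symm w) := rfl
    rw [h1, inv_inv]
  have htgt : φ'.target = φ.target := by
    simp [hφ', pull, actHomeo]
  have hsrc : ∀ y, y ∈ φ'.source ↔ A.act a⁻¹ y ∈ φ.source := fun y => mem_pull_source A ha.inv φ y
  set Q : Set E := φ '' (V ∩ {x | A.act a x ∈ ψ.source ∧ ψ (A.act a x) ∈ C}) with hQd
  -- the set in coordinates
  set O : Set E := φ.target ∩ φ.symm ⁻¹' (V ∩ (A.act a) ⁻¹' ψ.source) with hO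
  have hOo : IsOpen O := φ.symm.isOpen_inter_preimage
    (hV.inter (ψ.open_source.preimage (act_continuous A ha)))
  have hQO : Q = O ∩ (fun w => ψ (A.act a (φ.symm w))) ⁻¹' C := by
    ext w
    constructor
    · rintro ⟨x, ⟨hx, h1, h2⟩, rfl⟩
      have h3 := φ.left_inv (hVφ hx)
      refine ⟨⟨φ.map_source (hVφ hx), ?_⟩, ?_⟩
      · show φ.symm (φ x) ∈ V ∩ (A.act a) ⁻¹' ψ.source
        rw [h3]
        exact ⟨hx, h1⟩
      · show ψ (A.act a (φ.symm (φ x))) ∈ C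
        rw [h3]
        exact h2
    · rintro ⟨⟨h1, h2, h3⟩, h4⟩
      exact ⟨φ.symm w, ⟨h2, h3, h4⟩, φ.right_inv h1⟩
  have hcont : ContinuousOn (fun w => ψ (A.act a (φ.symm w))) O := by
    intro w hw
    have h1 : ContinuousAt φ.symm w := φ.symm.continuousAt hw.1
    have h2 : ContinuousAt (fun w => A.act a (φ.symm w)) w :=
      (act_continuous A ha).continuousAt.comp h1
    have h3 : ContinuousAt ψ (A.act a (φ.symm w)) := ψ.continuousAt hw.2.2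
    exact (ContinuousAt.comp (f := fun w => A.act a (φ.symm w)) (g := ψ) h3 h2).continuousWithinAt
  have hQm : MeasurableSet Q := by
    have h1 : IsOpen (O ∩ (fun w => ψ (A.act a (φ.symm w))) ⁻¹' Cᶜ) :=
      hcont.isOpen_inter_preimage hOo hC.isClosed.isOpen_compl
    have h2 : Q = O \ (O ∩ (fun w => ψ (A.act a (φ.symm w))) ⁻¹' Cᶜ) := by
      rw [hQO]
      ext w
      simp only [mem_inter_iff, mem_preimage, Set.mem_sdiff, mem_compl_iff, not_and, not_not]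
      constructor
      · rintro ⟨h1, h2⟩
        exact ⟨h1, fun _ => h2⟩
      · rintro ⟨h1, h2⟩
        exact ⟨h1, h2 h1⟩
    rw [h2]
    exact hOo.measurableSet.diff h1.measurableSet
  have hQt : Q ⊆ φ'.target := by
    rw [htgt, hQO]
    exact fun w hw => hw.1.1
  have hQs : ∀ z ∈ Q, φ'.symm z ∈ ψ.source := by
    intro z hz
    rw [hQO] at hz
    rw [hsymm]
    exact hz.1.2.2
  have himg : (fun z => ψ (φ'.symm z)) '' Q = C ∩ {v | A.act a⁻¹ (ψ.symm v) ∈ V} := by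
    ext v
    constructor
    · rintro ⟨w, hw, rfl⟩
      have hw' := hw
      rw [hQO] at hw'
      refine ⟨?_, ?_⟩
      · show ψ (φ'.symm w) ∈ C
        rw [hsymm]
        exact hw'.2
      · show A.act a⁻¹ (ψ.symm (ψ (φ'.symm w))) ∈ V
        rw [ψ.left_inv (hQs w hw), hsymm, act_inv_act A ha]
        exact hw'.1.2.1
    · rintro ⟨h1, h2⟩
      have h3 : v ∈ ψ.target := hCψ h1
      have h4 : A.act a (A.act a⁻¹ (ψ.symm v)) = ψ.symm v := act_act_inv A ha _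
      have h2' : A.act a⁻¹ (ψ.symm v) ∈ V := h2
      refine ⟨φ (A.act a⁻¹ (ψ.symm v)), ⟨A.act a⁻¹ (ψ.symm v), ⟨h2', ?_⟩, rfl⟩, ?_⟩
      · show A.act a (A.act a⁻¹ (ψ.symm v)) ∈ ψ.source ∧
          ψ (A.act a (A.act a⁻¹ (ψ.symm v))) ∈ C
        rw [h4, ψ.right_inv h3]
        exact ⟨ψ.map_target h3, h1⟩
      · show ψ (φ'.symm (φ (A.act a⁻¹ (ψ.symm v)))) = v
        rw [hsymm, φ.left_inv (hVφ h2'), h4, ψ.right_inv h3]
  rw [← himg, lintegral_chart_change hφ'm hψ hQm hQt hQs]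
  refine setLIntegral_congr_fun hQm ?_
  intro w hw
  have hw' := hw
  rw [hQO] at hw'
  have h1 := hQs w hw
  have h2 : φ'.symm w ∈ φ'.source := φ'.map_target (hQt hw)
  have h3 : φ'.symm w ∈ U := by
    rw [hsymm]
    exact hinv a ha _ (hVU hw'.1.2.1)
  show ENNReal.ofReal (dens h s φ' (A.act a (φ.symm w))) ^ (-(2 : ℝ) / m) =
    ‖jac ψ φ' (φ'.symm w)‖ₑ ^ 2 * ENNReal.ofReal (dens h s ψ (ψ.symm (ψ (φ'.symm w)))) ^
      (-(2 : ℝ) / m)
  rw [ψ.left_inv h1, dens_chart h s hψ hφ'm h3 h1 h2, ← hsymm]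
  have hj : jac ψ φ' (φ'.symm w) ≠ 0 := pnorm_jac_ne_zero hψ hφ'm h1 h2
  have hm0 : (m : ℝ) ≠ 0 := by
    have : 0 < m := by omega
    positivity
  have hj0 : ‖jac ψ φ' (φ'.symm w)‖ₑ ≠ 0 := by simpa using hj
  rw [ENNReal.ofReal_mul (by positivity), ENNReal.ofReal_pow (norm_nonneg _), ofReal_norm,
    ENNReal.mul_rpow_of_ne_top (ENNReal.pow_ne_top enorm_ne_top) ENNReal.ofReal_ne_top,
    ← mul_assoc]
  have e1 : (m : ℝ) * (-(2 : ℝ) / m) = -2 := by field_simp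
  have e3 : (‖jac ψ φ' (φ'.symm w)‖ₑ ^ m) ^ (-(2 : ℝ) / m) =
      ‖jac ψ φ' (φ'.symm w)‖ₑ ^ (-2 : ℝ) := by
    rw [← ENNReal.rpow_natCast, ← ENNReal.rpow_mul, e1]
  rw [e3]
  have e2 : ‖jac ψ φ' (φ'.symm w)‖ₑ ^ 2 * ‖jac ψ φ' (φ'.symm w)‖ₑ ^ (-2 : ℝ) = 1 := by
    rw [← ENNReal.rpow_natCast, ← ENNReal.rpow_add _ _ hj0 enorm_ne_top]
    norm_num
  rw [e2, one_mul]

/-- Superadditivity of the integral for finite sums (no measurability needed). -/
theorem sumint_finset_le {ι α : Type} [MeasurableSpace α] {μ : Measure α} (T : Finset ι)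
    (f : ι → α → ℝ≥0∞) : ∑ n ∈ T, ∫⁻ v, f n v ∂μ ≤ ∫⁻ v, ∑ n ∈ T, f n v ∂μ := by
  classical
  induction T using Finset.induction_on with
  | empty => simp
  | insert n T hn ih =>
    rw [Finset.sum_insert hn]
    calc _ ≤ ∫⁻ v, f n v ∂μ + ∫⁻ v, ∑ n ∈ T, f n v ∂μ := by gcongr
      _ ≤ ∫⁻ v, f n v + ∑ n ∈ T, f n v ∂μ := le_lintegral_add _ _
      _ = _ := by
        congr 1
        funext v
        rw [Finset.sum_insert hn]

/-- A family of sets of multiplicity at most `M`. -/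
theorem sumint_mult {ι α : Type} [MeasurableSpace α] {μ : Measure α} {C : Set α}
    {B : ι → Set α} (hB : ∀ n, MeasurableSet (B n)) (M : ℕ) (g : α → ℝ≥0∞)
    (hC : MeasurableSet C)
    (hM : ∀ v ∈ C, ∀ T : Finset ι, (∀ n ∈ T, v ∈ B n) → T.card ≤ M) :
    ∑' n, ∫⁻ v in C ∩ B n, g v ∂μ ≤ M * ∫⁻ v in C, g v ∂μ := by
  classical
  rw [ENNReal.tsum_eq_iSup_sum]
  refine iSup_le fun T => ?_
  have h1 : ∀ n ∈ T, ∫⁻ v in C ∩ B n, g v ∂μ = ∫⁻ v in C, (B n).indicator g v ∂μ := by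
    intro n _
    rw [setLIntegral_indicator (hB n), inter_comm]
  rw [Finset.sum_congr rfl h1]
  refine (sumint_finset_le T _).trans ?_
  rw [← lintegral_const_mul' _ _ (ENNReal.natCast_ne_top M)]
  refine setLIntegral_mono' hC fun v hv => ?_
  have h2 : ∑ n ∈ T, (B n).indicator g v = ∑ n ∈ T.filter (fun n => v ∈ B n), g v := by
    rw [Finset.sum_filter]
    refine Finset.sum_congr rfl fun n _ => ?_
    by_cases hn : v ∈ B n
    · rw [indicator_of_mem hn, if_pos hn]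
    · rw [indicator_of_notMem hn, if_neg hn]
  rw [h2, Finset.sum_const, nsmul_eq_mul]
  gcongr
  exact hM v hv _ fun n hn => (Finset.mem_filter.1 hn).2

theorem sumint_lat {r : ℕ} (n n0 : Fin r → ℤ) : (lat n)⁻¹ = lat (n0 - n) * (lat n0)⁻¹ := by
  funext c
  simp only [lat, Pi.inv_apply, Pi.mul_apply, Pi.sub_apply]
  rw [zpow_sub₀ two_ne_zero]
  have h1 : (2 : ℂ) ^ n c ≠ 0 := zpow_ne_zero _ two_ne_zero
  have h2 : (2 : ℂ) ^ n0 c ≠ 0 := zpow_ne_zero _ two_ne_zero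
  field_simp

/-- The sum over all translates by the discrete group is finite.

Proof. Take the pieces of `exists_pieces`. For `n ∈ D = {n : supported on S'}`:
`V ∩ {lat n x ∈ Kh} ⊆ ⋃_p V ∩ {lat n x ∈ ψ p .source, ψ p (lat n x) ∈ C p}`, so by `int_move` the
`n`-th term is at most `∑_p ∫_{C p ∩ {v : (lat n)⁻¹ (ψ p .symm v) ∈ V}} dens ^ (-2/m)`. Sum over `n`
(`lintegral_tsum`): for fixed `v` the number of `n ∈ D` with `(lat n)⁻¹ y ∈ V` is at most the number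
`M` of elements of the finite set `F = {n ∈ D : ∃ x ∈ V, lat n x ∈ V}` (fix one such `n0`; the others
give `n0 - n ∈ F`, as `(lat n)⁻¹ y = lat (n0 - n) ((lat n0)⁻¹ y)`). Total `≤ M ∑_p ∫_{C p} … < ⊤`. -/
theorem sum_int_lt_top (h : NormOn L P K J U) (hU : IsOpen U)
    (hinv : ∀ a, InT a → ∀ x ∈ U, A.act a x ∈ U) (hm : 1 ≤ m)
    (s : Sec2 L P (k * K) (k * J) m U) (hs : s.Klt) {Kh : Set X} (hKh : IsCompact Kh)
    (hKU : Kh ⊆ U) (S' : Finset (Fin r)) {φ : OpenPartialHomeomorph X E} (hφ : φ ∈ Charts E X)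
    {V : Set X} (hV : IsOpen V) (hVU : V ⊆ U) (hVφ : V ⊆ φ.source)
    (hF : {n : Fin r → ℤ | (∀ c, c ∉ S' → n c = 0) ∧ ∃ x ∈ V, A.act (lat n) x ∈ V}.Finite) :
    ∑' n : {n : Fin r → ℤ // ∀ c, c ∉ S' → n c = 0},
      ∫⁻ w in φ '' (V ∩ {x | A.act (lat n.1) x ∈ Kh}),
        ENNReal.ofReal (dens h s (pull A (lat_inT n.1).inv φ)
          (A.act (lat n.1) (φ.symm w))) ^ (-(2 : ℝ) / m) < ⊤ := by
  classical
  obtain ⟨I, hI, ψ, C, hψ, hC, hCψ, hCU, hcov, hfin⟩ := exists_pieces h hU s hs hKh hKU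
  set D := {n : Fin r → ℤ // ∀ c, c ∉ S' → n c = 0} with hD
  set M : ℕ := hF.toFinset.card with hMd
  -- the n-th term
  have h1 : ∀ n : D, ∫⁻ w in φ '' (V ∩ {x | A.act (lat n.1) x ∈ Kh}),
      ENNReal.ofReal (dens h s (pull A (lat_inT n.1).inv φ)
        (A.act (lat n.1) (φ.symm w))) ^ (-(2 : ℝ) / m) ≤
      ∑' p : I, ∫⁻ v in C p ∩ ((ψ p).target ∩ (ψ p).symm ⁻¹' ((A.act (lat n.1)⁻¹) ⁻¹' V)),
        ENNReal.ofReal (dens h s (ψ p) ((ψ p).symm v)) ^ (-(2 : ℝ) / m) := by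
    intro n
    have h2 : φ '' (V ∩ {x | A.act (lat n.1) x ∈ Kh}) ⊆
        ⋃ p, φ '' (V ∩ {x | A.act (lat n.1) x ∈ (ψ p).source ∧
          ψ p (A.act (lat n.1) x) ∈ C p}) := by
      rintro w ⟨x, ⟨hx, hx2⟩, rfl⟩
      obtain ⟨p, hp1, hp2⟩ := hcov _ hx2
      exact mem_iUnion.2 ⟨p, x, ⟨hx, hp1, hp2⟩, rfl⟩
    refine (lintegral_mono_set h2).trans ((lintegral_iUnion_le _ _).trans ?_)
    refine ENNReal.tsum_le_tsum fun p => ?_
    rw [int_move h hU hinv hm s (lat_inT n.1) hφ (hψ p) hV hVU hVφ (hC p) (hCψ p)]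
    refine lintegral_mono_set ?_
    rintro v ⟨hv1, hv2⟩
    exact ⟨hv1, hCψ p hv1, hv2⟩
  have hmult : ∀ p : I, ∑' n : D,
      ∫⁻ v in C p ∩ ((ψ p).target ∩ (ψ p).symm ⁻¹' ((A.act (lat n.1)⁻¹) ⁻¹' V)),
        ENNReal.ofReal (dens h s (ψ p) ((ψ p).symm v)) ^ (-(2 : ℝ) / m) ≤
      M * ∫⁻ v in C p, ENNReal.ofReal (dens h s (ψ p) ((ψ p).symm v)) ^ (-(2 : ℝ) / m) := by
    intro p
    refine sumint_mult (fun n => ?_) M _ (hC p).measurableSet ?_
    · exact ((ψ p).symm.isOpen_inter_preimage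
        (hV.preimage (act_continuous A (lat_inT n.1).inv))).measurableSet
    · intro v hv T hT
      rcases T.eq_empty_or_nonempty with h0 | ⟨n0, hn0⟩
      · simp [h0]
      · rw [hMd]
        refine Finset.card_le_card_of_injOn (fun n : D => n0.1 - n.1) ?_ ?_
        · intro n hn
          have e0 : A.act (lat n0.1)⁻¹ ((ψ p).symm v) ∈ V := (hT n0 hn0).2
          have e1 : A.act (lat n.1)⁻¹ ((ψ p).symm v) ∈ V := (hT n hn).2
          simp only [Finset.mem_coe, Finite.mem_toFinset, mem_ofPred_eq]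
          refine ⟨fun c hc => ?_, A.act (lat n0.1)⁻¹ ((ψ p).symm v), e0, ?_⟩
          · rw [Pi.sub_apply, n0.2 c hc, n.2 c hc, sub_zero]
          · rw [← A.mul _ _ (lat_inT _) (lat_inT n0.1).inv, ← sumint_lat]
            exact e1
        · intro n _ n' _ hnn
          have e2 : n0.1 - n.1 = n0.1 - n'.1 := hnn
          exact Subtype.ext (sub_right_injective e2)
  calc _ ≤ ∑' n : D, ∑' p : I,
        ∫⁻ v in C p ∩ ((ψ p).target ∩ (ψ p).symm ⁻¹' ((A.act (lat n.1)⁻¹) ⁻¹' V)),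
        ENNReal.ofReal (dens h s (ψ p) ((ψ p).symm v)) ^ (-(2 : ℝ) / m) :=
        ENNReal.tsum_le_tsum h1
    _ = ∑' p : I, ∑' n : D,
        ∫⁻ v in C p ∩ ((ψ p).target ∩ (ψ p).symm ⁻¹' ((A.act (lat n.1)⁻¹) ⁻¹' V)),
        ENNReal.ofReal (dens h s (ψ p) ((ψ p).symm v)) ^ (-(2 : ℝ) / m) := ENNReal.tsum_comm
    _ ≤ ∑' p : I, M * ∫⁻ v in C p,
        ENNReal.ofReal (dens h s (ψ p) ((ψ p).symm v)) ^ (-(2 : ℝ) / m) :=
        ENNReal.tsum_le_tsum hmult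
    _ = M * ∑ p : I, ∫⁻ v in C p,
        ENNReal.ofReal (dens h s (ψ p) ((ψ p).symm v)) ^ (-(2 : ℝ) / m) := by
        rw [ENNReal.tsum_mul_left, tsum_fintype]
    _ < ⊤ := ENNReal.mul_lt_top (ENNReal.natCast_lt_top M) hfin

end Pool.Agent.Abd
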